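import Pool.Agent.SYS.LO.Defs

/-!
# SYS-LO-PatB: the number of patterns is exponential

PLAN.  Fix `N ≥ 1`, `c ≤ 2` (for `N = 0` there is no pattern).
* `swn`: for a fixed function `lv` such that every value is taken at most `5` times on `{0, .., N - 1}` and for `j ≤ N`: the set `{sw | SwOk lv j c sw}` is finite and has at most `2250 ^ j * (225 * N ^ 2) ^ c * 2 ^ (j + c)` elements.  Induction on `j + c`: the last swap is `mrg`
  (`i < j`, `lv i ∈ {lv j, lv j - 1}`: at most `10` values of `i`; `k, k' < 15`: `10 * 225 = 2250` possibilities times the number for `(j - 1, c)`) or `cls` (at most `(15 N)^2 = 225 N²` possibilities times the number for `(j, c - 1)`); `nil` for `j = 1`, `c = 0`.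
* Every value is taken at most `5` times: on `{0, .., N - 1}` cut at the at most `4` places `i` with `lv (i + 1) ≠ lv i + 1` there are at most `5` intervals and `lv` is strictly increasing on each of them.  (Or: map `i` with `lv i = v` to the number of jumps `≤ i`: injective into
  `{0, .., 4}`, because between two places with the same value there is a jump.)
* Only the restriction of `lv` to `{0, .., N - 1}` matters (`SwOk` uses `lv i` for `i < N` only); it is determined by `lv 0 ≤ N`, the set of the jumps (a subset of `{0, .., N - 2}`), and the values `lv (i + 1) ≤ N` at the jumps: at most `(N + 1)^5 * 2^N` restrictions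
  (or bound it by: `lv` is determined by a set of at most `4` jumps with values: functions from `Fin 5` to `(N + 1) × (N + 1)`: `(N + 1)^10`).
* `bs`: `2^N`, `es`: lists of length `N` with entries `< 15`: `15^N`.  The pattern is determined by `bs`, `es`, `sw`.
* Total: `≤ 2^N * 15^N * (N + 1)^10 * 2250^N * (225 N²)^2 * 2^(N + 2)`, and `N + 1 ≤ 2^N`, `225 ≤ 225^N`, so `C0 = 2 * 15 * 2^10 * 2250 * 225^2 * 2^4 * 8` works (any constant is fine).
Finite sets of lists: `List.finite_length_eq`, `Set.Finite.subset`, or count with `Finset`s of vectors (`Fin N → ..`); injection of the set of patterns into a finite product, `Set.ncard_le_ncard_of_injOn`, `Set.ncard_iUnion_le` style bounds.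
-/

namespace SYS.LO

section count

/-- possible partners -/
private def cand (lv : ℕ → ℕ) (j : ℕ) : Finset ℕ :=
  (Finset.range j).filter fun i => lv i = lv j ∨ lv i + 1 = lv j

private def mrgF (lv : ℕ → ℕ) (j : ℕ) (S : Finset (List ((ℕ × ℕ) × (ℕ × ℕ)))) :
    Finset (List ((ℕ × ℕ) × (ℕ × ℕ))) :=
  (S ×ˢ (cand lv j ×ˢ (Finset.range 15 ×ˢ Finset.range 15))).image
    fun z => ((z.2.1, z.2.2.1), (j, z.2.2.2)) :: z.1

private def clsF (N : ℕ) (S : Finset (List ((ℕ × ℕ) × (ℕ × ℕ)))) :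
    Finset (List ((ℕ × ℕ) × (ℕ × ℕ))) :=
  (S ×ˢ ((Finset.range N ×ˢ Finset.range N) ×ˢ (Finset.range 15 ×ˢ Finset.range 15))).image
    fun z => ((z.2.1.1, z.2.2.1), (z.2.1.2, z.2.2.2)) :: z.1

private def GF (N : ℕ) (lv : ℕ → ℕ) : ℕ → ℕ → Finset (List ((ℕ × ℕ) × (ℕ × ℕ)))
  | 0, 0 => {[]}
  | m + 1, 0 => mrgF lv (m + 1) (GF N lv m 0)
  | 0, c + 1 => clsF N (GF N lv 0 c)
  | m + 1, c + 1 => mrgF lv (m + 1) (GF N lv m (c + 1)) ∪ clsF N (GF N lv (m + 1) c)
  termination_by m c => m + c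

private theorem GF_mrg (N : ℕ) (lv : ℕ → ℕ) (m c : ℕ) : mrgF lv (m + 1) (GF N lv m c) ⊆ GF N lv (m + 1) c := by
  cases c with
  | zero =>
    rw [GF.eq_2]
  | succ c =>
    rw [GF.eq_4]
    exact Finset.subset_union_left

private theorem GF_cls (N : ℕ) (lv : ℕ → ℕ) (m c : ℕ) : clsF N (GF N lv m c) ⊆ GF N lv m (c + 1) := by
  cases m with
  | zero =>
    rw [GF.eq_3]
  | succ m =>
    rw [GF.eq_4]
    exact Finset.subset_union_right

private theorem mem_GF {N : ℕ} {lv : ℕ → ℕ} {j c : ℕ} {sw : List ((ℕ × ℕ) × (ℕ × ℕ))} (h : SwOk lv j c sw) :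
    1 ≤ j ∧ (j ≤ N → sw ∈ GF N lv (j - 1) c) := by
  induction h with
  | nil =>
    refine ⟨le_rfl, fun _ => ?_⟩
    rw [Nat.sub_self, GF.eq_1]
    exact Finset.mem_singleton_self _
  | @mrg j c i k k' sw h hi hl hk hk' ih =>
    refine ⟨by omega, fun hj => ?_⟩
    obtain ⟨h1, h2⟩ := ih
    obtain ⟨m, rfl⟩ : ∃ m, j = m + 1 := ⟨j - 1, by omega⟩
    rw [Nat.add_sub_cancel]
    apply GF_mrg
    rw [mrgF, Finset.mem_image]
    refine ⟨(sw, (i, (k, k'))), ?_, rfl⟩
    rw [Finset.mem_product, Finset.mem_product, Finset.mem_product, cand, Finset.mem_filter]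
    have h3 := h2 (by omega)
    rw [Nat.add_sub_cancel] at h3
    exact ⟨h3, ⟨Finset.mem_range.2 hi, hl⟩, Finset.mem_range.2 hk, Finset.mem_range.2 hk'⟩
  | @cls j c i i' k k' sw h hi hi' hk hk' ih =>
    refine ⟨ih.1, fun hj => ?_⟩
    apply GF_cls
    rw [clsF, Finset.mem_image]
    refine ⟨(sw, ((i, i'), (k, k'))), ?_, rfl⟩
    rw [Finset.mem_product, Finset.mem_product, Finset.mem_product, Finset.mem_product]
    exact ⟨ih.2 hj, ⟨Finset.mem_range.2 (lt_of_lt_of_le hi hj), Finset.mem_range.2 (lt_of_lt_of_le hi' hj)⟩,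
      Finset.mem_range.2 hk, Finset.mem_range.2 hk'⟩

private theorem card_mrgF (lv : ℕ → ℕ) (j : ℕ) (S : Finset (List ((ℕ × ℕ) × (ℕ × ℕ)))) (h : (cand lv j).card ≤ 10) :
    (mrgF lv j S).card ≤ S.card * 2250 := by
  refine Finset.card_image_le.trans ?_
  rw [Finset.card_product, Finset.card_product, Finset.card_product, Finset.card_range]
  exact Nat.mul_le_mul_left _ (Nat.mul_le_mul_right (15 * 15) h)

private theorem card_clsF (N : ℕ) (S : Finset (List ((ℕ × ℕ) × (ℕ × ℕ)))) :
    (clsF N S).card ≤ S.card * (225 * N ^ 2) := by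
  refine Finset.card_image_le.trans (le_of_eq ?_)
  rw [Finset.card_product, Finset.card_product, Finset.card_product, Finset.card_product, Finset.card_range, Finset.card_range]
  ring

private theorem card_GF {N : ℕ} {lv : ℕ → ℕ} (hc : ∀ j, j < N → (cand lv j).card ≤ 10) :
    ∀ m c : ℕ, m < N → (GF N lv m c).card ≤ 2250 ^ m * (225 * N ^ 2) ^ c * 2 ^ (m + c)
  | 0, 0, _ => by
    rw [GF.eq_1]
    simp
  | m + 1, 0, h => by
    rw [GF.eq_2]
    refine (card_mrgF lv (m + 1) _ (hc _ h)).trans ?_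
    refine (Nat.mul_le_mul_right _ (card_GF hc m 0 (by omega))).trans ?_
    have : 2250 ^ (m + 1) * (225 * N ^ 2) ^ 0 * 2 ^ (m + 1 + 0) = 2 * (2250 ^ m * (225 * N ^ 2) ^ 0 * 2 ^ (m + 0) * 2250) := by
      ring
    rw [this]
    omega
  | 0, c + 1, h => by
    rw [GF.eq_3]
    refine (card_clsF N _).trans ?_
    refine (Nat.mul_le_mul_right _ (card_GF hc 0 c h)).trans ?_
    have : 2250 ^ 0 * (225 * N ^ 2) ^ (c + 1) * 2 ^ (0 + (c + 1)) = 2 * (2250 ^ 0 * (225 * N ^ 2) ^ c * 2 ^ (0 + c) * (225 * N ^ 2)) := by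
      ring
    rw [this]
    omega
  | m + 1, c + 1, h => by
    rw [GF.eq_4]
    refine (Finset.card_union_le _ _).trans ?_
    have h1 := (card_mrgF lv (m + 1) (GF N lv m (c + 1)) (hc _ h)).trans
      (Nat.mul_le_mul_right _ (card_GF hc m (c + 1) (by omega)))
    have h2 := (card_clsF N (GF N lv (m + 1) c)).trans
      (Nat.mul_le_mul_right _ (card_GF hc (m + 1) c h))
    refine (add_le_add h1 h2).trans (le_of_eq ?_)
    ring
  termination_by m c => m + c

private theorem occ {lv : ℕ → ℕ} {N : ℕ} {J : Finset ℕ} (hJ : ∀ i, i + 1 < N → lv (i + 1) ≠ lv i + 1 → i ∈ J) (v : ℕ) :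
    ((Finset.range N).filter fun i => lv i = v).card ≤ J.card + 1 := by
  have hstep : ∀ i i' : ℕ, i < i' → i' < N → lv i = lv i' → (J.filter (· < i)).card < (J.filter (· < i')).card := by
    intro i i' hi hi' he
    have hex : ∃ j ∈ J, i ≤ j ∧ j < i' := by
      by_contra hcon
      push Not at hcon
      have h1 : ∀ k : ℕ, i + k ≤ i' → lv (i + k) = lv i + k := by
        intro k
        induction k with
        | zero => intro _; rfl
        | succ k ih =>
          intro hk
          have h2 := ih (by omega)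
          by_contra h3
          have h4 : i + k ∈ J := by
            apply hJ (i + k) (by omega)
            intro h5
            apply h3
            rw [← add_assoc, h5, h2]
            rfl
          have h5 := hcon (i + k) h4 (by omega)
          omega
      have h2 := h1 (i' - i) (by omega)
      rw [show i + (i' - i) = i' by omega] at h2
      omega
    obtain ⟨j, hj, h1, h2⟩ := hex
    apply Finset.card_lt_card
    rw [Finset.ssubset_iff_of_subset]
    · exact ⟨j, Finset.mem_filter.2 ⟨hj, h2⟩, fun h => by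
        have := (Finset.mem_filter.1 h).2
        omega⟩
    · intro a ha
      rw [Finset.mem_filter] at ha ⊢
      exact ⟨ha.1, by omega⟩
  have h := Finset.card_le_card_of_injOn (s := (Finset.range N).filter fun i => lv i = v) (t := Finset.range (J.card + 1))
    (fun i => (J.filter (· < i)).card) (by
      intro i _
      rw [Finset.mem_coe, Finset.mem_range]
      exact Nat.lt_succ_of_le (Finset.card_filter_le _ _)) (by
      intro i hi i' hi' he
      rw [Finset.mem_coe, Finset.mem_filter, Finset.mem_range] at hi hi'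
      simp only at he
      rcases lt_trichotomy i i' with h | h | h
      · have := hstep i i' h hi'.1 (hi.2.trans hi'.2.symm)
        omega
      · exact h
      · have := hstep i' i h hi.1 (hi'.2.trans hi.2.symm)
        omega)
  rwa [Finset.card_range] at h

private theorem cand_card {lv : ℕ → ℕ} {N : ℕ} {J : Finset ℕ} (hJ : ∀ i, i + 1 < N → lv (i + 1) ≠ lv i + 1 → i ∈ J)
    (hJ4 : J.card ≤ 4) {j : ℕ} (hj : j < N) : (cand lv j).card ≤ 10 := by
  have h1 : cand lv j ⊆ ((Finset.range N).filter fun i => lv i = lv j) ∪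
      ((Finset.range N).filter fun i => lv i = lv j - 1) := by
    intro i hi
    rw [cand, Finset.mem_filter, Finset.mem_range] at hi
    rw [Finset.mem_union, Finset.mem_filter, Finset.mem_filter, Finset.mem_range]
    rcases hi.2 with h | h
    · exact Or.inl ⟨by omega, h⟩
    · exact Or.inr ⟨by omega, by omega⟩
  have h2 := (Finset.card_le_card h1).trans (Finset.card_union_le _ _)
  have h3 := occ hJ (lv j)
  have h4 := occ hJ (lv j - 1)
  omega

open Classical in
/-- the levels determined by the places and values of the jumps -/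
private noncomputable def lvD {N : ℕ} (a : ℕ) (p v : Fin 4 → Fin (N + 1)) : ℕ → ℕ
  | 0 => a
  | i + 1 => if h : ∃ t, (p t : ℕ) = i then (v h.choose : ℕ) else lvD a p v i + 1

private theorem lvD_jump {N : ℕ} (a : ℕ) (p v : Fin 4 → Fin (N + 1)) (i : ℕ)
    (h : lvD a p v (i + 1) ≠ lvD a p v i + 1) : i ∈ Finset.univ.image fun t => (p t : ℕ) := by
  by_contra hcon
  apply h
  have h1 : ¬ ∃ t, (p t : ℕ) = i := by
    rintro ⟨t, ht⟩
    exact hcon (Finset.mem_image.2 ⟨t, Finset.mem_univ _, ht⟩)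
  rw [lvD, dif_neg h1]

private theorem lvD_ex {lv : ℕ → ℕ} {N : ℕ} (hj : {i | i + 1 < N ∧ lv (i + 1) ≠ lv i + 1}.ncard ≤ 4)
    (hle : ∀ i, lv i ≤ N) : ∃ (a : Fin (N + 1)) (p v : Fin 4 → Fin (N + 1)), ∀ i < N, lvD (a : ℕ) p v i = lv i := by
  have hfin : {i | i + 1 < N ∧ lv (i + 1) ≠ lv i + 1}.Finite :=
    (Set.finite_lt_nat N).subset fun i hi => by
      have := hi.1
      change i < N
      omega
  obtain ⟨Jf, hJf⟩ := hfin.exists_finset_coe
  rw [← hJf, Set.ncard_coe_finset] at hj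
  have hJm : ∀ i, i + 1 < N → lv (i + 1) ≠ lv i + 1 → i ∈ Jf := by
    intro i h1 h2
    rw [← Finset.mem_coe, hJf]
    exact ⟨h1, h2⟩
  obtain ⟨p, hp⟩ : ∃ p : Fin 4 → Fin (N + 1), ∀ t, p t = ⟨Jf.toList.getD t 0 % (N + 1), Nat.mod_lt _ (Nat.succ_pos N)⟩ :=
    ⟨_, fun _ => rfl⟩
  refine ⟨⟨lv 0, Nat.lt_succ_of_le (hle 0)⟩, p, fun t => ⟨lv (p t + 1), Nat.lt_succ_of_le (hle _)⟩, ?_⟩
  intro i
  induction i with
  | zero => intro _; rfl
  | succ i ih =>
    intro hi
    rw [lvD]
    by_cases h : ∃ t, (p t : ℕ) = i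
    · rw [dif_pos h]
      change lv (p h.choose + 1) = lv (i + 1)
      rw [h.choose_spec]
    · rw [dif_neg h, ih (by omega)]
      by_contra hne
      have h1 := hJm i hi (fun h' => hne h'.symm)
      rw [← Finset.mem_toList] at h1
      obtain ⟨t, ht, h2⟩ := List.mem_iff_getElem.1 h1
      rw [Finset.length_toList] at ht
      apply h
      refine ⟨⟨t, by omega⟩, ?_⟩
      rw [hp]
      change Jf.toList.getD t 0 % (N + 1) = i
      rw [List.getD_eq_getElem _ _ (by rw [Finset.length_toList]; exact ht), h2]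
      exact Nat.mod_eq_of_lt (by omega)

private theorem SwOk_congr {lv lv' : ℕ → ℕ} {j c : ℕ} {sw : List ((ℕ × ℕ) × (ℕ × ℕ))} (h : SwOk lv j c sw)
    (he : ∀ i < j, lv' i = lv i) : SwOk lv' j c sw := by
  induction h with
  | nil => exact SwOk.nil
  | @mrg j c i k k' sw h hi hl hk hk' ih =>
    refine SwOk.mrg (ih fun i hi => he i (by omega)) hi ?_ hk hk'
    rw [he i (by omega), he j (by omega)]
    exact hl
  | @cls j c i i' k k' sw h hi hi' hk hk' ih =>
    exact SwOk.cls (ih he) hi hi' hk hk'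

private theorem list_mem_ofFn {α : Type} [DecidableEq α] {N : ℕ} {l : List α} (h : l.length = N) :
    ∃ f : Fin N → α, List.ofFn f = l := by
  subst h
  exact ⟨fun i => l.get i, List.ofFn_get l⟩

end count

theorem pat_count : ∃ C0 : ℕ, 1 ≤ C0 ∧ ∀ N K c : ℕ, c ≤ 2 → {π | PatOk N K c π}.Finite ∧ {π | PatOk N K c π}.ncard ≤ C0 ^ N := by
  classical
  refine ⟨2 * (15 * (512 * (2250 * 810000 * 4))), by norm_num, fun N K c hc => ?_⟩
  rcases Nat.eq_zero_or_pos N with rfl | hN
  · have h0 : {π | PatOk 0 K c π} = ∅ := by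
      ext π
      simp only [Set.mem_ofPred_eq, Set.mem_empty_iff_false, iff_false]
      intro h
      have := h.hN
      omega
    rw [h0]
    simp
  obtain ⟨A, hA⟩ : ∃ A : Finset (List Bool), A = Finset.univ.image (fun f : Fin N → Bool => List.ofFn f) := ⟨_, rfl⟩
  obtain ⟨B, hB⟩ : ∃ B : Finset (List ℕ), B = Finset.univ.image (fun f : Fin N → Fin 15 => List.ofFn fun i => (f i : ℕ)) :=
    ⟨_, rfl⟩
  obtain ⟨C, hC⟩ : ∃ C : Finset (List ((ℕ × ℕ) × (ℕ × ℕ))), C =
      (Finset.univ : Finset (Fin (N + 1) × (Fin 4 → Fin (N + 1)) × (Fin 4 → Fin (N + 1)))).biUnion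
        fun δ => GF N (lvD (δ.1 : ℕ) δ.2.1 δ.2.2) (N - 1) c := ⟨_, rfl⟩
  have hsub : {π | PatOk N K c π} ⊆ ((A ×ˢ (B ×ˢ C)).image fun z => Pat.mk z.1 z.2.1 z.2.2 : Finset Pat) := by
    intro π hπ
    rw [Finset.mem_coe, Finset.mem_image]
    refine ⟨(π.bs, π.es, π.sw), ?_, rfl⟩
    rw [Finset.mem_product, Finset.mem_product]
    refine ⟨?_, ?_, ?_⟩
    · obtain ⟨f, hf⟩ := list_mem_ofFn hπ.lb
      rw [hA, Finset.mem_image]
      exact ⟨f, Finset.mem_univ _, hf⟩
    · obtain ⟨f, hf⟩ := list_mem_ofFn hπ.le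
      rw [hB, Finset.mem_image]
      have hf15 : ∀ i, f i < 15 := by
        intro i
        apply hπ.e_le
        rw [← hf]
        exact (List.mem_ofFn' f (f i)).2 ⟨i, rfl⟩
      exact ⟨fun i => ⟨f i, hf15 i⟩, Finset.mem_univ _, hf⟩
    · obtain ⟨lv, h1, h2, h3⟩ := hπ.sw
      obtain ⟨a, p, v, h4⟩ := lvD_ex h1 h2
      rw [hC, Finset.mem_biUnion]
      refine ⟨(a, p, v), Finset.mem_univ _, ?_⟩
      exact (mem_GF (N := N) (SwOk_congr h3 h4)).2 le_rfl
  have hfin : {π | PatOk N K c π}.Finite := (Finset.finite_toSet _).subset hsub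
  refine ⟨hfin, ?_⟩
  have hcard : {π | PatOk N K c π}.ncard ≤ A.card * (B.card * C.card) := by
    have h1 := Set.ncard_le_ncard hsub (Finset.finite_toSet _)
    rw [Set.ncard_coe_finset] at h1
    refine h1.trans (Finset.card_image_le.trans (le_of_eq ?_))
    rw [Finset.card_product, Finset.card_product]
  have hAc : A.card ≤ 2 ^ N := by
    rw [hA]
    refine Finset.card_image_le.trans (le_of_eq ?_)
    simp
  have hBc : B.card ≤ 15 ^ N := by
    rw [hB]
    refine Finset.card_image_le.trans (le_of_eq ?_)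
    simp
  have hCc : C.card ≤ (N + 1) * ((N + 1) ^ 4 * (N + 1) ^ 4) * (2250 ^ (N - 1) * (225 * N ^ 2) ^ c * 2 ^ (N - 1 + c)) := by
    rw [hC]
    refine (Finset.card_biUnion_le_card_mul _ _ (2250 ^ (N - 1) * (225 * N ^ 2) ^ c * 2 ^ (N - 1 + c)) ?_).trans
      (le_of_eq ?_)
    · intro δ _
      apply card_GF _ _ _ (by omega)
      intro j hj
      refine cand_card (J := Finset.univ.image fun t => (δ.2.1 t : ℕ)) (fun i _ h => lvD_jump _ _ _ i h) ?_ hj
      exact Finset.card_image_le.trans (by simp)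
    · congr 1
      rw [Finset.card_univ, Fintype.card_prod, Fintype.card_prod, Fintype.card_fin, Fintype.card_fun, Fintype.card_fin,
        Fintype.card_fin]
  refine hcard.trans ?_
  have e1 : N + 1 ≤ 2 ^ N := Nat.lt_two_pow_self
  have e2 : (N + 1) * ((N + 1) ^ 4 * (N + 1) ^ 4) ≤ 512 ^ N := by
    calc (N + 1) * ((N + 1) ^ 4 * (N + 1) ^ 4) = (N + 1) ^ 9 := by ring
      _ ≤ (2 ^ N) ^ 9 := Nat.pow_le_pow_left e1 9
      _ = (2 ^ 9) ^ N := by rw [← pow_mul, ← pow_mul, mul_comm]
      _ = 512 ^ N := by norm_num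
  have e3 : 2250 ^ (N - 1) ≤ 2250 ^ N := Nat.pow_le_pow_right (by norm_num) (Nat.sub_le _ _)
  have e4 : (225 * N ^ 2) ^ c ≤ 810000 ^ N := by
    have h1 : 225 * N ^ 2 ≤ 900 ^ N := by
      calc 225 * N ^ 2 ≤ 225 ^ N * (2 ^ N) ^ 2 := Nat.mul_le_mul (Nat.le_self_pow (by omega) 225)
            (Nat.pow_le_pow_left (by omega) 2)
        _ = (225 * 2 ^ 2) ^ N := by rw [mul_pow, ← pow_mul, ← pow_mul, mul_comm N 2]
        _ = 900 ^ N := by norm_num
    calc (225 * N ^ 2) ^ c ≤ (900 ^ N) ^ c := Nat.pow_le_pow_left h1 c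
      _ ≤ (900 ^ N) ^ 2 := Nat.pow_le_pow_right (by positivity) hc
      _ = (900 ^ 2) ^ N := by rw [← pow_mul, ← pow_mul, mul_comm]
      _ = 810000 ^ N := by norm_num
  have e5 : 2 ^ (N - 1 + c) ≤ 4 ^ N := by
    calc 2 ^ (N - 1 + c) ≤ 2 ^ (2 * N) := Nat.pow_le_pow_right (by norm_num) (by omega)
      _ = (2 ^ 2) ^ N := pow_mul _ _ _
      _ = 4 ^ N := by norm_num
  have e6 : C.card ≤ 512 ^ N * (2250 ^ N * 810000 ^ N * 4 ^ N) :=
    hCc.trans (Nat.mul_le_mul e2 (Nat.mul_le_mul (Nat.mul_le_mul e3 e4) e5))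
  calc A.card * (B.card * C.card) ≤ 2 ^ N * (15 ^ N * (512 ^ N * (2250 ^ N * 810000 ^ N * 4 ^ N))) :=
        Nat.mul_le_mul hAc (Nat.mul_le_mul hBc e6)
    _ = (2 * (15 * (512 * (2250 * 810000 * 4)))) ^ N := by
        simp only [mul_pow]

theorem sw_len {lv : ℕ → ℕ} {j c : ℕ} {sw : List ((ℕ × ℕ) × (ℕ × ℕ))} (h : SwOk lv j c sw) : sw.length + 1 = j + c := by
  induction h with
  | nil => rfl
  | mrg h hi hl hk hk' ih =>
    rw [List.length_cons]
    omega
  | cls h hi hi' hk hk' ih =>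
    rw [List.length_cons]
    omega

end SYS.LO
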