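import Pool.Agent.SYS.LO.DetL
import Pool.Agent.SYS.LO.PatB

/-!
# SYS-LO-FinB: union bound over the patterns

PLAN.
* `patOk_mono`: only `balls` depends on `K`.
* `union_le`: every `T` in the set has by `detL` numbers `K ≤ Kf`, `N ≤ 1 + 4 (6 K + ..) ≤ N0`, `c ∈ {0, 1, 2}` and a pattern `π` with `PatOk N K c π`, so `PatOk N Kf c π` (`patOk_mono`), and `T` is in one of the sets `{T ∈ Trn | Ev (m - 1) π (Z_c B) T}`.  The set is contained in the union over `c < 3`, `N ≤ N0`, `π ∈ {π | PatOk N Kf c π}` (finite,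
  at most `C0 ^ N ≤ C0 ^ N0` elements: `hC0`, `1 ≤ C0`) of these sets, each with at most `X` elements (`Finset.card_biUnion_le` or `Set.ncard_iUnion_le` over finite index sets, triangulations form a finite type).  Total `≤ 3 (N0 + 1) C0^N0 X`.
* `bad_markov`: copy the private lemma `low_markov` of `LA/T1L` and pass from darts to vertices (`{v | ..} ⊆ T.tl '' BadD T L`, as in `lowCfg_of` there).
-/

namespace SYS.LO

open Classical SST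

theorem patOk_mono {N K K' c : ℕ} {π : Pat} (h : PatOk N K c π) (hK : K ≤ K') : PatOk N K' c π :=
  ⟨h.lb, h.le, h.hN, h.balls.trans hK, h.e_le, h.exc, h.sw⟩

/-- the event number `c` -/
private def Yev (n g m : ℕ) (B : ℝ) (c : ℕ) (π : Pat) : Set (Tri (Fin (6 * n))) :=
  {T | T ∈ Trn n g ∧ ((c = 0 ∧ Ev (m - 1) π (Z0 B) T) ∨ (c = 1 ∧ Ev (m - 1) π (Z1 B) T) ∨
    (c = 2 ∧ Ev (m - 1) π (Z2 B) T))}

theorem union_le {n g : ℕ} (hg : 1 ≤ g) {m M1 : ℕ} (hm : 2 ≤ m) {L K0 : ℝ} {B : ℝ} (hB : 0 ≤ B) {N0 Kf C0 : ℕ} (hC0' : 1 ≤ C0)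
    (hC0 : ∀ N K c : ℕ, c ≤ 2 → {π | PatOk N K c π}.Finite ∧ {π | PatOk N K c π}.ncard ≤ C0 ^ N)
    (hK : ∀ K : ℕ, (K : ℝ) ≤ K0 → K ≤ Kf) (hN : 1 + 4 * (6 * Kf + 2 * (2 * m + 3) * M1 + (2 * m + 1)) ≤ N0) {X : ℝ} (hX0 : 0 ≤ X)
    (h0 : ∀ N ≤ N0, ∀ π, PatOk N Kf 0 π →
      (({T : Tri (Fin (6 * n)) | T ∈ Trn n g ∧ Ev (m - 1) π (Z0 B) T}.ncard : ℕ) : ℝ) ≤ X)
    (h1 : ∀ N ≤ N0, ∀ π, PatOk N Kf 1 π →
      (({T : Tri (Fin (6 * n)) | T ∈ Trn n g ∧ Ev (m - 1) π (Z1 B) T}.ncard : ℕ) : ℝ) ≤ X)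
    (h2 : ∀ N ≤ N0, ∀ π, PatOk N Kf 2 π →
      (({T : Tri (Fin (6 * n)) | T ∈ Trn n g ∧ Ev (m - 1) π (Z2 B) T}.ncard : ℕ) : ℝ) ≤ X) :
    (({T : Tri (Fin (6 * n)) | T ∈ Trn n g ∧ LowCfg T m L K0 ∧
      {v : T.V | ∃ c, T.IsWalk v c v ∧ c.length ≤ 4 * m ∧ ¬ T.NullHtp c}.ncard ≤ M1}.ncard : ℕ) : ℝ) ≤
      3 * (N0 + 1) * (C0 : ℝ) ^ N0 * X := by
  obtain ⟨Pf, hPf⟩ : ∃ Pf : ℕ × ℕ → Finset Pat, Pf = fun p =>
      if h : p.1 ≤ 2 then (hC0 p.2 Kf p.1 h).1.toFinset else ∅ := ⟨_, rfl⟩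
  have hPfm : ∀ p : ℕ × ℕ, p.1 ≤ 2 → ∀ π, π ∈ Pf p ↔ PatOk p.2 Kf p.1 π := by
    intro p hp π
    rw [hPf]
    simp only [dif_pos hp]
    rw [Set.Finite.mem_toFinset]
    rfl
  have hPfc : ∀ p : ℕ × ℕ, p.2 ≤ N0 → (Pf p).card ≤ C0 ^ N0 := by
    intro p hN0
    by_cases hp : p.1 ≤ 2
    · have h3 : (Pf p).card = {π | PatOk p.2 Kf p.1 π}.ncard := by
        rw [Set.ncard_eq_toFinset_card _ (hC0 p.2 Kf p.1 hp).1, hPf]
        simp only [dif_pos hp]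
      rw [h3]
      exact ((hC0 p.2 Kf p.1 hp).2).trans (Nat.pow_le_pow_right hC0' hN0)
    · have h3 : Pf p = ∅ := by
        rw [hPf]
        simp only [dif_neg hp]
      rw [h3, Finset.card_empty]
      exact Nat.zero_le _
  obtain ⟨I, hI⟩ : ∃ I : Finset ((ℕ × ℕ) × Pat), I =
      (Finset.range 3 ×ˢ Finset.range (N0 + 1)).biUnion fun p => (Pf p).image fun π => (p, π) :=
    ⟨_, rfl⟩
  have hIc : I.card ≤ 3 * (N0 + 1) * C0 ^ N0 := by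
    rw [hI]
    refine (Finset.card_biUnion_le_card_mul _ _ (C0 ^ N0) ?_).trans (le_of_eq ?_)
    · intro p hp
      rw [Finset.mem_product, Finset.mem_range, Finset.mem_range] at hp
      exact Finset.card_image_le.trans (hPfc p (by omega))
    · rw [Finset.card_product, Finset.card_range, Finset.card_range]
  have hIm : ∀ q : (ℕ × ℕ) × Pat, q ∈ I ↔ (q.1.1 ≤ 2 ∧ q.1.2 ≤ N0) ∧ PatOk q.1.2 Kf q.1.1 q.2 := by
    rintro ⟨p, π⟩
    rw [hI, Finset.mem_biUnion]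
    constructor
    · rintro ⟨p', hp', h3⟩
      rw [Finset.mem_image] at h3
      obtain ⟨π', h4, h5⟩ := h3
      rw [Prod.mk.injEq] at h5
      obtain ⟨rfl, rfl⟩ := h5
      rw [Finset.mem_product, Finset.mem_range, Finset.mem_range] at hp'
      exact ⟨⟨Nat.lt_succ_iff.1 hp'.1, Nat.lt_succ_iff.1 hp'.2⟩,
        (hPfm p' (Nat.lt_succ_iff.1 hp'.1) π').1 h4⟩
    · rintro ⟨h3, h4⟩
      refine ⟨p, ?_, Finset.mem_image.2 ⟨π, (hPfm p h3.1 π).2 h4, rfl⟩⟩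
      rw [Finset.mem_product, Finset.mem_range, Finset.mem_range]
      exact ⟨by have := h3.1; simp only at this; omega, by have := h3.2; simp only at this; omega⟩
  have hsub : {T : Tri (Fin (6 * n)) | T ∈ Trn n g ∧ LowCfg T m L K0 ∧
      {v : T.V | ∃ c, T.IsWalk v c v ∧ c.length ≤ 4 * m ∧ ¬ T.NullHtp c}.ncard ≤ M1} ⊆
      (I.biUnion fun q => (Set.toFinite (Yev n g m B q.1.1 q.2)).toFinset :
        Finset (Tri (Fin (6 * n)))) := by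
    rintro T ⟨hT, hL, hM⟩
    obtain ⟨K, hK1, N, c, π, hN1, hπ, hc⟩ := detL hT hg hm hL hM hB
    have hKf := hK K hK1
    rw [Finset.mem_coe, Finset.mem_biUnion]
    refine ⟨((c, N), π), (hIm _).2 ⟨⟨?_, ?_⟩, patOk_mono hπ hKf⟩, ?_⟩
    · show c ≤ 2
      rcases hc with h | h | h <;> omega
    · show N ≤ N0
      refine le_trans hN1 (le_trans ?_ hN)
      have : 6 * K ≤ 6 * Kf := Nat.mul_le_mul_left 6 hKf
      omega
    · rw [Set.Finite.mem_toFinset]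
      exact ⟨hT, hc⟩
  have hcard := (Set.ncard_le_ncard hsub (Finset.finite_toSet _))
  rw [Set.ncard_coe_finset] at hcard
  have hcard' : (({T : Tri (Fin (6 * n)) | T ∈ Trn n g ∧ LowCfg T m L K0 ∧
      {v : T.V | ∃ c, T.IsWalk v c v ∧ c.length ≤ 4 * m ∧ ¬ T.NullHtp c}.ncard ≤ M1}.ncard : ℕ) : ℝ) ≤
      ((∑ q ∈ I, ((Set.toFinite (Yev n g m B q.1.1 q.2)).toFinset).card : ℕ) : ℝ) := by
    exact_mod_cast hcard.trans Finset.card_biUnion_le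
  refine hcard'.trans ?_
  rw [Nat.cast_sum]
  have hterm : ∀ q ∈ I, ((((Set.toFinite (Yev n g m B q.1.1 q.2)).toFinset).card : ℕ) : ℝ) ≤ X := by
    rintro ⟨⟨c, N⟩, π⟩ hq
    obtain ⟨⟨hc, hN1⟩, hπ⟩ := (hIm _).1 hq
    rw [← Set.ncard_eq_toFinset_card]
    simp only at hc hN1 hπ ⊢
    have hYe : ∀ (c' : ℕ), c = c' → Yev n g m B c π = Yev n g m B c' π := fun c' h => by rw [h]
    interval_cases c
    · have h3 : Yev n g m B 0 π = {T : Tri (Fin (6 * n)) | T ∈ Trn n g ∧ Ev (m - 1) π (Z0 B) T} := by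
        ext T
        simp [Yev]
      rw [h3]
      exact h0 N hN1 π hπ
    · have h3 : Yev n g m B 1 π = {T : Tri (Fin (6 * n)) | T ∈ Trn n g ∧ Ev (m - 1) π (Z1 B) T} := by
        ext T
        simp [Yev]
      rw [h3]
      exact h1 N hN1 π hπ
    · have h3 : Yev n g m B 2 π = {T : Tri (Fin (6 * n)) | T ∈ Trn n g ∧ Ev (m - 1) π (Z2 B) T} := by
        ext T
        simp [Yev]
      rw [h3]
      exact h2 N hN1 π hπ
  refine (Finset.sum_le_card_nsmul _ _ X hterm).trans ?_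
  rw [nsmul_eq_mul]
  refine mul_le_mul_of_nonneg_right ?_ hX0
  exact_mod_cast hIc

theorem bad_markov {n g : ℕ} (L M : ℕ) :
    ((M : ℝ) + 1) * (({T : Tri (Fin (6 * n)) | T ∈ Trn n g ∧
      M < {v : T.V | ∃ c, T.IsWalk v c v ∧ c.length ≤ L ∧ ¬ T.NullHtp c}.ncard}.ncard : ℕ) : ℝ) ≤
      (({z : Tri (Fin (6 * n)) × Fin (6 * n) | z.1 ∈ Trn n g ∧ ∃ c : List (Fin (6 * n)),
        z.1.IsWalk (z.1.tl z.2) c (z.1.tl z.2) ∧ c.length ≤ L ∧ ¬ z.1.NullHtp c}.ncard : ℕ) : ℝ) := by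
  obtain ⟨s, hs⟩ : ∃ s : Finset (Tri (Fin (6 * n))), s = (Set.toFinite
    {T : Tri (Fin (6 * n)) | T ∈ Trn n g ∧
      M < {v : T.V | ∃ c, T.IsWalk v c v ∧ c.length ≤ L ∧ ¬ T.NullHtp c}.ncard}).toFinset := ⟨_, rfl⟩
  have hms : ∀ T, T ∈ s ↔ T ∈ Trn n g ∧
      M < {v : T.V | ∃ c, T.IsWalk v c v ∧ c.length ≤ L ∧ ¬ T.NullHtp c}.ncard := by
    intro T
    rw [hs, Set.Finite.mem_toFinset]
    rfl
  have h1 : s.card * (M + 1) ≤ (s.sigma fun T => (Set.toFinite (BadD T L)).toFinset).card := by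
    rw [Finset.card_sigma, ← smul_eq_mul]
    refine Finset.card_nsmul_le_sum _ _ _ fun T hT => ?_
    rw [← Set.ncard_eq_toFinset_card _ (Set.toFinite _)]
    refine le_trans ((hms T).1 hT).2 ?_
    have h5 : {v : T.V | ∃ c, T.IsWalk v c v ∧ c.length ≤ L ∧ ¬ T.NullHtp c} ⊆ T.tl '' BadD T L := by
      rintro v ⟨c, c1, c2, c3⟩
      obtain ⟨t, rfl⟩ := Quotient.exists_rep v
      exact ⟨t, ⟨c, c1, c2, c3⟩, rfl⟩
    exact (Set.ncard_le_ncard h5 (Set.toFinite _)).trans (Set.ncard_image_le (Set.toFinite _))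
  have h2 : (s.sigma fun T => (Set.toFinite (BadD T L)).toFinset).card ≤
      {z : Tri (Fin (6 * n)) × Fin (6 * n) | z.1 ∈ Trn n g ∧ ∃ c : List (Fin (6 * n)),
        z.1.IsWalk (z.1.tl z.2) c (z.1.tl z.2) ∧ c.length ≤ L ∧ ¬ z.1.NullHtp c}.ncard := by
    rw [Set.ncard_eq_toFinset_card _ (Set.toFinite _)]
    refine Finset.card_le_card_of_injOn (fun y => (y.1, y.2)) ?_ ?_
    · rintro ⟨T, t⟩ hy
      rw [Finset.mem_coe, Finset.mem_sigma] at hy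
      obtain ⟨h3, h4⟩ := hy
      rw [Set.Finite.mem_toFinset] at h4
      rw [Finset.mem_coe, Set.Finite.mem_toFinset]
      exact ⟨((hms T).1 h3).1, h4⟩
    · rintro ⟨T, t⟩ _ ⟨T', t'⟩ _ h
      simp only [Prod.mk.injEq] at h
      obtain ⟨rfl, rfl⟩ := h
      rfl
  have h3 : s.card = {T : Tri (Fin (6 * n)) | T ∈ Trn n g ∧
      M < {v : T.V | ∃ c, T.IsWalk v c v ∧ c.length ≤ L ∧ ¬ T.NullHtp c}.ncard}.ncard := by
    rw [hs, Set.ncard_eq_toFinset_card _ (Set.toFinite _)]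
  rw [h3] at h1
  have h4 := h1.trans h2
  have h5 : ((({T : Tri (Fin (6 * n)) | T ∈ Trn n g ∧
      M < {v : T.V | ∃ c, T.IsWalk v c v ∧ c.length ≤ L ∧ ¬ T.NullHtp c}.ncard}.ncard * (M + 1) : ℕ)) : ℝ) ≤
      (({z : Tri (Fin (6 * n)) × Fin (6 * n) | z.1 ∈ Trn n g ∧ ∃ c : List (Fin (6 * n)),
        z.1.IsWalk (z.1.tl z.2) c (z.1.tl z.2) ∧ c.length ≤ L ∧ ¬ z.1.NullHtp c}.ncard : ℕ) : ℝ) := by
    exact_mod_cast h4
  push_cast at h5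
  linarith

end SYS.LO
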