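import Mathlib

/-!
# SYS-LO-FinC: the numbers (Mathlib only)

`ℓ = log n`.  `K ≤ (1/x - ε) ℓ / (4 m)`, `M1 ≤ η ℓ`, `N0 = 1 + 4 (6 K + 2 (2 m + 3) M1 + (2 m + 1))`.

PLAN.
* `n0_le`: `K ≤ ℓ / (4 m x)`: `24 K ≤ 6 ℓ / (m x)`, `8 (2 m + 3) M1 ≤ 8 (2 m + 3) η ℓ`, `4 (2 m + 1) + 1 = 8 m + 5`.
* `fin_main`: take logarithms.  `C0^N0 * C^N0 = exp (N0 * Λ1)`, `Λ1 = log (C0 C) ≥ 0`, `N0 Λ1 ≤ (8 m + 5) Λ1 + (6 / (m x) + 8 (2 m + 3) η) Λ1 ℓ ≤ (8 m + 5) Λ1 + (x ε / 8) ℓ` (`h1`, `h2`).  `(1 + δ) (2 x) (m - 1) (2 K + 12) ≤ (1 + δ) 4 x m K + 24 (1 + δ) x m ≤ (1 + δ)(1 - x ε) ℓ + 24 (1 + δ) x m` and `(1 + δ) (1 - x ε) ≤ 1 - x ε / 2` (`δ = x ε / 2`, `0 ≤ 1 - x ε`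
  because `0 ≤ K`, `ℓ > 0`).  `n * n^(-2 + x ε / 16) = exp ((-1 + x ε / 16) ℓ)`.  The product is `≤ 72 (N0 + 1) exp (c_m) exp (- (5/16) x ε ℓ)`, `N0 + 1 ≤ (8 m + 6) + b ℓ`, and `(a + b ℓ) exp (- c ℓ) → 0` as `n → ∞`.
* `fin_tail`: `N0 log (C0 C1) ≤ a + b ℓ`; `B0 := (2 + b) / c0` with `b := (6 / (m x) + 8 (2 m + 3) η) log (C0 C1)`: the product is `≤ 18 (N0 + 1) n exp (a + b ℓ - (2 + b) ℓ) = 18 (N0 + 1) e^a / n → 0`.
The statements are for real sequences: for all `n` large and all natural `K`, `M1` with the two bounds.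
-/

namespace SYS.LO

open Real Filter Topology

theorem n0_le {x ε η ℓ : ℝ} {m K M1 : ℕ} (hx : 0 < x) (hε : 0 < ε) (hm : 1 ≤ m) (hl : 0 ≤ ℓ) (hK : (K : ℝ) ≤ (1 / x - ε) * ℓ / (4 * m))
    (hM : (M1 : ℝ) ≤ η * ℓ) : ((1 + 4 * (6 * K + 2 * (2 * m + 3) * M1 + (2 * m + 1)) : ℕ) : ℝ) ≤
      (8 * m + 5) + (6 / (m * x) + 8 * (2 * m + 3) * η) * ℓ := by
  have hm0 : (0 : ℝ) < m := by exact_mod_cast hm
  have h1 : (1 / x - ε) * ℓ / (4 * m) ≤ 1 / x * ℓ / (4 * m) := by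
    apply div_le_div_of_nonneg_right _ (by positivity)
    nlinarith [mul_nonneg hε.le hl]
  have h2 : 24 * (1 / x * ℓ / (4 * m)) = 6 / (m * x) * ℓ := by
    field_simp
    ring
  have h3 : 24 * (K : ℝ) ≤ 6 / (m * x) * ℓ := by
    rw [← h2]
    linarith [hK.trans h1]
  have h4 : 8 * (2 * (m : ℝ) + 3) * M1 ≤ 8 * (2 * m + 3) * (η * ℓ) :=
    mul_le_mul_of_nonneg_left hM (by positivity)
  push_cast
  nlinarith [h3, h4]

private theorem lim0 (a b c : ℝ) (hc : 0 < c) :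
    Tendsto (fun n : ℕ => (a + b * log n) * exp (-(c * log n))) atTop (𝓝 0) := by
  have hu : Tendsto (fun n : ℕ => c * log n) atTop atTop :=
    (tendsto_log_atTop.comp tendsto_natCast_atTop_atTop).const_mul_atTop hc
  have h0 := (tendsto_pow_mul_exp_neg_atTop_nhds_zero 0).comp hu
  have h1 := (tendsto_pow_mul_exp_neg_atTop_nhds_zero 1).comp hu
  have h2 := (h0.const_mul a).add (h1.const_mul (b / c))
  rw [mul_zero, mul_zero, add_zero] at h2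
  refine h2.congr fun n => ?_
  simp only [Function.comp_apply, pow_zero, pow_one, one_mul]
  field_simp

private theorem pow_eq {a : ℝ} (ha : 0 < a) (N : ℕ) : a ^ N = exp (N * log a) := by
  rw [Real.exp_nat_mul, Real.exp_log ha]

theorem fin_main {x ε η C C0 : ℝ} {m : ℕ} (hx : 0 < x) (hε : 0 < ε) (hη : 0 < η) (hC : 1 ≤ C) (hC0 : 1 ≤ C0) (hm : 1 ≤ m)
    (h1 : 6 / (m * x) * log (C0 * C) ≤ x * ε / 16) (h2 : 8 * (2 * m + 3) * η * log (C0 * C) ≤ x * ε / 16) {γ : ℝ} (hγ : 0 < γ) :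
    ∀ᶠ n : ℕ in atTop, ∀ K M1 N0 : ℕ, (K : ℝ) ≤ (1 / x - ε) * log n / (4 * m) → (M1 : ℝ) ≤ η * log n →
      N0 = 1 + 4 * (6 * K + 2 * (2 * m + 3) * M1 + (2 * m + 1)) →
      3 * ((N0 : ℝ) + 1) * C0 ^ N0 * (6 * n * (4 * (n : ℝ) ^ (-2 + x * ε / 16) *
        (C ^ N0 * exp ((1 + x * ε / 2) * (2 * x) * ((m - 1 : ℕ) : ℝ) * (2 * K + 12))))) ≤ γ := by
  have hm0 : (0 : ℝ) < m := by exact_mod_cast hm
  have hCC : 1 ≤ C0 * C := by nlinarith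
  have hC0p : 0 < C0 := by linarith
  have hCp : 0 < C := by linarith
  have hCCp : 0 < C0 * C := by linarith
  set Λ := log (C0 * C) with hΛ
  have hΛ0 : 0 ≤ Λ := Real.log_nonneg hCC
  set b := 6 / (m * x) + 8 * (2 * m + 3) * η with hb
  set cm := (8 * m + 5) * Λ + 24 * (1 + x * ε / 2) * x * m with hcm
  have hxe : 0 < x * ε := mul_pos hx hε
  have hlim := (lim0 (8 * m + 6) b (5 / 16 * (x * ε)) (by positivity)).const_mul (72 * exp cm)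
  rw [mul_zero] at hlim
  filter_upwards [hlim.eventually (gt_mem_nhds hγ), eventually_ge_atTop 1] with n hn hn1
  intro K M1 N0 hK hM hN
  have hn0 : (0 : ℝ) < n := by exact_mod_cast hn1
  have hl : 0 ≤ log (n : ℝ) := Real.log_nonneg (by exact_mod_cast hn1)
  have hN0 : (N0 : ℝ) ≤ (8 * m + 5) + b * log n := by
    rw [hN]
    exact n0_le hx hε hm hl hK hM
  have e1 : (N0 : ℝ) * Λ ≤ (8 * m + 5) * Λ + x * ε / 8 * log n := by
    have h3 := mul_le_mul_of_nonneg_right hN0 hΛ0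
    have h4 : b * Λ ≤ x * ε / 8 := by
      rw [hb, add_mul]
      linarith
    have h5 := mul_le_mul_of_nonneg_right h4 hl
    nlinarith
  have hmm : ((m - 1 : ℕ) : ℝ) ≤ m := by exact_mod_cast Nat.sub_le m 1
  have e2 : (1 + x * ε / 2) * (2 * x) * ((m - 1 : ℕ) : ℝ) * (2 * K + 12) ≤
      (1 - x * ε / 2) * log n + 24 * (1 + x * ε / 2) * x * m := by
    have h3 : (1 + x * ε / 2) * (2 * x) * ((m - 1 : ℕ) : ℝ) * (2 * K + 12) ≤
        (1 + x * ε / 2) * (2 * x) * m * (2 * K + 12) := by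
      have h4 : (1 + x * ε / 2) * (2 * x) * ((m - 1 : ℕ) : ℝ) ≤
          (1 + x * ε / 2) * (2 * x) * m := mul_le_mul_of_nonneg_left hmm (by positivity)
      exact mul_le_mul_of_nonneg_right h4 (by positivity)
    have h5 : x * m * (4 * (K : ℝ)) ≤ (1 - x * ε) * log n := by
      have h6 := mul_le_mul_of_nonneg_left hK (show (0 : ℝ) ≤ 4 * (x * m) by positivity)
      have h7 : 4 * (x * m) * ((1 / x - ε) * log n / (4 * m)) = (1 - x * ε) * log n := by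
        field_simp
      rw [h7] at h6
      linarith
    have h8 := mul_le_mul_of_nonneg_left h5 (show (0 : ℝ) ≤ 1 + x * ε / 2 by positivity)
    have h9 : (1 + x * ε / 2) * ((1 - x * ε) * log n) ≤ (1 - x * ε / 2) * log n := by
      have h10 : (1 + x * ε / 2) * (1 - x * ε) ≤ 1 - x * ε / 2 := by nlinarith
      have h11 := mul_le_mul_of_nonneg_right h10 hl
      linarith
    nlinarith
  have e3 : (n : ℝ) ^ (-2 + x * ε / 16) = exp (log n * (-2 + x * ε / 16)) :=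
    Real.rpow_def_of_pos hn0 _
  have e4 : C0 ^ N0 * C ^ N0 = exp (N0 * Λ) := by
    rw [← mul_pow, pow_eq hCCp]
  have e5 : (n : ℝ) = exp (log n) := (Real.exp_log hn0).symm
  have e6 : 3 * ((N0 : ℝ) + 1) * C0 ^ N0 * (6 * n * (4 * (n : ℝ) ^ (-2 + x * ε / 16) *
        (C ^ N0 * exp ((1 + x * ε / 2) * (2 * x) * ((m - 1 : ℕ) : ℝ) * (2 * K + 12))))) =
      72 * ((N0 : ℝ) + 1) * exp (N0 * Λ + log n + log n * (-2 + x * ε / 16) +
        (1 + x * ε / 2) * (2 * x) * ((m - 1 : ℕ) : ℝ) * (2 * K + 12)) := by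
    rw [Real.exp_add, Real.exp_add, Real.exp_add, ← e4, ← e5, e3]
    ring
  rw [e6]
  have e7 : N0 * Λ + log n + log n * (-2 + x * ε / 16) +
        (1 + x * ε / 2) * (2 * x) * ((m - 1 : ℕ) : ℝ) * (2 * K + 12) ≤
      cm + -(5 / 16 * (x * ε) * log n) := by
    rw [hcm]
    nlinarith
  have e8 : exp (N0 * Λ + log n + log n * (-2 + x * ε / 16) +
        (1 + x * ε / 2) * (2 * x) * ((m - 1 : ℕ) : ℝ) * (2 * K + 12)) ≤
      exp cm * exp (-(5 / 16 * (x * ε) * log n)) := by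
    rw [← Real.exp_add]
    exact Real.exp_le_exp.2 e7
  have e9 : 72 * ((N0 : ℝ) + 1) ≤ 72 * ((8 * m + 6) + b * log n) := by linarith
  refine (mul_le_mul e9 e8 (Real.exp_pos _).le ?_).trans (le_of_eq_of_le ?_ hn.le)
  · have : 0 ≤ 72 * ((N0 : ℝ) + 1) := by positivity
    linarith
  · ring

theorem fin_tail {x ε η C1 C0 c0 : ℝ} {m : ℕ} (hx : 0 < x) (hε : 0 < ε) (hη : 0 < η) (hC1 : 1 ≤ C1) (hC0 : 1 ≤ C0) (hm : 1 ≤ m)
    (hc0 : 0 < c0) : ∃ B0 : ℝ, 0 < B0 ∧ ∀ γ : ℝ, 0 < γ → ∀ᶠ n : ℕ in atTop, ∀ K M1 N0 : ℕ, (K : ℝ) ≤ (1 / x - ε) * log n / (4 * m) →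
      (M1 : ℝ) ≤ η * log n → N0 = 1 + 4 * (6 * K + 2 * (2 * m + 3) * M1 + (2 * m + 1)) →
      3 * ((N0 : ℝ) + 1) * C0 ^ N0 * (6 * n * (C1 ^ N0 * exp (-(c0 * (B0 * log n))))) ≤ γ := by
  have hm0 : (0 : ℝ) < m := by exact_mod_cast hm
  have hCC : 1 ≤ C0 * C1 := by nlinarith
  have hCCp : 0 < C0 * C1 := by linarith
  set Λ := log (C0 * C1) with hΛ
  have hΛ0 : 0 ≤ Λ := Real.log_nonneg hCC
  set b := 6 / (m * x) + 8 * (2 * m + 3) * η with hb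
  have hb0 : 0 ≤ b := by positivity
  have hbL : 0 ≤ b * Λ := mul_nonneg hb0 hΛ0
  refine ⟨(2 + b * Λ) / c0, by positivity, fun γ hγ => ?_⟩
  have hlim := (lim0 (8 * m + 6) b 1 one_pos).const_mul (18 * exp ((8 * m + 5) * Λ))
  rw [mul_zero] at hlim
  filter_upwards [hlim.eventually (gt_mem_nhds hγ), eventually_ge_atTop 1] with n hn hn1
  intro K M1 N0 hK hM hN
  have hn0 : (0 : ℝ) < n := by exact_mod_cast hn1
  have hl : 0 ≤ log (n : ℝ) := Real.log_nonneg (by exact_mod_cast hn1)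
  have hN0 : (N0 : ℝ) ≤ (8 * m + 5) + b * log n := by
    rw [hN]
    exact n0_le hx hε hm hl hK hM
  have e1 : (N0 : ℝ) * Λ ≤ (8 * m + 5) * Λ + b * Λ * log n := by
    have h3 := mul_le_mul_of_nonneg_right hN0 hΛ0
    linarith
  have e2 : c0 * ((2 + b * Λ) / c0 * log n) = (2 + b * Λ) * log n := by
    field_simp
  have e4 : C0 ^ N0 * C1 ^ N0 = exp (N0 * Λ) := by
    rw [← mul_pow, pow_eq hCCp]
  have e5 : (n : ℝ) = exp (log n) := (Real.exp_log hn0).symm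
  have e6 : 3 * ((N0 : ℝ) + 1) * C0 ^ N0 *
      (6 * n * (C1 ^ N0 * exp (-(c0 * ((2 + b * Λ) / c0 * log n))))) =
      18 * ((N0 : ℝ) + 1) * exp (N0 * Λ + log n + -((2 + b * Λ) * log n)) := by
    rw [e2, Real.exp_add, Real.exp_add, ← e4, ← e5]
    ring
  rw [e6]
  have e8 : exp (N0 * Λ + log n + -((2 + b * Λ) * log n)) ≤
      exp ((8 * m + 5) * Λ) * exp (-(1 * log n)) := by
    rw [← Real.exp_add]
    refine Real.exp_le_exp.2 ?_
    linarith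
  have e9 : 18 * ((N0 : ℝ) + 1) ≤ 18 * ((8 * m + 6) + b * log n) := by linarith
  refine (mul_le_mul e9 e8 (Real.exp_pos _).le ?_).trans (le_of_eq_of_le ?_ hn.le)
  · have : 0 ≤ 18 * ((N0 : ℝ) + 1) := by positivity
    linarith
  · ring

end SYS.LO
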