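import Pool.Agent.SYS.Lib.Evt
import Pool.Agent.SYS.Lib.PtwA
import Pool.Agent.SYS.UT.Run
import Pool.Agent.SYS.RL.Defs

/-!
# Project SYS, lower bound (T1): islands, cells, patterns (definitions). DO NOT CHANGE.

Paper proof: `/team-store/syst_low60.md` and the headers of the modules.
* `Isl ws S xs`: `S` is the disjoint union of islands; island number `i` is explored from a new triangle by the word `ws i` with the layer rule,
  `xs i` = its last gate (a boundary dart).  All lists: newest island first.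
* `Wd r b w`: `b = true`: `w` is a word from perimeter 3 which has just completed `r` layers; `b = false`: `w = []` (the island is one triangle).
-/

namespace SYS.LO

open Classical SST

section
variable {D : Type} [Finite D]

/-- Disjoint unions of islands. -/
inductive Isl : List (List Stp) → Part D → List D → Prop
  | nil : Isl [] Part.emp []
  | cons {ws : List (List Stp)} {S S' : Part D} {xs : List D} {t0 t1 t2 x' : D} {w : List Stp} (h : Isl ws S xs)
      (h0 : t0 ∉ S.R) (h1 : t1 ∉ S.R) (h2 : t2 ∉ S.R) (h01 : t0 ≠ t1) (h12 : t1 ≠ t2) (h20 : t2 ≠ t0)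
      (hr : Part.Rch (lrule 3) [] (S.newTri t0 t1 t2 h0 h1 h2 h01 h12 h20) t0 w S' x') : Isl (w :: ws) S' (x' :: xs)

end

/-- Total perimeter. -/
def pT (ws : List (List Stp)) : ℕ := (ws.map (wend 3)).sum

/-- Total number of triangles. -/
def vT (ws : List (List Stp)) : ℕ := (ws.map fun w => 1 + wvol w).sum

/-- Weight of the words of the islands. -/
noncomputable def wW (ws : List (List Stp)) : ℝ := (ws.map (wwt 1 Num.W)).prod

/-- Weight with `e i` marked boundary darts on the island `i`. -/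
noncomputable def wE (ws : List (List Stp)) (es : List ℕ) : ℝ :=
  (List.zipWith (fun w e => wwt 1 Num.W w * (wend 3 w : ℝ) ^ e) ws es).prod

/-- The word of an island: `r` layers just completed, or one triangle. -/
def Wd (r : ℕ) (b : Bool) (w : List Stp) : Prop :=
  (b = true ∧ WOk 3 w ∧ GR.lay 3 w = r ∧ ∀ u, u <+: w → u ≠ w → GR.lay 3 u < r) ∨ (b = false ∧ w = [])

section
variable {D : Type} [Finite D]

/-- A cell of `T`: one island. -/
def Cell (T : Tri D) (r : ℕ) (b : Bool) (S : Part D) : Prop :=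
  S.Le T ∧ ∃ w x, Isl [w] S [x] ∧ Wd r b w

/-- A partition of the darts into cells. -/
structure CSys (T : Tri D) (r : ℕ) (cell : D → Part D) (bl : D → Bool) : Prop where
  mem : ∀ d, d ∈ (cell d).R
  eq : ∀ d, ∀ e ∈ (cell d).R, cell e = cell d
  ok : ∀ d, Cell T r (bl d) (cell d)
  bl_eq : ∀ d, ∀ e ∈ (cell d).R, bl e = bl d

/-- Levels (distance in the graph of the cells) and parents: `P e` = a dart of the parent cell, `E e` = a dart of the cell of `e`, with the same
initial vertex. -/
structure Tree (T : Tri D) (cell : D → Part D) (r0 : D) (lev : D → ℕ) (P E : D → D) : Prop where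
  zero : ∀ e, lev e = 0 ↔ e ∈ (cell r0).R
  same : ∀ d, ∀ e ∈ (cell d).R, lev e = lev d
  lip : ∀ d e, T.tl d = T.tl e → lev e ≤ lev d + 1
  par : ∀ e, lev e ≠ 0 → lev (P e) + 1 = lev e ∧ E e ∈ (cell e).R ∧ T.tl (P e) = T.tl (E e)
  inv : ∀ d, ∀ e ∈ (cell d).R, P e = P d ∧ E e = E d

/-- Some cell of the list contains `e`. -/
def InC (cell : D → Part D) (ds : List D) (e : D) : Prop := ∃ d ∈ ds, e ∈ (cell d).R

/-- Lists of distinct cells closed under parents, newest first; `k` = number of cells whose parent is not the previous cell. -/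
inductive Cfg (cell : D → Part D) (r0 : D) (lev : D → ℕ) (P : D → D) : List D → ℕ → Prop
  | root : Cfg cell r0 lev P [r0] 0
  | next {e d : D} {ds : List D} {k : ℕ} (h : Cfg cell r0 lev P (d :: ds) k) (hn : ¬ InC cell (d :: ds) e) (h0 : lev e ≠ 0)
      (hp : P e ∈ (cell d).R) : Cfg cell r0 lev P (e :: d :: ds) k
  | jump {e : D} {ds : List D} {k : ℕ} (h : Cfg cell r0 lev P ds k) (hn : ¬ InC cell ds e) (h0 : lev e ≠ 0)
      (hp : InC cell ds (P e)) : Cfg cell r0 lev P (e :: ds) (k + 1)

/-- The darts of the pairs. -/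
def Usd (ps : List (D × D)) (b : D) : Prop := ∃ p ∈ ps, b = p.1 ∨ b = p.2

/-- Lists of cells with swaps: every new cell is joined by one swap at the vertex of its parent; `c` closings. -/
inductive Bd (T : Tri D) (cell : D → Part D) (r0 : D) (lev : D → ℕ) (P E : D → D) : List D → List (D × D) → ℕ → ℕ → Prop
  | root : Bd T cell r0 lev P E [r0] [] 0 0
  | next {e d b b' : D} {ds : List D} {ps : List (D × D)} {k c : ℕ} (h : Bd T cell r0 lev P E (d :: ds) ps k c)
      (hn : ¬ InC cell (d :: ds) e) (h0 : lev e ≠ 0) (hp : P e ∈ (cell d).R) (hb' : b' ∈ (cell e).B) (ht' : T.tl b' = T.tl (E e))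
      (ht : T.tl b = T.tl (E e)) (hb : b ∈ (cell d).B ∨ Usd ps b) : Bd T cell r0 lev P E (e :: d :: ds) ((b, b') :: ps) k c
  | jump {e b b' : D} {ds : List D} {ps : List (D × D)} {k c : ℕ} (h : Bd T cell r0 lev P E ds ps k c)
      (hn : ¬ InC cell ds e) (h0 : lev e ≠ 0) (hp : InC cell ds (P e)) (hb' : b' ∈ (cell e).B) (ht' : T.tl b' = T.tl (E e))
      (ht : T.tl b = T.tl (E e)) (hb : (∃ d ∈ ds, b ∈ (cell d).B) ∨ Usd ps b) :
      Bd T cell r0 lev P E (e :: ds) ((b, b') :: ps) (k + 1) c
  | cls {b b' : D} {ds : List D} {ps : List (D × D)} {k c : ℕ} (h : Bd T cell r0 lev P E ds ps k c)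
      (hb : ∃ d ∈ ds, b ∈ (cell d).B) (hb' : ∃ d ∈ ds, b' ∈ (cell d).B) : Bd T cell r0 lev P E ds ((b, b') :: ps) k (c + 1)

/-- The region of a list of cells. -/
structure Reg (T : Tri D) (r : ℕ) (cell : D → Part D) (bl : D → Bool) (ds : List D) (ws : List (List Stp)) (S : Part D) (xs : List D) :
    Prop where
  isl : Isl ws S xs
  le : S.Le T
  wd : List.Forall₂ (Wd r) (ds.map bl) ws
  R : ∀ e, e ∈ S.R ↔ InC cell ds e
  B : ∀ e, e ∈ S.B ↔ ∃ d ∈ ds, e ∈ (cell d).B
  nx : ∀ d ∈ ds, ∀ e ∈ (cell d).B, S.nx e = (cell d).nx e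
  x : List.Forall₂ (fun d x => x ∈ (cell d).B) ds xs
  p : List.Forall₂ (fun d w => ∀ e ∈ (cell d).B, (cell d).per e = wend 3 w) ds ws

end

/-! ## Patterns -/

/-- `bs` = types of the islands, `es` = numbers of marked boundary darts, `sw` = swaps: pairs of (island counted from the oldest, number of
the marked dart). -/
structure Pat where
  bs : List Bool
  es : List ℕ
  sw : List ((ℕ × ℕ) × (ℕ × ℕ))

/-- Marked positions. -/
def Pos (ws : List (List Stp)) (es : List ℕ) (us : List (List ℕ)) : Prop :=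
  List.Forall₂ (fun (p : List Stp × ℕ) u => u.length = p.2 ∧ ∀ a ∈ u, a < wend 3 p.1) (ws.zip es) us ∧ ws.length = es.length

section
variable {D : Type} [Finite D]

/-- `d` is the marked dart `z` (island `z.1` counted from the oldest, mark `z.2`). -/
def At (S : Part D) (xs : List D) (us : List (List ℕ)) (z : ℕ × ℕ) (d : D) : Prop :=
  ∃ x u a, xs.reverse[z.1]? = some x ∧ us.reverse[z.1]? = some u ∧ u[z.2]? = some a ∧ d = (S.nx ^ a) x

/-- The swaps of the pattern as pairs of darts. -/
def Swp (S : Part D) (xs : List D) (us : List (List ℕ)) (sw : List ((ℕ × ℕ) × (ℕ × ℕ))) (ps : List (D × D)) : Prop :=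
  List.Forall₂ (fun z p => At S xs us z.1 p.1 ∧ At S xs us z.2 p.2) sw ps

/-- `T` contains a configuration of pattern `π` with the property `Z` (a property of the words, the region, the swaps, and `T`). -/
def Ev (r : ℕ) (π : Pat) (Z : List (List Stp) → Part D → List (D × D) → Tri D → Prop) (T : Tri D) : Prop :=
  ∃ ws S xs us ps, Isl ws S xs ∧ S.Le T ∧ List.Forall₂ (Wd r) π.bs ws ∧ Pos ws π.es us ∧ Swp S xs us π.sw ps ∧ Z ws S ps T

end

/-- The swaps of a pattern with levels `lv` (oldest first: level of the island `i`): `j` islands are already joined, `c` closings. -/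
inductive SwOk (lv : ℕ → ℕ) : ℕ → ℕ → List ((ℕ × ℕ) × (ℕ × ℕ)) → Prop
  | nil : SwOk lv 1 0 []
  | mrg {j c i k k' : ℕ} {sw : List ((ℕ × ℕ) × (ℕ × ℕ))} (h : SwOk lv j c sw) (hi : i < j) (hl : lv i = lv j ∨ lv i + 1 = lv j) (hk : k < 15)
      (hk' : k' < 15) : SwOk lv (j + 1) c (((i, k), (j, k')) :: sw)
  | cls {j c i i' k k' : ℕ} {sw : List ((ℕ × ℕ) × (ℕ × ℕ))} (h : SwOk lv j c sw) (hi : i < j) (hi' : i' < j) (hk : k < 15)
      (hk' : k' < 15) : SwOk lv j (c + 1) (((i, k), (i', k')) :: sw)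

/-- Admissible patterns: `N` islands, at most `K` balls, at most 4 jumps of the levels, `c` closings. -/
structure PatOk (N K c : ℕ) (π : Pat) : Prop where
  lb : π.bs.length = N
  le : π.es.length = N
  hN : 1 ≤ N
  balls : π.bs.count true ≤ K
  e_le : ∀ e ∈ π.es, e < 15
  exc : (π.es.map fun e => e - 2).sum ≤ 12
  sw : ∃ lv : ℕ → ℕ, {i | i + 1 < N ∧ lv (i + 1) ≠ lv i + 1}.ncard ≤ 4 ∧ (∀ i, lv i ≤ N) ∧ SwOk lv N c π.sw

end SYS.LO
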