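import Pool.Agent.SYS.RB.Fev
import Pool.Agent.SYS.LR.Out
import Pool.Agent.SYS.LA.Badv

/-!
# SYS-LO-Seq: from sequences to the filter; the hypothesis `LRNul`

`Fth_of_seq`: the filter is countably generated; a sequence of counterexamples is completed to a function `g`.
-/

namespace SYS.LO

open Classical SST Filter Topology

theorem Fth_of_seq {θ : ℝ} (hθ : 0 ≤ θ) {P : ℕ × ℕ → Prop}
    (h : ∀ g : ℕ → ℕ, Tendsto (fun n => (g n : ℝ) / n) atTop (𝓝 θ) → ∀ᶠ n in atTop, P (n, g n)) : ∀ᶠ p in RB.Fth θ, P p := by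
  by_contra hcon
  have hcg : (RB.Fth θ).IsCountablyGenerated := by
    unfold RB.Fth
    infer_instance
  obtain ⟨u, hu, hP⟩ := exists_seq_forall_of_frequently (not_eventually.1 hcon)
  rw [RB.tendsto_Fth_iff] at hu
  obtain ⟨φ, hφ, hφ'⟩ := strictMono_subseq_of_tendsto_atTop hu.1
  have hmono : StrictMono fun k => (u (φ k)).1 := hφ'
  obtain ⟨g, hg⟩ : ∃ g : ℕ → ℕ, g = fun n => if h : ∃ k, (u (φ k)).1 = n then (u (φ h.choose)).2
      else ⌊θ * n⌋₊ := ⟨_, rfl⟩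
  have hg1 : ∀ k, g (u (φ k)).1 = (u (φ k)).2 := by
    intro k
    have h1 : ∃ k', (u (φ k')).1 = (u (φ k)).1 := ⟨k, rfl⟩
    have h2 : h1.choose = k := hmono.injective h1.choose_spec
    rw [hg]
    show (if h : ∃ k', (u (φ k')).1 = (u (φ k)).1 then (u (φ h.choose)).2 else _) = _
    rw [dif_pos h1, h2]
  have hg2 : ∀ n, (¬ ∃ k, (u (φ k)).1 = n) → g n = ⌊θ * n⌋₊ := by
    intro n hn
    rw [hg]
    exact dif_neg hn
  have htend : Tendsto (fun n => (g n : ℝ) / n) atTop (𝓝 θ) := by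
    rw [Metric.tendsto_atTop]
    intro ε hε
    obtain ⟨K0, hK0⟩ := (Metric.tendsto_atTop.1 hu.2) ε hε
    have h2 := (tendsto_nat_floor_mul_div_atTop (R := ℝ) hθ).comp tendsto_natCast_atTop_atTop
    obtain ⟨N1, hN1⟩ := (Metric.tendsto_atTop.1 h2) ε hε
    refine ⟨max N1 ((u (φ K0)).1), fun n hn => ?_⟩
    by_cases hk : ∃ k, (u (φ k)).1 = n
    · obtain ⟨k, rfl⟩ := hk
      rw [hg1]
      have h3 : K0 ≤ k := hmono.le_iff_le.1 ((le_max_right _ _).trans hn)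
      exact hK0 (φ k) (h3.trans (hφ.le_apply))
    · rw [hg2 n hk]
      exact hN1 n ((le_max_left _ _).trans hn)
  obtain ⟨n0, hn0⟩ := eventually_atTop.1 (h g htend)
  have h3 := hn0 (u (φ n0)).1 (hmono.le_apply)
  rw [hg1] at h3
  exact hP (φ n0) h3

theorem lrNul : LRNul := by
  rintro n g r T t hT - hr ⟨w, hw, t1, t2, h0, h1, h2, h01, h12, h20, S', x', hR, hL, -⟩ c hc hl
  obtain ⟨-, -, h3, h4⟩ := Num.mem_WdL.1 hw
  exact LR.nul hT hr h0 h1 h2 h01 h12 h20 hR hL h3 h4 hc hl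

end SYS.LO
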