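import Pool.Agent.SYS.LO.FinA
import Pool.Agent.SYS.LO.FinB
import Pool.Agent.SYS.LO.FinC
import Pool.Agent.SYS.LO.Seq

/-!
# SYS-LO-Low: the lower bound for the separating systole
-/

namespace SYS.LO

open Classical SST SYS.Num Filter Topology

variable {θ x : ℝ}

private theorem ev_along {g : ℕ → ℕ} (hg : Tendsto (fun n => (g n : ℝ) / n) atTop (𝓝 θ)) {P : ℕ × ℕ → Prop}
    (h : ∀ᶠ p in RB.Fth θ, P p) : ∀ᶠ n : ℕ in atTop, P (n, g n) := by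
  have h1 : Tendsto (fun n : ℕ => (n, g n)) atTop (Fth θ) := tendsto_Fth hg
  exact h1.eventually h

private theorem combine {a b M N D X0 X1 : ℝ} (hN : 0 ≤ N) (h1 : D * X0 ≤ a) (h2 : D * X1 ≤ b) (hM : M ≤ D * (N * X0 + N * X1)) :
    M ≤ N * (a + b) := by
  have e1 : N * (D * X0) ≤ N * a := mul_le_mul_of_nonneg_left h1 hN
  have e2 : N * (D * X1) ≤ N * b := mul_le_mul_of_nonneg_left h2 hN
  calc M ≤ D * (N * X0 + N * X1) := hM
    _ = N * (D * X0) + N * (D * X1) := by ring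
    _ ≤ N * a + N * b := add_le_add e1 e2
    _ = N * (a + b) := by ring

theorem lowG (h : Par θ x) : LowG θ x := by
  intro ε hε
  have hx : 0 < x := h.2.2.1
  obtain ⟨C, hC, HC⟩ := pat_prob h (δ := x * ε / 2) (by positivity) (ε := x * ε / 16) (by positivity)
  obtain ⟨C0, hC0, HC0⟩ := pat_count
  have hC0' : (1 : ℝ) ≤ C0 := by exact_mod_cast hC0
  obtain ⟨Λ, hΛ⟩ : ∃ Λ, Λ = Real.log (C0 * C) := ⟨_, rfl⟩
  have hCC : 1 ≤ (C0 : ℝ) * C := by nlinarith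
  have hΛ0 : 0 ≤ Λ := by
    rw [hΛ]
    exact Real.log_nonneg hCC
  refine ⟨max 2 ⌈96 * Λ / (x ^ 2 * ε)⌉₊, fun m hm A hA δ hδ => Fth_of_seq h.1.le ?_⟩
  intro g hg
  have hm2 : 2 ≤ m := (le_max_left _ _).trans hm
  have hm1 : 96 * Λ / (x ^ 2 * ε) ≤ m := (Nat.le_ceil _).trans (by exact_mod_cast (le_max_right _ _).trans hm)
  have hmp : (0 : ℝ) < m := by
    have : 0 < m := by omega
    exact_mod_cast this
  have e1 : 6 / (m * x) * Λ ≤ x * ε / 16 := by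
    rw [div_le_iff₀ (by positivity)] at hm1
    rw [div_mul_eq_mul_div, div_le_div_iff₀ (by positivity) (by norm_num)]
    nlinarith
  obtain ⟨η, hη⟩ : ∃ η : ℝ, η = x * ε / (16 * (8 * (2 * m + 3)) * (Λ + 1)) := ⟨_, rfl⟩
  have hη0 : 0 < η := by
    rw [hη]
    positivity
  have e2 : 8 * (2 * m + 3) * η * Λ ≤ x * ε / 16 := by
    have : 8 * (2 * (m : ℝ) + 3) * η * Λ = x * ε / 16 * (Λ / (Λ + 1)) := by
      rw [hη]
      field_simp
    rw [this]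
    have h1 : Λ / (Λ + 1) ≤ 1 := by
      rw [div_le_one (by positivity)]
      linarith
    calc x * ε / 16 * (Λ / (Λ + 1)) ≤ x * ε / 16 * 1 := mul_le_mul_of_nonneg_left h1 (by positivity)
      _ = x * ε / 16 := mul_one _
  obtain ⟨c0, C1, hc0, hC1, H1⟩ := HC g hg (m - 1)
  obtain ⟨B0, hB0, HB⟩ := fin_tail (x := x) (ε := ε) (η := η) (C1 := C1) (C0 := C0) (c0 := c0) (m := m) hx hε hη0 hC1 hC0' (by omega) hc0
  obtain ⟨Cb, hCb, HBd⟩ := badv h lrNul (4 * m)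
  have HM := fin_main (x := x) (ε := ε) (η := η) (C := C) (C0 := C0) (m := m) hx hε hη0 hC hC0' (by omega) (by rw [← hΛ]; exact e1)
    (by rw [← hΛ]; exact e2) (γ := δ / 4) (by positivity)
  have hlog : Tendsto (fun n : ℕ => η * Real.log (n : ℝ)) atTop atTop :=
    (Real.tendsto_log_atTop.comp tendsto_natCast_atTop_atTop).const_mul_atTop hη0
  obtain ⟨δ', hδ', hg1⟩ : ∃ δ' : ℝ, 0 < δ' ∧ ∀ᶠ n : ℕ in atTop, 1 ≤ g n := by
    refine ⟨1, one_pos, ?_⟩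
    filter_upwards [win_n h hg one_pos 0 0] with n hn
    exact Nat.one_le_iff_ne_zero.2 hn.1
  filter_upwards [H1 B0 hB0, HB (δ / 4) (by positivity), HM, ev_along hg HBd, hlog.eventually_ge_atTop (2 * Cb / δ), hg1,
    eventually_ge_atTop 1] with n n1 n2 n3 n4 n5 n6 n7
  obtain ⟨N, hN⟩ : ∃ N : ℝ, N = ((Trn n (g n)).ncard : ℝ) := ⟨_, rfl⟩
  have hN0 : 0 ≤ N := by
    rw [hN]
    positivity
  obtain ⟨ℓ, hℓ⟩ : ∃ ℓ : ℝ, ℓ = Real.log n := ⟨_, rfl⟩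
  have hℓ0 : 0 ≤ ℓ := by
    rw [hℓ]
    exact Real.log_natCast_nonneg _
  obtain ⟨M1, hM1⟩ : ∃ M1 : ℕ, M1 = ⌊η * ℓ⌋₊ := ⟨_, rfl⟩
  have hM1l : (M1 : ℝ) ≤ η * ℓ := by
    rw [hM1]
    exact Nat.floor_le (by positivity)
  have hM1u : η * ℓ < M1 + 1 := by
    rw [hM1]
    exact Nat.lt_floor_add_one _
  show (({T : Tri (Fin (6 * n)) | T ∈ Trn n (g n) ∧ LowCfg T m (A * Real.log n) ((1 / x - ε) * Real.log n / (4 * m))}.ncard : ℕ) : ℝ) ≤
    δ * (Trn n (g n)).ncard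
  obtain ⟨K0, hK0⟩ : ∃ K0 : ℝ, K0 = (1 / x - ε) * Real.log n / (4 * m) := ⟨_, rfl⟩
  rw [← hK0, ← hN]
  by_cases hneg : K0 < 0
  · have : {T : Tri (Fin (6 * n)) | T ∈ Trn n (g n) ∧ LowCfg T m (A * Real.log n) K0} = ∅ := by
      rw [Set.eq_empty_iff_forall_notMem]
      rintro T ⟨-, W, Cc, -, -, -, -, -, -, -, -, -, h1⟩
      have h2 : (0 : ℝ) ≤ Cc.card := Nat.cast_nonneg _
      linarith
    rw [this, Set.ncard_empty, Nat.cast_zero]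
    positivity
  rw [not_lt] at hneg
  obtain ⟨Kf, hKf⟩ : ∃ Kf : ℕ, Kf = ⌊K0⌋₊ := ⟨_, rfl⟩
  have hKl : (Kf : ℝ) ≤ K0 := by
    rw [hKf]
    exact Nat.floor_le hneg
  obtain ⟨N0, hN0'⟩ : ∃ N0 : ℕ, N0 = 1 + 4 * (6 * Kf + 2 * (2 * m + 3) * M1 + (2 * m + 1)) := ⟨_, rfl⟩
  have m1 := n2 Kf M1 N0 (by rw [← hK0]; exact hKl) (by rw [← hℓ]; exact hM1l) hN0'
  have m2 := n3 Kf M1 N0 (by rw [← hK0]; exact hKl) (by rw [← hℓ]; exact hM1l) hN0'
  obtain ⟨X0, hX0⟩ : ∃ X0 : ℝ, X0 = 6 * n * (C1 ^ N0 * Real.exp (-(c0 * (B0 * Real.log n)))) := ⟨_, rfl⟩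
  obtain ⟨X1, hX1⟩ : ∃ X1 : ℝ, X1 = 6 * n * (4 * (n : ℝ) ^ (-2 + x * ε / 16) *
        (C ^ N0 * Real.exp ((1 + x * ε / 2) * (2 * x) * ((m - 1 : ℕ) : ℝ) * (2 * Kf + 12)))) := ⟨_, rfl⟩
  rw [← hX0] at m1
  rw [← hX1] at m2
  have hC1p : 0 < C1 := by linarith
  have hCp : 0 < C := by linarith
  have hX0p : 0 ≤ X0 := by
    rw [hX0]
    positivity
  have hX1p : 0 ≤ X1 := by
    rw [hX1]
    positivity
  have hpow1 : ∀ N1 ≤ N0, C1 ^ N1 ≤ C1 ^ N0 := fun N1 h1 => pow_le_pow_right₀ hC1 h1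
  have hpow2 : ∀ N1 ≤ N0, C ^ N1 ≤ C ^ N0 := fun N1 h1 => pow_le_pow_right₀ hC h1
  have hU := union_le (n := n) (g := g n) n6 (m := m) (M1 := M1) hm2 (L := A * Real.log n) (K0 := K0) (B := B0 * Real.log n)
    (by rw [← hℓ]; positivity) (N0 := N0) (Kf := Kf) (C0 := C0) hC0 HC0 (fun K hK => by rw [hKf]; exact Nat.le_floor hK)
    hN0'.ge (X := N * X0 + N * X1) (by positivity)
    (fun N1 h1 π hπ => by
      refine ((n1 N1 Kf π).1 hπ).trans ?_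
      rw [← hN]
      have h2 : N * (6 * n) * (C1 ^ N1 * Real.exp (-(c0 * (B0 * Real.log n)))) ≤ N * X0 := by
        rw [hX0, mul_assoc]
        refine mul_le_mul_of_nonneg_left ?_ hN0
        refine mul_le_mul_of_nonneg_left ?_ (by positivity)
        exact mul_le_mul_of_nonneg_right (hpow1 N1 h1) (Real.exp_pos _).le
      have h3 : 0 ≤ N * X1 := mul_nonneg hN0 hX1p
      linarith)
    (fun N1 h1 π hπ => by
      refine ((n1 N1 Kf π).2.1 hπ).trans ?_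
      rw [← hN]
      have h2 : N * (6 * n) * (4 * (n : ℝ) ^ (-2 + x * ε / 16) * (C ^ N1 * Real.exp ((1 + x * ε / 2) * (2 * x) * ((m - 1 : ℕ) : ℝ) *
          (2 * Kf + 12)))) ≤ N * X1 := by
        rw [hX1, mul_assoc]
        refine mul_le_mul_of_nonneg_left ?_ hN0
        refine mul_le_mul_of_nonneg_left ?_ (by positivity)
        refine mul_le_mul_of_nonneg_left ?_ (by positivity)
        exact mul_le_mul_of_nonneg_right (hpow2 N1 h1) (Real.exp_pos _).le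
      have h3 : 0 ≤ N * X0 := mul_nonneg hN0 hX0p
      linarith)
    (fun N1 h1 π hπ => by
      refine ((n1 N1 Kf π).2.2 hπ).trans ?_
      rw [← hN]
      have h2 : N * (6 * n) * (4 * (n : ℝ) ^ (-2 + x * ε / 16) * (C ^ N1 * Real.exp ((1 + x * ε / 2) * (2 * x) * ((m - 1 : ℕ) : ℝ) *
          (2 * Kf + 12)))) ≤ N * X1 := by
        rw [hX1, mul_assoc]
        refine mul_le_mul_of_nonneg_left ?_ hN0
        refine mul_le_mul_of_nonneg_left ?_ (by positivity)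
        refine mul_le_mul_of_nonneg_left ?_ (by positivity)
        exact mul_le_mul_of_nonneg_right (hpow2 N1 h1) (Real.exp_pos _).le
      have h3 : 0 ≤ N * X0 := mul_nonneg hN0 hX0p
      linarith)
  have hU' := combine hN0 m1 m2 hU
  have hbad : (({T : Tri (Fin (6 * n)) | T ∈ Trn n (g n) ∧
      M1 < {v : T.V | ∃ c, T.IsWalk v c v ∧ c.length ≤ 4 * m ∧ ¬ T.NullHtp c}.ncard}.ncard : ℕ) : ℝ) ≤ δ / 2 * N := by
    have h5 := (bad_markov (n := n) (g := g n) (4 * m) M1).trans n4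
    rw [← hN] at h5
    rw [← hℓ] at n5
    have h6 := mul_le_mul_of_nonneg_right (n5.trans hM1u.le) (Nat.cast_nonneg (α := ℝ) ({T : Tri (Fin (6 * n)) | T ∈ Trn n (g n) ∧
      M1 < {v : T.V | ∃ c, T.IsWalk v c v ∧ c.length ≤ 4 * m ∧ ¬ T.NullHtp c}.ncard}.ncard))
    have h7 := mul_le_mul_of_nonneg_left (h6.trans h5) (show 0 ≤ δ / (2 * Cb) by positivity)
    rw [← mul_assoc] at h7
    have h8 : δ / (2 * Cb) * (2 * Cb / δ) = 1 := by field_simp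
    rw [h8, one_mul] at h7
    refine h7.trans_eq ?_
    field_simp
  have hsub : {T : Tri (Fin (6 * n)) | T ∈ Trn n (g n) ∧ LowCfg T m (A * Real.log n) K0} ⊆
      {T : Tri (Fin (6 * n)) | T ∈ Trn n (g n) ∧ LowCfg T m (A * Real.log n) K0 ∧
        {v : T.V | ∃ c, T.IsWalk v c v ∧ c.length ≤ 4 * m ∧ ¬ T.NullHtp c}.ncard ≤ M1} ∪
      {T : Tri (Fin (6 * n)) | T ∈ Trn n (g n) ∧
        M1 < {v : T.V | ∃ c, T.IsWalk v c v ∧ c.length ≤ 4 * m ∧ ¬ T.NullHtp c}.ncard} := by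
    rintro T ⟨hT, hL⟩
    rcases Nat.lt_or_ge M1 {v : T.V | ∃ c, T.IsWalk v c v ∧ c.length ≤ 4 * m ∧ ¬ T.NullHtp c}.ncard with hb | hb
    · exact Or.inr ⟨hT, hb⟩
    · exact Or.inl ⟨hT, hL, hb⟩
  have h9 := (Set.ncard_le_ncard hsub (Set.toFinite _)).trans (Set.ncard_union_le _ _)
  have h10 : (({T : Tri (Fin (6 * n)) | T ∈ Trn n (g n) ∧ LowCfg T m (A * Real.log n) K0}.ncard : ℕ) : ℝ) ≤
      (({T : Tri (Fin (6 * n)) | T ∈ Trn n (g n) ∧ LowCfg T m (A * Real.log n) K0 ∧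
        {v : T.V | ∃ c, T.IsWalk v c v ∧ c.length ≤ 4 * m ∧ ¬ T.NullHtp c}.ncard ≤ M1}.ncard : ℕ) : ℝ) +
      (({T : Tri (Fin (6 * n)) | T ∈ Trn n (g n) ∧
        M1 < {v : T.V | ∃ c, T.IsWalk v c v ∧ c.length ≤ 4 * m ∧ ¬ T.NullHtp c}.ncard}.ncard : ℕ) : ℝ) := by
    exact_mod_cast h9
  calc (({T : Tri (Fin (6 * n)) | T ∈ Trn n (g n) ∧ LowCfg T m (A * Real.log n) K0}.ncard : ℕ) : ℝ)
      ≤ N * (δ / 4 + δ / 4) + δ / 2 * N := h10.trans (add_le_add hU' hbad)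
    _ = δ * N := by ring

/-- The lower bound. -/
theorem low (h : Par θ x) : ∀ ε : ℝ, 0 < ε → Tendsto (PS (1 / x - ε)) (Fth θ) (𝓝 0) :=
  low_ps h (lowG h)

end SYS.LO
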