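import Pool.Agent.SYS.LO.Defs

/-!
# SYS-LO-CfgA: elementary facts on lists of cells
-/

namespace SYS.LO

open Classical SST

variable {D : Type} [Finite D] {T : Tri D} {cell : D → Part D} {r0 : D} {lev : D → ℕ} {P E : D → D} {ds : List D} {k c : ℕ}
  {ps : List (D × D)}

omit [Finite D] in
private theorem inC_cons (e : D) {x : D} (h : InC cell ds x) : InC cell (e :: ds) x := by
  obtain ⟨d, hd, hm⟩ := h
  exact ⟨d, List.mem_cons_of_mem _ hd, hm⟩

omit [Finite D] in
private theorem bad_finite (lev : D → ℕ) (ds : List D) :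
    {i | i + 1 < ds.length ∧ (ds.reverse.map lev).getD (i + 1) 0 ≠ (ds.reverse.map lev).getD i 0 + 1}.Finite :=
  (Set.finite_lt_nat ds.length).subset fun _ hi => Nat.lt_of_succ_lt hi.1

omit [Finite D] in
private theorem getD_old (lev : D → ℕ) (e : D) (ds : List D) {i : ℕ} (hi : i < ds.length) :
    ((e :: ds).reverse.map lev).getD i 0 = (ds.reverse.map lev).getD i 0 := by
  rw [List.reverse_cons, List.map_append, List.getD_append _ _ _ _ (by simpa using hi)]

omit [Finite D] in
private theorem getD_new (lev : D → ℕ) (e : D) (ds : List D) :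
    ((e :: ds).reverse.map lev).getD ds.length 0 = lev e := by
  rw [List.reverse_cons, List.map_append, List.getD_append_right _ _ _ _ (by simp)]
  simp

theorem cfg_pw (h : Cfg cell r0 lev P ds k) : ds.Pairwise (fun d e => d ∉ (cell e).R) := by
  induction h with
  | root => exact List.pairwise_singleton _ _
  | next h hn h0 hp ih => exact List.pairwise_cons.2 ⟨fun a ha hm => hn ⟨a, ha, hm⟩, ih⟩
  | jump h hn h0 hp ih => exact List.pairwise_cons.2 ⟨fun a ha hm => hn ⟨a, ha, hm⟩, ih⟩

theorem cfg_root (h : Cfg cell r0 lev P ds k) : r0 ∈ ds ∧ ds ≠ [] := by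
  induction h with
  | root => exact ⟨List.mem_singleton.2 rfl, List.cons_ne_nil _ _⟩
  | next h hn h0 hp ih => exact ⟨List.mem_cons_of_mem _ ih.1, List.cons_ne_nil _ _⟩
  | jump h hn h0 hp ih => exact ⟨List.mem_cons_of_mem _ ih.1, List.cons_ne_nil _ _⟩

theorem cfg_par (ht : Tree T cell r0 lev P E) (h : Cfg cell r0 lev P ds k) {e : D} (he : InC cell ds e) (h0 : lev e ≠ 0) :
    InC cell ds (P e) := by
  induction h with
  | root =>
    obtain ⟨d, hd, hm⟩ := he
    rw [List.mem_singleton.1 hd] at hm
    exact absurd ((ht.zero e).2 hm) h0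
  | next h hn h0' hp ih =>
    obtain ⟨d', hd', hm⟩ := he
    rcases List.mem_cons.1 hd' with h1 | h1
    · rw [h1] at hm
      rw [(ht.inv _ _ hm).1]
      exact ⟨_, List.mem_cons_of_mem _ List.mem_cons_self, hp⟩
    · exact inC_cons _ (ih ⟨d', h1, hm⟩)
  | jump h hn h0' hp ih =>
    obtain ⟨d', hd', hm⟩ := he
    rcases List.mem_cons.1 hd' with h1 | h1
    · rw [h1] at hm
      rw [(ht.inv _ _ hm).1]
      exact inC_cons _ hp
    · exact inC_cons _ (ih ⟨d', h1, hm⟩)

theorem cfg_lev (ht : Tree T cell r0 lev P E) (h : Cfg cell r0 lev P ds k) {e : D} (he : InC cell ds e) : lev e < ds.length := by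
  induction h generalizing e with
  | root =>
    obtain ⟨d, hd, hm⟩ := he
    rw [List.mem_singleton.1 hd] at hm
    rw [(ht.zero e).2 hm]
    exact Nat.one_pos
  | @next e1 d ds k h hn h0' hp ih =>
    obtain ⟨d', hd', hm⟩ := he
    rcases List.mem_cons.1 hd' with h1 | h1
    · rw [h1] at hm
      have h2 := ht.same _ _ hm
      have h3 := (ht.par e1 h0').1
      have h4 := ih ⟨_, List.mem_cons_self, hp⟩
      rw [List.length_cons]
      omega
    · have h4 := ih ⟨d', h1, hm⟩
      rw [List.length_cons]
      omega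
  | @jump e1 ds k h hn h0' hp ih =>
    obtain ⟨d', hd', hm⟩ := he
    rcases List.mem_cons.1 hd' with h1 | h1
    · rw [h1] at hm
      have h2 := ht.same _ _ hm
      have h3 := (ht.par e1 h0').1
      have h4 := ih hp
      rw [List.length_cons]
      omega
    · have h4 := ih ⟨d', h1, hm⟩
      rw [List.length_cons]
      omega

theorem cfg_lt (ht : Tree T cell r0 lev P E) (h : Cfg cell r0 lev P ds k) :
    {i | i + 1 < ds.length ∧ (ds.reverse.map lev).getD (i + 1) 0 ≠ (ds.reverse.map lev).getD i 0 + 1}.ncard ≤ k := by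
  induction h with
  | root =>
    have h1 : {i | i + 1 < [r0].length ∧ ([r0].reverse.map lev).getD (i + 1) 0 ≠
        ([r0].reverse.map lev).getD i 0 + 1} = ∅ := by
      ext i
      simp
    rw [h1, Set.ncard_empty]
  | @next e d ds k h hn h0' hp ih =>
    refine le_trans (Set.ncard_le_ncard ?_ (bad_finite lev (d :: ds))) ih
    rintro i ⟨h1, h2⟩
    rw [List.length_cons] at h1
    rcases Nat.lt_or_ge (i + 1) (d :: ds).length with h3 | h3
    · refine ⟨h3, ?_⟩
      rw [getD_old lev e (d :: ds) h3, getD_old lev e (d :: ds) (Nat.lt_of_succ_lt h3)] at h2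
      exact h2
    · exfalso
      apply h2
      have h4 : i + 1 = (d :: ds).length := by omega
      have h5 : i < (d :: ds).length := by omega
      rw [h4, getD_new, getD_old lev e (d :: ds) h5]
      have h6 : i = ds.length := by
        rw [List.length_cons] at h4
        omega
      rw [h6, List.reverse_cons, List.map_append, List.getD_append_right _ _ _ _ (by simp)]
      have h7 := (ht.par e h0').1
      have h8 := ht.same _ _ hp
      simp
      omega
  | @jump e ds k h hn h0' hp ih =>
    have h1 : {i | i + 1 < (e :: ds).length ∧ ((e :: ds).reverse.map lev).getD (i + 1) 0 ≠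
        ((e :: ds).reverse.map lev).getD i 0 + 1} ⊆ insert (ds.length - 1) {i | i + 1 < ds.length ∧
        (ds.reverse.map lev).getD (i + 1) 0 ≠ (ds.reverse.map lev).getD i 0 + 1} := by
      rintro i ⟨h1, h2⟩
      rw [List.length_cons] at h1
      rcases Nat.lt_or_ge (i + 1) ds.length with h3 | h3
      · right
        refine ⟨h3, ?_⟩
        rw [getD_old lev e ds h3, getD_old lev e ds (Nat.lt_of_succ_lt h3)] at h2
        exact h2
      · left
        omega
    calc _ ≤ (insert (ds.length - 1) {i | i + 1 < ds.length ∧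
          (ds.reverse.map lev).getD (i + 1) 0 ≠ (ds.reverse.map lev).getD i 0 + 1}).ncard :=
          Set.ncard_le_ncard h1 ((bad_finite lev ds).insert _)
      _ ≤ {i | i + 1 < ds.length ∧
          (ds.reverse.map lev).getD (i + 1) 0 ≠ (ds.reverse.map lev).getD i 0 + 1}.ncard + 1 :=
          Set.ncard_insert_le _ _
      _ ≤ k + 1 := Nat.succ_le_succ ih

theorem cfg_suffix (h : Cfg cell r0 lev P ds k) {ds0 : List D} (h0 : ds0 ≠ []) (hs : ds0 <:+ ds) :
    ∃ k0 ≤ k, Cfg cell r0 lev P ds0 k0 := by
  induction h with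
  | root =>
    rcases List.suffix_cons_iff.1 hs with h1 | h1
    · rw [h1]
      exact ⟨0, le_rfl, Cfg.root⟩
    · exact absurd (List.suffix_nil.1 h1) h0
  | @next e d ds k h hn h0' hp ih =>
    rcases List.suffix_cons_iff.1 hs with h1 | h1
    · rw [h1]
      exact ⟨k, le_rfl, Cfg.next h hn h0' hp⟩
    · exact ih h1
  | @jump e ds k h hn h0' hp ih =>
    rcases List.suffix_cons_iff.1 hs with h1 | h1
    · rw [h1]
      exact ⟨k + 1, le_rfl, Cfg.jump h hn h0' hp⟩
    · obtain ⟨k0, hk, h2⟩ := ih h1
      exact ⟨k0, by omega, h2⟩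

theorem cfg_of_bd (h : Bd T cell r0 lev P E ds ps k c) : Cfg cell r0 lev P ds k := by
  induction h with
  | root => exact Cfg.root
  | next h hn h0 hp _ _ _ _ ih => exact Cfg.next ih hn h0 hp
  | jump h hn h0 hp _ _ _ _ ih => exact Cfg.jump ih hn h0 hp
  | cls h _ _ ih => exact ih

theorem bd_len (h : Bd T cell r0 lev P E ds ps k c) : ps.length + 1 = ds.length + c := by
  induction h with
  | root => rfl
  | next h hn h0 hp _ _ _ _ ih =>
    rw [List.length_cons, List.length_cons]
    omega
  | jump h hn h0 hp _ _ _ _ ih =>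
    rw [List.length_cons, List.length_cons]
    omega
  | cls h _ _ ih =>
    rw [List.length_cons]
    omega

end SYS.LO
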