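import Pool.Agent.SYS.LO.StA
import Pool.Agent.SYS.LO.CfgA

/-!
# SYS-LO-Bld: paths of cells

Induction on the configuration and on the level.
-/

namespace SYS.LO

open Classical SST SYS.Part

theorem add_trans {D : Type} [Finite D] {S S' S'' : Part D} (h : S.Add S') (h' : S'.Add S'') : S.Add S'' := by
  refine ⟨⟨fun d hd => ?_, fun d hd => ?_⟩, h.B.trans h'.B⟩
  · have h1 := h.sub.1 d hd
    have h2 := h'.sub.1 d (by rw [h1]; exact hd)
    rw [h2, h1]
  · have h1 := h.sub.2 d hd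
    have h2 := h'.sub.2 d (by rw [h1]; exact hd)
    rw [h2, h1]

variable {n : ℕ} {T : Tri (Fin (6 * n))} {r : ℕ} {cell : Fin (6 * n) → Part (Fin (6 * n))} {bl : Fin (6 * n) → Bool}
  {r0 : Fin (6 * n)} {lev : Fin (6 * n) → ℕ} {P E : Fin (6 * n) → Fin (6 * n)} {G : Type} [Group G] {l : Fin (6 * n) → G}

theorem bld (hn : 1 ≤ n) (hT : T.Conn) (hl : Flat T l) (hs : CSys T r cell bl) (ht : Tree T cell r0 lev P E) (H : Subgroup G)
    {ds : List (Fin (6 * n))} {k : ℕ} (hC : Cfg cell r0 lev P ds k) :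
    ∃ ps ws S xs κ, Bd T cell r0 lev P E ds ps k 0 ∧ Sta T r cell bl l H ds ps ws S xs κ ∧ One S ps := by
  induction hC with
  | root =>
    obtain ⟨w, x, κ, hS, hO⟩ := sta_root hn hT hl hs r0 H
    exact ⟨[], [w], cell r0, [x], κ, Bd.root, hS, hO⟩
  | next h hn' h0 hp ih =>
    obtain ⟨ps, ws, S, xs, κ, hB, hS, hO⟩ := ih
    obtain ⟨b, b', w, S', x, κ', hb', ht', htb, hb, hS', _, _, hO', _⟩ :=
      sta_add hn hT hl hs ht hS hn' h0 List.mem_cons_self hp
    exact ⟨_, _, _, _, _, Bd.next hB hn' h0 hp hb' ht' htb hb, hS', hO' hO⟩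
  | jump h hn' h0 hp ih =>
    obtain ⟨ps, ws, S, xs, κ, hB, hS, hO⟩ := ih
    obtain ⟨d, hd, hm⟩ := id hp
    obtain ⟨b, b', w, S', x, κ', hb', ht', htb, hb, hS', _, _, hO', _⟩ :=
      sta_add hn hT hl hs ht hS hn' h0 hd hm
    exact ⟨_, _, _, _, _, Bd.jump hB hn' h0 hp hb' ht' htb (hb.imp (fun h => ⟨d, hd, h⟩) id), hS',
      hO' hO⟩

theorem add_path (hn : 1 ≤ n) (hT : T.Conn) (hl : Flat T l) (hs : CSys T r cell bl) (ht : Tree T cell r0 lev P E) {H : Subgroup G}
    {ds : List (Fin (6 * n))} {ps : List (Fin (6 * n) × Fin (6 * n))} {ws : List (List Stp)} {S : Part (Fin (6 * n))}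
    {xs : List (Fin (6 * n))} {κ : Fin (6 * n) → G} {k c : ℕ} (hB : Bd T cell r0 lev P E ds ps k c)
    (hS : Sta T r cell bl l H ds ps ws S xs κ) (e : Fin (6 * n)) :
    ∃ es ps' k' ws' S' xs' κ', k' ≤ k + 1 ∧ (es = [] → k' = k) ∧ es.length ≤ lev e ∧ (∀ e' ∈ es, lev e' ≤ lev e) ∧
      Bd T cell r0 lev P E (es ++ ds) ps' k' c ∧ Sta T r cell bl l H (es ++ ds) ps' ws' S' xs' κ' ∧ InC cell (es ++ ds) e ∧
      S.Add S' ∧ (∀ z ∈ S.R, κ' z = κ z) ∧ (One S ps → One S' ps') ∧
      Multiset.card (Vm.hls (S'.nuL ps') S'.B) = Multiset.card (Vm.hls (S.nuL ps) S.B) ∧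
      (es ≠ [] → ∃ e0 es0, es = e0 :: es0 ∧ e ∈ (cell e0).R) := by
  obtain ⟨N, hN⟩ : ∃ N, N = lev e := ⟨_, rfl⟩
  induction N using Nat.strong_induction_on generalizing e with
  | _ N ih =>
    by_cases hI : InC cell ds e
    · exact ⟨[], ps, k, ws, S, xs, κ, Nat.le_succ k, fun _ => rfl, Nat.zero_le _,
        fun e' he' => absurd he' List.not_mem_nil, hB, hS, hI,
        ⟨⟨fun _ _ => rfl, fun _ _ => rfl⟩, fun _ h => h⟩, fun _ _ => rfl, fun h => h, rfl,
        fun h => absurd rfl h⟩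
    · have h0 : lev e ≠ 0 := by
        intro h
        exact hI ⟨r0, (cfg_root (cfg_of_bd hB)).1, (ht.zero e).1 h⟩
      have hpar := (ht.par e h0).1
      obtain ⟨es1, ps1, k1, ws1, S1, xs1, κ1, h1, h2, h3, h4, hB1, hS1, hI1, hA1, hκ1, hO1, hc1,
        hL1⟩ := ih (lev (P e)) (by omega) (P e) rfl
      have hni : ¬ InC cell (es1 ++ ds) e := by
        rintro ⟨e', he', hm⟩
        rcases List.mem_append.1 he' with h5 | h5
        · have h6 := h4 e' h5
          have h7 := ht.same e' e hm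
          omega
        · exact hI ⟨e', h5, hm⟩
      have hR : ∀ z ∈ S.R, z ∈ S1.R := by
        intro z hz
        have h5 : S.f z ≠ z := hz
        have h6 := hA1.sub.1 z h5
        show S1.f z ≠ z
        rw [h6]
        exact h5
      by_cases he1 : es1 = []
      · obtain ⟨d, hd, hm⟩ := id hI1
        obtain ⟨b, b', w, S', x, κ', hb', ht', htb, hb, hS', hA', hκ', hO', hc'⟩ :=
          sta_add hn hT hl hs ht hS1 hni h0 hd hm
        have hk : k1 = k := h2 he1
        have hBn := Bd.jump hB1 hni h0 hI1 hb' ht' htb (hb.imp (fun h => ⟨d, hd, h⟩) id)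
        rw [hk] at hBn
        refine ⟨e :: es1, (b, b') :: ps1, k + 1, w :: ws1, S', x :: xs1, κ', le_rfl,
          fun h => absurd h (List.cons_ne_nil _ _), ?_, ?_, hBn, hS',
          ⟨e, List.mem_cons_self, hs.mem e⟩, add_trans hA1 hA', ?_, fun h => hO' (hO1 h),
          hc'.trans hc1, fun _ => ⟨e, es1, rfl, hs.mem e⟩⟩
        · rw [List.length_cons]
          omega
        · intro e' he'
          rcases List.mem_cons.1 he' with h5 | h5
          · rw [h5]
          · have h6 := h4 e' h5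
            omega
        · intro z hz
          rw [hκ' z (hR z hz), hκ1 z hz]
      · obtain ⟨e0, es0, hes, hm⟩ := hL1 he1
        rw [hes, List.cons_append] at hni hB1 hS1
        obtain ⟨b, b', w, S', x, κ', hb', ht', htb, hb, hS', hA', hκ', hO', hc'⟩ :=
          sta_add hn hT hl hs ht hS1 hni h0 List.mem_cons_self hm
        have hBn := Bd.next hB1 hni h0 hm hb' ht' htb hb
        rw [hes] at h3 h4
        refine ⟨e :: e0 :: es0, (b, b') :: ps1, k1, w :: ws1, S', x :: xs1, κ', h1,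
          fun h => absurd h (List.cons_ne_nil _ _), ?_, ?_, hBn, hS',
          ⟨e, List.mem_cons_self, hs.mem e⟩, add_trans hA1 hA', ?_, fun h => hO' (hO1 h),
          hc'.trans hc1, fun _ => ⟨e, e0 :: es0, rfl, hs.mem e⟩⟩
        · rw [List.length_cons]
          omega
        · intro e' he'
          rcases List.mem_cons.1 he' with h5 | h5
          · rw [h5]
          · have h6 := h4 e' h5
            omega
        · intro z hz
          rw [hκ' z (hR z hz), hκ1 z hz]

end SYS.LO
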