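import Pool.Agent.SYS.LO.IslA
import Pool.Agent.SYS.UP.Wrd

/-!
# SYS-LO-Cnt: first moment of a pattern

PLAN.
* `ws_fin`: `List.Forall₂ (Wd r) bs ws` and `vT ws ≤ v`: `ws.length = bs.length`, every word is `WOk 3 w` with `wvol w ≤ v` (or `[]`), and there are finitely many of them: a step is `T` (volume `1`, perimeter `+ 1`) or `R k a`, `L k a` (perimeter `- (k + 1)`, `k ≤` perimeter, `a ≤ v`),
  so along the word the perimeter is `≤ 3 + v`, the length is `≤ 2 v + 3`, all numbers are `≤ v + 3`: finitely many lists (look for an existing lemma: grep `Finite` with `WOk` in `SYS/GR`, `SYS/VI`, `SYS/UP/Wrd`, `SYS/Lib/Rch`).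
* `swp_unique`: `At` is functional in `d`; `List.Forall₂` induction.
* `pos_card`: `ws.length = es.length`: induction on both lists: `us` for `w :: ws`, `e :: es` is a list of length `e` with entries `< wend 3 w` (`(wend 3 w)^e` of them: `Fin e → Fin (wend 3 w)`) and a `us` for the rest.  If the lengths differ the set is empty.
* `ev_count`: the set is contained in the union over `ws ∈ A` and `us` with `Pos ws π.es us` of `{T | T ∈ Trn n g ∧ ∃ S xs, Isl ws S xs ∧ S.Le T ∧ Z' S xs T}`, `Z' S xs T := ∃ ps, Swp S xs us π.sw ps ∧ Z ws S ps T`; `ws ∈ A` by `hA` (`vT ws ≤ 2 n`: `isl_typ`).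
  `isl_count` with `c ws`: for given `S`, `xs` the swaps `ps` are unique (`swp_unique`): if there is none the set is empty (`0 ≤ ..`), otherwise `hZ`.  The sum over `us`: `wW ws * #us = wE ws π.es` (`pos_card`).
-/

namespace SYS.LO

open Classical SST

theorem ws_fin (r v : ℕ) (bs : List Bool) : {ws : List (List Stp) | List.Forall₂ (Wd r) bs ws ∧ vT ws ≤ v}.Finite := by
  induction bs with
  | nil =>
    refine (Set.finite_singleton ([] : List (List Stp))).subset ?_
    rintro ws ⟨h, -⟩
    cases h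
    rfl
  | cons b bs ih =>
    refine ((UP.wda_fin 3 v).image2 List.cons ih).subset ?_
    rintro ws ⟨h, hv⟩
    cases h with
    | @cons _ w _ ws h1 h2 =>
      have hv2 : vT (w :: ws) = 1 + wvol w + vT ws := by
        unfold vT
        rw [List.map_cons, List.sum_cons]
      rw [hv2] at hv
      refine ⟨w, ⟨?_, by omega⟩, ws, ⟨h2, by omega⟩, rfl⟩
      rcases h1 with ⟨-, h3, -⟩ | ⟨-, h3⟩
      · exact h3
      · rw [h3]
        exact WOk_nil 3

private theorem at_unique {D : Type} [Finite D] {S : Part D} {xs : List D} {us : List (List ℕ)} {z : ℕ × ℕ}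
    {d d' : D} (h : At S xs us z d) (h' : At S xs us z d') : d = d' := by
  obtain ⟨x, u, a, h1, h2, h3, h4⟩ := h
  obtain ⟨x', u', a', h1', h2', h3', h4'⟩ := h'
  rw [h1] at h1'
  rw [h2] at h2'
  obtain rfl := Option.some.inj h1'
  obtain rfl := Option.some.inj h2'
  rw [h3] at h3'
  obtain rfl := Option.some.inj h3'
  rw [h4, h4']

theorem swp_unique {D : Type} [Finite D] {S : Part D} {xs : List D} {us : List (List ℕ)} {sw : List ((ℕ × ℕ) × (ℕ × ℕ))}
    {ps ps' : List (D × D)} (h : Swp S xs us sw ps) (h' : Swp S xs us sw ps') : ps = ps' := by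
  unfold Swp at h h'
  induction h generalizing ps' with
  | nil =>
    cases h'
    rfl
  | @cons z p sw ps h1 _ ih =>
    cases h' with
    | @cons _ p' _ ps' h1' h2' =>
      rw [ih h2']
      have e1 : p = p' := Prod.ext (at_unique h1.1 h1'.1) (at_unique h1.2 h1'.2)
      rw [e1]

private theorem im2_card {α : Type} (A : Set α) (B : Set (List α)) :
    (Set.image2 List.cons A B).ncard = A.ncard * B.ncard := by
  rw [← Set.image_uncurry_prod, Set.ncard_image_of_injective _ ?_, Set.ncard_prod]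
  rintro ⟨a, l⟩ ⟨a', l'⟩ h
  have h1 : a :: l = a' :: l' := h
  rw [List.cons.injEq] at h1
  exact Prod.ext h1.1 h1.2

private theorem po_fin (m e : ℕ) : {u : List ℕ | u.length = e ∧ ∀ a ∈ u, a < m}.Finite ∧
    {u : List ℕ | u.length = e ∧ ∀ a ∈ u, a < m}.ncard = m ^ e := by
  induction e with
  | zero =>
    have h1 : {u : List ℕ | u.length = 0 ∧ ∀ a ∈ u, a < m} = {[]} := by
      ext u
      constructor
      · rintro ⟨h, -⟩
        exact List.length_eq_zero_iff.1 h
      · intro h
        rw [Set.mem_singleton_iff.1 h]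
        exact ⟨rfl, fun a ha => absurd ha List.not_mem_nil⟩
    rw [h1]
    exact ⟨Set.finite_singleton _, by rw [Set.ncard_singleton, pow_zero]⟩
  | succ e ih =>
    have h1 : {u : List ℕ | u.length = e + 1 ∧ ∀ a ∈ u, a < m}
        = Set.image2 List.cons (Set.Iio m) {u : List ℕ | u.length = e ∧ ∀ a ∈ u, a < m} := by
      ext u
      constructor
      · rintro ⟨h, h2⟩
        cases u with
        | nil => simp at h
        | cons a u =>
          rw [List.length_cons] at h
          exact ⟨a, h2 a List.mem_cons_self, u, ⟨by omega, fun b hb => h2 b (List.mem_cons_of_mem _ hb)⟩, rfl⟩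
      · rintro ⟨a, ha, u, ⟨h, h2⟩, rfl⟩
        refine ⟨by rw [List.length_cons, h], fun b hb => ?_⟩
        rcases List.mem_cons.1 hb with h3 | h3
        · rw [h3]
          exact ha
        · exact h2 b h3
    rw [h1]
    refine ⟨(Set.finite_Iio m).image2 _ ih.1, ?_⟩
    rw [im2_card, ih.2, Set.ncard_Iio_nat, pow_succ, mul_comm]

theorem pos_card (ws : List (List Stp)) (es : List ℕ) : {us | Pos ws es us}.Finite ∧
    (ws.length = es.length → wW ws * (({us | Pos ws es us}.ncard : ℕ) : ℝ) = wE ws es) := by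
  induction ws generalizing es with
  | nil =>
    cases es with
    | nil =>
      have h1 : {us | Pos [] [] us} = {[]} := by
        ext us
        constructor
        · rintro ⟨h, -⟩
          cases h
          rfl
        · intro h
          rw [Set.mem_singleton_iff.1 h]
          exact ⟨List.Forall₂.nil, rfl⟩
      rw [h1]
      refine ⟨Set.finite_singleton _, fun _ => ?_⟩
      rw [Set.ncard_singleton]
      simp [wW, wE]
    | cons e es =>
      have h1 : {us | Pos [] (e :: es) us} = ∅ := by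
        rw [Set.eq_empty_iff_forall_notMem]
        rintro us ⟨-, h⟩
        simp at h
      rw [h1]
      exact ⟨Set.finite_empty, fun h => by simp at h⟩
  | cons w ws ih =>
    cases es with
    | nil =>
      have h1 : {us | Pos (w :: ws) [] us} = ∅ := by
        rw [Set.eq_empty_iff_forall_notMem]
        rintro us ⟨-, h⟩
        simp at h
      rw [h1]
      exact ⟨Set.finite_empty, fun h => by simp at h⟩
    | cons e es =>
      have h1 : {us | Pos (w :: ws) (e :: es) us}
          = Set.image2 List.cons {u : List ℕ | u.length = e ∧ ∀ a ∈ u, a < wend 3 w} {us | Pos ws es us} := by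
        ext us
        constructor
        · rintro ⟨h, h2⟩
          rw [List.zip_cons_cons] at h
          cases h with
          | @cons _ u _ us h3 h4 =>
            rw [List.length_cons, List.length_cons] at h2
            exact ⟨u, h3, us, ⟨h4, by omega⟩, rfl⟩
        · rintro ⟨u, hu, us, ⟨h4, h5⟩, rfl⟩
          refine ⟨?_, by rw [List.length_cons, List.length_cons, h5]⟩
          rw [List.zip_cons_cons]
          exact List.Forall₂.cons hu h4
      rw [h1]
      obtain ⟨ih1, ih2⟩ := ih es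
      obtain ⟨p1, p2⟩ := po_fin (wend 3 w) e
      refine ⟨p1.image2 _ ih1, fun h => ?_⟩
      rw [List.length_cons, List.length_cons] at h
      have h2 := ih2 (by omega)
      rw [im2_card, p2]
      have h3 : wW (w :: ws) = wwt 1 Num.W w * wW ws := by
        unfold wW
        rw [List.map_cons, List.prod_cons]
      have h4 : wE (w :: ws) (e :: es) = (wwt 1 Num.W w * (wend 3 w : ℝ) ^ e) * wE ws es := by
        unfold wE
        rw [List.zipWith_cons_cons, List.prod_cons]
      rw [h3, h4, ← h2]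
      push_cast
      ring

private theorem wE_nn (ws : List (List Stp)) (es : List ℕ) : 0 ≤ wE ws es := by
  induction ws generalizing es with
  | nil =>
    unfold wE
    rw [List.zipWith_nil_left]
    exact zero_le_one
  | cons w ws ih =>
    cases es with
    | nil =>
      unfold wE
      rw [List.zipWith_nil_right]
      exact zero_le_one
    | cons e es =>
      have h4 : wE (w :: ws) (e :: es) = (wwt 1 Num.W w * (wend 3 w : ℝ) ^ e) * wE ws es := by
        unfold wE
        rw [List.zipWith_cons_cons, List.prod_cons]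
      rw [h4]
      exact mul_nonneg (mul_nonneg (wwt_nonneg zero_le_one Num.W_nonneg w)
        (pow_nonneg (Nat.cast_nonneg _) _)) (ih es)

theorem ev_count {n g r : ℕ} (hn : 1 ≤ n) (π : Pat)
    (Z : List (List Stp) → Part (Fin (6 * n)) → List (Fin (6 * n) × Fin (6 * n)) → Tri (Fin (6 * n)) → Prop)
    (c : List (List Stp) → ℝ) (hc : ∀ ws, 0 ≤ c ws) (A : Finset (List (List Stp)))
    (hA : ∀ ws S ps T, List.Forall₂ (Wd r) π.bs ws → vT ws ≤ 2 * n → Z ws S ps T → ws ∈ A)
    (hZ : ∀ ws ∈ A, ∀ S xs us ps, Isl ws S xs → Pos ws π.es us → Swp S xs us π.sw ps →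
      (({T | T ∈ S.Ext g ∧ Z ws S ps T}.ncard : ℕ) : ℝ) ≤ ((3 * (2 * n - vT ws)).factorial : ℝ) * c ws) :
    (({T | T ∈ Trn n g ∧ Ev r π Z T}.ncard : ℕ) : ℝ) ≤ ((6 * n).factorial : ℝ) * ∑ ws ∈ A, wE ws π.es * c ws := by
  have hsub : {T | T ∈ Trn n g ∧ Ev r π Z T} ⊆ ⋃ ws ∈ A, ⋃ us ∈ (pos_card ws π.es).1.toFinset,
      {T | T ∈ Trn n g ∧ ∃ S xs, Isl ws S xs ∧ S.Le T ∧ ∃ ps, Swp S xs us π.sw ps ∧ Z ws S ps T} := by
    rintro T ⟨hT, ws, S, xs, us, ps, h1, h2, h3, h4, h5, h6⟩
    refine Set.mem_biUnion (x := ws) (hA ws S ps T h3 (isl_typ hn h1).1 h6) ?_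
    refine Set.mem_biUnion (x := us) ?_ ⟨hT, S, xs, h1, h2, ps, h5, h6⟩
    rw [Finset.mem_coe, Set.Finite.mem_toFinset]
    exact h4
  have h1 := (Set.ncard_le_ncard hsub (Set.toFinite _)).trans (Finset.set_ncard_biUnion_le _ _)
  have h2 : (({T | T ∈ Trn n g ∧ Ev r π Z T}.ncard : ℕ) : ℝ) ≤ ∑ ws ∈ A, (((⋃ us ∈ (pos_card ws π.es).1.toFinset,
      {T | T ∈ Trn n g ∧ ∃ S xs, Isl ws S xs ∧ S.Le T ∧ ∃ ps, Swp S xs us π.sw ps ∧ Z ws S ps T}).ncard : ℕ) : ℝ) := by
    exact_mod_cast h1
  refine h2.trans ?_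
  rw [Finset.mul_sum]
  refine Finset.sum_le_sum fun ws hws => ?_
  have h3 : (((⋃ us ∈ (pos_card ws π.es).1.toFinset,
      {T | T ∈ Trn n g ∧ ∃ S xs, Isl ws S xs ∧ S.Le T ∧ ∃ ps, Swp S xs us π.sw ps ∧ Z ws S ps T}).ncard : ℕ) : ℝ) ≤
      ∑ us ∈ (pos_card ws π.es).1.toFinset, (({T | T ∈ Trn n g ∧ ∃ S xs, Isl ws S xs ∧ S.Le T ∧
        ∃ ps, Swp S xs us π.sw ps ∧ Z ws S ps T}.ncard : ℕ) : ℝ) := by
    exact_mod_cast Finset.set_ncard_biUnion_le _ _
  refine h3.trans ?_
  have h4 : ∀ us ∈ (pos_card ws π.es).1.toFinset, (({T | T ∈ Trn n g ∧ ∃ S xs, Isl ws S xs ∧ S.Le T ∧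
        ∃ ps, Swp S xs us π.sw ps ∧ Z ws S ps T}.ncard : ℕ) : ℝ) ≤ ((6 * n).factorial : ℝ) * (wW ws * c ws) := by
    intro us hus
    have hpos : Pos ws π.es us := by
      have h := (pos_card ws π.es).1.mem_toFinset.1 hus
      exact h
    refine isl_count hn ws (fun S xs T => ∃ ps, Swp S xs us π.sw ps ∧ Z ws S ps T) (hc ws) fun S xs hI => ?_
    by_cases hex : ∃ ps, Swp S xs us π.sw ps
    · obtain ⟨ps, hps⟩ := hex
      refine le_trans ?_ (hZ ws hws S xs us ps hI hpos hps)
      have h5 : {T | T ∈ S.Ext g ∧ ∃ ps, Swp S xs us π.sw ps ∧ Z ws S ps T} ⊆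
          {T | T ∈ S.Ext g ∧ Z ws S ps T} := by
        rintro T ⟨h6, ps', h7, h8⟩
        rw [← swp_unique hps h7] at h8
        exact ⟨h6, h8⟩
      exact_mod_cast Set.ncard_le_ncard h5 (Set.toFinite _)
    · have h5 : {T | T ∈ S.Ext g ∧ ∃ ps, Swp S xs us π.sw ps ∧ Z ws S ps T} = ∅ := by
        rw [Set.eq_empty_iff_forall_notMem]
        rintro T ⟨-, ps, h7, -⟩
        exact hex ⟨ps, h7⟩
      rw [h5, Set.ncard_empty, Nat.cast_zero]
      exact mul_nonneg (Nat.cast_nonneg _) (hc ws)
  refine (Finset.sum_le_sum h4).trans ?_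
  rw [Finset.sum_const, nsmul_eq_mul, ← Set.ncard_eq_toFinset_card _ (pos_card ws π.es).1]
  by_cases hl : ws.length = π.es.length
  · refine le_of_eq ?_
    rw [← (pos_card ws π.es).2 hl]
    ring
  · have h5 : {us | Pos ws π.es us} = ∅ := by
      rw [Set.eq_empty_iff_forall_notMem]
      rintro us ⟨-, h6⟩
      exact hl h6
    rw [h5, Set.ncard_empty, Nat.cast_zero, zero_mul]
    exact mul_nonneg (Nat.cast_nonneg _) (mul_nonneg (wE_nn _ _) (hc ws))

end SYS.LO
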