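import Pool.Agent.SYS.LO.Defs

/-!
# SYS-LO-IslA: types and numbers of islands

PLAN.
* `isl_typ`: induction on `Isl`.  `nil`: `Part.typ_emp hn`.  `cons`: let `F := 2 n - vT ws` (type of `S`).  `t0 ∉ S.R`, so `S.R.ncard < 6 n` and `F ≥ 1` (field `vol`); write `F = F₁ + 1`; `Part.typ_newTri` gives the
  type `(t0 :: xs) (3 :: P) F₁ 0` of `S.newTri ..`; `Part.rch_typ` gives `WOk 3 w` and `F' + wvol w = F₁`, type `(x' :: xs) (wend 3 w :: P) F' 0`.
* `isl_fin`: `xs.length = ws.length` (induction), lists of fixed length over a finite type (`List.finite_length_eq`), `Part D` is finite.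
* `isl_card`: induction on `ws`.  The set for `w :: ws` is covered by the triples `(t0, t1, t2)` and the reached regions: for `(S, xs)` with `Isl ws S xs`: number of triples `≤ (3F) (3F - 1) (3F - 2)`,
  `F = 2 n - vT ws` (embeddings of `Fin 3`, see `cyl_emb_card` in `Lib/Cyl`, or bound by choosing one after the other), for each triple the number of `(S', x')` is `(3 (F - 1)).descFactorial (3 wvol w) * wwt 1 W w`
  (`Part.rch_card`; if `¬ WOk 3 w` there is none: `Part.rch_typ`).  The product with the induction hypothesis is `(6n).descFactorial (3 (vT ws)) * (3 F).descFactorial (3 (1 + wvol w)) * ..`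
  `= (6n).descFactorial (3 vT (w :: ws)) ..` (`Nat.descFactorial` splits: `n.descFactorial (a + b) = n.descFactorial a * (n - a).descFactorial b`; prove it by induction or copy from `Lib/Cyl`).
  If `vT ws > 2 n` the set is empty by `isl_typ`.  (Use `Set.ncard_le_ncard` of an image of a sigma set, or a double counting lemma like `cyl_fib_le` in `Lib/Cyl` (private, copy it): every `q` of the first set is related to some
  element of the second set, and every element of the second is related to at most `c` elements of the first.)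
* `isl_count`: same double counting: every `T` in the set is related to some `(S, xs)` with `Isl ws S xs`; each of them is related to at most `(3 (2n - vT ws))! * c` `T`s; `isl_card`;
  `(6n).descFactorial (3 v) * (3 (2n - v))! = (6n)!` for `v ≤ 2n` (`Nat.factorial_mul_descFactorial`).
-/

namespace SYS.LO

open Classical SST

variable {n : ℕ}

private theorem isl_fib {α β : Type} (A : Set α) (B : Set β) (hA : A.Finite) (hB : B.Finite)
    (r : α → β → Prop) (hex : ∀ a ∈ A, ∃ b ∈ B, r a b) (c : ℝ)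
    (hc : ∀ b ∈ B, (({a | a ∈ A ∧ r a b}.ncard : ℕ) : ℝ) ≤ c) :
    ((A.ncard : ℕ) : ℝ) ≤ B.ncard * c := by
  have hA' : Finite A := hA
  have hB' : Finite B := hB
  have := Fintype.ofFinite B
  have hfin : ∀ b : B, Finite {a // a ∈ A ∧ r a b.1} := fun b =>
    Finite.of_injective (fun a : {a // a ∈ A ∧ r a b.1} => (⟨a.1, a.2.1⟩ : A)) fun a a' h =>
      Subtype.ext (congrArg (fun x : A => x.1) h)
  let f : (Σ b : B, {a // a ∈ A ∧ r a b.1}) → A := fun x => ⟨x.2.1, x.2.2.1⟩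
  have hf : Function.Surjective f := by
    rintro ⟨a, ha⟩
    obtain ⟨b, hb, hr⟩ := hex a ha
    exact ⟨⟨⟨b, hb⟩, ⟨a, ha, hr⟩⟩, rfl⟩
  have h1 : A.ncard ≤ ∑ b : B, Nat.card {a // a ∈ A ∧ r a b.1} := by
    rw [← Nat.card_coe_set_eq, ← Nat.card_sigma]
    exact Nat.card_le_card_of_surjective f hf
  have h2 : ((A.ncard : ℕ) : ℝ) ≤ ((∑ b : B, Nat.card {a // a ∈ A ∧ r a b.1} : ℕ) : ℝ) := by
    exact_mod_cast h1
  refine h2.trans ?_
  rw [Nat.cast_sum]
  have h3 : ∀ b ∈ (Finset.univ : Finset B), ((Nat.card {a // a ∈ A ∧ r a b.1} : ℕ) : ℝ) ≤ c :=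
    fun b _ => hc b.1 b.2
  refine (Finset.sum_le_sum h3).trans (le_of_eq ?_)
  rw [Finset.sum_const, nsmul_eq_mul, Finset.card_univ, ← Nat.card_eq_fintype_card,
    Nat.card_coe_set_eq]

private theorem isl_compl {S : Part (Fin (6 * n))} {F : ℕ} (hv : S.R.ncard + 3 * F = Nat.card (Fin (6 * n))) :
    S.Rᶜ.ncard = 3 * F := by
  have h1 := Set.ncard_add_ncard_compl S.R
  omega

private theorem isl_F {S : Part (Fin (6 * n))} {F : ℕ} (hv : S.R.ncard + 3 * F = Nat.card (Fin (6 * n))) {t : Fin (6 * n)}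
    (ht : t ∉ S.R) : 1 ≤ F := by
  have h1 := isl_compl hv
  have h2 : 0 < S.Rᶜ.ncard := (Set.ncard_pos (Set.toFinite _)).2 ⟨t, ht⟩
  omega

private theorem isl_len {ws : List (List Stp)} {S : Part (Fin (6 * n))} {xs : List (Fin (6 * n))} (h : Isl ws S xs) :
    xs.length = ws.length := by
  induction h with
  | nil => rfl
  | cons _ _ _ _ _ _ _ _ ih => rw [List.length_cons, List.length_cons, ih]

private theorem vT_nil : vT [] = 0 := rfl

private theorem vT_cons (w : List Stp) (ws : List (List Stp)) : vT (w :: ws) = 1 + wvol w + vT ws := by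
  unfold vT
  rw [List.map_cons, List.sum_cons]

private theorem wW_cons (w : List Stp) (ws : List (List Stp)) : wW (w :: ws) = wwt 1 Num.W w * wW ws := by
  unfold wW
  rw [List.map_cons, List.prod_cons]

private theorem wW_nonneg (ws : List (List Stp)) : 0 ≤ wW ws := by
  induction ws with
  | nil => exact zero_le_one
  | cons w ws ih =>
    rw [wW_cons]
    exact mul_nonneg (wwt_nonneg zero_le_one Num.W_nonneg w) ih

theorem isl_typ (hn : 1 ≤ n) {ws : List (List Stp)} {S : Part (Fin (6 * n))} {xs : List (Fin (6 * n))} (h : Isl ws S xs) :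
    vT ws ≤ 2 * n ∧ S.Typ xs (ws.map (wend 3)) (2 * n - vT ws) 0 ∧ ∀ w ∈ ws, WOk 3 w := by
  induction h with
  | nil =>
    refine ⟨Nat.zero_le _, ?_, fun w hw => absurd hw List.not_mem_nil⟩
    exact Part.typ_emp hn
  | @cons ws S S' xs t0 t1 t2 x' w h h0 h1 h2 h01 h12 h20 hr ih =>
    obtain ⟨ih1, ih2, ih3⟩ := ih
    have hF := isl_F ih2.vol h0
    obtain ⟨F1, hF1⟩ : ∃ F1, 2 * n - vT ws = F1 + 1 := ⟨2 * n - vT ws - 1, by omega⟩
    rw [hF1] at ih2
    have h3 := Part.typ_newTri ih2 h0 h1 h2 h01 h12 h20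
    obtain ⟨h4, F', h5, h6⟩ := Part.rch_typ h3 hr
    rw [vT_cons, List.map_cons]
    refine ⟨by omega, ?_, ?_⟩
    · rw [show 2 * n - (1 + wvol w + vT ws) = F' by omega]
      exact h6
    · intro w' hw'
      rcases List.mem_cons.1 hw' with h7 | h7
      · rw [h7]
        exact h4
      · exact ih3 w' h7

theorem isl_fin (ws : List (List Stp)) : {q : Part (Fin (6 * n)) × List (Fin (6 * n)) | Isl ws q.1 q.2}.Finite := by
  have h1 : ((Set.univ : Set (Part (Fin (6 * n)))) ×ˢ {l : List (Fin (6 * n)) | l.length = ws.length}).Finite :=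
    Set.Finite.prod (Set.toFinite _) (List.finite_length_eq _ _)
  refine h1.subset ?_
  rintro ⟨S, xs⟩ h
  exact ⟨trivial, isl_len h⟩

private theorem isl_ne {D : Type} {Y : Set D} (e : Fin 3 ↪ Y) {i j : Fin 3} (h : i ≠ j) :
    (e i : D) ≠ e j := fun h' => h (e.injective (Subtype.ext h'))

private def isl_mk {D : Type} {Y : Set D} (t0 t1 t2 : D) (h0 : t0 ∈ Y) (h1 : t1 ∈ Y) (h2 : t2 ∈ Y)
    (h01 : t0 ≠ t1) (h12 : t1 ≠ t2) (h20 : t2 ≠ t0) : Fin 3 ↪ Y where
  toFun := ![⟨t0, h0⟩, ⟨t1, h1⟩, ⟨t2, h2⟩]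
  inj' := by
    have k01 : (⟨t0, h0⟩ : Y) ≠ ⟨t1, h1⟩ := fun h => h01 (congrArg Subtype.val h)
    have k12 : (⟨t1, h1⟩ : Y) ≠ ⟨t2, h2⟩ := fun h => h12 (congrArg Subtype.val h)
    have k20 : (⟨t2, h2⟩ : Y) ≠ ⟨t0, h0⟩ := fun h => h20 (congrArg Subtype.val h)
    intro i j h
    fin_cases i <;> fin_cases j
    · rfl
    · exact absurd h k01
    · exact absurd h k20.symm
    · exact absurd h k01.symm
    · rfl
    · exact absurd h k12
    · exact absurd h k20
    · exact absurd h k12.symm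
    · rfl

private theorem isl_emb_card {S : Part (Fin (6 * n))} {F : ℕ}
    (hv : S.R.ncard + 3 * F = Nat.card (Fin (6 * n))) :
    Nat.card (Fin 3 ↪ ↥(S.Rᶜ)) = (3 * F).descFactorial 3 := by
  have := Fintype.ofFinite ↥(S.Rᶜ)
  rw [Nat.card_eq_fintype_card, Fintype.card_embedding_eq, Fintype.card_fin,
    ← Nat.card_eq_fintype_card, Nat.card_coe_set_eq, isl_compl hv]

/-- the new triangle -/
private noncomputable def isl_nt (S : Part (Fin (6 * n))) (e : Fin 3 ↪ ↥(S.Rᶜ)) : Part (Fin (6 * n)) :=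
  S.newTri (e 0) (e 1) (e 2) (e 0).2 (e 1).2 (e 2).2 (isl_ne e (by decide))
    (isl_ne e (by decide)) (isl_ne e (by decide))

theorem isl_card (hn : 1 ≤ n) (ws : List (List Stp)) :
    (({q : Part (Fin (6 * n)) × List (Fin (6 * n)) | Isl ws q.1 q.2}.ncard : ℕ) : ℝ) ≤
      (((6 * n).descFactorial (3 * vT ws) : ℕ) : ℝ) * wW ws := by
  induction ws with
  | nil =>
    have h1 : {q : Part (Fin (6 * n)) × List (Fin (6 * n)) | Isl [] q.1 q.2} ⊆ {(Part.emp, [])} := by
      rintro ⟨S, xs⟩ h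
      cases h
      rfl
    have h2 := Set.ncard_le_ncard h1 (Set.finite_singleton _)
    rw [Set.ncard_singleton] at h2
    have h3 : wW [] = 1 := rfl
    rw [vT_nil, h3]
    simpa using h2
  | cons w ws ih =>
    have hw0 : 0 ≤ wwt 1 Num.W w := wwt_nonneg zero_le_one Num.W_nonneg w
    by_cases hv : vT ws ≤ 2 * n
    swap
    · -- no islands
      have h1 : {q : Part (Fin (6 * n)) × List (Fin (6 * n)) | Isl (w :: ws) q.1 q.2} = ∅ := by
        rw [Set.eq_empty_iff_forall_notMem]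
        rintro ⟨S, xs⟩ h
        have h2 := (isl_typ hn h).1
        rw [vT_cons] at h2
        omega
      rw [h1, Set.ncard_empty, Nat.cast_zero]
      exact mul_nonneg (Nat.cast_nonneg _) (wW_nonneg _)
    obtain ⟨F, hF⟩ : ∃ F, F = 2 * n - vT ws := ⟨_, rfl⟩
    obtain ⟨c, hc⟩ : ∃ c : ℝ, c = (((3 * F).descFactorial 3 : ℕ) : ℝ) *
        ((((3 * (F - 1)).descFactorial (3 * wvol w) : ℕ) : ℝ) * wwt 1 Num.W w) := ⟨_, rfl⟩
    have key := isl_fib {q : Part (Fin (6 * n)) × List (Fin (6 * n)) | Isl (w :: ws) q.1 q.2}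
      {q : Part (Fin (6 * n)) × List (Fin (6 * n)) | Isl ws q.1 q.2} (isl_fin _) (isl_fin _)
      (fun a b => ∃ (e : Fin 3 ↪ ↥(b.1.Rᶜ)) (x' : Fin (6 * n)), a.2 = x' :: b.2 ∧
        Part.Rch (lrule 3) [] (isl_nt b.1 e) (e 0) w a.1 x') ?_ c ?_
    · refine key.trans ?_
      have h1 : (({q : Part (Fin (6 * n)) × List (Fin (6 * n)) | Isl ws q.1 q.2}.ncard : ℕ) : ℝ) * c ≤
          (((6 * n).descFactorial (3 * vT ws) : ℕ) : ℝ) * wW ws * c := by
        refine mul_le_mul_of_nonneg_right ih ?_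
        rw [hc]
        exact mul_nonneg (Nat.cast_nonneg _) (mul_nonneg (Nat.cast_nonneg _) hw0)
      refine h1.trans (le_of_eq ?_)
      rw [hc, wW_cons, vT_cons]
      have h2 : (6 * n).descFactorial (3 * (1 + wvol w + vT ws)) = (6 * n).descFactorial (3 * vT ws) *
          ((3 * F).descFactorial 3 * (3 * (F - 1)).descFactorial (3 * wvol w)) := by
        have h3 := Nat.descFactorial_mul_descFactorial (n := 6 * n) (k := 3 * vT ws) (m := 3 * (1 + wvol w + vT ws)) (by omega)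
        have h4 := Nat.descFactorial_mul_descFactorial (n := 3 * F) (k := 3) (m := 3 + 3 * wvol w) (by omega)
        rw [show 3 * F - 3 = 3 * (F - 1) by omega, show 3 + 3 * wvol w - 3 = 3 * wvol w by omega] at h4
        rw [show 6 * n - 3 * vT ws = 3 * F by omega,
          show 3 * (1 + wvol w + vT ws) - 3 * vT ws = 3 + 3 * wvol w by omega, ← h4] at h3
        rw [← h3]
        ring
      rw [h2]
      push_cast
      ring
    · rintro ⟨S', xs⟩ h
      cases h with
      | @cons _ S _ xs t0 t1 t2 x' _ h h0 h1 h2 h01 h12 h20 hr =>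
        exact ⟨(S, xs), h, isl_mk t0 t1 t2 h0 h1 h2 h01 h12 h20, x', rfl, hr⟩
    · rintro ⟨S, xs⟩ h
      have hS := (isl_typ hn h).2.1
      rw [← hF] at hS
      have hcc := isl_fib {a : Part (Fin (6 * n)) × List (Fin (6 * n)) | a ∈ {q : Part (Fin (6 * n)) × List (Fin (6 * n)) |
          Isl (w :: ws) q.1 q.2} ∧ ∃ (e : Fin 3 ↪ ↥(S.Rᶜ)) (x' : Fin (6 * n)), a.2 = x' :: xs ∧
          Part.Rch (lrule 3) [] (isl_nt S e) (e 0) w a.1 x'} (Set.univ : Set (Fin 3 ↪ ↥(S.Rᶜ)))
        ((isl_fin (w :: ws)).subset fun a ha => ha.1) (Set.toFinite _)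
        (fun a e => ∃ x' : Fin (6 * n), a.2 = x' :: xs ∧ Part.Rch (lrule 3) [] (isl_nt S e) (e 0) w a.1 x')
        (fun a ha => by
          obtain ⟨-, e, x', h1, h2⟩ := ha
          exact ⟨e, trivial, x', h1, h2⟩)
        ((((3 * (F - 1)).descFactorial (3 * wvol w) : ℕ) : ℝ) * wwt 1 Num.W w) ?_
      · rw [Set.ncard_univ, isl_emb_card hS.vol] at hcc
        rw [hc]
        exact hcc
      · intro e _
        have hF1 : 1 ≤ F := isl_F hS.vol (e 0).2
        have hS1 : S.Typ xs (ws.map (wend 3)) (F - 1 + 1) 0 := by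
          rwa [show F - 1 + 1 = F by omega]
        have hnt : (isl_nt S e).Typ ((e 0 : Fin (6 * n)) :: xs) (3 :: ws.map (wend 3)) (F - 1) 0 :=
          Part.typ_newTri hS1 _ _ _ _ _ _
        have hfinR : {q : Part (Fin (6 * n)) × Fin (6 * n) | Part.Rch (lrule 3) [] (isl_nt S e) (e 0) w q.1 q.2}.Finite :=
          Set.toFinite _
        have h1 : {a : Part (Fin (6 * n)) × List (Fin (6 * n)) | a ∈ {a : Part (Fin (6 * n)) × List (Fin (6 * n)) |
            a ∈ {q : Part (Fin (6 * n)) × List (Fin (6 * n)) | Isl (w :: ws) q.1 q.2} ∧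
            ∃ (e : Fin 3 ↪ ↥(S.Rᶜ)) (x' : Fin (6 * n)), a.2 = x' :: xs ∧
            Part.Rch (lrule 3) [] (isl_nt S e) (e 0) w a.1 x'} ∧
            ∃ x' : Fin (6 * n), a.2 = x' :: xs ∧ Part.Rch (lrule 3) [] (isl_nt S e) (e 0) w a.1 x'} ⊆
            (fun q : Part (Fin (6 * n)) × Fin (6 * n) => (q.1, q.2 :: xs)) ''
              {q | Part.Rch (lrule 3) [] (isl_nt S e) (e 0) w q.1 q.2} := by
          rintro ⟨S', ys⟩ ⟨-, x', h2, h3⟩
          exact ⟨(S', x'), h3, Prod.ext rfl h2.symm⟩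
        have h2 := (Set.ncard_le_ncard h1 (hfinR.image _)).trans (Set.ncard_image_le hfinR)
        have h3 : ((({q : Part (Fin (6 * n)) × Fin (6 * n) | Part.Rch (lrule 3) [] (isl_nt S e) (e 0) w q.1 q.2}.ncard : ℕ)) : ℝ) ≤
            (((3 * (F - 1)).descFactorial (3 * wvol w) : ℕ) : ℝ) * wwt 1 Num.W w := by
          by_cases hw : WOk 3 w
          · exact le_of_eq (Part.rch_card hnt hw)
          · have h4 : {q : Part (Fin (6 * n)) × Fin (6 * n) | Part.Rch (lrule 3) [] (isl_nt S e) (e 0) w q.1 q.2} = ∅ := by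
              rw [Set.eq_empty_iff_forall_notMem]
              rintro ⟨S', x'⟩ h5
              exact hw (Part.rch_typ hnt h5).1
            rw [h4, Set.ncard_empty, Nat.cast_zero]
            exact mul_nonneg (Nat.cast_nonneg _) hw0
        refine le_trans ?_ h3
        exact_mod_cast h2

theorem isl_count (hn : 1 ≤ n) {g : ℕ} (ws : List (List Stp)) (Z : Part (Fin (6 * n)) → List (Fin (6 * n)) → Tri (Fin (6 * n)) → Prop) {c : ℝ}
    (hc : 0 ≤ c) (hZ : ∀ S xs, Isl ws S xs → (({T | T ∈ S.Ext g ∧ Z S xs T}.ncard : ℕ) : ℝ) ≤ ((3 * (2 * n - vT ws)).factorial : ℝ) * c) :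
    (({T | T ∈ Trn n g ∧ ∃ S xs, Isl ws S xs ∧ S.Le T ∧ Z S xs T}.ncard : ℕ) : ℝ) ≤ ((6 * n).factorial : ℝ) * (wW ws * c) := by
  have hfac : (0 : ℝ) ≤ ((6 * n).factorial : ℝ) * (wW ws * c) :=
    mul_nonneg (Nat.cast_nonneg _) (mul_nonneg (wW_nonneg ws) hc)
  have key := isl_fib {T | T ∈ Trn n g ∧ ∃ S xs, Isl ws S xs ∧ S.Le T ∧ Z S xs T}
    {q : Part (Fin (6 * n)) × List (Fin (6 * n)) | Isl ws q.1 q.2} (Set.toFinite _) (isl_fin _)
    (fun T q => q.1.Le T ∧ Z q.1 q.2 T) (fun T hT => by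
      obtain ⟨-, S, xs, h1, h2, h3⟩ := hT
      exact ⟨(S, xs), h1, h2, h3⟩) (((3 * (2 * n - vT ws)).factorial : ℝ) * c) (fun q hq => by
      refine le_trans ?_ (hZ q.1 q.2 hq)
      have h1 : {T | T ∈ {T | T ∈ Trn n g ∧ ∃ S xs, Isl ws S xs ∧ S.Le T ∧ Z S xs T} ∧ (q.1.Le T ∧ Z q.1 q.2 T)} ⊆
          {T | T ∈ q.1.Ext g ∧ Z q.1 q.2 T} := by
        rintro T ⟨⟨h2, -⟩, h3, h4⟩
        exact ⟨⟨h2, h3⟩, h4⟩
      exact_mod_cast Set.ncard_le_ncard h1 (Set.toFinite _))
  refine key.trans ?_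
  have hcard := isl_card hn ws
  by_cases hv : vT ws ≤ 2 * n
  · have h1 : (({q : Part (Fin (6 * n)) × List (Fin (6 * n)) | Isl ws q.1 q.2}.ncard : ℕ) : ℝ) *
        (((3 * (2 * n - vT ws)).factorial : ℝ) * c) ≤
        (((6 * n).descFactorial (3 * vT ws) : ℕ) : ℝ) * wW ws * (((3 * (2 * n - vT ws)).factorial : ℝ) * c) :=
      mul_le_mul_of_nonneg_right hcard (mul_nonneg (Nat.cast_nonneg _) hc)
    refine h1.trans (le_of_eq ?_)
    have h2 := Nat.factorial_mul_descFactorial (n := 6 * n) (k := 3 * vT ws) (by omega)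
    rw [show 6 * n - 3 * vT ws = 3 * (2 * n - vT ws) by omega] at h2
    rw [← h2]
    push_cast
    ring
  · have h1 : {q : Part (Fin (6 * n)) × List (Fin (6 * n)) | Isl ws q.1 q.2} = ∅ := by
      rw [Set.eq_empty_iff_forall_notMem]
      rintro ⟨S, xs⟩ h
      exact hv (isl_typ hn h).1
    rw [h1, Set.ncard_empty, Nat.cast_zero, zero_mul]
    exact hfac

end SYS.LO
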