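import Pool.Agent.SYS.LO.DefsB
import Pool.Agent.SYS.LO.IslA
import Pool.Agent.SYS.LO.PatB
import Pool.Agent.SYS.LT.CntV
import Pool.Agent.SYS.LT.Hls

/-!
# SYS-LO-CntZ: numbers of triangulations with given islands and swaps, the three events

Notation: `F = 2 n - vT ws`, `p = pT ws`, `N = ws.length = π.es.length`, `S.Typ xs (ws.map (wend 3)) F 0` (`isl_typ`), `ps.length + 1 = N + c` (`sw_len`, `List.Forall₂.length_eq`).  If the set is empty the bound is trivial; otherwise there is a `T` with `S.Vir T ps`, so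
`∀ p ∈ ps, p.1 ∈ S.B ∧ p.2 ∈ S.B` (`vir_B`).  `(hls (S.nuL ps) S.B).sum = S.B.ncard = p` (`hls_sum` for `S.nuL ps` and for `S.nx`, `hls_nx`).

PLAN.
* `cnt_z0`: `card = 1`: `hls = {p}` (`Multiset.card_eq_one`, the sum); `vir_muG` with `h = g`: `2 g + (N - 1) + 1 = 2 g + N`.
* `cnt_z1`: `card = 2`: `|ps| = N`, `vir_two` with `h = g`, `a = 2`: `2 g + N + 2 = 2 g + N + 2`.  For `T` in the set and `A` the component: `H1 := A ∩ S.B`; it is `ν`-invariant (`ν = S.nuL ps`, `vphi_B`, `Cmp.f`; finite, so also backwards), nonempty and its complement `(S.X \ A) ∩ S.B = S.B \ H1` is nonempty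
  (`cmp_meets`); with two cycles `H1` is one of the two cycles (as a set `H1 = {e ∈ S.B | ν.SameCycle b e}`): at most `2` sets `H1` (`ncycOn ν S.B = 2`: two representatives `b₁`, `b₂`).  For each: `card (hls ν H1) = 1 = card (hls ν (S.B \ H1))`, `hls ν H1 = {p₁}`, `hls ν (S.B \ H1) = {p₂}`,
  `p₁ + p₂ = p` (`hls_sum`), both positive (`hls_pos`); `hR`.
* `cnt_z2`: `|ps| = N + 1`.  `card = 1`: the hidden part is connected (`Two` is impossible: `H1` would be a nonempty proper invariant subset of one cycle), `vir_muG` with `h = g - 1`: `2 (g - 1) + N + 1 + 1 = 2 g + N`, `hR1`.  `card = 3`: connected: `h = g - 2`: `2 (g - 2) + N + 1 + 3 = 2 g + N`, `hls = {p₁, p₂, p₃}`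
  (`Multiset.card_eq_three`), `hR2`; two components: replace `A` by `S.X \ A` if necessary, so that `H1` is one cycle (`card (hls ν H1) + card (hls ν (S.B \ H1)) = 3`: `ncycOn` is additive over invariant sets; both are positive), at most `3` sets `H1`, `vir_two` with `a = 1`, `h = g - 1`:
  `2 (g - 1) + N + 1 + 3 = 2 g + N + 2`, `hls ν (S.B \ H1) = {p₂, p₃}` (`Multiset.card_eq_two`), `hR3`.  Total `R + R + 3 R`, but `card` is fixed, so at most `4 R`.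
-/

namespace SYS.LO

open Classical SST

variable {n g : ℕ} {N K : ℕ} {π : Pat} {ws : List (List Stp)} {S : Part (Fin (6 * n))} {xs : List (Fin (6 * n))} {us : List (List ℕ)}
  {ps : List (Fin (6 * n) × Fin (6 * n))}

private theorem cz_typ (hn : 1 ≤ n) {c : ℕ} (hπ : PatOk N K c π) (hI : Isl ws S xs) (hP : Pos ws π.es us)
    (hS : Swp S xs us π.sw ps) : S.Typ xs (ws.map (wend 3)) (2 * n - vT ws) 0 ∧ (ws.map (wend 3)).length = N ∧
      ps.length + 1 = N + c ∧ (ws.map (wend 3)).sum = pT ws := by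
  obtain ⟨-, h1, -⟩ := isl_typ hn hI
  refine ⟨h1, ?_, ?_, rfl⟩
  · rw [List.length_map, hP.2, hπ.le]
  · obtain ⟨lv, -, -, h2⟩ := hπ.sw
    rw [← List.Forall₂.length_eq hS]
    exact sw_len h2

private theorem cz_sum {D : Type} [Finite D] {S : Part D} {l : List D} {P : List ℕ} {F : ℕ} (hS : S.Typ l P F 0) {ps : List (D × D)}
    (hps : ∀ p ∈ ps, p.1 ∈ S.B ∧ p.2 ∈ S.B) : (Vm.hls (S.nuL ps) S.B).sum = P.sum := by
  have e1 := Part.hls_nx hS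
  have e2 : ∀ d, S.nx d ∈ S.B ↔ d ∈ S.B := fun d =>
    Part.nuL_mem (ps := []) (fun p hp => absurd hp List.not_mem_nil)
  have e3 := Vm.hls_sum e2
  rw [e1, Multiset.sum_coe] at e3
  rw [Vm.hls_sum fun d => Part.nuL_mem hps, e3]

private theorem cz_inv {D : Type} [Finite D] {σ : Equiv.Perm D} {Z : Set D} (h : ∀ d, σ d ∈ Z ↔ d ∈ Z) {x y : D}
    (hs : σ.SameCycle x y) (hx : x ∈ Z) : y ∈ Z := by
  obtain ⟨n, -, hn⟩ := hs.exists_pow_eq'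
  rw [← hn]
  clear hn
  induction n with
  | zero => exact hx
  | succ n ih =>
    rw [pow_succ', Equiv.Perm.mul_apply]
    exact (h _).2 ih

private theorem cz_add {D : Type} [Finite D] {σ : Equiv.Perm D} {A X : Set D} (hA : ∀ d, σ d ∈ A ↔ d ∈ A)
    (hAX : A ⊆ X) : ncycOn σ X = ncycOn σ A + ncycOn σ (X \ A) := by
  unfold ncycOn
  rw [← Set.ncard_union_eq ?_ (Set.toFinite _) (Set.toFinite _)]
  · congr 1
    ext q
    constructor
    · rintro ⟨d, hd, rfl⟩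
      by_cases hdA : d ∈ A
      · exact Or.inl ⟨d, hdA, rfl⟩
      · exact Or.inr ⟨d, ⟨hd, hdA⟩, rfl⟩
    · rintro (⟨d, hd, rfl⟩ | ⟨d, hd, rfl⟩)
      · exact ⟨d, hAX hd, rfl⟩
      · exact ⟨d, hd.1, rfl⟩
  · rw [Set.disjoint_left]
    rintro q ⟨d, hd, rfl⟩ ⟨e, he, h⟩
    have hs : σ.SameCycle e d := Quotient.exact h
    exact he.2 (cz_inv hA hs.symm hd)

private theorem cz_pos {D : Type} [Finite D] {σ : Equiv.Perm D} {A : Set D} (hA : A.Nonempty) :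
    0 < ncycOn σ A := by
  obtain ⟨b, hb⟩ := hA
  unfold ncycOn
  rw [Set.ncard_pos (Set.toFinite _)]
  exact ⟨_, b, hb, rfl⟩

private theorem cz_ne {D : Type} [Finite D] {σ : Equiv.Perm D} {A : Set D} (h : 0 < ncycOn σ A) : A.Nonempty := by
  unfold ncycOn at h
  rw [Set.ncard_pos (Set.toFinite _)] at h
  obtain ⟨q, d, hd, -⟩ := h
  exact ⟨d, hd⟩

/-- the unions of one cycle -/
private def CH {D : Type} (σ : Equiv.Perm D) (B : Set D) : Set (Set D) :=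
  {H | H ⊆ B ∧ (∀ d, σ d ∈ H ↔ d ∈ H) ∧ ncycOn σ H = 1}

private theorem ch_card {D : Type} [Finite D] (σ : Equiv.Perm D) (B : Set D) : (CH σ B).ncard ≤ ncycOn σ B := by
  have hsub : CH σ B ⊆ (fun q : Quotient (Equiv.Perm.SameCycle.setoid σ) => {e : D | Quotient.mk _ e = q}) ''
      {q : Quotient (Equiv.Perm.SameCycle.setoid σ) | ∃ d ∈ B, Quotient.mk _ d = q} := by
    rintro H ⟨h1, h2, h3⟩
    obtain ⟨b, hb⟩ := cz_ne (σ := σ) (A := H) (by omega)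
    refine ⟨Quotient.mk _ b, ⟨b, h1 hb, rfl⟩, ?_⟩
    ext e
    constructor
    · intro he
      have hs : σ.SameCycle e b := Quotient.exact he
      exact cz_inv h2 hs.symm hb
    · intro he
      unfold ncycOn at h3
      rw [Set.ncard_eq_one] at h3
      obtain ⟨q, hq⟩ := h3
      have h4 : (Quotient.mk (Equiv.Perm.SameCycle.setoid σ) b) ∈
          {q : Quotient (Equiv.Perm.SameCycle.setoid σ) | ∃ d ∈ H, Quotient.mk _ d = q} := ⟨b, hb, rfl⟩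
      have h5 : (Quotient.mk (Equiv.Perm.SameCycle.setoid σ) e) ∈
          {q : Quotient (Equiv.Perm.SameCycle.setoid σ) | ∃ d ∈ H, Quotient.mk _ d = q} := ⟨e, he, rfl⟩
      rw [hq, Set.mem_singleton_iff] at h4 h5
      exact h5.trans h4.symm
  unfold ncycOn
  exact (Set.ncard_le_ncard hsub (Set.toFinite _)).trans (Set.ncard_image_le (Set.toFinite _))

private theorem cz_cmp {g : ℕ} {T : Tri (Fin (6 * n))} (hT : T ∈ S.Ext g) (hps : ∀ p ∈ ps, p.1 ∈ S.B ∧ p.2 ∈ S.B)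
    (hB : S.B.Nonempty) {A : Set (Fin (6 * n))} (hA : S.Cmp T (S.nuL ps) A) (hA' : S.Cmp T (S.nuL ps) (S.X \ A)) :
    (∀ d, S.nuL ps d ∈ A ∩ S.B ↔ d ∈ A ∩ S.B) ∧ (A ∩ S.B).Nonempty ∧ (S.B \ (A ∩ S.B)).Nonempty ∧
      (S.X \ A) ∩ S.B = S.B \ (A ∩ S.B) ∧ S.X \ (S.X \ A) = A := by
  have hle : S.Le T := hT.2
  have hcon : T.Conn := hT.1.1
  have hoff := Part.nuL_off hps
  have hBX : S.B ⊆ S.X := fun d hd => Or.inr hd
  refine ⟨fun d => ?_, ?_, ?_, ?_, ?_⟩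
  · constructor
    · rintro ⟨h1, h2⟩
      have hd : d ∈ S.B := (Part.nuL_mem hps).1 h2
      refine ⟨?_, hd⟩
      by_contra hcon2
      have h3 := hA'.f d ⟨hBX hd, hcon2⟩
      rw [Part.vphi_B hoff hd] at h3
      exact h3.2 h1
    · rintro ⟨h1, h2⟩
      have h3 := hA.f d h1
      rw [Part.vphi_B hoff h2] at h3
      exact ⟨h3, (Part.nuL_mem hps).2 h2⟩
  · exact Part.cmp_meets hle hcon hoff hB hA.sub hA.ne fun d hd => ⟨hA.a d hd, hA.f d hd⟩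
  · obtain ⟨b, hb, hbB⟩ := Part.cmp_meets hle hcon hoff hB hA'.sub hA'.ne fun d hd => ⟨hA'.a d hd, hA'.f d hd⟩
    exact ⟨b, hbB, fun h => hb.2 h.1⟩
  · ext d
    constructor
    · rintro ⟨⟨-, h2⟩, h3⟩
      exact ⟨h3, fun h => h2 h.1⟩
    · rintro ⟨h1, h2⟩
      exact ⟨⟨hBX h1, fun h => h2 ⟨h, h1⟩⟩, h1⟩
  · ext d
    constructor
    · rintro ⟨h1, h2⟩
      by_contra h3
      exact h2 ⟨h1, h3⟩
    · intro h
      exact ⟨hA.sub h, fun h2 => h2.2 h⟩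

private theorem cz_two {l : List (Fin (6 * n))} {P : List ℕ} {F k a h : ℕ} (hS : S.Typ l P F 0)
    (hps : ∀ p ∈ ps, p.1 ∈ S.B ∧ p.2 ∈ S.B) (hk : Multiset.card (Vm.hls (S.nuL ps) S.B) = k) (hk1 : 1 ≤ k) (hk3 : k ≤ 3)
    (hh : 2 * h + ps.length + k = 2 * g + P.length + 2) (ha : a ≤ 2) (hak : 2 ≤ k - 1 → a + 1 ≤ k - 1) {R : ℝ}
    (hR : ∀ H1 ⊆ S.B, (∀ d, S.nuL ps d ∈ H1 ↔ d ∈ H1) → Multiset.card (Vm.hls (S.nuL ps) H1) = 1 →
      Multiset.card (Vm.hls (S.nuL ps) (S.B \ H1)) = k - 1 → (Vm.hls (S.nuL ps) H1).sum + (Vm.hls (S.nuL ps) (S.B \ H1)).sum = P.sum →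
      (∀ p ∈ Vm.hls (S.nuL ps) H1, 1 ≤ p) → (∀ p ∈ Vm.hls (S.nuL ps) (S.B \ H1), 1 ≤ p) →
      Num.LL a (Vm.hls (S.nuL ps) H1) (Vm.hls (S.nuL ps) (S.B \ H1)) F h ≤ R) (hR0 : 0 ≤ R) :
    (({T | T ∈ S.Ext g ∧ S.Vir T ps ∧ S.NoDisc T (S.nuL ps) ∧ Two S T ps}.ncard : ℕ) : ℝ) ≤
      ((3 * F).factorial : ℝ) * (k * R) := by
  have hcard : ∀ H : Set (Fin (6 * n)), Multiset.card (Vm.hls (S.nuL ps) H) = ncycOn (S.nuL ps) H := fun H => Vm.hls_card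
  have hBk : ncycOn (S.nuL ps) S.B = k := by rw [← hcard, hk]
  have hB : S.B.Nonempty := cz_ne (σ := S.nuL ps) (by omega)
  obtain ⟨Hs, hHs⟩ : ∃ Hs : Set (Set (Fin (6 * n))), Hs = {H | H ∈ CH (S.nuL ps) S.B ∧ (S.B \ H).Nonempty} := ⟨_, rfl⟩
  have hHfin : Hs.Finite := Set.toFinite _
  have hHc : Hs.ncard ≤ k := by
    rw [← hBk]
    refine (Set.ncard_le_ncard ?_ (Set.toFinite _)).trans (ch_card _ _)
    rw [hHs]
    exact fun H hH => hH.1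
  have hsub : {T | T ∈ S.Ext g ∧ S.Vir T ps ∧ S.NoDisc T (S.nuL ps) ∧ Two S T ps} ⊆ ⋃ H1 ∈ hHfin.toFinset,
      {T | T ∈ S.Ext g ∧ S.Vir T ps ∧ S.NoDisc T (S.nuL ps) ∧ ∃ A : Set (Fin (6 * n)), S.Cmp T (S.nuL ps) A ∧
        S.Cmp T (S.nuL ps) (S.X \ A) ∧ A ∩ S.B = H1} := by
    rintro T ⟨hT, hV, hND, A, hA, hA'⟩
    obtain ⟨h1, h2, h3, h4, h5⟩ := cz_cmp hT hps hB hA hA'
    have h6 := cz_add h1 Set.inter_subset_right (X := S.B)
    have h7 := cz_pos (σ := S.nuL ps) h2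
    have h8 := cz_pos (σ := S.nuL ps) h3
    by_cases hc : ncycOn (S.nuL ps) (A ∩ S.B) = 1
    · refine Set.mem_biUnion (x := A ∩ S.B) ?_ ⟨hT, hV, hND, A, hA, hA', rfl⟩
      rw [Finset.mem_coe, Set.Finite.mem_toFinset, hHs]
      exact ⟨⟨Set.inter_subset_right, h1, hc⟩, h3⟩
    · have hc2 : ncycOn (S.nuL ps) (S.B \ (A ∩ S.B)) = 1 := by omega
      refine Set.mem_biUnion (x := S.B \ (A ∩ S.B)) ?_ ⟨hT, hV, hND, S.X \ A, hA', ?_, h4⟩
      · rw [Finset.mem_coe, Set.Finite.mem_toFinset, hHs]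
        refine ⟨⟨Set.sdiff_subset, fun d => ?_, hc2⟩, ?_⟩
        · rw [Set.mem_sdiff, Set.mem_sdiff, Part.nuL_mem hps, h1 d]
        · obtain ⟨b, hb⟩ := h2
          exact ⟨b, hb.2, fun hc => hc.2 hb⟩
      · rw [h5]
        exact hA
  have h1 := (Set.ncard_le_ncard hsub (Set.toFinite _)).trans (Finset.set_ncard_biUnion_le _ _)
  have h2 : (({T | T ∈ S.Ext g ∧ S.Vir T ps ∧ S.NoDisc T (S.nuL ps) ∧ Two S T ps}.ncard : ℕ) : ℝ) ≤
      ∑ H1 ∈ hHfin.toFinset, (({T | T ∈ S.Ext g ∧ S.Vir T ps ∧ S.NoDisc T (S.nuL ps) ∧ ∃ A : Set (Fin (6 * n)),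
        S.Cmp T (S.nuL ps) A ∧ S.Cmp T (S.nuL ps) (S.X \ A) ∧ A ∩ S.B = H1}.ncard : ℕ) : ℝ) := by
    exact_mod_cast h1
  have h3 : ∀ H1 ∈ hHfin.toFinset, (({T | T ∈ S.Ext g ∧ S.Vir T ps ∧ S.NoDisc T (S.nuL ps) ∧ ∃ A : Set (Fin (6 * n)),
        S.Cmp T (S.nuL ps) A ∧ S.Cmp T (S.nuL ps) (S.X \ A) ∧ A ∩ S.B = H1}.ncard : ℕ) : ℝ) ≤
        ((3 * F).factorial : ℝ) * R := by
    intro H1 hH1
    rw [Set.Finite.mem_toFinset, hHs] at hH1
    obtain ⟨⟨h4, h5, h6⟩, h7⟩ := hH1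
    have h8 := cz_add h5 h4
    have hν2 : ∀ d, S.nuL ps d ∈ S.B \ H1 ↔ d ∈ S.B \ H1 := fun d => by
      rw [Set.mem_sdiff, Set.mem_sdiff, Part.nuL_mem hps, h5 d]
    have h9 := Part.vir_two (n := n) (g := g) (h := h) (a := a) hS hps h4 h5 (cz_ne (σ := S.nuL ps) (by omega)) h7
      (by rw [hk]; omega) ha (by rw [hcard]; omega) (by rw [hcard]; omega)
    refine h9.trans (mul_le_mul_of_nonneg_left ?_ (Nat.cast_nonneg _))
    refine hR H1 h4 h5 (by rw [hcard]; exact h6) (by rw [hcard]; omega) ?_ (fun p hp => Vm.hls_pos hp)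
      (fun p hp => Vm.hls_pos hp)
    rw [Vm.hls_sum h5, Vm.hls_sum hν2, ← cz_sum hS hps, Vm.hls_sum fun d => Part.nuL_mem hps]
    have h10 := Set.ncard_sdiff_add_ncard_of_subset h4 (Set.toFinite _)
    omega
  refine (h2.trans (Finset.sum_le_sum h3)).trans ?_
  rw [Finset.sum_const, nsmul_eq_mul, ← Set.ncard_eq_toFinset_card _ hHfin]
  have h4 : ((Hs.ncard : ℕ) : ℝ) ≤ k := by exact_mod_cast hHc
  have h5 : (0 : ℝ) ≤ ((3 * F).factorial : ℝ) * R := mul_nonneg (Nat.cast_nonneg _) hR0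
  calc ((Hs.ncard : ℕ) : ℝ) * (((3 * F).factorial : ℝ) * R) ≤ (k : ℝ) * (((3 * F).factorial : ℝ) * R) :=
        mul_le_mul_of_nonneg_right h4 h5
    _ = _ := by ring

/-- if the set is nonempty the swaps are in the boundary -/
private theorem cz_empty {E : Set (Tri (Fin (6 * n)))} {c : ℝ} (hc : 0 ≤ c) (h : (∃ T, T ∈ E) → ((E.ncard : ℕ) : ℝ) ≤ c) :
    ((E.ncard : ℕ) : ℝ) ≤ c := by
  by_cases hex : ∃ T, T ∈ E
  · exact h hex
  · have h1 : E = ∅ := by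
      rw [Set.eq_empty_iff_forall_notMem]
      exact fun T hT => hex ⟨T, hT⟩
    rw [h1, Set.ncard_empty, Nat.cast_zero]
    exact hc

theorem cnt_z0 (hn : 1 ≤ n) (hπ : PatOk N K 0 π) (hI : Isl ws S xs) (hP : Pos ws π.es us) (hS : Swp S xs us π.sw ps) (B : ℝ) :
    (({T | T ∈ S.Ext g ∧ Z0 B ws S ps T}.ncard : ℕ) : ℝ) ≤
      ((3 * (2 * n - vT ws)).factorial : ℝ) * Num.muG {pT ws} (2 * n - vT ws) g := by
  obtain ⟨htyp, hlen, hpl, hsum⟩ := cz_typ hn hπ hI hP hS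
  refine cz_empty (mul_nonneg (Nat.cast_nonneg _) (Num.muG_nonneg _ _ _)) ?_
  rintro ⟨T0, hT0, hV0, -, hc0, -⟩
  have hps := Part.vir_B hV0
  obtain ⟨p, hp⟩ := Multiset.card_eq_one.1 hc0
  have hs := cz_sum htyp hps
  rw [hp, Multiset.sum_singleton, hsum] at hs
  have h1 := Part.vir_muG (g := g) (h := g) htyp hps (by rw [hc0, hlen]; omega)
  rw [hp, hs] at h1
  refine le_trans ?_ h1
  have h2 : {T | T ∈ S.Ext g ∧ Z0 B ws S ps T} ⊆ {T | T ∈ S.Ext g ∧ S.Vir T ps ∧ S.VConn T (S.nuL ps)} := by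
    rintro T ⟨h3, h4, h5, -⟩
    exact ⟨h3, h4, h5⟩
  exact_mod_cast Set.ncard_le_ncard h2 (Set.toFinite _)

theorem cnt_z1 (hn : 1 ≤ n) (hπ : PatOk N K 1 π) (hI : Isl ws S xs) (hP : Pos ws π.es us) (hS : Swp S xs us π.sw ps) (B : ℝ) {R : ℝ}
    (hR0 : 0 ≤ R) (hR : ∀ p₁ p₂ : ℕ, 1 ≤ p₁ → 1 ≤ p₂ → p₁ + p₂ = pT ws → Num.LL 2 {p₁} {p₂} (2 * n - vT ws) g ≤ R) :
    (({T | T ∈ S.Ext g ∧ Z1 B ws S ps T}.ncard : ℕ) : ℝ) ≤ ((3 * (2 * n - vT ws)).factorial : ℝ) * (2 * R) := by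
  obtain ⟨htyp, hlen, hpl, hsum⟩ := cz_typ hn hπ hI hP hS
  refine cz_empty (mul_nonneg (Nat.cast_nonneg _) (mul_nonneg (by norm_num) hR0)) ?_
  rintro ⟨T0, hT0, hV0, -, -, hc0, -⟩
  have hps := Part.vir_B hV0
  have h1 := cz_two (g := g) (k := 2) (a := 2) (h := g) (R := R) htyp hps hc0 (by norm_num) (by norm_num) (by rw [hlen]; omega)
    le_rfl (by norm_num) ?_ hR0
  · refine le_trans ?_ h1
    have h2 : {T | T ∈ S.Ext g ∧ Z1 B ws S ps T} ⊆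
        {T | T ∈ S.Ext g ∧ S.Vir T ps ∧ S.NoDisc T (S.nuL ps) ∧ Two S T ps} := by
      rintro T ⟨h3, h4, h5, h6, -⟩
      exact ⟨h3, h4, h5, h6⟩
    exact_mod_cast Set.ncard_le_ncard h2 (Set.toFinite _)
  · intro H1 _ _ h3 h4 h5 h6 h7
    obtain ⟨p₁, hp₁⟩ := Multiset.card_eq_one.1 h3
    obtain ⟨p₂, hp₂⟩ := Multiset.card_eq_one.1 h4
    rw [hp₁] at h5 h6 ⊢
    rw [hp₂] at h5 h7 ⊢
    rw [Multiset.sum_singleton, Multiset.sum_singleton, hsum] at h5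
    exact hR p₁ p₂ (h6 p₁ (Multiset.mem_singleton_self _)) (h7 p₂ (Multiset.mem_singleton_self _)) h5

theorem cnt_z2 (hn : 1 ≤ n) (hg : 2 ≤ g) (hπ : PatOk N K 2 π) (hI : Isl ws S xs) (hP : Pos ws π.es us) (hS : Swp S xs us π.sw ps)
    (B : ℝ) {R : ℝ} (hR0 : 0 ≤ R) (hR1 : Num.muG {pT ws} (2 * n - vT ws) (g - 1) ≤ R)
    (hR2 : ∀ p₁ p₂ p₃ : ℕ, 1 ≤ p₁ → 1 ≤ p₂ → 1 ≤ p₃ → p₁ + p₂ + p₃ = pT ws →
      Num.muG {p₁, p₂, p₃} (2 * n - vT ws) (g - 2) ≤ R ∧ Num.LL 1 {p₁} {p₂, p₃} (2 * n - vT ws) (g - 1) ≤ R) :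
    (({T | T ∈ S.Ext g ∧ Z2 B ws S ps T}.ncard : ℕ) : ℝ) ≤ ((3 * (2 * n - vT ws)).factorial : ℝ) * (4 * R) := by
  obtain ⟨htyp, hlen, hpl, hsum⟩ := cz_typ hn hπ hI hP hS
  refine cz_empty (mul_nonneg (Nat.cast_nonneg _) (mul_nonneg (by norm_num) hR0)) ?_
  rintro ⟨T0, hT0, hV0, -, -, hc0, -⟩
  have hps := Part.vir_B hV0
  have hs := cz_sum htyp hps
  have hf0 : (0 : ℝ) ≤ ((3 * (2 * n - vT ws)).factorial : ℝ) := Nat.cast_nonneg _
  rcases hc0 with hc1 | hc3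
  · -- one hole
    obtain ⟨p, hp⟩ := Multiset.card_eq_one.1 hc1
    rw [hp, Multiset.sum_singleton, hsum] at hs
    have h1 := Part.vir_muG (g := g) (h := g - 1) htyp hps (by rw [hc1, hlen]; omega)
    rw [hp, hs] at h1
    have h2 : {T | T ∈ S.Ext g ∧ Z2 B ws S ps T} ⊆ {T | T ∈ S.Ext g ∧ S.Vir T ps ∧ S.VConn T (S.nuL ps)} := by
      rintro T ⟨h3, h4, -, h5 | ⟨A, hA, hA'⟩, -⟩
      · exact ⟨h3, h4, h5⟩
      · exfalso
        have hBk : ncycOn (S.nuL ps) S.B = 1 := by rw [← Vm.hls_card, hc1]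
        have hB : S.B.Nonempty := cz_ne (σ := S.nuL ps) (by omega)
        obtain ⟨k1, k2, k3, -, -⟩ := cz_cmp h3 hps hB hA hA'
        have h6 := cz_add k1 Set.inter_subset_right (X := S.B)
        have h7 := cz_pos (σ := S.nuL ps) k2
        have h8 := cz_pos (σ := S.nuL ps) k3
        omega
    have h3 : (({T | T ∈ S.Ext g ∧ Z2 B ws S ps T}.ncard : ℕ) : ℝ) ≤
        (({T | T ∈ S.Ext g ∧ S.Vir T ps ∧ S.VConn T (S.nuL ps)}.ncard : ℕ) : ℝ) := by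
      exact_mod_cast Set.ncard_le_ncard h2 (Set.toFinite _)
    refine (h3.trans h1).trans (mul_le_mul_of_nonneg_left ?_ hf0)
    linarith
  · -- three holes
    obtain ⟨p₁, p₂, p₃, hp⟩ := Multiset.card_eq_three.1 hc3
    have h0 : ∀ p ∈ Vm.hls (S.nuL ps) S.B, 1 ≤ p := fun p hp => Vm.hls_pos hp
    have h1 := Part.vir_muG (g := g) (h := g - 2) htyp hps (by rw [hc3, hlen]; omega)
    have h1' : Num.muG (Vm.hls (S.nuL ps) S.B) (2 * n - vT ws) (g - 2) ≤ R := by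
      rw [hp] at hs h0 ⊢
      have hs2 : p₁ + p₂ + p₃ = pT ws := by
        rw [← hsum, ← hs]
        simp [add_assoc]
      exact (hR2 p₁ p₂ p₃ (h0 p₁ (by simp)) (h0 p₂ (by simp)) (h0 p₃ (by simp)) hs2).1
    have h2 := cz_two (g := g) (k := 3) (a := 1) (h := g - 1) (R := R) htyp hps hc3 (by norm_num) (by norm_num)
      (by rw [hlen]; omega) (by norm_num) (by norm_num) ?_ hR0
    · have h3 : {T | T ∈ S.Ext g ∧ Z2 B ws S ps T} ⊆ {T | T ∈ S.Ext g ∧ S.Vir T ps ∧ S.VConn T (S.nuL ps)} ∪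
          {T | T ∈ S.Ext g ∧ S.Vir T ps ∧ S.NoDisc T (S.nuL ps) ∧ Two S T ps} := by
        rintro T ⟨h3, h4, h5, h6 | h6, -⟩
        · exact Or.inl ⟨h3, h4, h6⟩
        · exact Or.inr ⟨h3, h4, h5, h6⟩
      have h4 := (Set.ncard_le_ncard h3 (Set.toFinite _)).trans (Set.ncard_union_le _ _)
      have h5 : (({T | T ∈ S.Ext g ∧ Z2 B ws S ps T}.ncard : ℕ) : ℝ) ≤
          (({T | T ∈ S.Ext g ∧ S.Vir T ps ∧ S.VConn T (S.nuL ps)}.ncard : ℕ) : ℝ) +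
          (({T | T ∈ S.Ext g ∧ S.Vir T ps ∧ S.NoDisc T (S.nuL ps) ∧ Two S T ps}.ncard : ℕ) : ℝ) := by
        exact_mod_cast h4
      have h6 := mul_le_mul_of_nonneg_left h1' hf0
      have h7 := add_le_add (h1.trans h6) h2
      refine (h5.trans h7).trans (le_of_eq ?_)
      push_cast
      ring
    · intro H1 _ _ h3 h4 h5 h6 h7
      obtain ⟨q₁, hq₁⟩ := Multiset.card_eq_one.1 h3
      obtain ⟨q₂, q₃, hq₂⟩ := Multiset.card_eq_two.1 h4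
      rw [hq₁] at h5 h6 ⊢
      rw [hq₂] at h5 h7 ⊢
      have hs2 : q₁ + q₂ + q₃ = pT ws := by
        rw [← hsum, ← h5]
        simp [add_assoc]
      exact (hR2 q₁ q₂ q₃ (h6 q₁ (by simp)) (h7 q₂ (by simp)) (h7 q₃ (by simp)) hs2).2

end SYS.LO
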