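import Pool.Agent.SYS.LO.DefsB
import Pool.Agent.SYS.LT.GauW
import Pool.Agent.SYS.LT.Vert
import Pool.Agent.SYS.LR.Cpl

/-!
# SYS-LO-Crs: two islands are disjoint or nested

`S` around the vertex of `t`, `S'` around the vertex of `t'`, the vertices are more than `2 m` apart, so the two boundaries have no common
vertex: if `b ∈ S.B`, `b' ∈ S'.B` and `T.tl b = T.tl b'` then `Dle T (m + m) (T.tl t) (T.tl t')` (`Dle.trans`, `Dle.symm`).

PLAN.
* `inner_of`: all darts at the vertex `v` are obtained by `T.s` (`T.tl_eq_iff`, `T.s = T.f * T.a`) from the dart `d`; if `e ∈ S'.R` and `e ∉ S'.B` then `S'.a e ≠ e`, `T.a e = S'.a e ∈ S'.R`, `T.s e = T.f (T.a e) ∈ S'.R`, and it is at `v`,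
  so not in `S'.B` by hypothesis.
* `inner_bd`: `P b := Inr T S' (T.tl b)`.  If `b ∈ S.B` and `P b`: `b ∈ S'.R \ S'.B`, so `T.a b ∈ S'.R` (`S'.a b ≠ b`), `T.tl (T.a b) = T.hd b = T.tl (S.nx b)` (`nx_tl`), and `S.nx b ∈ S.B`, so its vertex is not a vertex of `S'.B`;
  `inner_of` gives `P (S.nx b)`.  One hole: every `b' ∈ S.B` is `(S.nx ^ i) b` (`nx_sc` in `Lib/WordA`: `S.nx.SameCycle` on `B` is `S.s.SameCycle`; finite order, so nonnegative powers suffice).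
* `inner_start`: `S'` is connected: `S'.Con` gives `S'.Cn d e` for `d ∈ S'.R ∩ S.R`, `e ∈ S'.R \ S.R`.  By induction on `Relation.EqvGen` there is a single step from `S.R` to its complement inside `S'.R` (set `Z := S.R`; if no step of
  `S'` inside `S'.R` leaves `Z` in either direction then `d ∈ Z ↔ e ∈ Z`).  `f`-steps do not leave `S.R` (on `S'.R` and on `S.R` the maps `S'.f`, `S.f` are `T.f`, `le_f_mem`), so there is `d ∈ S'.R ∩ S.R` with `T.a d = S'.a d ∉ S.R`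
  (or the same for `T.a d`), so `S.a d = d` (otherwise `T.a d = S.a d ∈ S.R`), `d ∈ S.B`, and `S'.a d ≠ d`, so `d ∈ S'.R \ S'.B`.  The vertex of `d` is not a vertex of `S'.B`, so it is inner in `S'` (`inner_of`).
* `cross`: suppose `S.R ⊄ S'.R`, `S'.R ⊄ S.R` and `S.R`, `S'.R` are not disjoint.  `inner_start` and `inner_bd`: the vertices of all `b ∈ S.B` are inner in `S'`, and (symmetric) the vertices of all `b' ∈ S'.B` are inner in `S`.
  (1) `S'.Rᶜ ⊆ S.R`: `Z := (S'.Rᶜ ∩ S.R) ∪ S'.B ⊆ S'.X` is closed under `T.a`, under `T.f` on `S'.Rᶜ` and under `S'.nx` on `S'.B`.  [`d ∉ S'.R`, `d ∈ S.R`: `d ∉ S.B` because `S.B ⊆ S'.R`, so `T.a d = S.a d ∈ S.R`; it is not in `S'.R` or it is in `S'.X`, so in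
  `S'.B`.  `d ∈ S'.B`: `d ∈ S.R \ S.B`, so `T.a d ∈ S.R`, and `T.a d ∈ S'.X` (`X_a`).]  The inverse steps too (finite permutations, or: `HConn` is an equivalence relation, so show that membership in `Z` is preserved in both directions for
  `d ∈ S'.X`: `T.a` is an involution, `T.f d ∈ S.R ↔ d ∈ S.R`, `S'.nx` preserves `S'.B`).  `S'.HConn T` from a dart in `S.R \ S'.R` to any `d ∉ S'.R` gives `d ∈ Z`.
  (2) Gauge.  `k` on `S`, `k'` on `S'`.  For `b ∈ S'.B`: `c b := k' b * (k b)⁻¹`.  `k' (S'.nx b) = k' b * l b` (`gau_nx`), `k (T.a b) = k b * l b` (`Gau.a`, `b ∈ S.R \ S.B`), and `S'.nx b` has the vertex of `T.a b` (`nx_tl`), which is inner in `S`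
  (it is the vertex of `S'.nx b ∈ S'.B`), and `k` is constant at an inner vertex of `S` (`gau_s`: `k (S.s d) = k d`, `S.s d = T.s d` for `d ∈ S.R \ S.B`); so `c (S'.nx b) = c b`, and `c = g` is constant on `S'.B` (one hole).
  `K d := if d ∈ S'.R then k' d else g * k d`.  For all `d`: `K (T.f d) = K d * l d` and `K (T.a d) = K d * l d`.  [`T.a d` for `d ∈ S'.R`, `T.a d ∉ S'.R`: `d ∈ S'.B`: `K (T.a d) = g * k (T.a d) = g * k d * l d = k' d * l d`; for `d ∉ S'.R`,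
  `T.a d ∈ S'.R`: the same for `T.a d` with `hl.inv`; `d, T.a d ∈ S'.R` and `d ∈ S'.B`: then `T.a d ∈ S'.B` too, and `k' (T.a d) = g * k (T.a d) = g * k d * l d = k' d * l d`; `d, T.a d ∉ S'.R`: `d ∈ S.R \ S.B` by (1) and `S.B ⊆ S'.R`.]
  (3) `K (T.s d) = K d`, so `K` is a function of the vertex; for a walk `c` from `T.tl x` to `T.tl y`: `hol l c = (K x)⁻¹ * K y`; so `hol l W = 1` and `T.NullHtp W` by `hfaith`.
-/

namespace SYS.LO

open Classical SST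

variable {D : Type} [Finite D] {T : Tri D}

theorem inner_of {S' : Part D} (h : S'.Le T) {d : D} (hd : d ∈ S'.R) (hv : ∀ b ∈ S'.B, T.tl b ≠ T.tl d) :
    Inr T S' (T.tl d) := by
  rcases cpl_or h hd with h1 | ⟨b, hb, h1⟩
  · exact h1
  · exact absurd h1 (hv b hb)

theorem inner_bd {S S' : Part D} (h : S.Le T) (h' : S'.Le T) (h1 : ∀ b ∈ S.B, ∀ e ∈ S.B, S.s.SameCycle b e)
    (hv : ∀ b ∈ S.B, ∀ b' ∈ S'.B, T.tl b ≠ T.tl b') {b : D} (hb : b ∈ S.B) (hi : Inr T S' (T.tl b)) :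
    ∀ e ∈ S.B, Inr T S' (T.tl e) := by
  intro e he
  have h2 : (ret S.s S.B).SameCycle b e := (ret_same S.s hb he).2 (h1 b hb e he)
  obtain ⟨m, -, hm⟩ := h2.exists_pow_eq'
  have key : ∀ m : ℕ, (S.nx ^ m) b ∈ S.B ∧ Inr T S' (T.tl ((S.nx ^ m) b)) := by
    intro m
    induction m with
    | zero => exact ⟨hb, hi⟩
    | succ m ih =>
      obtain ⟨h3, h4⟩ := ih
      rw [pow_succ', Equiv.Perm.mul_apply]
      refine ⟨S.nx_mem.2 h3, ?_⟩
      obtain ⟨h5, h6⟩ := h4 _ rfl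
      have h7 : S'.a ((S.nx ^ m) b) ≠ (S.nx ^ m) b := fun h8 => h6 ⟨h5, h8⟩
      have h8 : T.a ((S.nx ^ m) b) ∈ S'.R := by
        rw [h'.2 _ h7]
        exact (S'.mem_R_a _).2 h5
      have h9 : T.tl (S.nx ((S.nx ^ m) b)) = T.tl (T.a ((S.nx ^ m) b)) := tl_nx h h3
      rw [h9]
      refine inner_of h' h8 fun b' hb' h10 => ?_
      exact hv _ (S.nx_mem.2 h3) b' hb' (h9.trans h10.symm)
  have h3 := (key m).2
  have h4 : (S.nx ^ m) b = e := hm
  rw [h4] at h3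
  exact h3

private theorem cr_step {S S' : Part D} (h : S.Le T) (h' : S'.Le T) (hn : ∀ b ∈ S.B, ¬ Inr T S' (T.tl b))
    (hv : ∀ b ∈ S.B, ∀ b' ∈ S'.B, T.tl b ≠ T.tl b') {p : D} (hp : p ∈ S'.R) (hpS : p ∈ S.R) : S'.a p ∈ S.R := by
  by_cases h1 : S'.a p = p
  · rw [h1]; exact hpS
  · by_contra h2
    have h3 : T.a p = S'.a p := h'.2 p h1
    have h4 : S.a p = p := by
      by_contra h5
      apply h2
      rw [← h3, h.2 p h5]
      exact (S.mem_R_a p).2 hpS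
    have h5 : p ∈ S.B := ⟨hpS, h4⟩
    refine hn p h5 (inner_of h' hp fun b' hb' h6 => hv p h5 b' hb' h6.symm)

theorem inner_start {S S' : Part D} (h : S.Le T) (h' : S'.Le T) (hc : S'.Con) (hv : ∀ b ∈ S.B, ∀ b' ∈ S'.B, T.tl b ≠ T.tl b')
    {d e : D} (hd : d ∈ S'.R) (hd' : d ∈ S.R) (he : e ∈ S'.R) (he' : e ∉ S.R) : ∃ b ∈ S.B, Inr T S' (T.tl b) := by
  by_contra hcon
  push Not at hcon
  have key : ∀ p q, S'.Cn p q → (p ∈ S'.R ↔ q ∈ S'.R) ∧ (p ∈ S'.R → (p ∈ S.R ↔ q ∈ S.R)) := by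
    intro p q hpq
    unfold Part.Cn at hpq
    induction hpq with
    | rel p q hpq =>
      rcases hpq with rfl | rfl
      · refine ⟨(S'.mem_R_a p).symm, fun hp => ⟨cr_step h h' hcon hv hp, fun h1 => ?_⟩⟩
        have h2 := cr_step h h' hcon hv ((S'.mem_R_a p).2 hp) h1
        rwa [S'.aa] at h2
      · refine ⟨(S'.mem_R_f p).symm, fun hp => ?_⟩
        rw [← h'.1 p hp]
        exact (Part.le_f_mem h p).symm
    | refl p => exact ⟨Iff.rfl, fun _ => Iff.rfl⟩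
    | symm p q _ ih => exact ⟨ih.1.symm, fun hq => (ih.2 (ih.1.2 hq)).symm⟩
    | trans p q r _ _ ih1 ih2 => exact ⟨ih1.1.trans ih2.1, fun hp => (ih1.2 hp).trans (ih2.2 (ih1.1.1 hp))⟩
  exact he' (((key d e (hc d hd e he)).2 hd).1 hd')

private theorem cr_const {G : Type} [Group G] {l : D → G} (hl : Flat T l) {S : Part D} (h : S.Le T) {k : D → G} (hk : S.Gau T l k)
    {v : T.V} (hv : Inr T S v) {d e : D} (hd : T.tl d = v) (he : T.tl e = v) : k d = k e := by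
  have h1 : T.s.SameCycle d e := (Tri.tl_eq_iff T d e).1 (hd.trans he.symm)
  obtain ⟨m, -, hm⟩ := h1.exists_pow_eq'
  have key : ∀ m : ℕ, T.tl ((T.s ^ m) d) = v ∧ k ((T.s ^ m) d) = k d := by
    intro m
    induction m with
    | zero => exact ⟨hd, rfl⟩
    | succ m ih =>
      obtain ⟨h2, h3⟩ := ih
      rw [pow_succ', Equiv.Perm.mul_apply]
      obtain ⟨h4, h5⟩ := hv _ h2
      refine ⟨by rw [Tri.tl_s, h2], ?_⟩
      rw [Part.le_s h h4 h5, Part.gau_s h hl hk h4 h5, h3]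
  rw [← hm]
  exact (key m).2.symm

theorem cross {G : Type} [Group G] {l : D → G} (hl : Flat T l) (hfaith : ∀ c : List D, T.Closed c → (hol l c = 1 ↔ T.NullHtp c))
    {W : List D} (hW : T.Closed W) (hW1 : ¬ T.NullHtp W) {m : ℕ} {S S' : Part D} {t t' : D} (h : Isd T m S t) (h' : Isd T m S' t')
    (hc : S.HConn T) (hc' : S'.HConn T) (h1 : ∀ b ∈ S.B, ∀ e ∈ S.B, S.s.SameCycle b e)
    (h1' : ∀ b ∈ S'.B, ∀ e ∈ S'.B, S'.s.SameCycle b e) {k k' : D → G} (hk : S.Gau T l k) (hk' : S'.Gau T l k')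
    (hd : ¬ Dle T (2 * m) (T.tl t) (T.tl t')) : S.R ⊆ S'.R ∨ S'.R ⊆ S.R ∨ Disjoint S.R S'.R := by
  by_contra hcon
  push Not at hcon
  obtain ⟨hn1, hn2, hn3⟩ := hcon
  obtain ⟨q, hq, hq'⟩ := Set.not_subset.1 hn1
  obtain ⟨r, hr', hr⟩ := Set.not_subset.1 hn2
  obtain ⟨p, hp, hp'⟩ := Set.not_disjoint_iff.1 hn3
  have hv : ∀ b ∈ S.B, ∀ b' ∈ S'.B, T.tl b ≠ T.tl b' := by
    intro b hb b' hb' hbb
    apply hd
    have g1 := h.bd b hb
    have g2 := (h'.bd b' hb').symm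
    rw [hbb] at g1
    rw [two_mul]
    exact g1.trans g2
  have hv' : ∀ b' ∈ S'.B, ∀ b ∈ S.B, T.tl b' ≠ T.tl b := fun b' hb' b hb e => hv b hb b' hb' e.symm
  have i1 : ∀ e ∈ S.B, Inr T S' (T.tl e) := by
    obtain ⟨b, hb, hi⟩ := inner_start h.le h'.le h'.con hv hp' hp hr' hr
    exact inner_bd h.le h'.le h1 hv hb hi
  have i2 : ∀ e ∈ S'.B, Inr T S (T.tl e) := by
    obtain ⟨b, hb, hi⟩ := inner_start h'.le h.le h.con hv' hp hp' hq hq'
    exact inner_bd h'.le h.le h1' hv' hb hi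
  -- (1)
  have hXB : ∀ d ∈ S'.X, d ∉ S.B := by
    intro d hdX hdB
    obtain ⟨g1, g2⟩ := i1 d hdB d rfl
    rcases hdX with g3 | g3
    · exact g3 g1
    · exact g2 g3
  have ha1 : ∀ d ∈ S'.X, d ∈ S.R → T.a d ∈ S.R := by
    intro d hdX hdR
    have g1 : S.a d ≠ d := fun g2 => hXB d hdX ⟨hdR, g2⟩
    rw [h.le.2 d g1]
    exact (S.mem_R_a d).2 hdR
  have hP : ∀ d e, S'.Hc T d e → (d ∈ S.R ↔ e ∈ S.R) := by
    intro d e hde
    refine Part.hc_ind (fun d e => (d ∈ S.R ↔ e ∈ S.R)) (fun _ => Iff.rfl) (fun _ _ g => g.symm) (fun _ _ _ g g' => g.trans g')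
      ?_ ?_ ?_ hde
    · intro d hdX
      refine ⟨ha1 d hdX, fun g => ?_⟩
      have g1 := ha1 (T.a d) ((Part.X_a h'.le d).2 hdX) g
      rwa [T.aa] at g1
    · intro d _
      exact (Part.le_f_mem h.le d).symm
    · intro d hdB
      exact ⟨fun _ => (i2 _ (S'.nx_mem.2 hdB) _ rfl).1, fun _ => (i2 d hdB d rfl).1⟩
  have hXR : ∀ d ∈ S'.X, d ∈ S.R := fun d hdX => (hP q d (hc' q (Or.inl hq') d hdX)).1 hq
  -- (2)
  have hca : ∀ d ∈ S'.X, k (T.a d) = k d * l d := fun d hdX => hk.a d (hXR d hdX) (hXB d hdX)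
  have hstep : ∀ b ∈ S'.B, k' (S'.nx b) * (k (S'.nx b))⁻¹ = k' b * (k b)⁻¹ := by
    intro b hb
    have g1 := Part.gau_nx h'.le hl hk' hb
    have g2 := hca b (Or.inr hb)
    have g3 : T.tl (S'.nx b) = T.tl (T.a b) := tl_nx h'.le hb
    have g4 : k (S'.nx b) = k (T.a b) := cr_const hl h.le hk (i2 _ (S'.nx_mem.2 hb)) rfl g3.symm
    rw [g4, g1, g2, mul_inv_rev]
    group
  obtain ⟨g, hg⟩ : ∃ g : G, ∀ b ∈ S'.B, k' b = g * k b := by
    by_cases hne : ∃ b, b ∈ S'.B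
    · obtain ⟨b, hb⟩ := hne
      refine ⟨k' b * (k b)⁻¹, fun e he => ?_⟩
      have g2 : (ret S'.s S'.B).SameCycle b e := (ret_same S'.s hb he).2 (h1' b hb e he)
      obtain ⟨m, -, hm⟩ := g2.exists_pow_eq'
      have key : ∀ m : ℕ, (S'.nx ^ m) b ∈ S'.B ∧
          k' ((S'.nx ^ m) b) * (k ((S'.nx ^ m) b))⁻¹ = k' b * (k b)⁻¹ := by
        intro m
        induction m with
        | zero => exact ⟨hb, rfl⟩
        | succ m ih =>
          rw [pow_succ', Equiv.Perm.mul_apply]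
          exact ⟨S'.nx_mem.2 ih.1, (hstep _ ih.1).trans ih.2⟩
      have g3 := (key m).2
      have g4 : (S'.nx ^ m) b = e := hm
      rw [g4] at g3
      rw [← g3, inv_mul_cancel_right]
    · exact ⟨1, fun b hb => absurd ⟨b, hb⟩ hne⟩
  obtain ⟨K, hK⟩ : ∃ K : D → G, ∀ d, K d = if d ∈ S'.R then k' d else g * k d := ⟨_, fun _ => rfl⟩
  have hKX : ∀ d ∈ S'.X, K d = g * k d := by
    intro d hdX
    rw [hK]
    rcases hdX with g1 | g1
    · rw [if_neg g1]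
    · have g2 : d ∈ S'.R := g1.1
      rw [if_pos g2, hg d g1]
  have hKf : ∀ d, K (T.f d) = K d * l d := by
    intro d
    by_cases hdR : d ∈ S'.R
    · rw [hK, hK, if_pos hdR, if_pos ((Part.le_f_mem h'.le d).2 hdR), hk'.f d hdR]
    · rw [hK, hK, if_neg hdR, if_neg fun g1 => hdR ((Part.le_f_mem h'.le d).1 g1), hk.f d (hXR d (Or.inl hdR)), mul_assoc]
  have hKa : ∀ d, K (T.a d) = K d * l d := by
    intro d
    by_cases hdX : d ∈ S'.X
    · rw [hKX d hdX, hKX _ ((Part.X_a h'.le d).2 hdX), hca d hdX, mul_assoc]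
    · have g1 : d ∈ S'.R := by
        by_contra g1
        exact hdX (Or.inl g1)
      have g2 : d ∉ S'.B := fun g2 => hdX (Or.inr g2)
      have g3 : S'.a d ≠ d := fun g3 => g2 ⟨g1, g3⟩
      have g4 : T.a d ∈ S'.R := by
        rw [h'.le.2 d g3]
        exact (S'.mem_R_a d).2 g1
      rw [hK, hK, if_pos g4, if_pos g1, hk'.a d g1 g2]
  -- (3)
  have hKs : ∀ d, K (T.s d) = K d := by
    intro d
    rw [Tri.s_apply, hKf, hKa, hl.inv, mul_inv_cancel_right]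
  have hKv : ∀ d e, T.tl d = T.tl e → K d = K e := by
    intro d e hde
    obtain ⟨m, -, hm⟩ := ((Tri.tl_eq_iff T d e).1 hde).exists_pow_eq'
    have key : ∀ m : ℕ, K ((T.s ^ m) d) = K d := by
      intro m
      induction m with
      | zero => rfl
      | succ m ih => rw [pow_succ', Equiv.Perm.mul_apply, hKs, ih]
    rw [← hm, key m]
  have hKw : ∀ (c : List D) (d e : D), T.IsWalk (T.tl d) c (T.tl e) → hol l c = (K d)⁻¹ * K e := by
    intro c
    induction c with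
    | nil =>
      intro d e hw
      rw [hol_nil, hKv d e hw, inv_mul_cancel]
    | cons x c ih =>
      rintro d e ⟨hx, hw⟩
      rw [hol_cons, ih (T.a x) e hw, hKa, ← hKv x d hx, mul_inv_rev]
      group
  obtain ⟨v, hv0⟩ := hW
  obtain ⟨d, rfl⟩ : ∃ d, T.tl d = v := Quotient.exists_rep v
  apply hW1
  rw [← hfaith W ⟨_, hv0⟩, hKw W d d hv0, inv_mul_cancel]

end SYS.LO
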