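import Pool.Agent.SYS.LO.DefsB

/-!
# SYS-LO-Dat: the data of the deterministic part. DO NOT CHANGE.
-/

namespace SYS.LO

open Classical SST

/-- The triangulation `T` with a faithful flat labelling, a partition into cells, levels, and a closed walk `d0 :: W` whose darts have
levels at most `Λ`. -/
structure Dat {n : ℕ} (T : Tri (Fin (6 * n))) {G : Type} [Group G] (l : Fin (6 * n) → G) (r Λ : ℕ)
    (cell : Fin (6 * n) → Part (Fin (6 * n))) (bl : Fin (6 * n) → Bool) (r0 : Fin (6 * n)) (lev : Fin (6 * n) → ℕ)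
    (P E : Fin (6 * n) → Fin (6 * n)) (d0 : Fin (6 * n)) (W : List (Fin (6 * n))) : Prop where
  hn : 1 ≤ n
  conn : T.Conn
  flat : Flat T l
  faith : ∀ c : List (Fin (6 * n)), T.Closed c → (hol l c = 1 ↔ T.NullHtp c)
  sys : CSys T r cell bl
  tree : Tree T cell r0 lev P E
  walk : T.IsWalk (T.tl d0) (d0 :: W) (T.tl d0)
  hom : T.NullHom (d0 :: W)
  htp : ¬ T.NullHtp (d0 :: W)
  lev_le : ∀ d ∈ d0 :: W, lev d ≤ Λ

end SYS.LO
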