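import Pool.Agent.SYS.LO.Defs
import Pool.Agent.SYS.LT.Closing
import Pool.Agent.SYS.LT.CrossP
import Pool.Agent.SYS.LT.TwoB
import Pool.Agent.SYS.LP.Dst

/-!
# Project SYS, lower bound (T1): states, events (definitions). DO NOT CHANGE.

* `Isd T m S t`: `S` is a connected region which contains the face of `t`; its boundary vertices are within `m` of the vertex of `t`.
* `Sta`: a list of cells `ds`, joined by the swaps `ps`: region `S`, gauge `κ` (of the flat labelling `l`) which jumps only by elements of `H`.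
* `Z0`, `Z1`, `Z2`: the three events of the first moment: too large configuration (merges only), one separating closing, two closings.
-/

namespace SYS.LO

open Classical SST

section
variable {D : Type}

/-- Connected region around the vertex of `t`. -/
structure Isd (T : Tri D) (m : ℕ) (S : Part D) (t : D) : Prop where
  le : S.Le T
  con : S.Con
  mem : t ∈ S.R
  bd : ∀ b ∈ S.B, Dle T m (T.tl t) (T.tl b)

/-- All darts at the vertex `v` are inner darts of `S`. -/
def Inr (T : Tri D) (S : Part D) (v : T.V) : Prop := ∀ d, T.tl d = v → d ∈ S.R ∧ d ∉ S.B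

end

section
variable {D : Type} [Finite D]

/-- State of the construction. -/
structure Sta {G : Type} [Group G] (T : Tri D) (r : ℕ) (cell : D → Part D) (bl : D → Bool) (l : D → G) (H : Subgroup G) (ds : List D)
    (ps : List (D × D)) (ws : List (List Stp)) (S : Part D) (xs : List D) (κ : D → G) : Prop where
  reg : Reg T r cell bl ds ws S xs
  vir : S.Vir T ps
  con : S.VConn T (S.nuL ps)
  gau : S.Gau T l κ
  clo : Part.Clo κ H ps

/-- The swaps join all islands, and there is one hole. -/
def One (S : Part D) (ps : List (D × D)) : Prop :=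
  (∀ b ∈ S.B, ∀ b' ∈ S.B, (S.nuL ps).SameCycle b b') ∧ ∀ d ∈ S.R, ∀ e ∈ S.R, S.Cls ps d e

/-- Two components. -/
def Two (S : Part D) (T : Tri D) (ps : List (D × D)) : Prop :=
  ∃ A : Set D, S.Cmp T (S.nuL ps) A ∧ S.Cmp T (S.nuL ps) (S.X \ A)

/-- Size of the islands. -/
def szT (ws : List (List Stp)) : ℕ := pT ws + vT ws

/-- The configuration (merges only) has just become larger than `B`. -/
def Z0 (B : ℝ) (ws : List (List Stp)) (S : Part D) (ps : List (D × D)) (T : Tri D) : Prop :=
  S.Vir T ps ∧ S.VConn T (S.nuL ps) ∧ Multiset.card (Vm.hls (S.nuL ps) S.B) = 1 ∧ B < szT ws ∧ (szT ws.tail : ℝ) ≤ B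

/-- One closing which separates, no disc. -/
def Z1 (B : ℝ) (ws : List (List Stp)) (S : Part D) (ps : List (D × D)) (T : Tri D) : Prop :=
  S.Vir T ps ∧ S.NoDisc T (S.nuL ps) ∧ Two S T ps ∧ Multiset.card (Vm.hls (S.nuL ps) S.B) = 2 ∧ (szT ws : ℝ) ≤ B

/-- Two closings, no disc. -/
def Z2 (B : ℝ) (ws : List (List Stp)) (S : Part D) (ps : List (D × D)) (T : Tri D) : Prop :=
  S.Vir T ps ∧ S.NoDisc T (S.nuL ps) ∧ (S.VConn T (S.nuL ps) ∨ Two S T ps) ∧
    (Multiset.card (Vm.hls (S.nuL ps) S.B) = 1 ∨ Multiset.card (Vm.hls (S.nuL ps) S.B) = 3) ∧ (szT ws : ℝ) ≤ B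

end

end SYS.LO
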