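import Pool.Agent.SYS.LO.Defs
import Pool.Agent.SYS.LP.Dst

/-!
# SYS-LO-Lev: levels and parents of the cells; distances

PLAN.
* `exists_tree`: `A 0 := (cell r0).R`, `A (k + 1) := A k ∪ {d | ∃ e ∈ A k, ∃ d' ∈ (cell d).R, T.tl d' = T.tl e}` (define by recursion on `ℕ`).  By induction every `A k` is a union of cells: `d ∈ A k → e ∈ (cell d).R → e ∈ A k` (`CSys.eq`, `CSys.mem`).
  The union of the `A k` is closed under `T.f` (a cell contains with `d` the dart `T.f d`: `(cell d).R` is invariant under `T.f`, `Cell` gives `S.Le T`, `T.f d = S.f d` on `S.R`) and under `T.a` (`T.tl (T.a d) = T.tl (T.f d)`, `T.f d ∈ A k`, so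
  `T.a d ∈ A (k + 1)`); `T.Conn` gives everything.  `lev d := Nat.find` (least `k` with `d ∈ A k`).  `same`: `A k` unions of cells.  `lip`: `e ∈ A (lev d + 1)` with `d' = e`.
  For `lev e ≠ 0`: `e ∈ A (k + 1)`, `e ∉ A k`, `k = lev e - 1`: there are `e0 ∈ A k`, `d' ∈ (cell e).R`, `T.tl d' = T.tl e0`; `lev e0 ≤ k` and `lev e = lev d' ≤ lev e0 + 1` (`same`, `lip`), so `lev e0 = k`.
  The pair `(e0, d')` depends only on the region: choose a function `F : Part D → D × D` (for `Q` in the image of `cell` with nonzero level: `∃ p, lev p.1 + 1 = lev of the cell ∧ p.2 ∈ Q.R ∧ T.tl p.1 = T.tl p.2`; otherwise anything),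
  `P e := (F (cell e)).1`, `E e := (F (cell e)).2`; `inv` from `CSys.eq`.
* `lev_walk`: induction on the walk `c` from the vertex of `e`: `c = d :: c'`: `T.tl d = T.tl e`, `lev d ≤ lev e + 1`, `T.f d` is in the cell of `d` (same level), `T.tl (T.f d) = T.hd d`.  `c = []`: `lip`.  For nonempty `c` use the bound
  `lev f ≤ lev d' + (number of remaining darts) + 1`; all together `lev f ≤ lev e + c.length + 1`.
* `lev_good`: `x`, `y` good, a walk `c` from `x` to `y`, `c.length ≤ 2 m + 1`, `q := m - 2`.  If `c.length ≤ 2 q`: let `z` be the vertex after `min q c.length` steps; all darts at `z` are in both cells (`Dle.symm`); take any dart at `z` (`T.tl` is surjective: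
  `Quotient.exists_rep`); so the cells are equal.  Otherwise cut `c = c1 ++ c2 ++ c3` with `c1.length = q = c3.length`, `c2.length ≤ 5`: `m ≥ 2`: `2 m + 1 - 2 (m - 2) = 5`; `m ≤ 1`: `c.length ≤ 3`; any dart at the end of `c1` is in the cell of `x`, any dart at the
  start of `c3` is in the cell of `y`; for `c2` apply `lev_walk` to darts of these vertices: `lev ≤ + 5 + 1`.
* `lev_path` (by the growth of `Z`): for every `s` with `1 ≤ s ≤ C.card` there are `Z ⊆ C` with `Z.card = s` and for every `x ∈ Z` a list `L` of distinct elements of `Z` with head `x` and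
  `∀ d, T.tl d = x → lev d + (if x ∈ Bad then 2 m + 3 else 0) ≤ 6 * L.length + 2 * (2 m + 3) * (number of elements of L in Bad)`.
  Start: `Z = {T.tl r0}`, `L = [T.tl r0]`, `lev d ≤ lev r0 + 1 = 1`.  Step (`hconn`, `Z ≠ C`): `x ∈ Z`, `y ∈ C \ Z`, `Dle T (2 m + 1) x y`, new list `y :: L`.  `y` bad: `lev ≤ lev + (2 m + 1) + 1` (`lev_walk` from a dart of `x`), the number of bad elements grows by one;
  `y` good and `x` bad: the term of `x` pays for `2 m + 3`; both good: `lev_good`, `+ 6` (the darts at `x` are in the cell of `e_x`, `Dle.refl`, `Dle.mono`).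
* `lev_dist`: `L` for `x`: `L.length ≤ C.card` (`List.Nodup`, elements in `C`), number of bad elements `≤ Bad.card ≤ M1`; then `lev_walk` along the walk of length `≤ 2 m` from `x` to `T.tl d`.
-/

namespace SYS.LO

open Classical SST

variable {D : Type} [Finite D] {T : Tri D} {r : ℕ} {cell : D → Part D} {bl : D → Bool} {r0 : D} {lev : D → ℕ} {P E : D → D}

private theorem f_mem (hs : CSys T r cell bl) (d : D) : T.f d ∈ (cell d).R := by
  have h1 : (cell d).f d ≠ d := hs.mem d
  have h2 := (hs.ok d).1.1 d h1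
  rw [h2]
  intro h3
  exact h1 ((cell d).f.injective h3)

private theorem tl_surj (v : T.V) : ∃ d : D, T.tl d = v := Quotient.exists_rep v

/-- the first `k` generations of cells -/
private def AA (T : Tri D) (cell : D → Part D) (r0 : D) : ℕ → Set D
  | 0 => (cell r0).R
  | k + 1 => AA T cell r0 k ∪ {d | ∃ e ∈ AA T cell r0 k, ∃ d' ∈ (cell d).R, T.tl d' = T.tl e}

private theorem AA_cell (hs : CSys T r cell bl) (r0 : D) (k : ℕ) {d e : D} (hd : d ∈ AA T cell r0 k)
    (he : e ∈ (cell d).R) : e ∈ AA T cell r0 k := by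
  induction k with
  | zero =>
    have h1 : d ∈ (cell r0).R := hd
    rw [hs.eq r0 d h1] at he
    exact he
  | succ k ih =>
    rcases hd with hd | hd
    · exact Or.inl (ih hd)
    · obtain ⟨e', he', d', hd', h⟩ := hd
      refine Or.inr ⟨e', he', d', ?_, h⟩
      rw [hs.eq d e he]
      exact hd'

private theorem AA_mono (r0 : D) {k l : ℕ} (h : k ≤ l) : AA T cell r0 k ⊆ AA T cell r0 l := by
  induction h with
  | refl => exact subset_rfl
  | step _ ih => exact ih.trans Set.subset_union_left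

private theorem AA_all (hT : T.Conn) (hs : CSys T r cell bl) (r0 : D) (d : D) : ∃ k, d ∈ AA T cell r0 k := by
  have h : {d | ∃ k, d ∈ AA T cell r0 k} = Set.univ := by
    apply hT
    · exact ⟨r0, 0, hs.mem r0⟩
    · rintro d ⟨k, hk⟩
      have h1 : T.f d ∈ AA T cell r0 k := AA_cell hs r0 k hk (f_mem hs d)
      refine ⟨⟨k + 1, Or.inr ⟨T.f d, h1, T.a d, hs.mem _, ?_⟩⟩, ⟨k, h1⟩⟩
      rw [T.tl_f]
      rfl
  have h2 : d ∈ {d | ∃ k, d ∈ AA T cell r0 k} := by
    rw [h]
    exact Set.mem_univ d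
  exact h2

theorem exists_tree (hT : T.Conn) (hs : CSys T r cell bl) (r0 : D) : ∃ (lev : D → ℕ) (P E : D → D), Tree T cell r0 lev P E := by
  have hex := AA_all hT hs r0
  obtain ⟨lev, hlev⟩ : ∃ lev : D → ℕ, ∀ d k, d ∈ AA T cell r0 k ↔ lev d ≤ k := by
    refine ⟨fun d => Nat.find (hex d), fun d k => ⟨fun h => Nat.find_min' (hex d) h, fun h => ?_⟩⟩
    exact AA_mono r0 h (Nat.find_spec (hex d))
  have hself : ∀ d, d ∈ AA T cell r0 (lev d) := fun d => (hlev d _).2 le_rfl
  have hle : ∀ d, ∀ e ∈ (cell d).R, lev e ≤ lev d := fun d e he =>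
    (hlev e _).1 (AA_cell hs r0 _ (hself d) he)
  have hsame : ∀ d, ∀ e ∈ (cell d).R, lev e = lev d := by
    intro d e he
    refine le_antisymm (hle d e he) (hle e d ?_)
    rw [hs.eq d e he]
    exact hs.mem d
  have hlip : ∀ d e, T.tl d = T.tl e → lev e ≤ lev d + 1 := by
    intro d e h
    exact (hlev e _).1 (Or.inr ⟨d, hself d, e, hs.mem e, h.symm⟩)
  have hpar : ∀ e, lev e ≠ 0 → ∃ p : D × D, lev p.1 + 1 = lev e ∧ p.2 ∈ (cell e).R ∧ T.tl p.1 = T.tl p.2 := by
    intro e he
    obtain ⟨k, hk⟩ := Nat.exists_eq_succ_of_ne_zero he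
    have h1 : e ∈ AA T cell r0 (k + 1) := (hlev e _).2 hk.le
    rcases h1 with h1 | ⟨e0, he0, d', hd', h⟩
    · have := (hlev e _).1 h1
      omega
    · have h2 := (hlev e0 _).1 he0
      have h3 := hlip e0 d' h.symm
      have h4 := hsame e d' hd'
      exact ⟨(e0, d'), by show lev e0 + 1 = lev e; omega, hd', h.symm⟩
  obtain ⟨F, hF⟩ : ∃ F : Part D → ℕ → D × D, ∀ e, lev e ≠ 0 →
      lev (F (cell e) (lev e)).1 + 1 = lev e ∧ (F (cell e) (lev e)).2 ∈ (cell e).R ∧
        T.tl (F (cell e) (lev e)).1 = T.tl (F (cell e) (lev e)).2 := by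
    refine ⟨fun S l => if h : ∃ p : D × D, lev p.1 + 1 = l ∧ p.2 ∈ S.R ∧ T.tl p.1 = T.tl p.2 then h.choose
      else (r0, r0), fun e he => ?_⟩
    have h := hpar e he
    simp only [dif_pos h]
    exact h.choose_spec
  refine ⟨lev, fun e => (F (cell e) (lev e)).1, fun e => (F (cell e) (lev e)).2, ?_, hsame, hlip, hF, ?_⟩
  · intro e
    constructor
    · intro h
      have h1 : e ∈ AA T cell r0 0 := (hlev e 0).2 h.le
      exact h1
    · intro h
      have h1 : e ∈ AA T cell r0 0 := h
      exact Nat.le_zero.1 ((hlev e 0).1 h1)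
  · intro d e he
    rw [hs.eq d e he, hsame d e he]
    exact ⟨rfl, rfl⟩

theorem lev_walk (hs : CSys T r cell bl) (ht : Tree T cell r0 lev P E) {e f : D} {c : List D} (hc : T.IsWalk (T.tl e) c (T.tl f)) :
    lev f ≤ lev e + c.length + 1 := by
  induction c generalizing e with
  | nil =>
    have h1 : T.tl e = T.tl f := hc
    have h2 := ht.lip e f h1
    simpa using h2
  | cons d c ih =>
    obtain ⟨h1, h2⟩ := hc
    rw [← T.tl_f] at h2
    have h3 := ih h2
    have h4 := ht.same d (T.f d) (f_mem hs d)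
    have h5 := ht.lip e d h1.symm
    rw [List.length_cons]
    omega

theorem lev_good (hs : CSys T r cell bl) (ht : Tree T cell r0 lev P E) {m : ℕ} {x y : T.V} {ex ey : D}
    (hx : ∀ d, Dle T (m - 2) x (T.tl d) → d ∈ (cell ex).R) (hy : ∀ d, Dle T (m - 2) y (T.tl d) → d ∈ (cell ey).R)
    (hxy : Dle T (2 * m + 1) x y) : lev ey ≤ lev ex + 6 := by
  obtain ⟨c, hc, hlen⟩ := hxy
  by_cases h : c.length ≤ 2 * (m - 2)
  · have h1 : T.IsWalk x (c.take (m - 2) ++ c.drop (m - 2)) y := by
      rw [List.take_append_drop]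
      exact hc
    obtain ⟨z, hz1, hz2⟩ := T.walk_split h1
    obtain ⟨d, rfl⟩ := tl_surj z
    have h2 := hx d ⟨_, hz1, by rw [List.length_take]; exact min_le_left _ _⟩
    have h3 := hy d (Dle.symm ⟨_, hz2, by rw [List.length_drop]; omega⟩)
    have h4 := ht.same ex d h2
    have h5 := ht.same ey d h3
    omega
  · have h1 : T.IsWalk x (c.take (m - 2) ++ ((c.drop (m - 2)).take (c.length - 2 * (m - 2)) ++
        (c.drop (m - 2)).drop (c.length - 2 * (m - 2)))) y := by
      rw [List.take_append_drop, List.take_append_drop]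
      exact hc
    obtain ⟨z1, hz1, hz⟩ := T.walk_split h1
    obtain ⟨z2, hz2, hz3⟩ := T.walk_split hz
    obtain ⟨d1, rfl⟩ := tl_surj z1
    obtain ⟨d2, rfl⟩ := tl_surj z2
    have h2 := hx d1 ⟨_, hz1, by rw [List.length_take]; exact min_le_left _ _⟩
    have h3 := hy d2 (Dle.symm ⟨_, hz3, by rw [List.length_drop, List.length_drop]; omega⟩)
    have h4 := ht.same ex d1 h2
    have h5 := ht.same ey d2 h3
    have h6 := lev_walk hs ht hz2
    have h7 : ((c.drop (m - 2)).take (c.length - 2 * (m - 2))).length ≤ 5 := by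
      rw [List.length_take]
      refine (min_le_left _ _).trans ?_
      omega
    omega

theorem lev_dist (hs : CSys T r cell bl) (ht : Tree T cell r0 lev P E) {m M1 : ℕ} {C Bad : Finset T.V} (hB : Bad ⊆ C)
    (hBc : Bad.card ≤ M1) (hgood : ∀ x ∈ C, x ∉ Bad → ∃ e, ∀ d, Dle T (m - 2) x (T.tl d) → d ∈ (cell e).R)
    (hconn : ∀ Z ⊆ C, Z.Nonempty → Z ≠ C → ∃ x ∈ Z, ∃ y ∈ C \ Z, Dle T (2 * m + 1) x y) (h0 : T.tl r0 ∈ C) {d : D} {x : T.V}
    (hx : x ∈ C) (hd : Dle T (2 * m) x (T.tl d)) : lev d ≤ 6 * C.card + 2 * (2 * m + 3) * M1 + (2 * m + 1) := by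
  have hw : ∀ (k : ℕ) (e f : D), Dle T k (T.tl e) (T.tl f) → lev f ≤ lev e + k + 1 := by
    rintro k e f ⟨c, hc, hk⟩
    have h1 := lev_walk hs ht hc
    omega
  have key : ∀ s, 1 ≤ s → s ≤ C.card → ∃ Z ⊆ C, Z.card = s ∧ ∀ x ∈ Z, ∃ A ⊆ Z, x ∈ A ∧
      ∀ d, T.tl d = x → lev d + (if x ∈ Bad then 2 * m + 3 else 0) ≤
        6 * A.card + 2 * (2 * m + 3) * (A ∩ Bad).card := by
    intro s hs1
    induction s, hs1 using Nat.le_induction with
    | base =>
      intro _
      refine ⟨{T.tl r0}, Finset.singleton_subset_iff.2 h0, Finset.card_singleton _, ?_⟩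
      intro x hx
      rw [Finset.mem_singleton] at hx
      subst hx
      refine ⟨{T.tl r0}, subset_rfl, Finset.mem_singleton_self _, fun d hd => ?_⟩
      have h1 := ht.lip r0 d hd.symm
      have h2 := (ht.zero r0).2 (hs.mem r0)
      rw [Finset.card_singleton]
      by_cases hb : T.tl r0 ∈ Bad
      · rw [if_pos hb, Finset.singleton_inter_of_mem hb, Finset.card_singleton]
        omega
      · rw [if_neg hb, Finset.singleton_inter_of_notMem hb, Finset.card_empty]
        omega
    | succ s hs1 ih =>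
      intro hsC
      obtain ⟨Z, hZC, hZs, hZ⟩ := ih (by omega)
      have hne : Z.Nonempty := Finset.card_pos.1 (by omega)
      have hneC : Z ≠ C := by
        rintro rfl
        omega
      obtain ⟨x, hx, y, hy, hxy⟩ := hconn Z hZC hne hneC
      rw [Finset.mem_sdiff] at hy
      obtain ⟨A, hAZ, hxA, hA⟩ := hZ x hx
      refine ⟨insert y Z, Finset.insert_subset hy.1 hZC, by rw [Finset.card_insert_of_notMem hy.2, hZs], ?_⟩
      intro x' hx'
      rw [Finset.mem_insert] at hx'
      by_cases hx'y : x' = y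
      · subst hx'y
        have hyA : x' ∉ A := fun h => hy.2 (hAZ h)
        refine ⟨insert x' A, Finset.insert_subset_insert _ hAZ, Finset.mem_insert_self _ _, fun d hd => ?_⟩
        obtain ⟨dx, hdx⟩ := tl_surj x
        have h1 := hA dx hdx
        have h2 : lev d ≤ lev dx + (2 * m + 1) + 1 := hw _ dx d (by rw [hdx, hd]; exact hxy)
        rw [Finset.card_insert_of_notMem hyA]
        by_cases hyB : x' ∈ Bad
        · have h3 : (insert x' A ∩ Bad).card = (A ∩ Bad).card + 1 := by
            rw [Finset.insert_inter_of_mem hyB, Finset.card_insert_of_notMem]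
            exact fun h => hyA (Finset.mem_inter.1 h).1
          rw [if_pos hyB, h3]
          have h4 : 2 * (2 * m + 3) * ((A ∩ Bad).card + 1) =
              2 * (2 * m + 3) * (A ∩ Bad).card + 2 * (2 * m + 3) := by ring
          rw [h4]
          have h5 : lev dx ≤ 6 * A.card + 2 * (2 * m + 3) * (A ∩ Bad).card :=
            (Nat.le_add_right _ _).trans h1
          omega
        · have h3 : (insert x' A ∩ Bad).card = (A ∩ Bad).card := by
            rw [Finset.insert_inter_of_notMem hyB]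
          rw [if_neg hyB, h3]
          by_cases hxB : x ∈ Bad
          · rw [if_pos hxB] at h1
            omega
          · obtain ⟨ex, hex⟩ := hgood x (hZC hx) hxB
            obtain ⟨ey, hey⟩ := hgood x' hy.1 hyB
            have h4 := lev_good hs ht hex hey hxy
            have h5 := ht.same ex dx (hex dx (by rw [hdx]; exact (Dle.refl x).mono (Nat.zero_le _)))
            have h6 := ht.same ey d (hey d (by rw [hd]; exact (Dle.refl x').mono (Nat.zero_le _)))
            rw [if_neg hxB] at h1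
            omega
      · obtain ⟨A', hA'Z, hxA', hA'⟩ := hZ x' (hx'.resolve_left hx'y)
        exact ⟨A', hA'Z.trans (Finset.subset_insert _ _), hxA', hA'⟩
  have hC1 : 1 ≤ C.card := Finset.card_pos.2 ⟨_, h0⟩
  obtain ⟨Z, hZC, hZs, hZ⟩ := key C.card hC1 le_rfl
  have hZC2 : Z = C := Finset.eq_of_subset_of_card_le hZC hZs.ge
  obtain ⟨A, hAZ, hxA, hA⟩ := hZ x (by rw [hZC2]; exact hx)
  obtain ⟨dx, hdx⟩ := tl_surj x
  have h1 : lev dx ≤ 6 * A.card + 2 * (2 * m + 3) * (A ∩ Bad).card := (Nat.le_add_right _ _).trans (hA dx hdx)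
  have h2 : lev d ≤ lev dx + 2 * m + 1 := hw _ dx d (by rw [hdx]; exact hd)
  have h3 : A.card ≤ C.card := Finset.card_le_card (hAZ.trans hZC)
  have h4 : (A ∩ Bad).card ≤ M1 := (Finset.card_le_card Finset.inter_subset_right).trans hBc
  have h5 : 2 * (2 * m + 3) * (A ∩ Bad).card ≤ 2 * (2 * m + 3) * M1 := Nat.mul_le_mul_left _ h4
  omega

end SYS.LO
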