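import Pool.Agent.SYS.LO.Kept

/-!
# SYS-LO-Sys: the partition into cells

* `exists_isl`: around a dart there is either a layer island with one hole which contains the ball of radius `m - 2`, or a short closed walk which is not contractible.
* `exists_sys`: the partition of the darts into cells: maximal islands around the good centres, single faces elsewhere.
-/

namespace SYS.LO

open Classical SST

variable {n g : ℕ} {T : Tri (Fin (6 * n))}

theorem exists_isl (hT : T ∈ Trn n g) (hg : 1 ≤ g) {m : ℕ} (hm : 2 ≤ m) (t : Fin (6 * n)) :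
    (∃ S : Part (Fin (6 * n)), Cell T (m - 1) true S ∧ Isd T m S t ∧ ∀ d, Dle T (m - 2) (T.tl t) (T.tl d) → d ∈ S.R) ∨
      ∃ c, T.IsWalk (T.tl t) c (T.tl t) ∧ c.length ≤ 4 * m ∧ ¬ T.NullHtp c := by
  rcases LR.island hT hg t (r := m - 1) (by omega) with
    ⟨w, S', x', hR, hL, hH, hlay, hok, hpre, hbd, hcov⟩ | ⟨c, h1, h2, h3⟩
  · left
    have hcell : Cell T (m - 1) true S' :=
      ⟨hL, w, x', Isl.cons Isl.nil _ _ _ _ _ _ hR, Or.inl ⟨rfl, hok, hlay, hpre⟩⟩
    obtain ⟨_, hcon, _, _, _, _⟩ := cell_info hT.1 hcell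
    exact ⟨S', hcell, ⟨hL, hcon, (hcov t ((Dle.refl _).mono (Nat.zero_le _))).1,
      fun b hb => (hbd b hb).mono (by omega)⟩, fun d hd => (hcov d (hd.mono (by omega))).1⟩
  · exact Or.inr ⟨c, h1, by omega, h3⟩

private theorem sys_face_eq {T : Tri (Fin (6 * n))} {d e : Fin (6 * n)}
    (he : e ∈ ({d, T.f d, T.f (T.f d)} : Set (Fin (6 * n)))) :
    ({e, T.f e, T.f (T.f e)} : Set (Fin (6 * n))) = {d, T.f d, T.f (T.f d)} := by
  have h3 : T.f (T.f (T.f d)) = d := T.fff d
  rcases he with rfl | rfl | he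
  · rfl
  · rw [h3]
    ext y
    simp only [Set.mem_insert_iff, Set.mem_singleton_iff]
    tauto
  · rw [Set.mem_singleton_iff] at he
    subst he
    rw [h3]
    ext y
    simp only [Set.mem_insert_iff, Set.mem_singleton_iff]
    tauto

private theorem sys_face_mem {T : Tri (Fin (6 * n))} {S : Part (Fin (6 * n))} (hS : S.Le T)
    {d e : Fin (6 * n)} (he : e ∈ ({d, T.f d, T.f (T.f d)} : Set (Fin (6 * n)))) :
    e ∈ S.R ↔ d ∈ S.R := by
  rcases he with rfl | rfl | he
  · rfl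
  · exact Part.le_f_mem hS d
  · rw [Set.mem_singleton_iff] at he
    subst he
    rw [Part.le_f_mem hS, Part.le_f_mem hS]

theorem exists_sys (hT : T ∈ Trn n g) (hg : 1 ≤ g) {m M1 : ℕ} (hm : 2 ≤ m) {C : Finset T.V}
    (hC : ∀ x ∈ C, ∀ y ∈ C, x ≠ y → ¬ Dle T (2 * m) x y)
    (hM : {v : T.V | ∃ c, T.IsWalk v c v ∧ c.length ≤ 4 * m ∧ ¬ T.NullHtp c}.ncard ≤ M1) {W : List (Fin (6 * n))} (hW : T.Closed W)
    (hW1 : ¬ T.NullHtp W) : ∃ (cell : Fin (6 * n) → Part (Fin (6 * n))) (bl : Fin (6 * n) → Bool) (Bad : Finset T.V),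
      CSys T (m - 1) cell bl ∧ Bad ⊆ C ∧ Bad.card ≤ M1 ∧
      (∀ ds : List (Fin (6 * n)), ds.Pairwise (fun d e => d ∉ (cell e).R) → (ds.map bl).count true ≤ C.card) ∧
      ∀ x ∈ C, x ∉ Bad → ∃ e, ∀ d, Dle T (m - 2) x (T.tl d) → d ∈ (cell e).R := by
  have ht : ∀ x : T.V, ∃ t, T.tl t = x := fun x => Quotient.inductionOn x fun d => ⟨d, rfl⟩
  choose t ht using ht
  set P : T.V → Prop := fun x => ∃ S : Part (Fin (6 * n)), Cell T (m - 1) true S ∧ Isd T m S (t x) ∧
    ∀ d, Dle T (m - 2) x (T.tl d) → d ∈ S.R with hP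
  have hPbad : ∀ x, ¬ P x → ∃ c, T.IsWalk x c x ∧ c.length ≤ 4 * m ∧ ¬ T.NullHtp c := by
    intro x hx
    rcases exists_isl hT hg hm (t x) with h | h
    · rw [ht x] at h
      exact absurd h hx
    · rw [ht x] at h
      exact h
  let ι := {x : T.V // x ∈ C ∧ P x}
  have hS : ∀ i : ι, ∃ S : Part (Fin (6 * n)), Cell T (m - 1) true S ∧ Isd T m S (t i.1) ∧
    ∀ d, Dle T (m - 2) i.1 (T.tl d) → d ∈ S.R := fun i => i.2.2
  choose S hSc hSi hSd using hS
  have hne : ∀ i : ι, ((S i).R : Set (Fin (6 * n))).Nonempty := fun i => ⟨_, (hSi i).mem⟩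
  have hcr : ∀ i j : ι, (S i).R ⊆ (S j).R ∨ (S j).R ⊆ (S i).R ∨ Disjoint (S i).R (S j).R := by
    intro i j
    by_cases hij : i = j
    · subst hij
      exact Or.inl (subset_refl _)
    have : Nonempty (Fin (6 * n)) := ⟨t i.1⟩
    obtain ⟨G, _, l, hl, hfaith⟩ := exists_flat T hT.1
    obtain ⟨_, _, hH, _, h1, _⟩ := cell_info hT.1 (hSc i)
    obtain ⟨_, _, hH', _, h1', _⟩ := cell_info hT.1 (hSc j)
    obtain ⟨hL, w, x, hI, _⟩ := hSc i
    obtain ⟨hL', w', x', hI', _⟩ := hSc j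
    obtain ⟨k, hk⟩ := cell_gau hl hI hL
    obtain ⟨k', hk'⟩ := cell_gau hl hI' hL'
    refine cross hl hfaith hW hW1 (hSi i) (hSi j) hH hH' h1 h1' hk hk' ?_
    rw [ht, ht]
    exact hC _ i.2.1 _ j.2.1 fun h => hij (Subtype.ext h)
  have hfin : Finite ι := Finite.of_injective (fun i : ι => (⟨i.1, i.2.1⟩ : C)) fun i j h => by
    simp only [Subtype.mk.injEq] at h
    exact Subtype.ext h
  obtain ⟨J, hJd, hJc⟩ := exists_max (fun i : ι => (S i).R) hne hcr
  have hFS : ∀ s : Set (Fin (6 * n)), ∃ F : Part (Fin (6 * n)), (∃ d, s = {d, T.f d, T.f (T.f d)}) →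
      Cell T (m - 1) false F ∧ F.R = s := by
    intro s
    by_cases h : ∃ d, s = {d, T.f d, T.f (T.f d)}
    · obtain ⟨d, rfl⟩ := h
      obtain ⟨F, hF⟩ := exists_face T (m - 1) d
      exact ⟨F, fun _ => hF⟩
    · exact ⟨Part.emp, fun h' => absurd h' h⟩
  choose FS hFS using hFS
  let In : Fin (6 * n) → Prop := fun d => ∃ j ∈ J, d ∈ (S j).R
  let cell : Fin (6 * n) → Part (Fin (6 * n)) := fun d =>
    if h : In d then S h.choose else FS {d, T.f d, T.f (T.f d)}
  let bl : Fin (6 * n) → Bool := fun d => decide (In d)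
  have huniq : ∀ d, ∀ j ∈ J, d ∈ (S j).R → ∀ j' ∈ J, d ∈ (S j').R → j = j' := by
    intro d j hj hd j' hj' hd'
    by_contra hne'
    exact Set.disjoint_left.1 (hJd j hj j' hj' hne') hd hd'
  have hc1 : ∀ d, ∀ j ∈ J, d ∈ (S j).R → cell d = S j := by
    intro d j hj hd
    have h : In d := ⟨j, hj, hd⟩
    have h1 : cell d = S h.choose := dif_pos h
    rw [h1, huniq d _ h.choose_spec.1 h.choose_spec.2 j hj hd]
  have hc2 : ∀ d, ¬ In d → cell d = FS {d, T.f d, T.f (T.f d)} := fun d h => dif_neg h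
  have hc3 : ∀ d, ¬ In d → (cell d).R = {d, T.f d, T.f (T.f d)} := by
    intro d h
    rw [hc2 d h]
    exact (hFS _ ⟨d, rfl⟩).2
  have hin : ∀ d e, e ∈ ({d, T.f d, T.f (T.f d)} : Set (Fin (6 * n))) → (In e ↔ In d) := by
    intro d e he
    constructor
    · rintro ⟨j, hj, h⟩
      exact ⟨j, hj, (sys_face_mem (hSc j).1 he).1 h⟩
    · rintro ⟨j, hj, h⟩
      exact ⟨j, hj, (sys_face_mem (hSc j).1 he).2 h⟩
  have hmem : ∀ d, d ∈ (cell d).R := by
    intro d
    by_cases h : In d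
    · obtain ⟨j, hj, hd⟩ := h
      rw [hc1 d j hj hd]
      exact hd
    · rw [hc3 d h]
      exact Or.inl rfl
  have hbl : ∀ d, ∀ e ∈ (cell d).R, (In e ↔ In d) := by
    intro d e he
    by_cases h : In d
    · obtain ⟨j, hj, hd⟩ := h
      rw [hc1 d j hj hd] at he
      exact ⟨fun _ => ⟨j, hj, hd⟩, fun _ => ⟨j, hj, he⟩⟩
    · rw [hc3 d h] at he
      exact hin d e he
  refine ⟨cell, bl, C.filter fun x => ¬ P x, ⟨hmem, ?_, ?_, ?_⟩, Finset.filter_subset _ _, ?_, ?_, ?_⟩
  · intro d e he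
    by_cases h : In d
    · obtain ⟨j, hj, hd⟩ := h
      rw [hc1 d j hj hd] at he ⊢
      exact hc1 e j hj he
    · have h' : ¬ In e := fun h' => h ((hbl d e he).1 h')
      rw [hc3 d h] at he
      rw [hc2 d h, hc2 e h', sys_face_eq he]
  · intro d
    by_cases h : In d
    · have h1 : bl d = true := decide_eq_true h
      obtain ⟨j, hj, hd⟩ := h
      rw [hc1 d j hj hd, h1]
      exact hSc j
    · have h1 : bl d = false := decide_eq_false h
      rw [h1, hc2 d h]
      exact (hFS _ ⟨d, rfl⟩).1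
  · intro d e he
    exact decide_eq_decide.2 (hbl d e he)
  · refine le_trans ?_ hM
    have hfV : Finite T.V := Quotient.finite _
    rw [← Set.ncard_coe_finset]
    refine Set.ncard_le_ncard ?_ (Set.toFinite _)
    intro x hx
    rw [Finset.mem_coe, Finset.mem_filter] at hx
    exact hPbad x hx.2
  · intro ds hds
    have hcount : (ds.map bl).count true = (ds.filter bl).length := by
      rw [List.count_eq_countP, List.countP_map, List.countP_eq_length_filter]
      congr 2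
      funext d
      simp
    rw [hcount]
    have hds' := hds.filter (fun d => bl d)
    let X : Fin (6 * n) → T.V := fun d => if h : In d then h.choose.1 else T.tl d
    have hX : ∀ d, ∀ j ∈ J, d ∈ (S j).R → X d = j.1 := by
      intro d j hj hd
      have h : In d := ⟨j, hj, hd⟩
      have h1 : X d = h.choose.1 := dif_pos h
      rw [h1, huniq d _ h.choose_spec.1 h.choose_spec.2 j hj hd]
    have hin' : ∀ d ∈ ds.filter (fun d => bl d), In d := by
      intro d hd
      exact of_decide_eq_true (List.mem_filter.1 hd).2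
    have hnd : ((ds.filter (fun d => bl d)).map X).Nodup := by
      rw [List.Nodup, List.pairwise_map]
      refine List.Pairwise.imp_of_mem ?_ hds'
      intro d e hd he hde hX'
      obtain ⟨j, hj, hjd⟩ := hin' d hd
      obtain ⟨j', hj', hje⟩ := hin' e he
      rw [hX d j hj hjd, hX e j' hj' hje] at hX'
      have hjj : j = j' := Subtype.ext hX'
      subst hjj
      rw [hc1 e j hj hje] at hde
      exact hde hjd
    have hlen : (ds.filter bl).length = ((ds.filter (fun d => bl d)).map X).toFinset.card := by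
      rw [List.toFinset_card_of_nodup hnd, List.length_map]
    rw [hlen]
    refine Finset.card_le_card ?_
    intro x hx
    rw [List.mem_toFinset, List.mem_map] at hx
    obtain ⟨d, hd, rfl⟩ := hx
    obtain ⟨j, hj, hjd⟩ := hin' d hd
    rw [hX d j hj hjd]
    exact j.2.1
  · intro x hx hxb
    have hPx : P x := by
      by_contra h
      exact hxb (Finset.mem_filter.2 ⟨hx, h⟩)
    obtain ⟨j, hj, hjs⟩ := hJc ⟨x, hx, hPx⟩
    refine ⟨t j.1, fun d hd => ?_⟩
    rw [hc1 _ j hj (hSi j).mem]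
    exact hjs (hSd ⟨x, hx, hPx⟩ d hd)

end SYS.LO
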