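import Pool.Agent.SYS.LO.Uni
import Pool.Agent.SYS.LT.AddB

/-!
# SYS-LO-RegA: the region of a list of distinct cells

PLAN.
* `reg_root`: the list `[r0]`: `CSys.ok`: `Cell`: `Isl [w] (cell r0) [x]`, `Wd r (bl r0) w`; `isl_one`.
* `reg_cons`: `S` and `cell e` are disjoint: if `d ∈ S.R` then `d ∈ (cell d').R` with `d' ∈ ds`; if also `d ∈ (cell e).R` then `cell e = cell d = cell d'` (`CSys.eq`), and `e ∈ (cell e).R = (cell d').R` contradicts `¬ InC cell ds e`.
  `isl_union` gives `S'` with `Dj S (cell e) S'`.  The fields of `Reg` from `Dj`: `R`, `B` unions; `nx`: for `d ∈ ds`: `S'.nx = S.nx` on `S.B` (`LT.AddA.add_nx` with `S.Add S'`).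
* `reg_pos`: `b ∈ (cell d).B` is `(S.nx ^ a) x` with `a < wend 3 w` where `x`, `w` are the entries of the cell `d`.
-/

namespace SYS.LO

open Classical SST

variable {n : ℕ} {T : Tri (Fin (6 * n))} {r : ℕ} {cell : Fin (6 * n) → Part (Fin (6 * n))} {bl : Fin (6 * n) → Bool}

private theorem inC_cons {D : Type} {cell : D → Part D} {ds : List D} {e z : D} :
    InC cell (e :: ds) z ↔ z ∈ (cell e).R ∨ InC cell ds z := by
  unfold InC
  constructor
  · rintro ⟨d, hd, h⟩
    rcases List.mem_cons.1 hd with rfl | hd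
    · exact Or.inl h
    · exact Or.inr ⟨d, hd, h⟩
  · rintro (h | ⟨d, hd, h⟩)
    · exact ⟨e, List.mem_cons_self, h⟩
    · exact ⟨d, List.mem_cons_of_mem _ hd, h⟩

theorem reg_root (hn : 1 ≤ n) (hs : CSys T r cell bl) (r0 : Fin (6 * n)) : ∃ w x, Reg T r cell bl [r0] [w] (cell r0) [x] := by
  obtain ⟨hL, w, x, h1, h2⟩ := hs.ok r0
  obtain ⟨hx, hone, hper, -, -⟩ := isl_one hn h1
  refine ⟨w, x, ⟨h1, hL, List.Forall₂.cons h2 List.Forall₂.nil, fun e => ?_, fun e => ?_, ?_,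
    List.Forall₂.cons hx List.Forall₂.nil, List.Forall₂.cons (fun e he => ?_) List.Forall₂.nil⟩⟩
  · unfold InC
    simp
  · simp
  · intro d hd e _
    rw [List.mem_singleton.1 hd]
  · rw [← hper]
    exact (Part.per_same _ (hone e he)).symm

theorem reg_cons (hn : 1 ≤ n) (hs : CSys T r cell bl) {ds : List (Fin (6 * n))} {ws : List (List Stp)} {S : Part (Fin (6 * n))}
    {xs : List (Fin (6 * n))} (hr : Reg T r cell bl ds ws S xs) {e : Fin (6 * n)} (he : ¬ InC cell ds e) :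
    ∃ w S' x, Reg T r cell bl (e :: ds) (w :: ws) S' (x :: xs) ∧ Part.Dj S (cell e) S' ∧ S.Add S' := by
  obtain ⟨hL, w, x, h1, h2⟩ := hs.ok e
  obtain ⟨hx, hone, hper, -, -⟩ := isl_one hn h1
  have hd : ∀ d ∈ S.R, d ∉ (cell e).R := by
    intro d hdS hde
    obtain ⟨d', hd', hdd⟩ := (hr.R d).1 hdS
    have e1 := hs.eq d' d hdd
    have e2 := hs.eq e d hde
    have e3 := hs.mem e
    rw [← e2, e1] at e3
    exact he ⟨d', hd', e3⟩
  obtain ⟨S', hDj, hIsl, hLe⟩ := isl_union hn hr.isl h1 hr.le hL hd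
  have hA : S.Add S' := ⟨hDj.sub0, by rw [hDj.B]; exact Set.subset_union_left⟩
  have hA1 : (cell e).Add S' := ⟨hDj.sub1, by rw [hDj.B]; exact Set.subset_union_right⟩
  refine ⟨w, S', x, ⟨hIsl, hLe, List.Forall₂.cons h2 hr.wd, fun z => ?_, fun z => ?_, ?_,
    List.Forall₂.cons hx hr.x, List.Forall₂.cons (fun b hb => ?_) hr.p⟩, hDj, hA⟩
  · rw [hDj.R, inC_cons, Set.mem_union, hr.R, or_comm]
  · rw [hDj.B, Set.mem_union, hr.B]
    constructor
    · rintro (⟨d, hd1, hd2⟩ | h)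
      · exact ⟨d, List.mem_cons_of_mem _ hd1, hd2⟩
      · exact ⟨e, List.mem_cons_self, h⟩
    · rintro ⟨d, hd1, hd2⟩
      rcases List.mem_cons.1 hd1 with rfl | hd1
      · exact Or.inr hd2
      · exact Or.inl ⟨d, hd1, hd2⟩
  · intro d hd1 b hb
    rcases List.mem_cons.1 hd1 with rfl | hd1
    · exact Part.add_nx hA1 hb
    · rw [Part.add_nx hA ((hr.B b).2 ⟨d, hd1, hb⟩)]
      exact hr.nx d hd1 b hb
  · rw [← hper]
    exact (Part.per_same _ (hone b hb)).symm

private theorem fa_get {A B : Type} {R : A → B → Prop} {l : List A} {l' : List B} (h : List.Forall₂ R l l') {i : ℕ} {a : A}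
    (ha : l[i]? = some a) : ∃ b, l'[i]? = some b ∧ R a b := by
  induction h generalizing i with
  | nil => simp at ha
  | cons h1 _ ih =>
    cases i with
    | zero =>
      simp only [List.getElem?_cons_zero, Option.some.injEq] at ha ⊢
      exact ⟨_, rfl, ha ▸ h1⟩
    | succ i =>
      simp only [List.getElem?_cons_succ] at ha ⊢
      exact ih ha

theorem reg_pos (hn : 1 ≤ n) (hs : CSys T r cell bl) {ds : List (Fin (6 * n))} {ws : List (List Stp)} {S : Part (Fin (6 * n))}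
    {xs : List (Fin (6 * n))} (hr : Reg T r cell bl ds ws S xs) {i : ℕ} {d b : Fin (6 * n)} (hd : ds[i]? = some d) (hb : b ∈ (cell d).B) :
    ∃ w x a, ws[i]? = some w ∧ xs[i]? = some x ∧ a < wend 3 w ∧ b = (S.nx ^ a) x := by
  obtain ⟨w, hw, hp⟩ := fa_get hr.p hd
  obtain ⟨x, hx, hxB⟩ := fa_get hr.x hd
  have hdm : d ∈ ds := List.mem_of_getElem? hd
  obtain ⟨-, w', x', h1, -⟩ := hs.ok d
  obtain ⟨-, hone, -, -, -⟩ := isl_one hn h1
  have hsame : (cell d).s.SameCycle x b := (hone x hxB).symm.trans (hone b hb)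
  have hmem : b ∈ (cell d).hw x := ((cell d).mem_hw hxB).2 ⟨hb, hsame⟩
  have hpow : ∀ a : ℕ, (S.nx ^ a) x = ((cell d).nx ^ a) x ∧ ((cell d).nx ^ a) x ∈ (cell d).B := by
    intro a
    induction a with
    | zero => exact ⟨rfl, hxB⟩
    | succ a ih =>
      rw [pow_succ', pow_succ', Equiv.Perm.mul_apply, Equiv.Perm.mul_apply, ih.1]
      exact ⟨hr.nx d hdm _ ih.2, (Part.nx_mem _).2 ih.2⟩
  have hex : ∃ a, a < (cell d).per x ∧ ((cell d).nx ^ a) x = b := by
    unfold Part.hw at hmem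
    simp only [List.mem_map, List.mem_range] at hmem
    exact hmem
  obtain ⟨a, ha, hab⟩ := hex
  rw [hp x hxB] at ha
  exact ⟨w, x, a, hw, hx, ha, by rw [(hpow a).1, hab]⟩

theorem reg_len {D : Type} [Finite D] {T : Tri D} {r : ℕ} {cell : D → Part D} {bl : D → Bool} {ds : List D} {ws : List (List Stp)} {S : Part D}
    {xs : List D} (hr : Reg T r cell bl ds ws S xs) : ws.length = ds.length ∧ xs.length = ds.length :=
  ⟨hr.p.length_eq.symm, hr.x.length_eq.symm⟩

end SYS.LO
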