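import Pool.Agent.SYS.LO.PatM
import Pool.Agent.SYS.LO.RegA

/-!
# SYS-LO-PatA: the pattern of a list of cells with swaps
-/

namespace SYS.LO

open Classical SST

variable {n : ℕ} {T : Tri (Fin (6 * n))} {r : ℕ} {cell : Fin (6 * n) → Part (Fin (6 * n))} {bl : Fin (6 * n) → Bool}
  {r0 : Fin (6 * n)} {lev : Fin (6 * n) → ℕ} {P E : Fin (6 * n) → Fin (6 * n)}

/-- the number of a boundary dart on the island `i` -/
private def PosP {D : Type} [Finite D] (S : Part D) (ws : List (List Stp)) (xs : List D) (i : ℕ) (b : D) (a : ℕ) : Prop :=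
  ∃ w x, ws[i]? = some w ∧ xs[i]? = some x ∧ a < wend 3 w ∧ b = (S.nx ^ a) x

private noncomputable def posf {D : Type} [Finite D] (S : Part D) (ws : List (List Stp)) (xs : List D) (i : ℕ) (b : D) : ℕ :=
  if h : ∃ a, PosP S ws xs i b a then h.choose else 0

private theorem posf_spec {D : Type} [Finite D] {S : Part D} {ws : List (List Stp)} {xs : List D} {i : ℕ} {b : D}
    (h : ∃ a, PosP S ws xs i b a) : PosP S ws xs i b (posf S ws xs i b) := by
  unfold posf
  rw [dif_pos h]
  exact h.choose_spec

private theorem fa_get2 {A B : Type} {R : A → B → Prop} {l : List A} {l' : List B} (h : List.Forall₂ R l l') {i : ℕ} {b : B}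
    (hb : l'[i]? = some b) : ∃ a, l[i]? = some a ∧ R a b := by
  induction h generalizing i with
  | nil => simp at hb
  | cons h1 _ ih =>
    cases i with
    | zero =>
      simp only [List.getElem?_cons_zero, Option.some.injEq] at hb ⊢
      exact ⟨_, rfl, hb ▸ h1⟩
    | succ i =>
      simp only [List.getElem?_cons_succ] at hb ⊢
      exact ih hb

theorem bd_pat (hn : 1 ≤ n) (hs : CSys T r cell bl) (ht : Tree T cell r0 lev P E) {ds : List (Fin (6 * n))}
    {ps : List (Fin (6 * n) × Fin (6 * n))} {k c K : ℕ} (h : Bd T cell r0 lev P E ds ps k c) (hk : k ≤ 4) (hkc : k + 4 * c ≤ 12)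
    {ws : List (List Stp)} {S : Part (Fin (6 * n))} {xs : List (Fin (6 * n))} (hr : Reg T r cell bl ds ws S xs)
    (hK : (ds.map bl).count true ≤ K) :
    ∃ (π : Pat) (us : List (List ℕ)), PatOk ds.length K c π ∧ π.bs = ds.map bl ∧ Pos ws π.es us ∧ Swp S xs us π.sw ps := by
  obtain ⟨ms, sw, hm1, hm2, hm3, hm4⟩ := bd_marks hs.mem ht h hkc
  have hcfg := cfg_of_bd h
  obtain ⟨lw, lx⟩ := reg_len hr
  have lm : ms.length = ds.length := hm1.length_eq.symm
  -- the numbers of the marks
  have key : ∀ i m b, ms[i]? = some m → b ∈ m → PosP S ws xs i b (posf S ws xs i b) := by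
    intro i m b hi hb
    obtain ⟨d, hd, hdm⟩ := fa_get2 hm1 hi
    obtain ⟨w, x, a, h1, h2, h3, h4⟩ := reg_pos hn hs hr hd (hdm b hb)
    exact posf_spec ⟨a, w, x, h1, h2, h3, h4⟩
  refine ⟨⟨ds.map bl, ms.map List.length, sw⟩, ms.mapIdx fun i m => m.map (posf S ws xs i), ?_, rfl, ?_, ?_⟩
  · refine ⟨by simp, by simp [lm], ?_, hK, ?_, ?_, ?_⟩
    · have h1 := (cfg_root hcfg).2
      exact List.length_pos_iff.2 h1
    · intro e he
      obtain ⟨m, hm, rfl⟩ := List.mem_map.1 he
      have h1 : m.length - 2 ≤ (ms.map fun m => m.length - 2).sum :=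
        List.single_le_sum (fun _ _ => Nat.zero_le _) _ (List.mem_map.2 ⟨m, hm, rfl⟩)
      omega
    · rw [List.map_map]
      have h1 : (ms.map ((fun e => e - 2) ∘ List.length)).sum = (ms.map fun m => m.length - 2).sum := rfl
      rw [h1]
      omega
    · refine ⟨fun i => (ds.reverse.map lev).getD i 0, (cfg_lt ht hcfg).trans hk, fun i => ?_, hm3⟩
      by_cases hi : i < (ds.reverse.map lev).length
      · show (ds.reverse.map lev).getD i 0 ≤ ds.length
        rw [List.getD_eq_getElem _ _ hi, List.getElem_map]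
        have h1 : ds.reverse[i]'(by simpa using hi) ∈ ds := List.mem_reverse.1 (List.getElem_mem _)
        exact (cfg_lev ht hcfg ⟨_, h1, hs.mem _⟩).le
      · show (ds.reverse.map lev).getD i 0 ≤ ds.length
        rw [List.getD_eq_default _ _ (by omega)]
        exact Nat.zero_le _
  · constructor
    · rw [List.forall₂_iff_get]
      refine ⟨by simp [lw, lm], fun i h1 h2 => ?_⟩
      have hi : i < ms.length := by simpa using h2
      have hiw : i < ws.length := by omega
      simp only [List.get_eq_getElem, List.getElem_zip, List.getElem_map, List.getElem_mapIdx, List.length_map, true_and]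
      intro a ha
      obtain ⟨b, hb, rfl⟩ := List.mem_map.1 ha
      obtain ⟨w, x, h3, h4, h5, h6⟩ := key i ms[i] b (List.getElem?_eq_getElem hi) hb
      rw [List.getElem?_eq_getElem hiw] at h3
      rw [Option.some.inj h3]
      exact h5
    · simp [lw, lm]
  · have hat : ∀ z b, AtM ms z b → At S xs (ms.mapIdx fun i m => m.map (posf S ws xs i)) z b := by
      rintro z b ⟨m, h1, h2⟩
      have hz : z.1 < ms.length := by
        have h3 := (List.getElem?_eq_some_iff.1 h1).1
        simpa using h3
      rw [List.getElem?_reverse hz] at h1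
      obtain ⟨w, x, h3, h4, h5, h6⟩ := key _ m b h1 (List.mem_of_getElem? h2)
      refine ⟨x, m.map (posf S ws xs (ms.length - 1 - z.1)), posf S ws xs (ms.length - 1 - z.1) b, ?_, ?_, ?_, h6⟩
      · rw [List.getElem?_reverse (by omega)]
        have h7 : xs.length - 1 - z.1 = ms.length - 1 - z.1 := by omega
        rw [h7]
        exact h4
      · rw [List.getElem?_reverse (by rw [List.length_mapIdx]; exact hz), List.length_mapIdx, List.getElem?_mapIdx, h1]
        rfl
      · rw [List.getElem?_map, h2]
        rfl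
    exact List.Forall₂.imp (fun z p hz => ⟨hat _ _ hz.1, hat _ _ hz.2⟩) hm4

end SYS.LO
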