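import Pool.Agent.SYS.LO.Dat
import Pool.Agent.SYS.LO.Bld
import Pool.Agent.SYS.LO.PatA

/-!
# SYS-LO-Zm: sizes of lists of cells; the event of the large configurations

PLAN.
* `reg_size`: `vT ws`: `isl_typ`: `S.R.ncard + 3 (2 n - vT ws) = 6 n`, `vT ws ≤ 2 n`, so `S.R.ncard = 3 vT ws`; `S.R` is the disjoint union of the `(cell d).R`, `d ∈ ds` (`Reg.R`, `hpw`, `CSys.eq`), each with `3 (1 + wvol w)` elements (`isl_one`, `CSys.ok`), so `vT ws = ∑ (cell d).R.ncard / 3`
  (induction on a list for the disjoint union: state it for `{e | InC cell ds e}.ncard`).  `pT ws = ∑ (cell d).B.ncard`: field `p` of `Reg`: `wend 3 w = (cell d).per e` for `e ∈ (cell d).B` (nonempty, `cell_info`), one hole: `(cell d).hole e = (cell d).B`.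
* `ev_of_bd`: `bd_pat`, `Ev` with `ws, S, xs, us, ps` (`Reg.isl`, `Reg.le`, `Reg.wd` with `π.bs = ds.map bl`); `hK` with `cfg_pw (cfg_of_bd hB)`.
* `z0_of`: the function `s ds := (ds.map fun d => csz (cell d)).sum`; `B < s ds`.  Shortest nonempty suffix `ds0` of `ds` with `B < s ds0` (induction on `ds`: either the tail is nonempty and already larger than `B`, or `ds` itself works: `s ds.tail ≤ B`; for the empty tail `0 ≤ B`).
  `cfg_suffix`: `Cfg ds0 k0`, `k0 ≤ 4`; `bld` with `H = ⊤` (or any): `ps, ws0, S0, xs0, κ`, `Bd .. ds0 ps k0 0`, `Sta`, `One`.  `ws0 = w :: ws0'`, `szT ws0 = s ds0 > B`; `szT ws0.tail = s ds0.tail ≤ B`: `reg_size` for the list gives only the total; for the tail use the same formula for one cell: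
  `pT`, `vT` of `w` alone: `wend 3 w = (cell d).B.ncard` and `1 + wvol w = (cell d).R.ncard / 3`.  The second is not a field of `Reg`; get it by subtraction if the tail is a region too: `cases` on `Bd` gives `ds0.tail` as a list of cells, but a simpler way is `reg_tail`: from `Isl (w :: ws0') S0 xs0`
  (`cases`): `Isl ws0' S1 xs1` with `S1.Add S0`-like inclusion and `S0.R \ S1.R` = the new island.  Alternatively prove `z0_of` by running the induction of `bld` yourself: build the state cell by cell along `ds0.reverse` and use `reg_cons` (it keeps the old words), or strengthen: `bld_tail`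
  below (induction on `Cfg` as in `bld`, keeping the word list of the tail, whose `Reg` is available in the induction): this is the recommended way, `reg_size` is then applied to both lists.
  `Z0`: `Vir`, `VConn` (`Sta.vir`, `Sta.con`), `one_card` (`S0.B` is nonempty), the two size conditions.  `ev_of_bd`.
-/

namespace SYS.LO

open Classical SST SYS.Part

/-- Size of a region. -/
noncomputable def csz {D : Type} (Q : Part D) : ℕ := Q.B.ncard + Q.R.ncard / 3

variable {n : ℕ} {T : Tri (Fin (6 * n))} {G : Type} [Group G] {l : Fin (6 * n) → G} {r Λ : ℕ}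
  {cell : Fin (6 * n) → Part (Fin (6 * n))} {bl : Fin (6 * n) → Bool} {r0 : Fin (6 * n)} {lev : Fin (6 * n) → ℕ}
  {P E : Fin (6 * n) → Fin (6 * n)} {d0 : Fin (6 * n)} {W : List (Fin (6 * n))}

/-- the number of darts in the cells of a list -/
private theorem inC_card (hs : CSys T r cell bl) {ds : List (Fin (6 * n))} (hpw : ds.Pairwise (fun d e => d ∉ (cell e).R)) :
    {e | InC cell ds e}.ncard = (ds.map fun d => (cell d).R.ncard).sum := by
  induction ds with
  | nil =>
    have h1 : {e | InC cell [] e} = ∅ := by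
      ext e
      unfold InC
      simp
    rw [h1, Set.ncard_empty]
    rfl
  | cons d ds ih =>
    rw [List.pairwise_cons] at hpw
    have h1 : {e | InC cell (d :: ds) e} = (cell d).R ∪ {e | InC cell ds e} := by
      ext e
      constructor
      · rintro ⟨d', hd', hm⟩
        rcases List.mem_cons.1 hd' with h2 | h2
        · rw [h2] at hm
          exact Or.inl hm
        · exact Or.inr ⟨d', h2, hm⟩
      · rintro (h2 | ⟨d', hd', hm⟩)
        · exact ⟨d, List.mem_cons_self, h2⟩
        · exact ⟨d', List.mem_cons_of_mem _ hd', hm⟩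
    have h2 : Disjoint (cell d).R {e | InC cell ds e} := by
      rw [Set.disjoint_left]
      rintro z hz ⟨e, he, hze⟩
      have e1 := hs.eq d z hz
      have e2 := hs.eq e z hze
      have e3 := hs.mem d
      rw [← e1, e2] at e3
      exact hpw.1 e he e3
    rw [h1, Set.ncard_union_eq h2 (Set.toFinite _) (Set.toFinite _), ih hpw.2, List.map_cons, List.sum_cons]

private theorem R_div (hn : 1 ≤ n) (hs : CSys T r cell bl) (d : Fin (6 * n)) :
    (cell d).R.ncard = 3 * ((cell d).R.ncard / 3) := by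
  obtain ⟨-, w, x, h1, -⟩ := hs.ok d
  obtain ⟨-, -, -, -, h2⟩ := isl_one hn h1
  rw [h2, Nat.mul_div_cancel_left _ (by norm_num)]

private theorem sum_div (hn : 1 ≤ n) (hs : CSys T r cell bl) (ds : List (Fin (6 * n))) :
    (ds.map fun d => (cell d).R.ncard).sum = 3 * (ds.map fun d => (cell d).R.ncard / 3).sum := by
  induction ds with
  | nil => rfl
  | cons d ds ih =>
    rw [List.map_cons, List.sum_cons, List.map_cons, List.sum_cons, ih, mul_add, ← R_div hn hs d]

private theorem per_card (hT : T.Conn) (hs : CSys T r cell bl) (d : Fin (6 * n)) {k : ℕ} (h : ∀ e ∈ (cell d).B, (cell d).per e = k) :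
    k = (cell d).B.ncard := by
  obtain ⟨-, -, -, ⟨b, hb⟩, h2, -⟩ := cell_info hT (hs.ok d)
  rw [← h b hb]
  unfold Part.per
  congr 1
  ext e
  exact ⟨fun he => he.1, fun he => ⟨he, h2 b hb e he⟩⟩

private theorem p_sum (hT : T.Conn) (hs : CSys T r cell bl) {ds : List (Fin (6 * n))} {ws : List (List Stp)}
    (h : List.Forall₂ (fun d w => ∀ e ∈ (cell d).B, (cell d).per e = wend 3 w) ds ws) :
    pT ws = (ds.map fun d => (cell d).B.ncard).sum := by
  unfold pT
  induction h with
  | nil => rfl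
  | cons h _ ih => rw [List.map_cons, List.sum_cons, List.map_cons, List.sum_cons, ih, per_card hT hs _ h]

private theorem csz_sum (ds : List (Fin (6 * n))) : (ds.map fun d => csz (cell d)).sum =
    (ds.map fun d => (cell d).B.ncard).sum + (ds.map fun d => (cell d).R.ncard / 3).sum := by
  induction ds with
  | nil => rfl
  | cons d ds ih =>
    rw [List.map_cons, List.sum_cons, List.map_cons, List.sum_cons, List.map_cons, List.sum_cons, ih]
    unfold csz
    omega

theorem reg_size (hn : 1 ≤ n) (hT : T.Conn) (hs : CSys T r cell bl) {ds : List (Fin (6 * n))}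
    (hpw : ds.Pairwise (fun d e => d ∉ (cell e).R)) {ws : List (List Stp)} {S : Part (Fin (6 * n))} {xs : List (Fin (6 * n))}
    (hr : Reg T r cell bl ds ws S xs) : szT ws = (ds.map fun d => csz (cell d)).sum := by
  obtain ⟨h1, h2, -⟩ := isl_typ hn hr.isl
  have h3 := h2.vol
  rw [Nat.card_fin] at h3
  have h4 : S.R = {e | InC cell ds e} := by
    ext e
    exact hr.R e
  have h5 := inC_card hs hpw
  rw [← h4, sum_div hn hs ds] at h5
  have h6 := p_sum hT hs hr.p
  rw [csz_sum]
  unfold szT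
  omega

theorem bld_tail (hn : 1 ≤ n) (hT : T.Conn) (hl : Flat T l) (hs : CSys T r cell bl) (ht : Tree T cell r0 lev P E) (H : Subgroup G)
    {ds : List (Fin (6 * n))} {k : ℕ} (hC : Cfg cell r0 lev P ds k) :
    ∃ ps ws S xs κ, Bd T cell r0 lev P E ds ps k 0 ∧ Sta T r cell bl l H ds ps ws S xs κ ∧ One S ps ∧
      (ds.tail ≠ [] → ∃ S1 xs1, Reg T r cell bl ds.tail ws.tail S1 xs1) := by
  induction hC with
  | root =>
    obtain ⟨w, x, κ, hS, hO⟩ := sta_root hn hT hl hs r0 H
    exact ⟨[], [w], cell r0, [x], κ, Bd.root, hS, hO, fun h => absurd rfl h⟩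
  | next h hn' h0 hp ih =>
    obtain ⟨ps, ws, S, xs, κ, hB, hS, hO, -⟩ := ih
    obtain ⟨b, b', w, S', x, κ', hb', ht', htb, hb, hS', _, _, hO', _⟩ :=
      sta_add hn hT hl hs ht hS hn' h0 List.mem_cons_self hp
    exact ⟨_, _, _, _, _, Bd.next hB hn' h0 hp hb' ht' htb hb, hS', hO' hO, fun _ => ⟨S, xs, hS.reg⟩⟩
  | jump h hn' h0 hp ih =>
    obtain ⟨ps, ws, S, xs, κ, hB, hS, hO, -⟩ := ih
    obtain ⟨d, hd, hm⟩ := id hp
    obtain ⟨b, b', w, S', x, κ', hb', ht', htb, hb, hS', _, _, hO', _⟩ :=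
      sta_add hn hT hl hs ht hS hn' h0 hd hm
    exact ⟨_, _, _, _, _, Bd.jump hB hn' h0 hp hb' ht' htb (hb.imp (fun h => ⟨d, hd, h⟩) id), hS',
      hO' hO, fun _ => ⟨S, xs, hS.reg⟩⟩

theorem ev_of_bd (h : Dat T l r Λ cell bl r0 lev P E d0 W) {K : ℕ}
    (hK : ∀ ds : List (Fin (6 * n)), ds.Pairwise (fun d e => d ∉ (cell e).R) → (ds.map bl).count true ≤ K)
    {ds : List (Fin (6 * n))} {ps : List (Fin (6 * n) × Fin (6 * n))} {k c : ℕ} (hB : Bd T cell r0 lev P E ds ps k c) (hk : k ≤ 4)
    (hkc : k + 4 * c ≤ 12) {ws : List (List Stp)} {S : Part (Fin (6 * n))} {xs : List (Fin (6 * n))}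
    (hr : Reg T r cell bl ds ws S xs)
    {Z : List (List Stp) → Part (Fin (6 * n)) → List (Fin (6 * n) × Fin (6 * n)) → Tri (Fin (6 * n)) → Prop} (hZ : Z ws S ps T) :
    ∃ π, PatOk ds.length K c π ∧ Ev r π Z T := by
  obtain ⟨π, us, h1, h2, h3, h4⟩ := bd_pat h.hn h.sys h.tree hB hk hkc hr (hK ds (cfg_pw (cfg_of_bd hB)))
  refine ⟨π, h1, ws, S, xs, us, ps, hr.isl, hr.le, ?_, h3, h4, hZ⟩
  rw [h2]
  exact hr.wd

/-- the shortest suffix which is larger than `B` -/
private theorem short_suffix {D : Type} (s : D → ℕ) {B : ℝ} (hB0 : 0 ≤ B) (ds : List D) (h : B < ((ds.map s).sum : ℕ)) :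
    ∃ ds0, ds0 ≠ [] ∧ ds0 <:+ ds ∧ B < ((ds0.map s).sum : ℕ) ∧ (((ds0.tail.map s).sum : ℕ) : ℝ) ≤ B := by
  induction ds with
  | nil =>
    exfalso
    have h1 : (([] : List D).map s).sum = 0 := rfl
    rw [h1, Nat.cast_zero] at h
    exact absurd h (not_lt.2 hB0)
  | cons d ds ih =>
    by_cases h1 : B < ((ds.map s).sum : ℕ)
    · obtain ⟨ds0, h2, h3, h4⟩ := ih h1
      exact ⟨ds0, h2, h3.trans (List.suffix_cons d ds), h4⟩
    · exact ⟨d :: ds, List.cons_ne_nil _ _, List.suffix_refl _, h, not_lt.1 h1⟩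

theorem z0_of (h : Dat T l r Λ cell bl r0 lev P E d0 W) {K : ℕ}
    (hK : ∀ ds : List (Fin (6 * n)), ds.Pairwise (fun d e => d ∉ (cell e).R) → (ds.map bl).count true ≤ K)
    {ds : List (Fin (6 * n))} {k : ℕ} (hC : Cfg cell r0 lev P ds k) (hk : k ≤ 4) {ws : List (List Stp)}
    {S : Part (Fin (6 * n))} {xs : List (Fin (6 * n))} (hr : Reg T r cell bl ds ws S xs) {B : ℝ} (hB0 : 0 ≤ B)
    (hB : B < szT ws) : ∃ N π, N ≤ ds.length ∧ PatOk N K 0 π ∧ Ev r π (Z0 B) T := by
  rw [reg_size h.hn h.conn h.sys (cfg_pw hC) hr] at hB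
  obtain ⟨ds0, hne, hsuf, h1, h2⟩ := short_suffix (fun d => csz (cell d)) hB0 ds hB
  obtain ⟨k0, hk0, hC0⟩ := cfg_suffix hC hne hsuf
  obtain ⟨ps, ws0, S0, xs0, κ, hBd, hSt, hO, hT1⟩ := bld_tail h.hn h.conn h.flat h.sys h.tree ⊤ hC0
  have hpw := cfg_pw hC0
  have hz : Z0 B ws0 S0 ps T := by
    refine ⟨hSt.vir, hSt.con, one_card hO ?_, ?_, ?_⟩
    · obtain ⟨d, hd⟩ := List.exists_mem_of_ne_nil ds0 hne
      obtain ⟨-, -, -, ⟨b, hb⟩, -, -⟩ := cell_info h.conn (h.sys.ok d)
      exact ⟨b, (hSt.reg.B b).2 ⟨d, hd, hb⟩⟩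
    · rw [reg_size h.hn h.conn h.sys hpw hSt.reg]
      exact h1
    · by_cases ht : ds0.tail = []
      · have h3 : ws0.tail = [] := by
          have h4 := (reg_len hSt.reg).1
          have h5 : ds0.tail.length = 0 := by rw [ht]; rfl
          rw [List.length_tail] at h5
          apply List.length_eq_zero_iff.1
          rw [List.length_tail]
          omega
        rw [h3]
        have h4 : szT [] = 0 := rfl
        rw [h4, Nat.cast_zero]
        exact hB0
      · obtain ⟨S1, xs1, hr1⟩ := hT1 ht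
        rw [reg_size h.hn h.conn h.sys (hpw.sublist (List.tail_sublist ds0)) hr1]
        exact h2
  obtain ⟨π, h3, h4⟩ := ev_of_bd h hK hBd (hk0.trans hk) (by omega) hSt.reg hz
  exact ⟨ds0.length, π, hsuf.length_le, h3, h4⟩

end SYS.LO
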