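import Pool.Agent.SYS.LO.Stg
import Pool.Agent.SYS.LO.Zm
import Pool.Agent.SYS.LO.Sys
import Pool.Agent.SYS.LO.Lev
import Pool.Agent.SYS.LP.Main

/-!
# SYS-LO-Det: the deterministic theorem

`extract`: one of the three events of the first moment holds (`stage1`, `stage2`, `z0_of`, `ev_of_bd`).
`det`: the centres of `packing`, the cells of `exists_sys`, the levels of `exists_tree` and `lev_dist`, and a
faithful flat labelling give the data for `extract`.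
-/

namespace SYS.LO

open Classical SST SYS.Part

variable {n : ℕ} {T : Tri (Fin (6 * n))} {G : Type} [Group G] {l : Fin (6 * n) → G} {r Λ : ℕ}
  {cell : Fin (6 * n) → Part (Fin (6 * n))} {bl : Fin (6 * n) → Bool} {r0 : Fin (6 * n)} {lev : Fin (6 * n) → ℕ}
  {P E : Fin (6 * n) → Fin (6 * n)} {d0 : Fin (6 * n)} {W : List (Fin (6 * n))}

theorem extract (h : Dat T l r Λ cell bl r0 lev P E d0 W) {K : ℕ}
    (hK : ∀ ds : List (Fin (6 * n)), ds.Pairwise (fun d e => d ∉ (cell e).R) → (ds.map bl).count true ≤ K) {B : ℝ} (hB : 0 ≤ B) :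
    ∃ N c π, N ≤ 1 + 4 * Λ ∧ PatOk N K c π ∧
      ((c = 0 ∧ Ev r π (Z0 B) T) ∨ (c = 1 ∧ Ev r π (Z1 B) T) ∨ (c = 2 ∧ Ev r π (Z2 B) T)) := by
  obtain ⟨ds, ps, k, ws, S, xs, κ, b, b', hk, hds, hBd, hSta, hOne, hVir, hNo, -⟩ := stage1 h
  have hbB : b ∈ S.B := hVir.2.1
  have hb'B : b' ∈ S.B := hVir.2.2.1
  have hne : b ≠ b' := hVir.2.2.2.1
  by_cases hsz : B < szT ws
  · obtain ⟨N, π, hN, hok, hev⟩ := z0_of h hK (cfg_of_bd hBd) (by omega) hSta.reg hB hsz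
    exact ⟨N, 0, π, by omega, hok, Or.inl ⟨rfl, hev⟩⟩
  · have hsz' : (szT ws : ℝ) ≤ B := not_lt.1 hsz
    rcases vconn_two hSta.reg.le (nuL_off (vir_B hSta.vir)) hbB hb'B hSta.con with hc | ⟨Q, q1, q2, -, -⟩
    · obtain ⟨ds', ps', k', ws', S', xs', a1, a2, a3, a4, a5, a6, a7, a8⟩ :=
        stage2 h hk hds hBd hSta hOne hVir hc
      by_cases hsz2 : B < szT ws'
      · obtain ⟨N, π, hN, hok, hev⟩ := z0_of h hK (cfg_of_bd a3) a1 a4 hB hsz2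
        exact ⟨N, 0, π, by omega, hok, Or.inl ⟨rfl, hev⟩⟩
      · obtain ⟨π, h1, h2⟩ := ev_of_bd h hK a3 a1 (by omega) a4 (Z := Z2 B)
          ⟨a5, a6, a7, a8, not_lt.1 hsz2⟩
        exact ⟨ds'.length, 2, π, a2, h1, Or.inr (Or.inr ⟨rfl, h2⟩)⟩
    · have hBd' : Bd T cell r0 lev P E ds ((b, b') :: ps) k (0 + 1) :=
        Bd.cls hBd ((hSta.reg.B b).1 hbB) ((hSta.reg.B b').1 hb'B)
      have hcard : Multiset.card (Vm.hls (S.nuL ((b, b') :: ps)) S.B) = 2 := by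
        have h1 := one_card hOne ⟨b, hbB⟩
        have h2 := card_same (vir_B hSta.vir) hbB hb'B hne (hOne.1 b hbB b' hb'B)
        omega
      obtain ⟨π, h1, h2⟩ := ev_of_bd h hK hBd' (by omega) (by omega) hSta.reg (Z := Z1 B)
        ⟨hVir, hNo, ⟨Q, q1, q2⟩, hcard, hsz'⟩
      exact ⟨ds.length, 0 + 1, π, by omega, h1, Or.inr (Or.inl ⟨rfl, h2⟩)⟩

theorem det {g : ℕ} (hT : T ∈ Trn n g) (hg : 1 ≤ g) {W : List (Fin (6 * n))} (hW : T.Closed W) (h0 : T.NullHom W)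
    (h1 : ¬ T.NullHtp W) (hmin : ∀ c : List (Fin (6 * n)), T.Closed c → T.NullHom c → ¬ T.NullHtp c → W.length ≤ c.length)
    {k : Fin (6 * n) → ℤ} (hk : ∀ d, k (T.f d) = k d) (hc : ∀ d, T.chain W d = k d - k (T.a d)) {m : ℕ} (hm2 : 2 ≤ m) {η : ℝ}
    (hη : 0 < η) (hη1 : η ≤ 1) (hm : 1 ≤ η * m) {M1 A : ℕ}
    (hM : {v : T.V | ∃ c, T.IsWalk v c v ∧ c.length ≤ 4 * m ∧ ¬ T.NullHtp c}.ncard ≤ M1) (hA : {d | k d ≠ 0}.ncard ≤ A)
    {B : ℝ} (hB : 0 ≤ B) :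
    ∃ K : ℕ, 4 * m * (1 - η) * K ≤ W.length + 4 * m * ((M1 : ℝ) + 4 * A / (η * m) ^ 2) ∧
      ∃ N c π, N ≤ 1 + 4 * (6 * K + 2 * (2 * m + 3) * M1 + (2 * m + 1)) ∧ PatOk N K c π ∧
        ((c = 0 ∧ Ev (m - 1) π (Z0 B) T) ∨ (c = 1 ∧ Ev (m - 1) π (Z1 B) T) ∨ (c = 2 ∧ Ev (m - 1) π (Z2 B) T)) := by
  obtain ⟨C, hCne, hCW, hCfar, hCconn, hCdist, hcard⟩ := packing hT.1 hW h0 h1 hmin hk hc hη hη1 hm hM hA
  obtain ⟨cell, bl, Bad, hsys, hBC, hBc, hK, hgood⟩ := exists_sys hT hg hm2 hCfar hM hW h1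
  refine ⟨C.card, hcard, ?_⟩
  cases W with
  | nil => exact absurd (Relation.EqvGen.refl _) h1
  | cons d0 W =>
    have hn : 1 ≤ n := by
      have := d0.isLt
      omega
    have : Nonempty (Fin (6 * n)) := ⟨d0⟩
    obtain ⟨x, hx⟩ := hCne
    obtain ⟨r0, -, hr0⟩ := hCW x hx
    obtain ⟨lev, P, E, ht⟩ := exists_tree hT.1 hsys r0
    obtain ⟨G, hG, l, hl, hfaith⟩ := exists_flat T hT.1
    have hwalk : T.IsWalk (T.tl d0) (d0 :: W) (T.tl d0) := by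
      obtain ⟨v, hv⟩ := hW
      have h2 : T.tl d0 = v := hv.1
      rw [h2]
      exact hv
    have hdat : Dat T l (m - 1) (6 * C.card + 2 * (2 * m + 3) * M1 + (2 * m + 1)) cell bl r0 lev P E d0 W := by
      refine ⟨hn, hT.1, hl, hfaith, hsys, ht, hwalk, h0, h1, fun d hd => ?_⟩
      obtain ⟨y, hy, hyd⟩ := hCdist d hd
      exact lev_dist hsys ht hBC hBc hgood hCconn (by rw [← hr0]; exact hx) hy hyd
    exact extract hdat hK hB

end SYS.LO
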