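import Pool.Agent.SYS.LO.Det
import Pool.Agent.SYS.LA.T1L

/-!
# SYS-LO-DetL: the deterministic theorem for `LowCfg`
-/

namespace SYS.LO

open Classical SST SYS.Part

theorem detL {n g : ℕ} {T : Tri (Fin (6 * n))} (hT : T ∈ Trn n g) (hg : 1 ≤ g) {m M1 : ℕ} (hm : 2 ≤ m) {L K0 : ℝ}
    (h : LowCfg T m L K0)
    (hM : {v : T.V | ∃ c, T.IsWalk v c v ∧ c.length ≤ 4 * m ∧ ¬ T.NullHtp c}.ncard ≤ M1) {B : ℝ} (hB : 0 ≤ B) :
    ∃ K : ℕ, (K : ℝ) ≤ K0 ∧ ∃ N c π, N ≤ 1 + 4 * (6 * K + 2 * (2 * m + 3) * M1 + (2 * m + 1)) ∧ PatOk N K c π ∧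
      ((c = 0 ∧ Ev (m - 1) π (Z0 B) T) ∨ (c = 1 ∧ Ev (m - 1) π (Z1 B) T) ∨ (c = 2 ∧ Ev (m - 1) π (Z2 B) T)) := by
  obtain ⟨W, C, hW, h0, h1, -, hCne, hCW, hCfar, hCconn, hCdist, hcard⟩ := h
  obtain ⟨cell, bl, Bad, hsys, hBC, hBc, hK, hgood⟩ := exists_sys hT hg hm hCfar hM hW h1
  refine ⟨C.card, hcard, ?_⟩
  cases W with
  | nil => exact absurd (Relation.EqvGen.refl _) h1
  | cons d0 W =>
    have hn : 1 ≤ n := by
      have := d0.isLt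
      omega
    have : Nonempty (Fin (6 * n)) := ⟨d0⟩
    obtain ⟨x, hx⟩ := hCne
    obtain ⟨r0, -, hr0⟩ := hCW x hx
    obtain ⟨lev, P, E, ht⟩ := exists_tree hT.1 hsys r0
    obtain ⟨G, hG, l, hl, hfaith⟩ := exists_flat T hT.1
    have hwalk : T.IsWalk (T.tl d0) (d0 :: W) (T.tl d0) := by
      obtain ⟨v, hv⟩ := hW
      have h2 : T.tl d0 = v := hv.1
      rw [h2]
      exact hv
    have hdat : Dat T l (m - 1) (6 * C.card + 2 * (2 * m + 3) * M1 + (2 * m + 1)) cell bl r0 lev P E d0 W := by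
      refine ⟨hn, hT.1, hl, hfaith, hsys, ht, hwalk, h0, h1, fun d hd => ?_⟩
      obtain ⟨y, hy, hyd⟩ := hCdist d hd
      exact lev_dist hsys ht hBC hBc hgood hCconn (by rw [← hr0]; exact hx) hy hyd
    exact extract hdat hK hB

end SYS.LO
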