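import Pool.Agent.SYS.LO.NumA
import Pool.Agent.SYS.T1

/-!
# SYS-LO-NumB: lists of islands (induction on the list, one island at a time: `step_ball`, `first_ball`, `step_size`, `first_size`, `rat3`)
-/

namespace SYS.LO

open Classical SYS.Num Filter Topology

variable {θ x : ℝ}

/-- Number of marks on the balls. -/
def bE (bs : List Bool) (es : List ℕ) : ℕ := (List.zipWith (fun b e => if b then e else 0) bs es).sum

/-- Size of the islands. -/
def szW (ws : List (List Stp)) : ℕ := pT ws + vT ws

private theorem log_small (B : ℝ) {c : ℝ} (hc : 0 < c) : ∀ᶠ n : ℕ in atTop, |B * Real.log n| ≤ c * n := by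
  have h1 := ((Real.isLittleO_log_id_atTop.const_mul_left B).comp_tendsto (tendsto_natCast_atTop_atTop (R := ℝ))).def hc
  filter_upwards [h1] with n hn
  simpa using hn

theorem win_n (h : Par θ x) {g : ℕ → ℕ} (hg : Tendsto (fun n => (g n : ℝ) / n) atTop (𝓝 θ)) {δ' : ℝ} (hδ' : 0 < δ') (M : ℕ) (B0 : ℝ) :
    ∀ᶠ n : ℕ in atTop, g n ≠ 0 ∧ ∀ F p : ℕ, F ≤ 2 * n → 2 * (n : ℝ) ≤ F + B0 * Real.log n → 1 ≤ p → (p : ℝ) ≤ B0 * Real.log n →
      Win θ δ' M {p} F (g n) := by
  obtain ⟨hθ0, hθ1, -, -⟩ := h
  have hc : 0 < min (δ' / 4) 1 := lt_min (by linarith) one_pos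
  have hd : 0 < min (δ' / 8) (θ / 2) := lt_min (by linarith) (by linarith)
  have e1 := (Metric.tendsto_nhds.1 hg) _ hd
  filter_upwards [e1, log_small B0 hc, eventually_ge_atTop (max M 1)] with n hn1 hn2 hn3
  have hn0 : (1 : ℝ) ≤ n := by exact_mod_cast le_trans (le_max_right _ _) hn3
  have hnM : (M : ℝ) ≤ n := by exact_mod_cast le_trans (le_max_left _ _) hn3
  have hnp : (0 : ℝ) < n := by linarith
  rw [Real.dist_eq] at hn1
  have h1 : |(g n : ℝ) - θ * n| < min (δ' / 8) (θ / 2) * n := by
    have e : (g n : ℝ) - θ * n = ((g n : ℝ) / n - θ) * n := by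
      field_simp
    rw [e, abs_mul, abs_of_pos hnp]
    exact mul_lt_mul_of_pos_right hn1 hnp
  have h2 : |(g n : ℝ) - θ * n| < δ' / 8 * n := h1.trans_le (mul_le_mul_of_nonneg_right (min_le_left _ _) hnp.le)
  have h3 : |(g n : ℝ) - θ * n| < θ / 2 * n := h1.trans_le (mul_le_mul_of_nonneg_right (min_le_right _ _) hnp.le)
  have h4 : |B0 * Real.log n| ≤ δ' / 4 * n := hn2.trans (mul_le_mul_of_nonneg_right (min_le_left _ _) hnp.le)
  have h5 : |B0 * Real.log n| ≤ 1 * n := hn2.trans (mul_le_mul_of_nonneg_right (min_le_right _ _) hnp.le)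
  rw [abs_lt] at h2 h3
  rw [abs_le] at h4 h5
  refine ⟨?_, ?_⟩
  · intro h0
    rw [h0, Nat.cast_zero] at h3
    have : 0 < θ * n := mul_pos hθ0 hnp
    linarith [h3.1]
  · intro F p hF1 hF2 hp1 hp2
    have hF1' : (F : ℝ) ≤ 2 * n := by exact_mod_cast hF1
    have hFn : (n : ℝ) ≤ F := by linarith [h5.2]
    have hdF : δ' * (n : ℝ) ≤ δ' * F := mul_le_mul_of_nonneg_left hFn hδ'.le
    have hFp : 0 < (F : ℝ) := by linarith
    have hdn : 0 < δ' * (n : ℝ) := mul_pos hδ' hnp
    refine ⟨?_, ?_, ?_, ?_⟩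
    · have : (M : ℝ) ≤ F := by linarith
      exact_mod_cast this
    · have k1 : 0 ≤ θ * (2 * n - F) := mul_nonneg hθ0.le (by linarith)
      have k2 : θ * (2 * n - F) ≤ 1 / 2 * (2 * n - F) := mul_le_mul_of_nonneg_right hθ1.le (by linarith)
      rw [abs_le]
      constructor
      · linarith [h2.1]
      · linarith [h2.2, h4.2]
    · rw [Multiset.sum_singleton]
      linarith [h4.2]
    · intro q hq
      rw [Multiset.mem_singleton] at hq
      omega

private theorem wE_cons (w : List Stp) (ws : List (List Stp)) (e : ℕ) (es : List ℕ) :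
    wE (w :: ws) (e :: es) = wwt 1 W w * (wend 3 w : ℝ) ^ e * wE ws es := by
  simp [wE]

private theorem pT_cons (w : List Stp) (ws : List (List Stp)) : pT (w :: ws) = wend 3 w + pT ws := by simp [pT]

private theorem vT_cons (w : List Stp) (ws : List (List Stp)) : vT (w :: ws) = 1 + wvol w + vT ws := by simp [vT]

private theorem wE_nonneg (ws : List (List Stp)) : ∀ es : List ℕ, 0 ≤ wE ws es := by
  induction ws with
  | nil => intro es; simp [wE]
  | cons w ws ih =>
    intro es
    cases es with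
    | nil => simp [wE]
    | cons e es =>
      rw [wE_cons]
      exact mul_nonneg (mul_nonneg (wwt_nonneg zero_le_one W_nonneg w) (pow_nonneg (Nat.cast_nonneg _) _)) (ih es)

private theorem map_nonneg {φ : List Stp → ℝ} (hφ : ∀ w, 0 ≤ φ w) (ws : List (List Stp)) : 0 ≤ (ws.map φ).prod := by
  refine List.prod_nonneg ?_
  intro y hy
  obtain ⟨w, -, rfl⟩ := List.mem_map.1 hy
  exact hφ w

private theorem grp {f G : List (List Stp) → ℝ} (A : Finset (List (List Stp))) (hA : ∀ ws ∈ A, ws ≠ [])
    (hG : ∀ ws' ∈ A.image List.tail, ∀ S : Finset (List Stp), (∀ w ∈ S, w :: ws' ∈ A) → ∑ w ∈ S, f (w :: ws') ≤ G ws') :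
    ∑ ws ∈ A, f ws ≤ ∑ ws' ∈ A.image List.tail, G ws' := by
  have hd : ∀ ws : List (List Stp), ws ≠ [] → ws = ws.headD [] :: ws.tail := by
    intro ws h
    cases ws with
    | nil => exact absurd rfl h
    | cons w ws => rfl
  rw [← Finset.sum_fiberwise_of_maps_to (t := A.image List.tail) (g := List.tail) (fun ws hws => Finset.mem_image_of_mem _ hws)]
  refine Finset.sum_le_sum fun ws' hws' => ?_
  have h1 : ∑ ws ∈ A with ws.tail = ws', f ws =
      ∑ w ∈ (A.filter fun ws => ws.tail = ws').image (fun ws => ws.headD []), f (w :: ws') := by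
    rw [Finset.sum_image]
    · refine Finset.sum_congr rfl fun ws hws => ?_
      rw [Finset.mem_filter] at hws
      have := hd ws (hA ws hws.1)
      rw [hws.2] at this
      rw [← this]
    · intro u hu v hv huv
      have hu' := Finset.mem_filter.1 (Finset.mem_coe.1 hu)
      have hv' := Finset.mem_filter.1 (Finset.mem_coe.1 hv)
      have e1 := hd u (hA u hu'.1)
      have e2 := hd v (hA v hv'.1)
      rw [hu'.2] at e1
      rw [hv'.2] at e2
      have huv' : u.headD [] = v.headD [] := huv
      rw [e1, e2, huv']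
  rw [h1]
  refine hG ws' hws' _ fun w hw => ?_
  obtain ⟨ws, hws, rfl⟩ := Finset.mem_image.1 hw
  rw [Finset.mem_filter] at hws
  have := hd ws (hA ws hws.1)
  rw [hws.2] at this
  show ws.headD [] :: ws' ∈ A
  rw [← this]
  exact hws.1

private theorem pT_pos {r : ℕ} {bs : List Bool} {ws : List (List Stp)} (h : List.Forall₂ (Wd r) bs ws) (h0 : bs ≠ []) : 1 ≤ pT ws := by
  cases h with
  | nil => exact absurd rfl h0
  | cons hw _ =>
    rw [pT_cons]
    rcases hw with ⟨-, hw, -⟩ | ⟨-, rfl⟩
    · have := wend_pos hw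
      omega
    · rw [wend_nil]
      omega

private theorem chain {r n gg : ℕ} {L : ℝ} {a : Bool → ℕ → ℝ} {φ : List Stp → ℝ} (hφ : ∀ w, 0 ≤ φ w)
    (hstep : ∀ (b : Bool) (p F e : ℕ) (S : Finset (List Stp)), 1 ≤ p → e < 15 → F ≤ 2 * n → 2 * (n : ℝ) ≤ F + L → (p : ℝ) ≤ L →
      (∀ w ∈ S, Wd r b w ∧ 1 + wvol w ≤ F) →
      ∑ w ∈ S, wwt 1 W w * (wend 3 w : ℝ) ^ e * φ w * muG {p + wend 3 w} (F - (1 + wvol w)) gg ≤ a b e * muG {p} F gg)
    (hfirst : ∀ (b : Bool) (e : ℕ) (S : Finset (List Stp)), e < 15 → (∀ w ∈ S, Wd r b w ∧ 1 + wvol w ≤ 2 * n) →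
      ∑ w ∈ S, wwt 1 W w * (wend 3 w : ℝ) ^ e * φ w * muG {wend 3 w} (2 * n - (1 + wvol w)) gg ≤ a b e * muG {3} (2 * n - 1) gg)
    (ha : ∀ b e, 0 ≤ a b e) (bs : List Bool) : ∀ (es : List ℕ) (A : Finset (List (List Stp))),
      bs.length = es.length → bs ≠ [] → (∀ e ∈ es, e < 15) →
      (∀ ws ∈ A, List.Forall₂ (Wd r) bs ws ∧ vT ws ≤ 2 * n ∧ (szW ws.tail : ℝ) ≤ L) →
      ∑ ws ∈ A, wE ws es * (ws.map φ).prod * muG {pT ws} (2 * n - vT ws) gg ≤
        (List.zipWith a bs es).prod * muG {3} (2 * n - 1) gg := by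
  induction bs with
  | nil => intro es A _ h; exact absurd rfl h
  | cons b bs ih =>
    intro es A hl _ he hA
    cases es with
    | nil => simp at hl
    | cons e es =>
      have hne : ∀ ws ∈ A, ws ≠ [] := by
        intro ws hws h0
        have h1 := (hA ws hws).1
        rw [h0] at h1
        cases h1
      have he1 : e < 15 := he e List.mem_cons_self
      rw [List.zipWith_cons_cons, List.prod_cons]
      by_cases hb : bs = []
      · subst hb
        have hes : es = [] := by
          cases es with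
          | nil => rfl
          | cons e' es => simp at hl
        subst hes
        have htl : ∀ ws' ∈ A.image List.tail, ws' = [] := by
          intro ws' hws'
          obtain ⟨ws, hws, rfl⟩ := Finset.mem_image.1 hws'
          have h1 := (hA ws hws).1
          cases h1 with
          | cons _ h2 => cases h2; rfl
        refine (grp (G := fun _ => a b e * muG {3} (2 * n - 1) gg) A hne ?_).trans ?_
        · intro ws' hws' S hS
          have h0 := htl ws' hws'
          subst h0
          refine le_trans (le_of_eq ?_) (hfirst b e S he1 ?_)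
          · refine Finset.sum_congr rfl fun w _ => ?_
            rw [wE_cons, pT_cons, vT_cons]
            simp [wE, pT, vT]
          · intro w hw
            have h1 := hA _ (hS w hw)
            have h2 := h1.2.1
            rw [vT_cons] at h2
            refine ⟨?_, by omega⟩
            cases h1.1 with
            | cons h3 _ => exact h3
        · have hsub : A.image List.tail ⊆ {[]} := by
            intro ws' hws'
            rw [Finset.mem_singleton]
            exact htl ws' hws'
          refine (Finset.sum_le_sum_of_subset_of_nonneg hsub fun _ _ _ => mul_nonneg (ha b e) (muG_nonneg _ _ _)).trans ?_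
          rw [Finset.sum_singleton]
          simp
      · have hA' : ∀ ws' ∈ A.image List.tail, List.Forall₂ (Wd r) bs ws' ∧ vT ws' ≤ 2 * n ∧ (szW ws' : ℝ) ≤ L := by
          intro ws' hws'
          obtain ⟨ws, hws, rfl⟩ := Finset.mem_image.1 hws'
          obtain ⟨h1, h2, h3⟩ := hA ws hws
          refine ⟨?_, ?_, h3⟩
          · cases h1 with
            | cons _ h4 => exact h4
          · cases ws with
            | nil => simpa using h2
            | cons w ws =>
              rw [vT_cons] at h2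
              show vT ws ≤ 2 * n
              omega
        have hih := ih es (A.image List.tail) (by simpa using hl) hb (fun e' he' => he e' (List.mem_cons_of_mem _ he')) (by
          intro ws' hws'
          obtain ⟨h1, h2, h3⟩ := hA' ws' hws'
          refine ⟨h1, h2, le_trans ?_ h3⟩
          have : szW ws'.tail ≤ szW ws' := by
            cases ws' with
            | nil => exact le_rfl
            | cons w ws =>
              show pT ws + vT ws ≤ pT (w :: ws) + vT (w :: ws)
              rw [pT_cons, vT_cons]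
              omega
          exact_mod_cast this)
        refine (grp (G := fun ws' => a b e * (wE ws' es * (ws'.map φ).prod * muG {pT ws'} (2 * n - vT ws') gg)) A hne ?_).trans ?_
        · intro ws' hws' S hS
          obtain ⟨h1, h2, h3⟩ := hA' ws' hws'
          have hst := hstep b (pT ws') (2 * n - vT ws') e S (pT_pos h1 hb) he1 (Nat.sub_le _ _) (by
              rw [Nat.cast_sub h2]
              have : (vT ws' : ℝ) ≤ szW ws' := by
                have : vT ws' ≤ szW ws' := Nat.le_add_left _ _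
                exact_mod_cast this
              push_cast
              linarith) (by
              refine le_trans ?_ h3
              have : pT ws' ≤ szW ws' := Nat.le_add_right _ _
              exact_mod_cast this) (by
              intro w hw
              have h4 := hA _ (hS w hw)
              have h5 := h4.2.1
              rw [vT_cons] at h5
              refine ⟨?_, by omega⟩
              cases h4.1 with
              | cons h6 _ => exact h6)
          have hc : 0 ≤ wE ws' es * (ws'.map φ).prod := mul_nonneg (wE_nonneg _ _) (map_nonneg hφ _)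
          calc ∑ w ∈ S, wE (w :: ws') (e :: es) * ((w :: ws').map φ).prod * muG {pT (w :: ws')} (2 * n - vT (w :: ws')) gg
              = (wE ws' es * (ws'.map φ).prod) * ∑ w ∈ S, wwt 1 W w * (wend 3 w : ℝ) ^ e * φ w *
                  muG {pT ws' + wend 3 w} (2 * n - vT ws' - (1 + wvol w)) gg := by
                rw [Finset.mul_sum]
                refine Finset.sum_congr rfl fun w _ => ?_
                have e1 : 2 * n - (1 + wvol w + vT ws') = 2 * n - vT ws' - (1 + wvol w) := by omega
                rw [wE_cons, pT_cons, vT_cons, List.map_cons, List.prod_cons, e1, Nat.add_comm (wend 3 w) (pT ws')]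
                ring
            _ ≤ (wE ws' es * (ws'.map φ).prod) * (a b e * muG {pT ws'} (2 * n - vT ws') gg) := mul_le_mul_of_nonneg_left hst hc
            _ = a b e * (wE ws' es * (ws'.map φ).prod * muG {pT ws'} (2 * n - vT ws') gg) := by ring
        · rw [← Finset.mul_sum, mul_assoc]
          exact mul_le_mul_of_nonneg_left hih (ha b e)

private theorem sum_nil {f : List Stp → ℝ} {c : ℝ} (hc : 0 ≤ c) (hf : 0 ≤ f []) (h : f [] ≤ c) {r : ℕ} {S : Finset (List Stp)}
    (hS : ∀ w ∈ S, Wd r false w) : ∑ w ∈ S, f w ≤ c := by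
  have hsub : S ⊆ {[]} := by
    intro w hw
    rw [Finset.mem_singleton]
    rcases hS w hw with ⟨h1, -⟩ | ⟨-, h1⟩
    · cases h1
    · exact h1
  have h1 : ∑ w ∈ S, f w ≤ ∑ w ∈ ({[]} : Finset (List Stp)), f w := by
    refine Finset.sum_le_sum_of_subset_of_nonneg hsub fun w hw _ => ?_
    rw [Finset.mem_singleton] at hw
    rw [hw]
    exact hf
  rw [Finset.sum_singleton] at h1
  exact h1.trans h

private theorem pow3_le {e : ℕ} (he : e < 15) : (3 : ℝ) ^ e ≤ 3 ^ 14 := pow_le_pow_right₀ (by norm_num) (by omega)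

theorem sum_le' (h : Par θ x) {δ : ℝ} (hδ : 0 < δ) :
    ∃ C : ℝ, 1 ≤ C ∧ ∀ g : ℕ → ℕ, Tendsto (fun n => (g n : ℝ) / n) atTop (𝓝 θ) → ∀ (r : ℕ) (B0 : ℝ), ∀ᶠ n : ℕ in atTop,
      ∀ (bs : List Bool) (es : List ℕ) (A : Finset (List (List Stp))),
      bs.length = es.length → bs ≠ [] → (∀ e ∈ es, e < 15) →
      (∀ ws ∈ A, List.Forall₂ (Wd r) bs ws ∧ (szW ws : ℝ) ≤ B0 * Real.log n) →
      ∑ ws ∈ A, wE ws es * muG {pT ws} (2 * n - vT ws) (g n) ≤
        C ^ bs.length * Real.exp ((1 + δ) * (2 * x) * r * bE bs es) * muG {3} (2 * n - 1) (g n) := by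
  obtain ⟨C1, d1, M1, hC1, hd1, H1⟩ := rat3 h
  obtain ⟨C2, hC2, H2⟩ := step_ball h hδ
  obtain ⟨C3, hC3, H3⟩ := first_ball h hδ
  have hx : 0 < x := h.2.2.1
  set C : ℝ := C2 + C3 + 3 ^ 14 * C1 + 3 ^ 14 with hC
  have hCC : 1 ≤ C := by nlinarith
  have hCa : C2 ≤ C := by nlinarith
  have hCb : C3 ≤ C := by nlinarith
  have hCc : 3 ^ 14 * C1 ≤ C := by nlinarith
  have hCd : 3 ^ 14 ≤ C := by nlinarith
  refine ⟨C, hCC, fun g hg r B0 => ?_⟩
  obtain ⟨d2, M2, hd2, H2⟩ := H2 r
  obtain ⟨d3, M3, hd3, H3⟩ := H3 r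
  have hlog : ∀ᶠ n : ℕ in atTop, 3 ≤ Real.log n :=
    (Real.tendsto_log_atTop.comp (tendsto_natCast_atTop_atTop (R := ℝ))).eventually_ge_atTop 3
  filter_upwards [win_n h hg hd1 M1 B0, win_n h hg hd2 M2 B0, win_n h hg hd3 M3 1, hlog, log_small B0 one_pos,
    eventually_ge_atTop 1] with n hn1 hn2 hn3 hn4 hn5 hn6
  intro bs es A hl hb he hA
  have hn0 : (1 : ℝ) ≤ n := by exact_mod_cast hn6
  have hL : B0 * Real.log n ≤ n := by
    rw [one_mul] at hn5
    exact (le_abs_self _).trans hn5
  set κ : ℝ := (1 + δ) * (2 * x) * r with hκ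
  have hκ0 : 0 ≤ κ := by positivity
  have hch := chain (r := r) (n := n) (gg := g n) (L := B0 * Real.log n)
    (a := fun b e => C * Real.exp (((if b then e else 0 : ℕ) : ℝ) * κ)) (φ := fun _ => 1) (fun _ => zero_le_one) ?_ ?_ ?_ bs es A
    hl hb he ?_
  · have e1 : ∀ (bs : List Bool) (es : List ℕ), bs.length = es.length →
        (List.zipWith (fun (b : Bool) (e : ℕ) => C * Real.exp (((if b then e else 0 : ℕ) : ℝ) * κ)) bs es).prod =
          C ^ bs.length * Real.exp (κ * bE bs es) := by
      intro bs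
      induction bs with
      | nil => intro es _; simp [bE]
      | cons b bs ih =>
        intro es hl
        cases es with
        | nil => simp at hl
        | cons e es =>
          rw [List.zipWith_cons_cons, List.prod_cons, ih es (by simpa using hl)]
          have e2 : bE (b :: bs) (e :: es) = (if b then e else 0) + bE bs es := by
            simp [bE]
          rw [e2, List.length_cons, pow_succ]
          have e3 : κ * (((if b then e else 0) + bE bs es : ℕ) : ℝ) = ((if b then e else 0 : ℕ) : ℝ) * κ + κ * bE bs es := by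
            push_cast
            ring
          rw [e3, Real.exp_add]
          ring
    rw [e1 bs es hl] at hch
    refine le_trans (le_of_eq ?_) hch
    refine Finset.sum_congr rfl fun ws _ => ?_
    simp
  · intro b p F e S hp he1 hF1 hF2 hp2 hS
    have hmu := muG_nonneg {p} F (g n)
    cases b with
    | true =>
      have h1 := H2 p F (g n) e S hp hn2.1 he1 (hn2.2 F p hF1 hF2 hp hp2) hS
      simp only [mul_one, if_true]
      refine h1.trans ?_
      exact mul_le_mul_of_nonneg_right (mul_le_mul_of_nonneg_right hCa (Real.exp_pos _).le) hmu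
    | false =>
      have hS' : ∀ w ∈ S, Wd r false w := fun w hw => (hS w hw).1
      simp only [mul_one, Bool.false_eq_true, if_false, Nat.cast_zero, zero_mul, Real.exp_zero]
      refine sum_nil (f := fun w => wwt 1 W w * (wend 3 w : ℝ) ^ e * muG {p + wend 3 w} (F - (1 + wvol w)) (g n)) ?_ ?_ ?_ hS'
      · exact mul_nonneg (by linarith) hmu
      · exact mul_nonneg (mul_nonneg (wwt_nonneg zero_le_one W_nonneg _) (by positivity)) (muG_nonneg _ _ _)
      · have h1 := H1 p F (g n) hp hn1.1 (hn1.2 F p hF1 hF2 hp hp2)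
        show wwt 1 W [] * (wend 3 [] : ℝ) ^ e * muG {p + wend 3 []} (F - (1 + wvol [])) (g n) ≤ C * muG {p} F (g n)
        rw [wwt_nil, wend_nil, wvol_nil, one_mul, Nat.add_zero]
        calc ((3 : ℕ) : ℝ) ^ e * muG {p + 3} (F - 1) (g n) ≤ 3 ^ 14 * (C1 * muG {p} F (g n)) := by
              refine mul_le_mul (by exact_mod_cast pow3_le he1) h1 (muG_nonneg _ _ _) (by positivity)
          _ = (3 ^ 14 * C1) * muG {p} F (g n) := by ring
          _ ≤ C * muG {p} F (g n) := mul_le_mul_of_nonneg_right hCc hmu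
  · intro b e S he1 hS
    have hmu := muG_nonneg {3} (2 * n - 1) (g n)
    cases b with
    | true =>
      have h1 := H3 (2 * n - 1) (g n) e S he1 (hn3.2 (2 * n - 1) 3 (Nat.sub_le _ _) (by
          rw [Nat.cast_sub (by omega)]
          push_cast
          linarith) (by norm_num) (by push_cast; linarith)) (fun w hw => ⟨(hS w hw).1, by have := (hS w hw).2; omega⟩)
      simp only [mul_one, if_true]
      refine le_trans (le_of_eq ?_) (h1.trans ?_)
      · refine Finset.sum_congr rfl fun w _ => ?_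
        rw [Nat.sub_add_eq]
      · exact mul_le_mul_of_nonneg_right (mul_le_mul_of_nonneg_right hCb (Real.exp_pos _).le) hmu
    | false =>
      have hS' : ∀ w ∈ S, Wd r false w := fun w hw => (hS w hw).1
      simp only [mul_one, Bool.false_eq_true, if_false, Nat.cast_zero, zero_mul, Real.exp_zero]
      refine sum_nil (f := fun w => wwt 1 W w * (wend 3 w : ℝ) ^ e * muG {wend 3 w} (2 * n - (1 + wvol w)) (g n)) ?_ ?_ ?_ hS'
      · exact mul_nonneg (by linarith) hmu
      · exact mul_nonneg (mul_nonneg (wwt_nonneg zero_le_one W_nonneg _) (by positivity)) (muG_nonneg _ _ _)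
      · show wwt 1 W [] * (wend 3 [] : ℝ) ^ e * muG {wend 3 []} (2 * n - (1 + wvol [])) (g n) ≤ C * muG {3} (2 * n - 1) (g n)
        rw [wwt_nil, wend_nil, wvol_nil, one_mul, Nat.add_zero]
        refine mul_le_mul_of_nonneg_right (le_trans ?_ hCd) hmu
        exact_mod_cast pow3_le he1
  · intro b e
    exact mul_nonneg (by linarith) (Real.exp_pos _).le
  · intro ws hws
    obtain ⟨h1, h2⟩ := hA ws hws
    refine ⟨h1, ?_, le_trans ?_ h2⟩
    · have h3 : (vT ws : ℝ) ≤ szW ws := by
        have : vT ws ≤ szW ws := Nat.le_add_left _ _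
        exact_mod_cast this
      have h4 : (vT ws : ℝ) ≤ 2 * n := by linarith
      exact_mod_cast h4
    · have : szW ws.tail ≤ szW ws := by
        cases ws with
        | nil => exact le_rfl
        | cons w ws =>
          show pT ws + vT ws ≤ pT (w :: ws) + vT (w :: ws)
          rw [pT_cons, vT_cons]
          omega
      exact_mod_cast this

theorem sum_le (h : Par θ x) {g : ℕ → ℕ} (hg : Tendsto (fun n => (g n : ℝ) / n) atTop (𝓝 θ)) {δ : ℝ} (hδ : 0 < δ) :
    ∃ C : ℝ, 1 ≤ C ∧ ∀ (r : ℕ) (B0 : ℝ), ∀ᶠ n : ℕ in atTop, ∀ (bs : List Bool) (es : List ℕ) (A : Finset (List (List Stp))),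
      bs.length = es.length → bs ≠ [] → (∀ e ∈ es, e < 15) →
      (∀ ws ∈ A, List.Forall₂ (Wd r) bs ws ∧ (szW ws : ℝ) ≤ B0 * Real.log n) →
      ∑ ws ∈ A, wE ws es * muG {pT ws} (2 * n - vT ws) (g n) ≤
        C ^ bs.length * Real.exp ((1 + δ) * (2 * x) * r * bE bs es) * muG {3} (2 * n - 1) (g n) := by
  obtain ⟨C, hC, H⟩ := sum_le' h hδ
  exact ⟨C, hC, fun r B0 => H g hg r B0⟩

theorem tail_le (h : Par θ x) {g : ℕ → ℕ} (hg : Tendsto (fun n => (g n : ℝ) / n) atTop (𝓝 θ)) (r : ℕ) :
    ∃ c C : ℝ, 0 < c ∧ 1 ≤ C ∧ ∀ B0 : ℝ, 0 ≤ B0 → ∀ᶠ n : ℕ in atTop, ∀ (bs : List Bool) (es : List ℕ) (A : Finset (List (List Stp))),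
      bs.length = es.length → bs ≠ [] → (∀ e ∈ es, e < 15) →
      (∀ ws ∈ A, List.Forall₂ (Wd r) bs ws ∧ vT ws ≤ 2 * n ∧ B0 * Real.log n < szW ws ∧ (szW ws.tail : ℝ) ≤ B0 * Real.log n) →
      ∑ ws ∈ A, wE ws es * muG {pT ws} (2 * n - vT ws) (g n) ≤
        C ^ bs.length * Real.exp (-(c * (B0 * Real.log n))) * muG {3} (2 * n - 1) (g n) := by
  obtain ⟨C1, d1, M1, hC1, hd1, H1⟩ := rat3 h
  obtain ⟨c2, C2, d2, M2, hc2, hC2, hd2, H2⟩ := step_size h r
  obtain ⟨c3, C3, d3, M3, hc3, hC3, hd3, H3⟩ := first_size h r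
  set c : ℝ := min c2 c3 with hcdef
  have hc : 0 < c := lt_min hc2 hc3
  have hE : 0 < Real.exp (4 * c) := Real.exp_pos _
  set C : ℝ := C2 + C3 + 3 ^ 14 * C1 * Real.exp (4 * c) + 3 ^ 14 * Real.exp (4 * c) with hC
  have q1 : 0 < 3 ^ 14 * C1 * Real.exp (4 * c) := by positivity
  have q2 : 0 < 3 ^ 14 * Real.exp (4 * c) := by positivity
  have hCC : 1 ≤ C := by linarith
  have hCa : C2 ≤ C := by linarith
  have hCb : C3 ≤ C := by linarith
  have hCc : 3 ^ 14 * C1 * Real.exp (4 * c) ≤ C := by linarith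
  have hCd : 3 ^ 14 * Real.exp (4 * c) ≤ C := by linarith
  refine ⟨c, C, hc, hCC, fun B0 hB0 => ?_⟩
  have hlog : ∀ᶠ n : ℕ in atTop, 3 ≤ Real.log n :=
    (Real.tendsto_log_atTop.comp (tendsto_natCast_atTop_atTop (R := ℝ))).eventually_ge_atTop 3
  filter_upwards [win_n h hg hd1 M1 B0, win_n h hg hd2 M2 B0, win_n h hg hd3 M3 1, hlog, eventually_ge_atTop 1]
    with n hn1 hn2 hn3 hn4 hn6
  intro bs es A hl hb he hA
  have hn0 : (1 : ℝ) ≤ n := by exact_mod_cast hn6
  have hexp : ∀ (w : List Stp) {c' : ℝ}, c ≤ c' →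
      Real.exp (c * (wend 3 w + (1 + wvol w))) ≤ Real.exp (c' * (wend 3 w + (1 + wvol w))) := by
    intro w c' hc'
    exact Real.exp_le_exp.2 (mul_le_mul_of_nonneg_right hc' (by positivity))
  have hnil : Real.exp (c * ((wend 3 [] : ℕ) + (1 + (wvol [] : ℕ)))) = Real.exp (4 * c) := by
    rw [wend_nil, wvol_nil]
    congr 1
    push_cast
    ring
  have hch := chain (r := r) (n := n) (gg := g n) (L := B0 * Real.log n)
    (a := fun _ _ => C) (φ := fun w => Real.exp (c * (wend 3 w + (1 + wvol w)))) (fun _ => (Real.exp_pos _).le) ?_ ?_ ?_ bs es A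
    hl hb he ?_
  · have e1 : ∀ (bs : List Bool) (es : List ℕ), bs.length = es.length →
        (List.zipWith (fun (_ : Bool) (_ : ℕ) => C) bs es).prod = C ^ bs.length := by
      intro bs
      induction bs with
      | nil => intro es _; simp
      | cons b bs ih =>
        intro es hl
        cases es with
        | nil => simp at hl
        | cons e es =>
          rw [List.zipWith_cons_cons, List.prod_cons, ih es (by simpa using hl), List.length_cons, pow_succ, mul_comm]
    have e2 : ∀ ws : List (List Stp), (ws.map fun w => Real.exp (c * (wend 3 w + (1 + wvol w)))).prod = Real.exp (c * szW ws) := by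
      intro ws
      induction ws with
      | nil => simp [szW, pT, vT]
      | cons w ws ih =>
        have e3 : szW (w :: ws) = wend 3 w + (1 + wvol w) + szW ws := by
          show pT (w :: ws) + vT (w :: ws) = wend 3 w + (1 + wvol w) + (pT ws + vT ws)
          rw [pT_cons, vT_cons]
          omega
        rw [List.map_cons, List.prod_cons, ih, e3, ← Real.exp_add]
        congr 1
        push_cast
        ring
    rw [e1 bs es hl] at hch
    have h1 : Real.exp (c * (B0 * Real.log n)) * ∑ ws ∈ A, wE ws es * muG {pT ws} (2 * n - vT ws) (g n) ≤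
        C ^ bs.length * muG {3} (2 * n - 1) (g n) := by
      refine le_trans ?_ hch
      rw [Finset.mul_sum]
      refine Finset.sum_le_sum fun ws hws => ?_
      rw [e2 ws]
      have h2 : Real.exp (c * (B0 * Real.log n)) ≤ Real.exp (c * szW ws) :=
        Real.exp_le_exp.2 (mul_le_mul_of_nonneg_left (hA ws hws).2.2.1.le hc.le)
      have h3 : 0 ≤ wE ws es * muG {pT ws} (2 * n - vT ws) (g n) := mul_nonneg (wE_nonneg _ _) (muG_nonneg _ _ _)
      calc Real.exp (c * (B0 * Real.log n)) * (wE ws es * muG {pT ws} (2 * n - vT ws) (g n))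
          ≤ Real.exp (c * szW ws) * (wE ws es * muG {pT ws} (2 * n - vT ws) (g n)) := mul_le_mul_of_nonneg_right h2 h3
        _ = wE ws es * Real.exp (c * szW ws) * muG {pT ws} (2 * n - vT ws) (g n) := by ring
    rw [Real.exp_neg]
    have h4 : 0 < Real.exp (c * (B0 * Real.log n)) := Real.exp_pos _
    have h5 : C ^ bs.length * (Real.exp (c * (B0 * Real.log n)))⁻¹ * muG {3} (2 * n - 1) (g n) =
        (C ^ bs.length * muG {3} (2 * n - 1) (g n)) / Real.exp (c * (B0 * Real.log n)) := by
      rw [div_eq_mul_inv]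
      ring
    rw [h5, le_div_iff₀ h4]
    linarith
  · intro b p F e S hp he1 hF1 hF2 hp2 hS
    have hmu := muG_nonneg {p} F (g n)
    cases b with
    | true =>
      have h1 := H2 p F (g n) e S hp hn2.1 he1 (hn2.2 F p hF1 hF2 hp hp2) hS
      refine le_trans (Finset.sum_le_sum fun w _ => ?_) (h1.trans (mul_le_mul_of_nonneg_right hCa hmu))
      refine mul_le_mul_of_nonneg_right (mul_le_mul_of_nonneg_left (hexp w (min_le_left _ _)) ?_) (muG_nonneg _ _ _)
      exact mul_nonneg (wwt_nonneg zero_le_one W_nonneg _) (by positivity)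
    | false =>
      have hS' : ∀ w ∈ S, Wd r false w := fun w hw => (hS w hw).1
      refine sum_nil (f := fun w => wwt 1 W w * (wend 3 w : ℝ) ^ e * Real.exp (c * (wend 3 w + (1 + wvol w))) *
        muG {p + wend 3 w} (F - (1 + wvol w)) (g n)) ?_ ?_ ?_ hS'
      · exact mul_nonneg (by linarith) hmu
      · exact mul_nonneg (mul_nonneg (mul_nonneg (wwt_nonneg zero_le_one W_nonneg _) (by positivity)) (Real.exp_pos _).le)
          (muG_nonneg _ _ _)
      · have h1 := H1 p F (g n) hp hn1.1 (hn1.2 F p hF1 hF2 hp hp2)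
        show wwt 1 W [] * (wend 3 [] : ℝ) ^ e * Real.exp (c * ((wend 3 [] : ℕ) + (1 + (wvol [] : ℕ)))) *
          muG {p + wend 3 []} (F - (1 + wvol [])) (g n) ≤ C * muG {p} F (g n)
        rw [hnil, wwt_nil, wend_nil, wvol_nil, one_mul, Nat.add_zero]
        calc ((3 : ℕ) : ℝ) ^ e * Real.exp (4 * c) * muG {p + 3} (F - 1) (g n)
            ≤ 3 ^ 14 * Real.exp (4 * c) * (C1 * muG {p} F (g n)) := by
              refine mul_le_mul (mul_le_mul_of_nonneg_right (by exact_mod_cast pow3_le he1) hE.le) h1 (muG_nonneg _ _ _) (by positivity)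
          _ = (3 ^ 14 * C1 * Real.exp (4 * c)) * muG {p} F (g n) := by ring
          _ ≤ C * muG {p} F (g n) := mul_le_mul_of_nonneg_right hCc hmu
  · intro b e S he1 hS
    have hmu := muG_nonneg {3} (2 * n - 1) (g n)
    cases b with
    | true =>
      have h1 := H3 (2 * n - 1) (g n) e S he1 (hn3.2 (2 * n - 1) 3 (Nat.sub_le _ _) (by
          rw [Nat.cast_sub (by omega)]
          push_cast
          linarith) (by norm_num) (by push_cast; linarith)) (fun w hw => ⟨(hS w hw).1, by have := (hS w hw).2; omega⟩)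
      refine le_trans (Finset.sum_le_sum fun w _ => ?_) (h1.trans (mul_le_mul_of_nonneg_right hCb hmu))
      rw [Nat.sub_add_eq]
      refine mul_le_mul_of_nonneg_right (mul_le_mul_of_nonneg_left (hexp w (min_le_right _ _)) ?_) (muG_nonneg _ _ _)
      exact mul_nonneg (wwt_nonneg zero_le_one W_nonneg _) (by positivity)
    | false =>
      have hS' : ∀ w ∈ S, Wd r false w := fun w hw => (hS w hw).1
      refine sum_nil (f := fun w => wwt 1 W w * (wend 3 w : ℝ) ^ e * Real.exp (c * (wend 3 w + (1 + wvol w))) *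
        muG {wend 3 w} (2 * n - (1 + wvol w)) (g n)) ?_ ?_ ?_ hS'
      · exact mul_nonneg (by linarith) hmu
      · exact mul_nonneg (mul_nonneg (mul_nonneg (wwt_nonneg zero_le_one W_nonneg _) (by positivity)) (Real.exp_pos _).le)
          (muG_nonneg _ _ _)
      · show wwt 1 W [] * (wend 3 [] : ℝ) ^ e * Real.exp (c * ((wend 3 [] : ℕ) + (1 + (wvol [] : ℕ)))) *
          muG {wend 3 []} (2 * n - (1 + wvol [])) (g n) ≤ C * muG {3} (2 * n - 1) (g n)
        rw [hnil, wwt_nil, wend_nil, wvol_nil, one_mul, Nat.add_zero]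
        refine mul_le_mul_of_nonneg_right (le_trans ?_ hCd) hmu
        exact mul_le_mul_of_nonneg_right (by exact_mod_cast pow3_le he1) hE.le
  · intro b e
    linarith
  · intro ws hws
    obtain ⟨h1, h2, -, h3⟩ := hA ws hws
    exact ⟨h1, h2, h3⟩

end SYS.LO
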