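import Pool.Agent.SYS.LO.Cnt
import Pool.Agent.SYS.LO.CntZ
import Pool.Agent.SYS.LO.NumB
import Pool.Agent.SYS.SL.Clos
import Pool.Agent.SYS.LA.GoodC

/-!
# SYS-LO-FinA: probability of one pattern
-/

namespace SYS.LO

open Classical SST SYS.Num Filter Topology

variable {θ x : ℝ}

private theorem bE_aux (bs : List Bool) : ∀ es : List ℕ,
    bE bs es ≤ (es.map fun e => e - 2).sum + 2 * bs.count true := by
  induction bs with
  | nil =>
    intro es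
    simp [bE]
  | cons b bs ih =>
    intro es
    cases es with
    | nil => simp [bE]
    | cons e es =>
      have h1 := ih es
      have h2 : bE (b :: bs) (e :: es) = (if b then e else 0) + bE bs es := by
        simp [bE]
      rw [h2, List.map_cons, List.sum_cons, List.count_cons]
      cases b
      · simp only [Bool.false_eq_true, if_false, beq_iff_eq]
        omega
      · simp only [if_true, beq_self_eq_true]
        omega

theorem bE_le {N K c : ℕ} {π : Pat} (h : PatOk N K c π) : bE π.bs π.es ≤ 2 * K + 12 := by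
  have h1 := bE_aux π.bs π.es
  have h2 := h.balls
  have h3 := h.exc
  omega

theorem trn_base {n g : ℕ} (hn : 1 ≤ n) :
    ((Trn n g).ncard : ℝ) * (6 * n) = ((6 * n).factorial : ℝ) * muG {3} (2 * n - 1) g := by
  have h1 := Part.all_card (n := n) (g := g) hn
  have h2 : {q : Tri (Fin (6 * n)) × Fin (6 * n) | q.1 ∈ Trn n g} = Trn n g ×ˢ Set.univ := by
    ext q
    constructor
    · intro h
      exact ⟨h, Set.mem_univ _⟩
    · intro h
      exact h.1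
  rw [h2, Set.ncard_prod, Set.ncard_univ, Nat.card_fin] at h1
  push_cast at h1
  exact h1

private theorem fa_pos {r : ℕ} {bs : List Bool} {ws : List (List Stp)} (h : List.Forall₂ (Wd r) bs ws)
    (h0 : bs ≠ []) : 1 ≤ pT ws := by
  cases h with
  | nil => exact absurd rfl h0
  | @cons _ w _ ws hw _ =>
    have h1 : pT (w :: ws) = wend 3 w + pT ws := by simp [pT]
    rw [h1]
    rcases hw with ⟨-, hw, -⟩ | ⟨-, rfl⟩
    · have := wend_pos hw
      omega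
    · rw [wend_nil]
      omega

private theorem fa_wE (ws : List (List Stp)) (es : List ℕ) : 0 ≤ wE ws es := by
  induction ws generalizing es with
  | nil =>
    unfold wE
    rw [List.zipWith_nil_left]
    exact zero_le_one
  | cons w ws ih =>
    cases es with
    | nil =>
      unfold wE
      rw [List.zipWith_nil_right]
      exact zero_le_one
    | cons e es =>
      have h4 : wE (w :: ws) (e :: es) = (wwt 1 Num.W w * (wend 3 w : ℝ) ^ e) * wE ws es := by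
        unfold wE
        rw [List.zipWith_cons_cons, List.prod_cons]
      rw [h4]
      exact mul_nonneg (mul_nonneg (wwt_nonneg zero_le_one Num.W_nonneg w)
        (pow_nonneg (Nat.cast_nonneg _) _)) (ih es)

private theorem fa_ne {N K c : ℕ} {π : Pat} (h : PatOk N K c π) : π.bs ≠ [] := by
  intro h0
  have h1 := h.lb
  rw [h0, List.length_nil] at h1
  have h2 := h.hN
  omega

private theorem pat_sum {δ ρ C L : ℝ} {n g r N K c : ℕ} (hn : 1 ≤ n) {π : Pat} (hπ : PatOk N K c π)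
    (hx : 0 ≤ (1 + δ) * (2 * x)) (hC : 1 ≤ C) {a : ℝ} (ha0 : 0 ≤ a) (ha : a ≤ 4) (hρ : 0 ≤ ρ)
    (Z : List (List Stp) → Part (Fin (6 * n)) → List (Fin (6 * n) × Fin (6 * n)) → Tri (Fin (6 * n)) → Prop)
    (hZ1 : ∀ ws S ps T, Z ws S ps T → (szT ws : ℝ) ≤ L)
    (hZ2 : ∀ ws, List.Forall₂ (Wd r) π.bs ws → vT ws ≤ 2 * n → (szT ws : ℝ) ≤ L →
      ∀ S xs us ps, Isl ws S xs → Pos ws π.es us → Swp S xs us π.sw ps →
      (({T | T ∈ S.Ext g ∧ Z ws S ps T}.ncard : ℕ) : ℝ) ≤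
        ((3 * (2 * n - vT ws)).factorial : ℝ) * (a * (ρ * muG {pT ws} (2 * n - vT ws) g)))
    (hsum : ∀ A : Finset (List (List Stp)), (∀ ws ∈ A, List.Forall₂ (Wd r) π.bs ws ∧ (szW ws : ℝ) ≤ L) →
      ∑ ws ∈ A, wE ws π.es * muG {pT ws} (2 * n - vT ws) g ≤
        C ^ π.bs.length * Real.exp ((1 + δ) * (2 * x) * r * bE π.bs π.es) * muG {3} (2 * n - 1) g) :
    (({T : Tri (Fin (6 * n)) | T ∈ Trn n g ∧ Ev r π Z T}.ncard : ℕ) : ℝ) ≤
      (Trn n g).ncard * (6 * n) * (4 * ρ * (C ^ N * Real.exp ((1 + δ) * (2 * x) * r * (2 * K + 12)))) := by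
  have hmu : ∀ P F, 0 ≤ muG P F g := fun P F => Num.muG_nonneg _ _ _
  set A : Finset (List (List Stp)) := (ws_fin r (2 * n) π.bs).toFinset.filter fun ws => (szT ws : ℝ) ≤ L with hA
  have hmem : ∀ ws, ws ∈ A ↔ (List.Forall₂ (Wd r) π.bs ws ∧ vT ws ≤ 2 * n) ∧ (szT ws : ℝ) ≤ L := by
    intro ws
    rw [hA, Finset.mem_filter, Set.Finite.mem_toFinset]
    rfl
  have h1 := ev_count (g := g) (r := r) hn π Z
    (fun ws => a * (ρ * muG {pT ws} (2 * n - vT ws) g))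
    (fun ws => mul_nonneg ha0 (mul_nonneg hρ (hmu _ _))) A
    (fun ws S ps T h2 h3 h4 => (hmem ws).2 ⟨⟨h2, h3⟩, hZ1 ws S ps T h4⟩)
    (fun ws hws S xs us ps h2 h3 h4 => by
      obtain ⟨⟨h5, h6⟩, h7⟩ := (hmem ws).1 hws
      exact hZ2 ws h5 h6 h7 S xs us ps h2 h3 h4)
  refine h1.trans ?_
  have h2 := hsum A fun ws hws => ⟨((hmem ws).1 hws).1.1, ((hmem ws).1 hws).2⟩
  have h3 : ∑ ws ∈ A, wE ws π.es * (a * (ρ * muG {pT ws} (2 * n - vT ws) g)) =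
      a * ρ * ∑ ws ∈ A, wE ws π.es * muG {pT ws} (2 * n - vT ws) g := by
    rw [Finset.mul_sum]
    refine Finset.sum_congr rfl fun ws _ => ?_
    ring
  rw [h3, trn_base hn]
  have h4 : (bE π.bs π.es : ℝ) ≤ 2 * K + 12 := by exact_mod_cast bE_le hπ
  have h5 : Real.exp ((1 + δ) * (2 * x) * r * bE π.bs π.es) ≤
      Real.exp ((1 + δ) * (2 * x) * r * (2 * K + 12)) :=
    Real.exp_le_exp.2 (mul_le_mul_of_nonneg_left h4 (mul_nonneg hx (Nat.cast_nonneg _)))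
  have hC0 : 0 ≤ C ^ N := pow_nonneg (by linarith) _
  have h6 : ∑ ws ∈ A, wE ws π.es * muG {pT ws} (2 * n - vT ws) g ≤
      C ^ N * Real.exp ((1 + δ) * (2 * x) * r * (2 * K + 12)) * muG {3} (2 * n - 1) g := by
    refine h2.trans ?_
    rw [hπ.lb]
    exact mul_le_mul_of_nonneg_right (mul_le_mul_of_nonneg_left h5 hC0) (hmu _ _)
  have h7 : 0 ≤ C ^ N * Real.exp ((1 + δ) * (2 * x) * r * (2 * K + 12)) * muG {3} (2 * n - 1) g :=
    mul_nonneg (mul_nonneg hC0 (Real.exp_pos _).le) (hmu _ _)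
  have h8 : a * ρ * ∑ ws ∈ A, wE ws π.es * muG {pT ws} (2 * n - vT ws) g ≤
      4 * ρ * (C ^ N * Real.exp ((1 + δ) * (2 * x) * r * (2 * K + 12)) * muG {3} (2 * n - 1) g) := by
    refine (mul_le_mul_of_nonneg_left h6 (mul_nonneg ha0 hρ)).trans ?_
    exact mul_le_mul_of_nonneg_right (mul_le_mul_of_nonneg_right ha hρ) h7
  have hf : (0 : ℝ) ≤ ((6 * n).factorial : ℝ) := Nat.cast_nonneg _
  refine (mul_le_mul_of_nonneg_left h8 hf).trans (le_of_eq ?_)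
  ring

private theorem fa_g {g : ℕ → ℕ} (hθ : 0 < θ) (hg : Tendsto (fun n => (g n : ℝ) / n) atTop (𝓝 θ)) :
    ∀ᶠ n : ℕ in atTop, 2 ≤ g n := by
  have h1 : ∀ᶠ n : ℕ in atTop, θ / 2 < (g n : ℝ) / n :=
    (tendsto_order.1 hg).1 _ (by linarith)
  have h2 : ∀ᶠ n : ℕ in atTop, 4 / θ ≤ (n : ℝ) := tendsto_natCast_atTop_atTop.eventually_ge_atTop _
  filter_upwards [h1, h2] with n hn1 hn2
  have hn0 : 0 < (n : ℝ) := lt_of_lt_of_le (div_pos (by norm_num) hθ) hn2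
  rw [lt_div_iff₀ hn0] at hn1
  rw [div_le_iff₀ hθ] at hn2
  have h3 : (2 : ℝ) < g n := by nlinarith
  have h4 : 2 < g n := by exact_mod_cast h3
  omega

theorem pat_prob (h : Par θ x) {δ : ℝ} (hδ : 0 < δ) {ε : ℝ} (hε : 0 < ε) : ∃ C : ℝ, 1 ≤ C ∧
    ∀ g : ℕ → ℕ, Tendsto (fun n => (g n : ℝ) / n) atTop (𝓝 θ) → ∀ r : ℕ, ∃ c0 C1 : ℝ, 0 < c0 ∧ 1 ≤ C1 ∧
      ∀ B0 : ℝ, 0 < B0 → ∀ᶠ n : ℕ in atTop, ∀ (N K : ℕ) (π : Pat),
        (PatOk N K 0 π → (({T : Tri (Fin (6 * n)) | T ∈ Trn n (g n) ∧ Ev r π (Z0 (B0 * Real.log n)) T}.ncard : ℕ) : ℝ) ≤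
          (Trn n (g n)).ncard * (6 * n) * (C1 ^ N * Real.exp (-(c0 * (B0 * Real.log n))))) ∧
        (PatOk N K 1 π → (({T : Tri (Fin (6 * n)) | T ∈ Trn n (g n) ∧ Ev r π (Z1 (B0 * Real.log n)) T}.ncard : ℕ) : ℝ) ≤
          (Trn n (g n)).ncard * (6 * n) * (4 * (n : ℝ) ^ (-2 + ε) * (C ^ N * Real.exp ((1 + δ) * (2 * x) * r * (2 * K + 12))))) ∧
        (PatOk N K 2 π → (({T : Tri (Fin (6 * n)) | T ∈ Trn n (g n) ∧ Ev r π (Z2 (B0 * Real.log n)) T}.ncard : ℕ) : ℝ) ≤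
          (Trn n (g n)).ncard * (6 * n) * (4 * (n : ℝ) ^ (-2 + ε) * (C ^ N * Real.exp ((1 + δ) * (2 * x) * r * (2 * K + 12))))) := by
  obtain ⟨C, hC, H⟩ := sum_le' h hδ
  refine ⟨C, hC, fun g hg r => ?_⟩
  obtain ⟨c0, C1, hc0, hC1, H1⟩ := tail_le h hg r
  refine ⟨c0, C1, hc0, hC1, fun B0 hB0 => ?_⟩
  have hx0 : 0 < x := h.2.2.1
  have hxδ : 0 ≤ (1 + δ) * (2 * x) := by positivity
  filter_upwards [H g hg r B0, H1 B0 hB0.le, clos h hg B0 hε, eventually_ge_atTop 1, fa_g h.1 hg]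
    with n hn1 hn2 hn3 hn hg2
  intro N K π
  have hρ : 0 ≤ (n : ℝ) ^ (-2 + ε) := Real.rpow_nonneg (Nat.cast_nonneg _) _
  have hmu : ∀ P F gg, 0 ≤ muG P F gg := fun P F gg => Num.muG_nonneg _ _ _
  have hF : ∀ ws : List (List Stp), vT ws ≤ 2 * n → (szT ws : ℝ) ≤ B0 * Real.log n →
      2 * n - vT ws ≤ 2 * n ∧ 2 * (n : ℝ) ≤ ((2 * n - vT ws : ℕ) : ℝ) + B0 * Real.log n ∧
        (pT ws : ℝ) ≤ B0 * Real.log n := by
    intro ws h1 h2
    have h3 : (szT ws : ℝ) = pT ws + vT ws := by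
      have : szT ws = pT ws + vT ws := rfl
      rw [this]
      push_cast
      ring
    have h4 : (0 : ℝ) ≤ pT ws := Nat.cast_nonneg _
    have h5 : (0 : ℝ) ≤ vT ws := Nat.cast_nonneg _
    refine ⟨Nat.sub_le _ _, ?_, ?_⟩
    · rw [Nat.cast_sub h1]
      push_cast
      linarith
    · linarith
  refine ⟨fun hπ => ?_, fun hπ => ?_, fun hπ => ?_⟩
  · set A : Finset (List (List Stp)) := (ws_fin r (2 * n) π.bs).toFinset.filter fun ws =>
      B0 * Real.log n < szT ws ∧ (szT ws.tail : ℝ) ≤ B0 * Real.log n with hA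
    have hmem : ∀ ws, ws ∈ A ↔ (List.Forall₂ (Wd r) π.bs ws ∧ vT ws ≤ 2 * n) ∧
        (B0 * Real.log n < szT ws ∧ (szT ws.tail : ℝ) ≤ B0 * Real.log n) := by
      intro ws
      rw [hA, Finset.mem_filter, Set.Finite.mem_toFinset]
      rfl
    have h1 := ev_count (g := g n) (r := r) hn π (Z0 (B0 * Real.log n))
      (fun ws => muG {pT ws} (2 * n - vT ws) (g n)) (fun ws => hmu _ _ _) A
      (fun ws S ps T h2 h3 h4 => (hmem ws).2 ⟨⟨h2, h3⟩, h4.2.2.2.1, h4.2.2.2.2⟩)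
      (fun ws hws S xs us ps h2 h3 h4 => cnt_z0 hn hπ h2 h3 h4 _)
    refine h1.trans ?_
    have h2 := hn2 π.bs π.es A (by rw [hπ.lb, hπ.le]) (fa_ne hπ) hπ.e_le fun ws hws => by
      obtain ⟨⟨h3, h4⟩, h5, h6⟩ := (hmem ws).1 hws
      exact ⟨h3, h4, h5, h6⟩
    rw [hπ.lb] at h2
    rw [trn_base hn]
    have hf : (0 : ℝ) ≤ ((6 * n).factorial : ℝ) := Nat.cast_nonneg _
    refine (mul_le_mul_of_nonneg_left h2 hf).trans (le_of_eq ?_)
    ring
  · refine pat_sum (a := 2) hn hπ hxδ hC (by norm_num) (by norm_num) hρ (Z1 (B0 * Real.log n))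
      (L := B0 * Real.log n) (fun ws S ps T h1 => h1.2.2.2.2) ?_ ?_
    · intro ws h1 h2 h3 S xs us ps hI hP hS
      refine cnt_z1 hn hπ hI hP hS _ (mul_nonneg hρ (hmu _ _ _)) ?_
      intro p₁ p₂ hp1 hp2 hs
      obtain ⟨f1, f2, f3⟩ := hF ws h2 h3
      exact ((hn3 (2 * n - vT ws) (pT ws) f1 f2 (fa_pos h1 (fa_ne hπ)) f3).1 p₁ p₂ hp1 hp2 hs).1
    · intro A hA
      exact hn1 π.bs π.es A (by rw [hπ.lb, hπ.le]) (fa_ne hπ) hπ.e_le hA
  · refine pat_sum (a := 4) hn hπ hxδ hC (by norm_num) le_rfl hρ (Z2 (B0 * Real.log n))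
      (L := B0 * Real.log n) (fun ws S ps T h1 => h1.2.2.2.2) ?_ ?_
    · intro ws h1 h2 h3 S xs us ps hI hP hS
      obtain ⟨f1, f2, f3⟩ := hF ws h2 h3
      have h4 := hn3 (2 * n - vT ws) (pT ws) f1 f2 (fa_pos h1 (fa_ne hπ)) f3
      exact cnt_z2 hn hg2 hπ hI hP hS _ (mul_nonneg hρ (hmu _ _ _)) h4.2.2 h4.2.1
    · intro A hA
      exact hn1 π.bs π.es A (by rw [hπ.lb, hπ.le]) (fa_ne hπ) hπ.e_le hA

end SYS.LO
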