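import Pool.Agent.SYS.LO.Crs
import Pool.Agent.SYS.LT.RchG
import Pool.Agent.SYS.LT.StG
import Pool.Agent.SYS.LR.Out

/-!
# SYS-LO-Kept: maximal sets of a laminar family, single faces, gauge of a cell

PLAN.
* `exists_max`: for every `i` choose `j` with `A i ⊆ A j` and `(A j).ncard` maximal among the sets which contain `A i` (finite type, `Set.ncard_le_ncard`, or well-founded recursion); so `A j` is maximal: `A j ⊆ A k → A k = A j`
  (`Set.eq_of_subset_of_ncard_le`).  `J`: one index for every maximal set: `J := {j | A j maximal ∧ ∀ k, A k = A j → rank j ≤ rank k}` with an injection `rank : ι → ℕ` (`Finite.exists_equiv_fin` or `Encodable`), or `J := Set.range (fun i => f (A i'))`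
  with a choice function `f : Set α → ι` of the set `A i`.  Two different elements of `J` have different maximal sets, so they are disjoint by `h`.
* `exists_face`: `S := emp.newTri d (T.f d) (T.f (T.f d))` (`Part.tri_ne`, `newTri_B`, `newTri_R` in `Lib`; see `LR/Out` `island` for the proofs of the arguments), `Isl.cons Isl.nil`, the word `[]`, `Rch _ _ _ _ [] S d`.  `S.Le T`: `S.f` is the cycle
  `(d, T.f d, T.f (T.f d))` (`cyc3`), `T.fff`; `S.a = 1`.
* `cell_gau`: `cases h`: `Rch (lrule 3) [] (S₀.newTri ..) t0 w S x` with `Isl [] S₀ []`, so `S₀ = emp`; `emp_gau`, `tri_gau`, `rch_gau` (`LT/StG`, `LT/RchG`).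
* `cell_info`: `LR.cell_facts` for the region of a cell.
-/

namespace SYS.LO

open Classical SST

theorem exists_max {ι α : Type} [Finite ι] [Finite α] (A : ι → Set α) (hne : ∀ i, (A i).Nonempty)
    (h : ∀ i j, A i ⊆ A j ∨ A j ⊆ A i ∨ Disjoint (A i) (A j)) :
    ∃ J : Set ι, (∀ i ∈ J, ∀ j ∈ J, i ≠ j → Disjoint (A i) (A j)) ∧ ∀ i, ∃ j ∈ J, A i ⊆ A j := by
  have _ := hne
  refine ⟨{j | (∀ k, A j ⊆ A k → A k = A j) ∧ (⟨j, rfl⟩ : ∃ k, A k = A j).choose = j}, ?_, ?_⟩
  · rintro i ⟨hi, hi'⟩ j ⟨hj, hj'⟩ hij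
    by_contra hd
    have he : A i = A j := by
      rcases h i j with h1 | h1 | h1
      · exact (hi j h1).symm
      · exact hj i h1
      · exact absurd h1 hd
    apply hij
    rw [← hi', ← hj']
    have key : ∀ (B B' : Set α) (p : ∃ k, A k = B) (p' : ∃ k, A k = B'), B = B' → p.choose = p'.choose := by
      intro B B' p p' hB
      subst hB
      rfl
    exact key _ _ _ _ he
  · intro i
    obtain ⟨j, hj, hm⟩ := Set.exists_max_image {j | A i ⊆ A j} (fun j => (A j).ncard) (Set.toFinite _) ⟨i, Set.Subset.refl (A i)⟩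
    have hmax : ∀ k, A j ⊆ A k → A k = A j := fun k hk =>
      (Set.eq_of_subset_of_ncard_le hk (hm k (Set.Subset.trans hj hk)) (Set.toFinite _)).symm
    have hc : A ((⟨j, rfl⟩ : ∃ k, A k = A j).choose) = A j := (⟨j, rfl⟩ : ∃ k, A k = A j).choose_spec
    refine ⟨(⟨j, rfl⟩ : ∃ k, A k = A j).choose, ⟨?_, ?_⟩, ?_⟩
    · intro k hk
      rw [hc] at hk ⊢
      exact hmax k hk
    · have key : ∀ (B B' : Set α) (p : ∃ k, A k = B) (p' : ∃ k, A k = B'), B = B' → p.choose = p'.choose := by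
        intro B B' p p' hB
        subst hB
        rfl
      exact key _ _ _ _ hc
    · rw [hc]
      exact hj

variable {D : Type} [Finite D] {T : Tri D}

theorem exists_face (T : Tri D) (r : ℕ) (d : D) : ∃ S : Part D, Cell T r false S ∧ S.R = {d, T.f d, T.f (T.f d)} := by
  have he : ∀ e : D, e ∉ (Part.emp : Part D).R := fun e he => he rfl
  have hn := Part.tri_ne T d
  refine ⟨(Part.emp : Part D).newTri d (T.f d) (T.f (T.f d)) (he _) (he _) (he _) hn.1 hn.2.1 hn.2.2,
    ⟨Part.newTri_le _ _ _ _ _ _ _ (Part.emp_le T) rfl rfl, [], d, ?_, Or.inr ⟨rfl, rfl⟩⟩, ?_⟩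
  · exact Isl.cons Isl.nil (he _) (he _) (he _) hn.1 hn.2.1 hn.2.2 ⟨rfl, rfl⟩
  · rw [Part.newTri_R]
    ext e
    constructor
    · rintro (h | h)
      · exact absurd h (he e)
      · exact h
    · exact fun h => Or.inr h

theorem cell_gau {G : Type} [Group G] {l : D → G} (hl : Flat T l) {w : List Stp} {S : Part D} {x : D} (h : Isl [w] S [x])
    (hL : S.Le T) : ∃ k : D → G, S.Gau T l k := by
  cases h with
  | cons h h0 h1 h2 h01 h12 h20 hr =>
    cases h with
    | nil =>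
      have h3 := Part.sub_le (Part.rch_sub hr) hL
      obtain ⟨k, hk, -⟩ := Part.tri_gau hl (Part.emp_gau T l (fun _ => 1)) h0 h1 h2 h01 h12 h20 h3 1
      obtain ⟨k', hk', -⟩ := Part.rch_gau hl hk hr hL
      exact ⟨k', hk'⟩

theorem cell_info (hT : T.Conn) {r : ℕ} {b : Bool} {S : Part D} (h : Cell T r b S) :
    S.Le T ∧ S.Con ∧ S.HConn T ∧ S.B.Nonempty ∧ (∀ b ∈ S.B, ∀ e ∈ S.B, S.s.SameCycle b e) ∧
      (∀ b ∈ S.B, ∀ e ∈ S.B, S.nx.SameCycle b e) := by
  obtain ⟨hL, w, x, hI, -⟩ := h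
  obtain ⟨h1, h2, h3, -, -, -, h4⟩ := LR.cell_facts hT hI hL
  have hs : ∀ b ∈ S.B, ∀ e ∈ S.B, S.s.SameCycle b e := fun b hb e he => (h3 b hb).symm.trans (h3 e he)
  exact ⟨hL, h1, h4, ⟨x, h2⟩, hs, fun b hb e he => (ret_same S.s hb he).2 (hs b hb e he)⟩

end SYS.LO
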