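import Pool.Agent.SYS.LO.Defs
import Pool.Agent.SYS.VI.GroK
import Pool.Agent.SYS.LA.Size
import Pool.Agent.SYS.RL.Rat
import Pool.Agent.SYS.BD.Hist

/-!
# SYS-LO-NumA: one island

Sums over the words of one island: consequences of `moments`, `size`, `ratio` and `hist`.
-/

namespace SYS.LO

open Classical SYS.Num

variable {θ x : ℝ}

private theorem na_win {θ : ℝ} (hθ : 0 ≤ θ) (hθ1 : θ ≤ 1 / 2) {d₁ : ℝ} (hd₁ : 0 < d₁) (M₁ A B : ℕ) :
    ∃ (δ' : ℝ) (M : ℕ), 0 < δ' ∧ ∀ (P P' : Multiset ℕ) (F F' g : ℕ), Win θ δ' M P F g → P'.sum ≤ P.sum + A →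
      (∀ q ∈ P', 1 ≤ q) → F ≤ F' + B → F' ≤ F → Win θ d₁ M₁ P' F' g := by
  obtain ⟨d, hd⟩ : ∃ d, d = min d₁ 1 := ⟨_, rfl⟩
  have hd0 : 0 < d := by rw [hd]; exact lt_min hd₁ one_pos
  have hd1 : d ≤ d₁ := by rw [hd]; exact min_le_left _ _
  have hd2 : d ≤ 1 := by rw [hd]; exact min_le_right _ _
  obtain ⟨M0, hM0⟩ := exists_nat_ge (8 * ((A : ℝ) + B) / d)
  refine ⟨d / 8, 2 * M₁ + M0, by linarith, fun P P' F F' g hW h1 h2 h3 h4 => ?_⟩
  have hF : (0 : ℝ) ≤ F := Nat.cast_nonneg F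
  have hMF : (M0 : ℝ) ≤ F := by
    have := hW.1
    exact_mod_cast (show M0 ≤ F by omega)
  have hAB : (A : ℝ) + B ≤ d / 8 * F := by
    have h5 : 8 * ((A : ℝ) + B) / d ≤ F := hM0.trans hMF
    rw [div_le_iff₀ hd0] at h5
    linarith
  have hA : (0 : ℝ) ≤ A := Nat.cast_nonneg A
  have hB : (0 : ℝ) ≤ B := Nat.cast_nonneg B
  have h5 : (0 : ℝ) ≤ d / 8 * F := by positivity
  have hP := hW.2.2.1
  have h1' : (P'.sum : ℝ) ≤ P.sum + A := by exact_mod_cast h1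
  have h3' : (F : ℝ) ≤ F' + B := by exact_mod_cast h3
  have h4' : (F' : ℝ) ≤ F := by exact_mod_cast h4
  have hW' : Win θ (d / 4) (2 * M₁) P F g := hW.mono (by linarith) (by omega)
  exact (hW'.shift hθ hθ1 hd0.le hd2 (by linarith) (by linarith) (by linarith) h2).mono hd1 le_rfl

private theorem na_min (f : ℕ → ℝ) (hf : ∀ e, 0 < f e) (N : ℕ) : ∃ d, 0 < d ∧ ∀ e < N, d ≤ f e := by
  induction N with
  | zero => exact ⟨1, one_pos, fun e he => absurd he (Nat.not_lt_zero e)⟩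
  | succ N ih =>
    obtain ⟨d, hd, h⟩ := ih
    refine ⟨min d (f N), lt_min hd (hf N), fun e he => ?_⟩
    rcases Nat.lt_succ_iff_lt_or_eq.1 he with h1 | h1
    · exact (min_le_left _ _).trans (h e h1)
    · rw [h1]
      exact min_le_right _ _

private theorem na_sum (f : ℕ → ℝ) (hf : ∀ e, 0 < f e) {e N : ℕ} (he : e < N) :
    f e ≤ ∑ i ∈ Finset.range N, f i :=
  Finset.single_le_sum (f := f) (fun i _ => (hf i).le) (Finset.mem_range.2 he)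

private theorem na_sumN (f : ℕ → ℕ) {e N : ℕ} (he : e < N) : f e ≤ ∑ i ∈ Finset.range N, f i :=
  Finset.single_le_sum (f := f) (fun _ _ => Nat.zero_le _) (Finset.mem_range.2 he)

private theorem na_wd {r : ℕ} {w : List Stp} (h : Wd r true w) :
    WOk 3 w ∧ GR.lay 3 w = r ∧ ∀ u, u <+: w → u ≠ w → GR.lay 3 u < r := by
  rcases h with h | h
  · exact h.2
  · exact absurd h.1 (by decide)

private theorem na_one {p q : ℕ} (hq : 1 ≤ q) : ∀ a ∈ ((p + q) ::ₘ 0 : Multiset ℕ), 1 ≤ a := by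
  intro a ha
  rw [Multiset.mem_cons] at ha
  rcases ha with h | h
  · omega
  · exact absurd h (Multiset.notMem_zero a)

/-- moments for all exponents below 15, from any perimeter -/
private theorem na_mom (h : Par θ x) {δ : ℝ} (hδ : 0 < δ) : ∃ C : ℝ, 0 < C ∧ ∀ r : ℕ,
    ∃ (δ' : ℝ) (M : ℕ), 0 < δ' ∧ ∀ (p F g e : ℕ) (S : Finset (List Stp)), e < 15 →
      Win θ δ' M ((p + 3) ::ₘ 0) F g → (∀ w ∈ S, Wd r true w ∧ wvol w ≤ F) →
      ∑ w ∈ S, wwt 1 W w * (wend 3 w : ℝ) ^ e * muG ((p + wend 3 w) ::ₘ 0) (F - wvol w) g ≤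
        C * Real.exp (e * ((1 + δ) * (2 * x) * r)) * muG ((p + 3) ::ₘ 0) F g := by
  choose Cf hCf using fun e => moments h hδ 3 e
  refine ⟨∑ e ∈ Finset.range 15, Cf e, ?_, fun r => ?_⟩
  · exact lt_of_lt_of_le (hCf 0).1 (na_sum Cf (fun e => (hCf e).1) (by norm_num))
  choose δf Mf hf using fun e => (hCf e).2 r
  obtain ⟨d, hd, hdf⟩ := na_min δf (fun e => (hf e).1) 15
  refine ⟨d, ∑ e ∈ Finset.range 15, Mf e, hd, fun p F g e S he hW hS => ?_⟩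
  have h1 := (hf e).2 0 F g p 3 S (by norm_num) le_rfl (hW.mono (hdf e he) (na_sumN Mf he)) (by
    intro w hw
    have h2 := na_wd (hS w hw).1
    exact ⟨h2.1, (hS w hw).2, h2.2.1, h2.2.2⟩)
  refine h1.trans ?_
  refine mul_le_mul_of_nonneg_right ?_ (muG_nonneg _ _ _)
  exact mul_le_mul_of_nonneg_right (na_sum Cf (fun e => (hCf e).1) he) (Real.exp_pos _).le

/-- sizes for all exponents below 15, from any perimeter -/
private theorem na_siz (h : Par θ x) (r : ℕ) : ∃ (c C δ' : ℝ) (M : ℕ), 0 < c ∧ 0 < C ∧ 0 < δ' ∧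
    ∀ (p F g e : ℕ) (S : Finset (List Stp)), e < 15 →
      Win θ δ' M ((p + 3) ::ₘ 0) F g → (∀ w ∈ S, Wd r true w ∧ wvol w ≤ F) →
      ∑ w ∈ S, wwt 1 W w * (wend 3 w : ℝ) ^ e * Real.exp (c * (wend 3 w + (1 + wvol w))) *
        muG ((p + wend 3 w) ::ₘ 0) (F - wvol w) g ≤ C * muG ((p + 3) ::ₘ 0) F g := by
  choose cf Cf δf Mf hf using fun e => size h 3 e r
  obtain ⟨c, hc, hcf⟩ := na_min cf (fun e => (hf e).1) 15
  obtain ⟨d, hd, hdf⟩ := na_min δf (fun e => (hf e).2.2.1) 15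
  refine ⟨c, Real.exp c * ∑ e ∈ Finset.range 15, Cf e, d, ∑ e ∈ Finset.range 15, Mf e, hc, ?_, hd,
    fun p F g e S he hW hS => ?_⟩
  · exact mul_pos (Real.exp_pos _)
      (lt_of_lt_of_le (hf 0).2.1 (na_sum Cf (fun e => (hf e).2.1) (by norm_num)))
  have h1 := (hf e).2.2.2 0 F g p 3 S (by norm_num) le_rfl (hW.mono (hdf e he) (na_sumN Mf he)) (by
    intro w hw
    have h2 := na_wd (hS w hw).1
    exact ⟨h2.1, (hS w hw).2, h2.2.1, h2.2.2⟩)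
  have h2 : ∑ w ∈ S, wwt 1 W w * (wend 3 w : ℝ) ^ e * Real.exp (c * (wend 3 w + (1 + wvol w))) *
        muG ((p + wend 3 w) ::ₘ 0) (F - wvol w) g ≤
      Real.exp c * ∑ w ∈ S, wwt 1 W w * (wend 3 w : ℝ) ^ e * Real.exp (cf e * ((wend 3 w : ℝ) + wvol w)) *
        muG ((p + wend 3 w) ::ₘ 0) (F - wvol w) g := by
    rw [Finset.mul_sum]
    refine Finset.sum_le_sum fun w _ => ?_
    have h3 : Real.exp (c * ((wend 3 w : ℝ) + (1 + wvol w))) ≤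
        Real.exp c * Real.exp (cf e * ((wend 3 w : ℝ) + wvol w)) := by
      rw [← Real.exp_add]
      apply Real.exp_le_exp.2
      have h4 : (0 : ℝ) ≤ (wend 3 w : ℝ) + wvol w := by positivity
      have h5 := mul_le_mul_of_nonneg_right (hcf e he) h4
      linarith
    have h4 : 0 ≤ wwt 1 W w * (wend 3 w : ℝ) ^ e :=
      mul_nonneg (wwt_nonneg zero_le_one (fun k a => muG_nonneg _ _ _) w) (by positivity)
    have h5 : 0 ≤ muG ((p + wend 3 w) ::ₘ 0) (F - wvol w) g := muG_nonneg _ _ _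
    calc wwt 1 W w * (wend 3 w : ℝ) ^ e * Real.exp (c * (wend 3 w + (1 + wvol w))) *
          muG ((p + wend 3 w) ::ₘ 0) (F - wvol w) g
        ≤ wwt 1 W w * (wend 3 w : ℝ) ^ e * (Real.exp c * Real.exp (cf e * ((wend 3 w : ℝ) + wvol w))) *
          muG ((p + wend 3 w) ::ₘ 0) (F - wvol w) g :=
          mul_le_mul_of_nonneg_right (mul_le_mul_of_nonneg_left h3 h4) h5
      _ = _ := by ring
  refine h2.trans ?_
  rw [mul_assoc (Real.exp c)]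
  refine mul_le_mul_of_nonneg_left (h1.trans ?_) (Real.exp_pos _).le
  exact mul_le_mul_of_nonneg_right (na_sum Cf (fun e => (hf e).2.1) he) (muG_nonneg _ _ _)

theorem wend_pos {w : List Stp} (h : WOk 3 w) : 1 ≤ wend 3 w := by
  exact one_le_wend (by norm_num) h

theorem rat3 (h : Par θ x) : ∃ (C δ' : ℝ) (M : ℕ), 0 < C ∧ 0 < δ' ∧ ∀ p F g : ℕ, 1 ≤ p → g ≠ 0 → Win θ δ' M {p} F g →
    muG {p + 3} (F - 1) g ≤ C * muG {p} F g := by
  have hy : 0 < yy x := SYS.RB.yy_pos x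
  obtain ⟨δ₁, M₁, hδ₁, hr⟩ := ratio h (ε := yy x / 2) (by linarith)
  obtain ⟨δ', M, hδ', hwin⟩ := na_win h.1.le h.2.1.le hδ₁ M₁ 3 1
  refine ⟨2 / yy x, δ', M + 3, by positivity, hδ', fun p F g hp hg hW => ?_⟩
  have hF : 3 ≤ F := by
    have := hW.1
    omega
  have hW' : Win θ δ₁ M₁ {p + 3} (F - 1) g := by
    refine hwin {p} {p + 3} F (F - 1) g (hW.mono le_rfl (by omega)) ?_ ?_ (by omega) (by omega)
    · rw [Multiset.sum_singleton, Multiset.sum_singleton]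
    · intro q hq
      rw [Multiset.mem_singleton] at hq
      omega
  have h1 := (hr {p + 3} (F - 1) g hW').1
  have h2 := hist p hp 0 F g (Or.inr hg) {[Stp.T, Stp.T, Stp.T]} (by
    intro u hu v hv _
    rw [Finset.mem_singleton.1 hu, Finset.mem_singleton.1 hv]) (by
    intro w hw
    rw [Finset.mem_singleton.1 hw]
    exact ⟨⟨trivial, trivial, trivial, trivial⟩, hF⟩)
  rw [Finset.sum_singleton] at h2
  have h3 : wwt 1 W [Stp.T, Stp.T, Stp.T] = 1 := by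
    rw [wwt_cons, wwt_cons, wwt_cons, wwt_nil]
    show (1 : ℝ) * (1 * (1 * 1)) = 1
    norm_num
  have h4 : wend p [Stp.T, Stp.T, Stp.T] = p + 3 := rfl
  have h5 : wvol [Stp.T, Stp.T, Stp.T] = 3 := rfl
  rw [h3, h4, h5, one_mul] at h2
  have h6 : F - 1 - 2 = F - 3 := by omega
  rw [h6] at h1
  have h7 : muG {p + 3} (F - 3) g ≤ muG {p} F g := h2
  have h8 : yy x / 2 * muG {p + 3} (F - 1) g ≤ muG {p} F g := by
    have h9 : yy x - yy x / 2 = yy x / 2 := by ring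
    rw [h9] at h1
    exact h1.trans h7
  rw [div_mul_eq_mul_div, le_div_iff₀ hy]
  linarith

theorem step_ball (h : Par θ x) {δ : ℝ} (hδ : 0 < δ) : ∃ C : ℝ, 1 ≤ C ∧ ∀ r : ℕ, ∃ (δ' : ℝ) (M : ℕ), 0 < δ' ∧
    ∀ (p F g e : ℕ) (S : Finset (List Stp)), 1 ≤ p → g ≠ 0 → e < 15 → Win θ δ' M {p} F g →
      (∀ w ∈ S, Wd r true w ∧ 1 + wvol w ≤ F) →
      ∑ w ∈ S, wwt 1 W w * (wend 3 w : ℝ) ^ e * muG {p + wend 3 w} (F - (1 + wvol w)) g ≤
        C * Real.exp (e * ((1 + δ) * (2 * x) * r)) * muG {p} F g := by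
  obtain ⟨C₁, hC₁, hmom⟩ := na_mom h hδ
  obtain ⟨C₂, δ₂, M₂, hC₂, hδ₂, hrat⟩ := rat3 h
  refine ⟨C₁ * C₂ + 1, by have := mul_pos hC₁ hC₂; linarith, fun r => ?_⟩
  obtain ⟨δ₁, M₁, hδ₁, hm⟩ := hmom r
  obtain ⟨δ', M, hδ', hwin⟩ := na_win h.1.le h.2.1.le hδ₁ M₁ 3 1
  refine ⟨min δ' δ₂, M + M₂, lt_min hδ' hδ₂, fun p F g e S hp hg he hW hS => ?_⟩
  have h1 := hrat p F g hp hg (hW.mono (min_le_right _ _) (by omega))
  have hW' : Win θ δ₁ M₁ ((p + 3) ::ₘ 0) (F - 1) g := by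
    refine hwin {p} ((p + 3) ::ₘ 0) F (F - 1) g (hW.mono (min_le_left _ _) (by omega)) ?_
      (na_one (by norm_num)) (by omega) (by omega)
    rw [Multiset.sum_singleton, Multiset.sum_cons, Multiset.sum_zero, add_zero]
  have h2 := hm p (F - 1) g e S he hW' (fun w hw => ⟨(hS w hw).1, by have := (hS w hw).2; omega⟩)
  have h3 : ∑ w ∈ S, wwt 1 W w * (wend 3 w : ℝ) ^ e * muG {p + wend 3 w} (F - (1 + wvol w)) g =
      ∑ w ∈ S, wwt 1 W w * (wend 3 w : ℝ) ^ e * muG ((p + wend 3 w) ::ₘ 0) (F - 1 - wvol w) g := by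
    refine Finset.sum_congr rfl fun w _ => ?_
    rw [Nat.sub_sub]
    rfl
  rw [h3]
  refine h2.trans ?_
  have h4 : 0 < Real.exp (e * ((1 + δ) * (2 * x) * r)) := Real.exp_pos _
  have h5 : 0 ≤ muG {p} F g := muG_nonneg _ _ _
  calc C₁ * Real.exp (e * ((1 + δ) * (2 * x) * r)) * muG ((p + 3) ::ₘ 0) (F - 1) g
      ≤ C₁ * Real.exp (e * ((1 + δ) * (2 * x) * r)) * (C₂ * muG {p} F g) :=
        mul_le_mul_of_nonneg_left h1 (by positivity)
    _ = C₁ * C₂ * Real.exp (e * ((1 + δ) * (2 * x) * r)) * muG {p} F g := by ring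
    _ ≤ (C₁ * C₂ + 1) * Real.exp (e * ((1 + δ) * (2 * x) * r)) * muG {p} F g := by
        refine mul_le_mul_of_nonneg_right (mul_le_mul_of_nonneg_right ?_ h4.le) h5
        linarith

theorem first_ball (h : Par θ x) {δ : ℝ} (hδ : 0 < δ) : ∃ C : ℝ, 1 ≤ C ∧ ∀ r : ℕ, ∃ (δ' : ℝ) (M : ℕ), 0 < δ' ∧
    ∀ (F g e : ℕ) (S : Finset (List Stp)), e < 15 → Win θ δ' M {3} F g → (∀ w ∈ S, Wd r true w ∧ wvol w ≤ F) →
      ∑ w ∈ S, wwt 1 W w * (wend 3 w : ℝ) ^ e * muG {wend 3 w} (F - wvol w) g ≤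
        C * Real.exp (e * ((1 + δ) * (2 * x) * r)) * muG {3} F g := by
  obtain ⟨C₁, hC₁, hmom⟩ := na_mom h hδ
  refine ⟨C₁ + 1, by linarith, fun r => ?_⟩
  obtain ⟨δ₁, M₁, hδ₁, hm⟩ := hmom r
  refine ⟨δ₁, M₁, hδ₁, fun F g e S he hW hS => ?_⟩
  have h2 := hm 0 F g e S he hW hS
  have h3 : ∑ w ∈ S, wwt 1 W w * (wend 3 w : ℝ) ^ e * muG {wend 3 w} (F - wvol w) g =
      ∑ w ∈ S, wwt 1 W w * (wend 3 w : ℝ) ^ e * muG ((0 + wend 3 w) ::ₘ 0) (F - wvol w) g := by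
    refine Finset.sum_congr rfl fun w _ => ?_
    rw [zero_add]
    rfl
  rw [h3]
  refine h2.trans ?_
  refine mul_le_mul_of_nonneg_right (mul_le_mul_of_nonneg_right ?_ (Real.exp_pos _).le)
    (muG_nonneg _ _ _)
  linarith

theorem step_size (h : Par θ x) (r : ℕ) : ∃ (c C δ' : ℝ) (M : ℕ), 0 < c ∧ 1 ≤ C ∧ 0 < δ' ∧
    ∀ (p F g e : ℕ) (S : Finset (List Stp)), 1 ≤ p → g ≠ 0 → e < 15 → Win θ δ' M {p} F g →
      (∀ w ∈ S, Wd r true w ∧ 1 + wvol w ≤ F) →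
      ∑ w ∈ S, wwt 1 W w * (wend 3 w : ℝ) ^ e * Real.exp (c * (wend 3 w + (1 + wvol w))) *
        muG {p + wend 3 w} (F - (1 + wvol w)) g ≤ C * muG {p} F g := by
  obtain ⟨c, C₁, δ₁, M₁, hc, hC₁, hδ₁, hm⟩ := na_siz h r
  obtain ⟨C₂, δ₂, M₂, hC₂, hδ₂, hrat⟩ := rat3 h
  obtain ⟨δ', M, hδ', hwin⟩ := na_win h.1.le h.2.1.le hδ₁ M₁ 3 1
  refine ⟨c, C₁ * C₂ + 1, min δ' δ₂, M + M₂, hc, by have := mul_pos hC₁ hC₂; linarith,
    lt_min hδ' hδ₂, fun p F g e S hp hg he hW hS => ?_⟩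
  have h1 := hrat p F g hp hg (hW.mono (min_le_right _ _) (by omega))
  have hW' : Win θ δ₁ M₁ ((p + 3) ::ₘ 0) (F - 1) g := by
    refine hwin {p} ((p + 3) ::ₘ 0) F (F - 1) g (hW.mono (min_le_left _ _) (by omega)) ?_
      (na_one (by norm_num)) (by omega) (by omega)
    rw [Multiset.sum_singleton, Multiset.sum_cons, Multiset.sum_zero, add_zero]
  have h2 := hm p (F - 1) g e S he hW' (fun w hw => ⟨(hS w hw).1, by have := (hS w hw).2; omega⟩)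
  have h3 : ∑ w ∈ S, wwt 1 W w * (wend 3 w : ℝ) ^ e * Real.exp (c * (wend 3 w + (1 + wvol w))) *
        muG {p + wend 3 w} (F - (1 + wvol w)) g =
      ∑ w ∈ S, wwt 1 W w * (wend 3 w : ℝ) ^ e * Real.exp (c * (wend 3 w + (1 + wvol w))) *
        muG ((p + wend 3 w) ::ₘ 0) (F - 1 - wvol w) g := by
    refine Finset.sum_congr rfl fun w _ => ?_
    rw [Nat.sub_sub]
    rfl
  rw [h3]
  refine h2.trans ?_
  have h5 : 0 ≤ muG {p} F g := muG_nonneg _ _ _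
  calc C₁ * muG ((p + 3) ::ₘ 0) (F - 1) g ≤ C₁ * (C₂ * muG {p} F g) :=
        mul_le_mul_of_nonneg_left h1 hC₁.le
    _ = C₁ * C₂ * muG {p} F g := by ring
    _ ≤ (C₁ * C₂ + 1) * muG {p} F g := mul_le_mul_of_nonneg_right (by linarith) h5

theorem first_size (h : Par θ x) (r : ℕ) : ∃ (c C δ' : ℝ) (M : ℕ), 0 < c ∧ 1 ≤ C ∧ 0 < δ' ∧
    ∀ (F g e : ℕ) (S : Finset (List Stp)), e < 15 → Win θ δ' M {3} F g → (∀ w ∈ S, Wd r true w ∧ wvol w ≤ F) →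
      ∑ w ∈ S, wwt 1 W w * (wend 3 w : ℝ) ^ e * Real.exp (c * (wend 3 w + (1 + wvol w))) * muG {wend 3 w} (F - wvol w) g ≤
        C * muG {3} F g := by
  obtain ⟨c, C₁, δ₁, M₁, hc, hC₁, hδ₁, hm⟩ := na_siz h r
  refine ⟨c, C₁ + 1, δ₁, M₁, hc, by linarith, hδ₁, fun F g e S he hW hS => ?_⟩
  have h2 := hm 0 F g e S he hW hS
  have h3 : ∑ w ∈ S, wwt 1 W w * (wend 3 w : ℝ) ^ e * Real.exp (c * (wend 3 w + (1 + wvol w))) *
        muG {wend 3 w} (F - wvol w) g =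
      ∑ w ∈ S, wwt 1 W w * (wend 3 w : ℝ) ^ e * Real.exp (c * (wend 3 w + (1 + wvol w))) *
        muG ((0 + wend 3 w) ::ₘ 0) (F - wvol w) g := by
    refine Finset.sum_congr rfl fun w _ => ?_
    rw [zero_add]
    rfl
  rw [h3]
  refine h2.trans ?_
  exact mul_le_mul_of_nonneg_right (by linarith) (muG_nonneg _ _ _)

end SYS.LO
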