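import Pool.Agent.SYS.LO.CfgA

/-!
# SYS-LO-PatM: marks

A list of cells with swaps is encoded by marked boundary darts: `ms` = for every cell (newest first) the list of its marked darts; a swap is a pair of marks `(i, k)` = `k`-th mark of the `i`-th cell counted from the oldest one.

PLAN.  Induction on `Bd`.  `Φ ms := (ms.map fun m => m.length - 2).sum + (ms.headD []).length - 1)` (natural subtractions) stays `≤ k + 4 c`.
* `root`: `ms = [[]]`.
* `next`: new cell with the list `[b']`.  If `b ∈ (cell d).B` (`d` = head of the old list): append `b` at the end of the head of `ms` (all old marks keep their numbers); `Φ`: the old head with `u` marks contributes `(u - 2) + (u - 1)` before,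
  `(u + 1 - 2) = u - 1` after, the new head contributes `(1 - 2) + (1 - 1) = 0`: `Φ` does not grow.  If `Usd ps b`: `b` is already marked (in the statement: all darts of the pairs are marked: part of `List.Forall₂`), nothing is appended.
* `jump`: the same, `b ∈ (cell d).B` for some `d ∈ ds`: append `b` to its list: `Φ` grows by at most `1`.
* `cls`: append `b` and `b'` to their lists: `Φ` grows by at most `4`.
* The level condition of `SwOk.mrg` (new island `j = ds.length`, `lv j = lev e`): the island `i` of the mark `b`: `b ∈ (cell d').B ⊆ (cell d').R`, `lv i = lev d' = lev b` (`Tree.same`); `T.tl b = T.tl (E e) = T.tl (P e)` (`Tree.par`), so `lev b ≤ lev (P e) + 1 = lev e` and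
  `lev e = lev (E e) ≤ lev b + 1` (`Tree.lip`, `Tree.same`).
* `k < 15`: a list of marks has length `≤ 2 + Φ ≤ 14`.
`lv i := (ds.reverse.map lev).getD i 0`; for the longer list the old values are unchanged, `SwOk lv j c sw` depends only on the values at `i < j` (a small lemma by induction: `SwOk lv j c sw → (∀ i < j, lv i = lv' i) → SwOk lv' j c sw`).
`AtM` for the old marks after appending: `m[z.2]? = some b` implies `(m ++ l)[z.2]? = some b` (`List.getElem?_append_left`); `(m' :: ms).reverse[i]? = ms.reverse[i]?` for `i < ms.length`.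
-/

namespace SYS.LO

open Classical SST

/-- `b` is the mark `z`. -/
def AtM {D : Type} (ms : List (List D)) (z : ℕ × ℕ) (b : D) : Prop := ∃ m, ms.reverse[z.1]? = some m ∧ m[z.2]? = some b

private def sg {D : Type} (ms : List (List D)) : ℕ := (ms.map fun m => m.length - 2).sum

private def hdn {D : Type} (ms : List (List D)) : ℕ := (ms.headD []).length - 1

private theorem sg_cons {D : Type} (m : List D) (ms : List (List D)) : sg (m :: ms) = (m.length - 2) + sg ms := by
  unfold sg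
  rw [List.map_cons, List.sum_cons]

private theorem get_snoc {α : Type} (l : List α) (a b : α) (i : ℕ) :
    (l ++ [a])[i]? = some b ↔ l[i]? = some b ∨ (i = l.length ∧ a = b) := by
  rcases lt_trichotomy i l.length with h | h | h
  · rw [List.getElem?_append_left h]
    constructor
    · exact Or.inl
    · rintro (h1 | ⟨h1, -⟩)
      · exact h1
      · omega
  · rw [h]
    simp
  · rw [List.getElem?_append_right (by omega)]
    have h1 : ([a] : List α)[i - l.length]? = none := by
      rw [List.getElem?_eq_none_iff]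
      simp
      omega
    have h2 : l[i]? = none := by
      rw [List.getElem?_eq_none_iff]
      omega
    rw [h1, h2]
    constructor
    · intro h3
      exact absurd h3 (by simp)
    · rintro (h3 | ⟨h3, -⟩)
      · exact absurd h3 (by simp)
      · omega

private theorem atm_cons {D : Type} {m0 : List D} {ms : List (List D)} {z : ℕ × ℕ} {b : D} :
    AtM (m0 :: ms) z b ↔ AtM ms z b ∨ (z.1 = ms.length ∧ m0[z.2]? = some b) := by
  unfold AtM
  rw [List.reverse_cons]
  constructor
  · rintro ⟨m, h1, h2⟩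
    rcases (get_snoc _ _ _ _).1 h1 with h3 | ⟨h3, h4⟩
    · exact Or.inl ⟨m, h3, h2⟩
    · rw [List.length_reverse] at h3
      rw [← h4] at h2
      exact Or.inr ⟨h3, h2⟩
  · rintro (⟨m, h1, h2⟩ | ⟨h1, h2⟩)
    · exact ⟨m, (get_snoc _ _ _ _).2 (Or.inl h1), h2⟩
    · exact ⟨m0, (get_snoc _ _ _ _).2 (Or.inr ⟨by rw [List.length_reverse]; exact h1, rfl⟩), h2⟩

private theorem atm_lt {D : Type} {ms : List (List D)} {z : ℕ × ℕ} {b : D} (h : AtM ms z b) :
    z.1 < ms.length ∧ z.2 < sg ms + 2 := by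
  induction ms with
  | nil =>
    obtain ⟨m, h1, -⟩ := h
    exact absurd h1 (by simp)
  | cons m0 ms ih =>
    rw [sg_cons, List.length_cons]
    rcases atm_cons.1 h with h1 | ⟨h1, h2⟩
    · have := ih h1
      omega
    · have h3 := (List.getElem?_eq_some_iff.1 h2).1
      omega

private theorem lv_cons {D : Type} (lev : D → ℕ) (e : D) (ds : List D) :
    (∀ i < ds.length, ((e :: ds).reverse.map lev).getD i 0 = (ds.reverse.map lev).getD i 0) ∧
      ((e :: ds).reverse.map lev).getD ds.length 0 = lev e := by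
  have h1 : (e :: ds).reverse.map lev = ds.reverse.map lev ++ [lev e] := by
    rw [List.reverse_cons, List.map_append]
    rfl
  have h2 : (ds.reverse.map lev).length = ds.length := by rw [List.length_map, List.length_reverse]
  rw [h1]
  refine ⟨fun i hi => ?_, ?_⟩
  · rw [List.getD_append _ _ _ _ (by rw [h2]; exact hi)]
  · rw [List.getD_append_right _ _ _ _ (by rw [h2]), h2, Nat.sub_self]
    rfl

private theorem sw_congr {lv lv' : ℕ → ℕ} {j c : ℕ} {sw : List ((ℕ × ℕ) × (ℕ × ℕ))} (h : SwOk lv j c sw)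
    (hl : ∀ i < j, lv i = lv' i) : SwOk lv' j c sw := by
  induction h with
  | nil => exact SwOk.nil
  | mrg h hi hl' hk hk' ih =>
    refine SwOk.mrg (ih fun i hi' => hl i (by omega)) hi ?_ hk hk'
    rw [← hl _ (by omega), ← hl _ (by omega)]
    exact hl'
  | cls h hi hi' hk hk' ih => exact SwOk.cls (ih hl) hi hi' hk hk'

private theorem atm_cell {D : Type} {cell : D → Part D} {lev : D → ℕ} {ds : List D} {ms : List (List D)}
    (hA : List.Forall₂ (fun d m => ∀ b ∈ m, b ∈ (cell d).B) ds ms) {z : ℕ × ℕ} {b : D} (h : AtM ms z b) :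
    ∃ d, (ds.reverse.map lev).getD z.1 0 = lev d ∧ b ∈ (cell d).B := by
  induction hA with
  | nil =>
    obtain ⟨m, h1, -⟩ := h
    exact absurd h1 (by simp)
  | @cons d0 m0 ds ms h0 hA ih =>
    obtain ⟨l1, l2⟩ := lv_cons lev d0 ds
    have hlen := hA.length_eq
    rcases atm_cons.1 h with h1 | ⟨h1, h2⟩
    · obtain ⟨d, h3, h4⟩ := ih h1
      refine ⟨d, ?_, h4⟩
      rw [l1 _ (by rw [hlen]; exact (atm_lt h1).1)]
      exact h3
    · refine ⟨d0, ?_, h0 b (List.mem_of_getElem? h2)⟩
      rw [h1, ← hlen, l2]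

private theorem atm_mono {D : Type} {m0 m1 : List D} {ms ms' : List (List D)} (hl : ms.length = ms'.length)
    (hm : ∀ (i : ℕ) (b : D), m0[i]? = some b → m1[i]? = some b) (h : ∀ z b, AtM ms z b → AtM ms' z b) (z : ℕ × ℕ) (b : D)
    (hz : AtM (m0 :: ms) z b) : AtM (m1 :: ms') z b := by
  rcases atm_cons.1 hz with h1 | ⟨h1, h2⟩
  · exact atm_cons.2 (Or.inl (h z b h1))
  · exact atm_cons.2 (Or.inr ⟨h1.trans hl, hm _ _ h2⟩)

private theorem snoc_mono {D : Type} (m : List D) (b : D) (i : ℕ) (b' : D) (h : m[i]? = some b') : (m ++ [b])[i]? = some b' :=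
  (get_snoc _ _ _ _).2 (Or.inl h)

/-- a new mark -/
private theorem mark {D : Type} {cell : D → Part D} {ds : List D} {ms : List (List D)}
    (hA : List.Forall₂ (fun d m => ∀ b ∈ m, b ∈ (cell d).B) ds ms) {b : D} (hb : ∃ d ∈ ds, b ∈ (cell d).B) :
    ∃ (ms' : List (List D)) (z : ℕ × ℕ), List.Forall₂ (fun d m => ∀ b ∈ m, b ∈ (cell d).B) ds ms' ∧ AtM ms' z b ∧
      (∀ z b, AtM ms z b → AtM ms' z b) ∧ sg ms' ≤ sg ms + 1 ∧ hdn ms' ≤ hdn ms + 1 := by
  induction hA with
  | nil =>
    obtain ⟨d, hd, -⟩ := hb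
    exact absurd hd List.not_mem_nil
  | @cons d0 m0 ds ms h0 hA ih =>
    by_cases h1 : b ∈ (cell d0).B
    · refine ⟨(m0 ++ [b]) :: ms, (ms.length, m0.length), List.Forall₂.cons ?_ hA, ?_, ?_, ?_, ?_⟩
      · intro b' hb'
        rcases List.mem_append.1 hb' with h2 | h2
        · exact h0 b' h2
        · rw [List.mem_singleton.1 h2]
          exact h1
      · exact atm_cons.2 (Or.inr ⟨rfl, (get_snoc _ _ _ _).2 (Or.inr ⟨rfl, rfl⟩)⟩)
      · exact atm_mono rfl (snoc_mono m0 b) fun z b h => h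
      · rw [sg_cons, sg_cons, List.length_append, List.length_singleton]
        omega
      · show (m0 ++ [b]).length - 1 ≤ m0.length - 1 + 1
        rw [List.length_append, List.length_singleton]
        omega
    · obtain ⟨d, hd, hb'⟩ := hb
      rcases List.mem_cons.1 hd with rfl | hd
      · exact absurd hb' h1
      · obtain ⟨ms', z, g1, g2, g3, g4, -⟩ := ih ⟨d, hd, hb'⟩
        refine ⟨m0 :: ms', z, List.Forall₂.cons h0 g1, atm_cons.2 (Or.inl g2), ?_, ?_, ?_⟩
        · exact atm_mono (hA.length_eq.symm.trans g1.length_eq) (fun _ _ h => h) g3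
        · rw [sg_cons, sg_cons]
          omega
        · show m0.length - 1 ≤ m0.length - 1 + 1
          omega

private theorem usd_atm {D : Type} {ms : List (List D)} {sw : List ((ℕ × ℕ) × (ℕ × ℕ))} {ps : List (D × D)}
    (hD : List.Forall₂ (fun z p => AtM ms z.1 p.1 ∧ AtM ms z.2 p.2) sw ps) {b : D} (hb : Usd ps b) : ∃ z, AtM ms z b := by
  induction hD with
  | nil =>
    obtain ⟨p, hp, -⟩ := hb
    exact absurd hp List.not_mem_nil
  | @cons z p sw ps h0 hD ih =>
    obtain ⟨p', hp, hpb⟩ := hb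
    rcases List.mem_cons.1 hp with rfl | hp
    · rcases hpb with rfl | rfl
      · exact ⟨_, h0.1⟩
      · exact ⟨_, h0.2⟩
    · exact ih ⟨p', hp, hpb⟩

private theorem forall_mono {D : Type} {ms ms' : List (List D)} (h : ∀ z b, AtM ms z b → AtM ms' z b)
    {sw : List ((ℕ × ℕ) × (ℕ × ℕ))} {ps : List (D × D)} (hD : List.Forall₂ (fun z p => AtM ms z.1 p.1 ∧ AtM ms z.2 p.2) sw ps) :
    List.Forall₂ (fun z p => AtM ms' z.1 p.1 ∧ AtM ms' z.2 p.2) sw ps :=
  hD.imp fun _ _ h1 => ⟨h _ _ h1.1, h _ _ h1.2⟩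

/-- a new cell -/
private theorem newc {D : Type} [Finite D] {T : Tri D} {cell : D → Part D} {r0 : D} {lev : D → ℕ} {P E : D → D} {ds : List D}
    {ps : List (D × D)} {c : ℕ} (hm : ∀ d, d ∈ (cell d).R) (ht : Tree T cell r0 lev P E) {e b b' : D} (h0 : lev e ≠ 0)
    (hb' : b' ∈ (cell e).B) (htb : T.tl b = T.tl (E e)) {ms : List (List D)} {sw : List ((ℕ × ℕ) × (ℕ × ℕ))}
    (hA : List.Forall₂ (fun d m => ∀ b ∈ m, b ∈ (cell d).B) ds ms) (hS : sg ms ≤ 12)
    (hC : SwOk (fun i => (ds.reverse.map lev).getD i 0) ds.length c sw)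
    (hD : List.Forall₂ (fun z p => AtM ms z.1 p.1 ∧ AtM ms z.2 p.2) sw ps) {z : ℕ × ℕ} (hz : AtM ms z b) :
    List.Forall₂ (fun d m => ∀ b ∈ m, b ∈ (cell d).B) (e :: ds) ([b'] :: ms) ∧
      sg ([b'] :: ms) + hdn ([b'] :: ms) = sg ms ∧
      SwOk (fun i => ((e :: ds).reverse.map lev).getD i 0) (e :: ds).length c ((z, (ds.length, 0)) :: sw) ∧
      List.Forall₂ (fun z p => AtM ([b'] :: ms) z.1 p.1 ∧ AtM ([b'] :: ms) z.2 p.2) ((z, (ds.length, 0)) :: sw) ((b, b') :: ps) := by
  obtain ⟨l1, l2⟩ := lv_cons lev e ds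
  have hlen := hA.length_eq
  have hmono : ∀ z b, AtM ms z b → AtM ([b'] :: ms) z b := fun z b h => atm_cons.2 (Or.inl h)
  refine ⟨List.Forall₂.cons ?_ hA, ?_, ?_, List.Forall₂.cons ⟨hmono _ _ hz, ?_⟩ (forall_mono hmono hD)⟩
  · intro d hd
    rw [List.mem_singleton.1 hd]
    exact hb'
  · rw [sg_cons]
    show (1 - 2) + sg ms + (1 - 1) = sg ms
    omega
  · obtain ⟨d', h1, h2⟩ := atm_cell (lev := lev) hA hz
    obtain ⟨h3, h4⟩ := atm_lt hz
    obtain ⟨h5, h6, h7⟩ := ht.par e h0
    have h8 : lev b = lev d' := ht.same d' b (Part.B_sub_R _ h2)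
    have h9 : lev b ≤ lev (P e) + 1 := ht.lip (P e) b (h7.trans htb.symm)
    have h10 : lev (E e) ≤ lev b + 1 := ht.lip b (E e) htb
    have h11 : lev (E e) = lev e := ht.same e (E e) h6
    have h12 := SwOk.mrg (i := z.1) (k := z.2) (k' := 0) (sw_congr (lv' := fun i => ((e :: ds).reverse.map lev).getD i 0) hC
      (fun i hi => (l1 i hi).symm)) (by rw [hlen]; exact h3) ?_ (by omega) (by norm_num)
    · exact h12
    · show ((e :: ds).reverse.map lev).getD z.1 0 = ((e :: ds).reverse.map lev).getD ds.length 0 ∨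
        ((e :: ds).reverse.map lev).getD z.1 0 + 1 = ((e :: ds).reverse.map lev).getD ds.length 0
      rw [l2, l1 z.1 (by rw [hlen]; exact h3), h1]
      omega
  · exact atm_cons.2 (Or.inr ⟨hlen, rfl⟩)

theorem bd_marks {D : Type} [Finite D] {T : Tri D} {cell : D → Part D} {r0 : D} {lev : D → ℕ} {P E : D → D} {ds : List D}
    {ps : List (D × D)} {k c : ℕ} (hm : ∀ d, d ∈ (cell d).R) (ht : Tree T cell r0 lev P E) (h : Bd T cell r0 lev P E ds ps k c)
    (hkc : k + 4 * c ≤ 12) : ∃ (ms : List (List D)) (sw : List ((ℕ × ℕ) × (ℕ × ℕ))),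
      List.Forall₂ (fun d m => ∀ b ∈ m, b ∈ (cell d).B) ds ms ∧
      (ms.map fun m => m.length - 2).sum + ((ms.headD []).length - 1) ≤ k + 4 * c ∧
      SwOk (fun i => (ds.reverse.map lev).getD i 0) ds.length c sw ∧
      List.Forall₂ (fun z p => AtM ms z.1 p.1 ∧ AtM ms z.2 p.2) sw ps := by
  suffices hs : ∃ (ms : List (List D)) (sw : List ((ℕ × ℕ) × (ℕ × ℕ))),
      List.Forall₂ (fun d m => ∀ b ∈ m, b ∈ (cell d).B) ds ms ∧ sg ms + hdn ms ≤ k + 4 * c ∧
      SwOk (fun i => (ds.reverse.map lev).getD i 0) ds.length c sw ∧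
      List.Forall₂ (fun z p => AtM ms z.1 p.1 ∧ AtM ms z.2 p.2) sw ps from hs
  induction h with
  | root =>
    refine ⟨[[]], [], List.Forall₂.cons (fun b hb => absurd hb List.not_mem_nil) List.Forall₂.nil, ?_, SwOk.nil, List.Forall₂.nil⟩
    show (0 - 2) + 0 + (0 - 1) ≤ 0 + 4 * 0
    norm_num
  | @next e d b b' ds ps k c h hn h0 hp hb' ht' htb hb ih =>
    obtain ⟨ms, sw, hA, hB, hC, hD⟩ := ih hkc
    obtain ⟨ms', z, g1, g2, g3, g4⟩ : ∃ (ms' : List (List D)) (z : ℕ × ℕ),
        List.Forall₂ (fun d m => ∀ b ∈ m, b ∈ (cell d).B) (d :: ds) ms' ∧ AtM ms' z b ∧ (∀ z b, AtM ms z b → AtM ms' z b) ∧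
        sg ms' ≤ sg ms + hdn ms := by
      rcases hb with hb | hb
      · cases hA with
        | @cons _ m0 _ ms0 hA0 hA1 =>
          refine ⟨(m0 ++ [b]) :: ms0, (ms0.length, m0.length), List.Forall₂.cons ?_ hA1, ?_, ?_, ?_⟩
          · intro b1 hb1
            rcases List.mem_append.1 hb1 with h2 | h2
            · exact hA0 b1 h2
            · rw [List.mem_singleton.1 h2]
              exact hb
          · exact atm_cons.2 (Or.inr ⟨rfl, (get_snoc _ _ _ _).2 (Or.inr ⟨rfl, rfl⟩)⟩)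
          · exact atm_mono rfl (snoc_mono m0 b) fun z b h => h
          · rw [sg_cons, sg_cons, List.length_append, List.length_singleton]
            show _ ≤ _ + (m0.length - 1)
            omega
      · obtain ⟨z, hz⟩ := usd_atm hD hb
        exact ⟨ms, z, hA, hz, fun z b h => h, Nat.le_add_right _ _⟩
    obtain ⟨q1, q2, q3, q4⟩ := newc hm ht h0 hb' htb g1 (by omega) hC (forall_mono g3 hD) g2
    exact ⟨_, _, q1, by omega, q3, q4⟩
  | @jump e b b' ds ps k c h hn h0 hp hb' ht' htb hb ih =>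
    obtain ⟨ms, sw, hA, hB, hC, hD⟩ := ih (by omega)
    obtain ⟨ms', z, g1, g2, g3, g4⟩ : ∃ (ms' : List (List D)) (z : ℕ × ℕ),
        List.Forall₂ (fun d m => ∀ b ∈ m, b ∈ (cell d).B) ds ms' ∧ AtM ms' z b ∧ (∀ z b, AtM ms z b → AtM ms' z b) ∧
        sg ms' ≤ sg ms + 1 := by
      rcases hb with hb | hb
      · obtain ⟨ms', z, g1, g2, g3, g4, -⟩ := mark hA hb
        exact ⟨ms', z, g1, g2, g3, g4⟩
      · obtain ⟨z, hz⟩ := usd_atm hD hb
        exact ⟨ms, z, hA, hz, fun z b h => h, Nat.le_add_right _ _⟩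
    obtain ⟨q1, q2, q3, q4⟩ := newc hm ht h0 hb' htb g1 (by omega) hC (forall_mono g3 hD) g2
    exact ⟨_, _, q1, by omega, q3, q4⟩
  | @cls b b' ds ps k c h hb hb' ih =>
    obtain ⟨ms, sw, hA, hB, hC, hD⟩ := ih (by omega)
    obtain ⟨ms', z, g1, g2, g3, g4, g5⟩ := mark hA hb
    obtain ⟨ms2, z', e1, e2, e3, e4, e5⟩ := mark g1 hb'
    have hz := e3 z b g2
    obtain ⟨f1, f2⟩ := atm_lt hz
    obtain ⟨f3, f4⟩ := atm_lt e2
    have hlen := e1.length_eq
    refine ⟨ms2, (z, z') :: sw, e1, by omega, ?_, List.Forall₂.cons ⟨hz, e2⟩ (forall_mono (fun z b h => e3 z b (g3 z b h)) hD)⟩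
    exact SwOk.cls (i := z.1) (k := z.2) (i' := z'.1) (k' := z'.2) hC (by omega) (by omega) (by omega) (by omega)

end SYS.LO
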