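import Pool.Agent.SYS.LO.Wlk
import Pool.Agent.SYS.LT.CrossP

/-!
# SYS-LO-Prs: loops through the root
-/

namespace SYS.LO

open Classical SST SYS.Part

variable {D : Type} {T : Tri D} {G : Type} [Group G] {l : D → G}

private theorem exists_pair_aux (a : D → G) (H : Subgroup G) {Y : List D}
    (hcon : ∀ d ∈ Y, ∀ e ∈ Y, T.hd d = T.tl e → a d * l d * (a e)⁻¹ ∈ H) {e : D} (he : e ∈ Y) (c : List D) :
    ∀ d1 : D, (∀ x ∈ d1 :: c, x ∈ Y) → T.IsWalk (T.tl d1) (d1 :: c) (T.tl e) →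
      a d1 * hol l (d1 :: c) * (a e)⁻¹ ∈ H := by
  induction c with
  | nil =>
    intro d1 h1 h2
    rw [hol_cons, hol_nil, mul_one]
    exact hcon d1 (h1 d1 List.mem_cons_self) e he h2.2
  | cons d2 c ih =>
    intro d1 h1 h2
    have h3 : T.IsWalk (T.tl d2) (d2 :: c) (T.tl e) := ⟨rfl, h2.2.2⟩
    have h4 := ih d2 (fun x hx => h1 x (List.mem_cons_of_mem _ hx)) h3
    have h5 := hcon d1 (h1 d1 List.mem_cons_self) d2
      (h1 d2 (List.mem_cons_of_mem _ List.mem_cons_self)) h2.2.1.symm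
    have h6 : a d1 * hol l (d1 :: d2 :: c) * (a e)⁻¹ =
        (a d1 * l d1 * (a d2)⁻¹) * (a d2 * hol l (d2 :: c) * (a e)⁻¹) := by
      rw [hol_cons l d1]
      group
    rw [h6]
    exact H.mul_mem h5 h4

theorem exists_pair (a : D → G) (H : Subgroup G) {d0 : D} {W : List D} (hW : T.IsWalk (T.tl d0) (d0 :: W) (T.tl d0))
    (hH : a d0 * hol l (d0 :: W) * (a d0)⁻¹ ∉ H) :
    ∃ d ∈ d0 :: W, ∃ e ∈ d0 :: W, T.hd d = T.tl e ∧ a d * l d * (a e)⁻¹ ∉ H := by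
  by_contra hcon
  push Not at hcon
  exact hH (exists_pair_aux a H hcon List.mem_cons_self W d0 (fun _ hx => hx) hW)

theorem hom_conj (hl : Flat T l) (hfaith : ∀ c : List D, T.Closed c → (hol l c = 1 ↔ T.NullHtp c)) {u v : T.V} {A A' W : List D}
    (hA : T.IsWalk u A v) (hA' : T.IsWalk v A' u) (hAA : hol l A' = (hol l A)⁻¹) (hW : T.IsWalk v W v) (h0 : T.NullHom W) :
    T.IsWalk u (A ++ (W ++ A')) u ∧ T.NullHom (A ++ (W ++ A')) ∧ hol l (A ++ (W ++ A')) = hol l A * hol l W * (hol l A)⁻¹ := by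
  refine ⟨T.walk_append hA (T.walk_append hW hA'), ?_, ?_⟩
  · have h1 : T.NullHom (A ++ A') := by
      apply nullHom_of_nullHtp
      apply (hfaith (A ++ A') ⟨u, T.walk_append hA hA'⟩).1
      rw [hol_append, hAA, mul_inv_cancel]
    refine T.nullHom_add (fun d => ?_) h1 h0
    rw [T.chain_append, T.chain_append, T.chain_append]
    ring
  · rw [hol_append, hol_append, hAA, mul_assoc]

theorem no_pivot [Finite D] {S : Part D} (h : S.Le T) (hl : Flat T l)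
    (hfaith : ∀ c : List D, T.Closed c → (hol l c = 1 ↔ T.NullHtp c)) {κ : D → G} (hk : S.Gau T l κ) {ps : List (D × D)}
    (hC : Clo κ ⊥ ps) (hone : ∀ b ∈ S.B, ∀ b' ∈ S.B, (S.nuL ps).SameCycle b b') (hcl : ∀ d ∈ S.R, ∀ e ∈ S.R, S.Cls ps d e)
    {b b' : D} (hV : S.Vir T ((b, b') :: ps)) (hc : S.VConn T (S.nuL ((b, b') :: ps))) {r0 d0 : D} (hr : r0 ∈ S.R)
    {A A' W : List D} (hA : T.IsWalk (T.tl r0) A (T.tl d0)) (hA' : T.IsWalk (T.tl d0) A' (T.tl r0))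
    (hAA : hol l A' = (hol l A)⁻¹) (hW : T.IsWalk (T.tl d0) W (T.tl d0)) (h0 : T.NullHom W) (h1 : ¬ T.NullHtp W) :
    (κ r0 * hol l A) * hol l W * (κ r0 * hol l A)⁻¹ ∉ Subgroup.zpowers (κ b * (κ b')⁻¹) := by
  intro hmem
  obtain ⟨k1, k2, k3⟩ := hom_conj hl hfaith hA hA' hAA hW h0
  have h2 : κ r0 * hol l (A ++ (W ++ A')) * (κ r0)⁻¹ ∈ Subgroup.zpowers (κ b * (κ b')⁻¹) := by
    have h3 : κ r0 * hol l (A ++ (W ++ A')) * (κ r0)⁻¹ =
        (κ r0 * hol l A) * hol l W * (κ r0 * hol l A)⁻¹ := by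
      rw [k3]
      group
    rw [h3]
    exact hmem
  have h4 := cross_pivot h hl hfaith hk hC hone hcl hV hc hr k1 k2 h2
  rw [k3, mul_inv_eq_one] at h4
  have h5 : hol l W = 1 := by
    have h6 : hol l A * hol l W = hol l A * 1 := by rw [h4, mul_one]
    exact mul_left_cancel h6
  exact h1 ((hfaith W ⟨_, hW⟩).1 h5)

end SYS.LO
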