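import Pool.Agent.SYS.LO.DefsB
import Pool.Agent.SYS.LO.RegA
import Pool.Agent.SYS.LO.Kept
import Pool.Agent.SYS.LT.Cnc
import Pool.Agent.SYS.LT.Hls

/-! # SYS-LO-StA: states: the first cell, one more cell -/

namespace SYS.LO

open Classical SST SYS.Part

section
variable {D : Type} [Finite D]

private theorem sta_agree {σ τ : Equiv.Perm D} {Y : Set D} (hY : ∀ d ∈ Y, σ d ∈ Y)
    (h : ∀ d ∈ Y, τ d = σ d) {x y : D} (hx : x ∈ Y) (hs : σ.SameCycle x y) : τ.SameCycle x y := by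
  obtain ⟨n, -, hn⟩ := hs.exists_pow_eq'
  have key : ∀ n : ℕ, (τ ^ n) x = (σ ^ n) x ∧ (σ ^ n) x ∈ Y := by
    intro n
    induction n with
    | zero => exact ⟨rfl, hx⟩
    | succ n ih =>
      rw [pow_succ', pow_succ', Equiv.Perm.mul_apply, Equiv.Perm.mul_apply, ih.1]
      exact ⟨h _ ih.2, hY _ ih.2⟩
  refine ⟨(n : ℤ), ?_⟩
  rw [zpow_natCast, (key n).1, hn]

private theorem sta_not {S S' : Part D} (hA : S.Add S') {ps : List (D × D)} (hps : ∀ p ∈ ps, p.1 ∈ S.B ∧ p.2 ∈ S.B)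
    {b c' : D} (hb : b ∈ S.B) (hc' : c' ∈ S'.B \ S.B) : ¬ (S'.nuL ps).SameCycle b c' := by
  intro h
  obtain ⟨n, -, hn⟩ := h.exists_pow_eq'
  have key : ∀ n : ℕ, ((S'.nuL ps) ^ n) b ∈ S.B := by
    intro n
    induction n with
    | zero => exact hb
    | succ n ih =>
      rw [pow_succ', Equiv.Perm.mul_apply, (Part.add_nuL hA hps).1 _ ih]
      exact (Part.nuL_mem hps).2 ih
  refine hc'.2 ?_
  rw [← hn]
  exact key n

theorem one_card {S : Part D} {ps : List (D × D)} (h : One S ps) (hne : S.B.Nonempty) :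
    Multiset.card (Vm.hls (S.nuL ps) S.B) = 1 := by
  rw [Vm.hls_card]
  obtain ⟨b, hb⟩ := hne
  unfold ncycOn
  rw [Set.ncard_eq_one]
  refine ⟨Quotient.mk _ b, ?_⟩
  ext q
  constructor
  · rintro ⟨d, hd, rfl⟩
    exact Quotient.sound (h.1 d hd b hb)
  · intro hq
    exact ⟨b, hb, hq.symm⟩

theorem card_same {S : Part D} {ps : List (D × D)} (hps : ∀ p ∈ ps, p.1 ∈ S.B ∧ p.2 ∈ S.B) {b b' : D} (hb : b ∈ S.B) (hb' : b' ∈ S.B)
    (hne : b ≠ b') (h : (S.nuL ps).SameCycle b b') :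
    Multiset.card (Vm.hls (S.nuL ((b, b') :: ps)) S.B) = Multiset.card (Vm.hls (S.nuL ps) S.B) + 1 := by
  have h1 := (Vm.hls_same (fun d => Part.nuL_mem hps) hb hb' hne h).2
  have h2 := congrArg Multiset.card h1
  rw [Multiset.card_add, Multiset.card_add, Multiset.card_singleton, Multiset.card_pair] at h2
  have h3 : S.nuL ((b, b') :: ps) = Equiv.swap b b' * S.nuL ps := rfl
  rw [h3]
  omega

theorem card_diff {S : Part D} {ps : List (D × D)} (hps : ∀ p ∈ ps, p.1 ∈ S.B ∧ p.2 ∈ S.B) {b b' : D} (hb : b ∈ S.B) (hb' : b' ∈ S.B)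
    (h : ¬ (S.nuL ps).SameCycle b b') :
    Multiset.card (Vm.hls (S.nuL ((b, b') :: ps)) S.B) + 1 = Multiset.card (Vm.hls (S.nuL ps) S.B) := by
  have h1 := Vm.hls_diff (fun d => Part.nuL_mem hps) hb hb' h
  have h2 := congrArg Multiset.card h1
  rw [Multiset.card_add, Multiset.card_add, Multiset.card_singleton, Multiset.card_pair] at h2
  have h3 : S.nuL ((b, b') :: ps) = Equiv.swap b b' * S.nuL ps := rfl
  rw [h3]
  omega

end

variable {n : ℕ} {T : Tri (Fin (6 * n))} {r : ℕ} {cell : Fin (6 * n) → Part (Fin (6 * n))} {bl : Fin (6 * n) → Bool}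
  {r0 : Fin (6 * n)} {lev : Fin (6 * n) → ℕ} {P E : Fin (6 * n) → Fin (6 * n)} {G : Type} [Group G] {l : Fin (6 * n) → G}

theorem sta_root (hn : 1 ≤ n) (hT : T.Conn) (hl : Flat T l) (hs : CSys T r cell bl) (r0 : Fin (6 * n)) (H : Subgroup G) :
    ∃ w x κ, Sta T r cell bl l H [r0] [] [w] (cell r0) [x] κ ∧ One (cell r0) [] := by
  obtain ⟨w, x, hr⟩ := reg_root hn hs r0
  obtain ⟨hL, hC, -, ⟨z, hz⟩, -, hnx⟩ := cell_info hT (hs.ok r0)
  obtain ⟨κ, hκ⟩ := cell_gau hl hr.isl hL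
  have hR : ∀ d, d ∉ (Part.emp : Part (Fin (6 * n))).R := fun d hd => hd rfl
  have hB : ∀ d, d ∉ (Part.emp : Part (Fin (6 * n))).B := fun d hd => hd.1 rfl
  have hA : (Part.emp : Part (Fin (6 * n))).Add (cell r0) :=
    ⟨⟨fun d hd => absurd rfl hd, fun d hd => absurd rfl hd⟩, fun d hd => absurd hd (hB d)⟩
  refine ⟨w, x, κ, ⟨hr, trivial, ?_, hκ, fun p hp => absurd hp List.not_mem_nil⟩, ?_, ?_⟩
  · exact Part.add_conn hA hL (fun p hp => absurd hp List.not_mem_nil) (Part.vconn_emp hT) ⟨hz, hB z⟩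
      fun e he => hnx z hz e he.1
  · exact fun b hb b' hb' => hnx b hb b' hb'
  · exact fun d hd e he => Relation.EqvGen.rel _ _ (Or.inl (hC d hd e he))

theorem sta_add (hn : 1 ≤ n) (hT : T.Conn) (hl : Flat T l) (hs : CSys T r cell bl) (ht : Tree T cell r0 lev P E) {H : Subgroup G}
    {ds : List (Fin (6 * n))} {ps : List (Fin (6 * n) × Fin (6 * n))} {ws : List (List Stp)} {S : Part (Fin (6 * n))}
    {xs : List (Fin (6 * n))} {κ : Fin (6 * n) → G} (hS : Sta T r cell bl l H ds ps ws S xs κ) {e d : Fin (6 * n)}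
    (he : ¬ InC cell ds e) (h0 : lev e ≠ 0) (hd : d ∈ ds) (hp : P e ∈ (cell d).R) :
    ∃ b b' w S' x κ', b' ∈ (cell e).B ∧ T.tl b' = T.tl (E e) ∧ T.tl b = T.tl (E e) ∧ (b ∈ (cell d).B ∨ Usd ps b) ∧
      Sta T r cell bl l H (e :: ds) ((b, b') :: ps) (w :: ws) S' (x :: xs) κ' ∧ S.Add S' ∧ (∀ z ∈ S.R, κ' z = κ z) ∧
      (One S ps → One S' ((b, b') :: ps)) ∧
      Multiset.card (Vm.hls (S'.nuL ((b, b') :: ps)) S'.B) = Multiset.card (Vm.hls (S.nuL ps) S.B) := by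
  have hr := hS.reg
  obtain ⟨w, S', x, hr', hDj, hA⟩ := reg_cons hn hs hr he
  have h' : S'.Le T := hr'.le
  have h : S.Le T := hr.le
  obtain ⟨hLe, hCe, -, -, -, hnxe⟩ := cell_info hT (hs.ok e)
  obtain ⟨hlev, hE, htl⟩ := ht.par e h0
  have hPe : P e ∉ (cell e).R := by
    intro hh
    have h1 := ht.same e (P e) hh
    omega
  have hEd : E e ∉ (cell d).R := by
    intro hh
    have e1 := hs.eq d (E e) hh
    have e2 := hs.eq e (E e) hE
    have e3 := hs.mem e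
    rw [← e2, e1] at e3
    exact he ⟨d, hd, e3⟩
  obtain ⟨k1, hk1⟩ : ∃ k1, (cell e).Gau T l k1 := by
    obtain ⟨hL, w1, x1, hI, -⟩ := hs.ok e
    exact cell_gau hl hI hL
  obtain ⟨b', hb', hb't, -, -⟩ := Part.corner_B hLe hl hk1 hE (Or.inl hPe) htl.symm
  obtain ⟨c, hc, hct⟩ : ∃ c ∈ (cell d).B, T.tl c = T.tl (P e) := by
    obtain ⟨hL, w1, x1, hI, -⟩ := hs.ok d
    obtain ⟨k2, hk2⟩ := cell_gau hl hI hL
    obtain ⟨c, hc, hct, -, -⟩ := Part.corner_B hL hl hk2 hp (Or.inl hEd) htl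
    exact ⟨c, hc, hct⟩
  have hcS : c ∈ S.B := (hr.B c).2 ⟨d, hd, hc⟩
  have hnew : ∀ z, z ∈ S'.B \ S.B ↔ z ∈ (cell e).B := by
    intro z
    rw [hDj.B]
    constructor
    · rintro ⟨h1 | h1, h2⟩
      · exact absurd h1 h2
      · exact h1
    · exact fun h1 => ⟨Or.inr h1, fun h2 => hDj.disj z h2.1 h1.1⟩
  have hb'S : b' ∈ S'.B \ S.B := (hnew b').2 hb'
  have hps := Part.vir_B hS.vir
  obtain ⟨b, hb, hbc, hbt, hvir⟩ := Part.attach hA h' hS.vir hcS hb'S (by rw [hct, hb't, htl])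
  have hA1 : (cell e).Add S' := ⟨hDj.sub1, by rw [hDj.B]; exact Set.subset_union_right⟩
  have hnx : ∀ z ∈ S'.B \ S.B, ∀ z' ∈ S'.B \ S.B, S'.nx.SameCycle z z' := by
    intro z hz z' hz'
    exact sta_agree (Y := (cell e).B) (fun y hy => (Part.nx_mem _).2 hy) (fun y hy => Part.add_nx hA1 hy)
      ((hnew z).1 hz) (hnxe z ((hnew z).1 hz) z' ((hnew z').1 hz'))
  have hcon := Part.add_conn hA h' hps hS.con hb'S fun z hz => hnx b' hb'S z hz
  have hcn : ∀ z, z ∈ S'.R \ S.R ↔ z ∈ (cell e).R := by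
    intro z
    rw [hDj.R]
    constructor
    · rintro ⟨h1 | h1, h2⟩
      · exact absurd h1 h2
      · exact h1
    · exact fun h1 => ⟨Or.inr h1, fun h2 => hDj.disj z h2 h1⟩
  obtain ⟨κ', hκ0, hκ1⟩ : ∃ κ' : Fin (6 * n) → G, (∀ z ∈ S.R, κ' z = κ z) ∧
      ∀ z ∉ S.R, κ' z = κ b * (k1 b')⁻¹ * k1 z :=
    ⟨fun z => if z ∈ S.R then κ z else κ b * (k1 b')⁻¹ * k1 z, fun z hz => if_pos hz, fun z hz => if_neg hz⟩
  have hgau : S'.Gau T l κ' := by
    refine ⟨fun z hz => ?_, fun z hz hz' => ?_⟩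
    · by_cases hzS : z ∈ S.R
      · rw [hκ0 z hzS, hκ0 _ ((Part.le_f_mem h z).2 hzS), hS.gau.f z hzS]
      · rw [hκ1 z hzS, hκ1 _ fun hh => hzS ((Part.le_f_mem h z).1 hh), hk1.f z ((hcn z).1 ⟨hz, hzS⟩), ← mul_assoc]
    · by_cases hzS : z ∈ S.R
      · have h1 : z ∉ S.B := fun hh => hz' (hA.B hh)
        have h2 : S.a z ≠ z := fun hh => h1 ⟨hzS, hh⟩
        have h3 : T.a z ∈ S.R := by
          rw [h.2 z h2]
          exact (Part.mem_R_a S z).2 hzS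
        rw [hκ0 z hzS, hκ0 _ h3, hS.gau.a z hzS h1]
      · have hze := (hcn z).1 ⟨hz, hzS⟩
        have h1 : z ∉ (cell e).B := fun hh => hz' (hA1.B hh)
        have h2 : (cell e).a z ≠ z := fun hh => h1 ⟨hze, hh⟩
        have h3 : T.a z ∈ (cell e).R := by
          rw [hLe.2 z h2]
          exact (Part.mem_R_a _ z).2 hze
        rw [hκ1 z hzS, hκ1 _ fun hh => hDj.disj _ hh h3, hk1.a z hze h1, ← mul_assoc]
  have hnot : ¬ (S'.nuL ps).SameCycle b b' := sta_not hA hps hb hb'S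
  refine ⟨b, b', w, S', x, κ', hb', hb't, by rw [hbt, hct, htl], ?_,
    ⟨hr', hvir, Part.attach_conn hA h' hps hcon hb hb'S, hgau, ?_⟩, hA, hκ0, ?_, ?_⟩
  · rcases hbc with h1 | h1
    · rw [h1]
      exact Or.inl hc
    · exact Or.inr h1
  · intro p hp
    rcases List.mem_cons.1 hp with h1 | h1
    · rw [h1]
      show κ' b * (κ' b')⁻¹ ∈ H
      rw [hκ0 b hb.1, hκ1 b' (Part.add_X' hA hb'S), inv_mul_cancel_right, mul_inv_cancel]
      exact H.one_mem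
    · rw [hκ0 _ (hps p h1).1.1, hκ0 _ (hps p h1).2.1]
      exact hS.clo p h1
  · intro hO
    refine ⟨Part.add_one hA hps hO.1 hnx hb hb'S, Part.add_cls hA hO.2 ?_ hb hb'S⟩
    intro y hy z hz
    exact Part.cn_sub hDj.sub1 ((hcn y).1 hy) (hCe y ((hcn y).1 hy) z ((hcn z).1 hz))
  · have h1 := card_diff (S := S') (ps := ps) (fun p hp => ⟨hA.B (hps p hp).1, hA.B (hps p hp).2⟩) (hA.B hb) hb'S.1 hnot
    rw [Part.hls_add hA hps hb'S fun z hz => hnx b' hb'S z hz, Multiset.card_cons] at h1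
    omega

end SYS.LO
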