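import Pool.Agent.SYS.LO.Dat
import Pool.Agent.SYS.LO.Bld
import Pool.Agent.SYS.LO.Prs

/-!
# SYS-LO-Stg: the two closings

Anchors: for every dart `d` choose `A d`, `A' d` by `exists_A` (`conn`, `flat`, `sys`, `tree`).

PLAN.
* `anc_in`: `Z := {z | InC cell ds z}`: closed under cells (`z ∈ (cell d).R`, `d ∈ ds`, so `cell z = cell d` by `CSys.eq`) and under parents (`cfg_par` with `cfg_of_bd`); `Z = S.R` (`Reg.R`).  So `InC cell ds d` implies that all darts of `A d`, `A' d` are in `S.R`.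
* `stage1`: `a d := hol l (A d)`, `H = ⊥`: `a d0 * hol l (d0 :: W) * (a d0)⁻¹ ∉ ⊥` (otherwise `hol = 1` and `NullHtp`).  `exists_pair`: `d, e ∈ d0 :: W`, `T.hd d = T.tl e`, `a d * l d * (a e)⁻¹ ≠ 1`.  State: `sta_root` (`H = ⊥`), `Bd.root`; `add_path` for `d`, then for `e`
  (`ds = es2 ++ (es1 ++ [r0])`, `k ≤ 2`, length `≤ 1 + lev d + lev e`, `One` is preserved).  The loop `c := A d ++ (d :: A' e)` is a walk from `T.tl r0` to `T.tl r0` with darts in `S.R` (`anc_in`; `d ∈ S.R`), `hol l c = a d * l d * (a e)⁻¹` (`hol_append`, `hol_cons`).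
  `Part.closing` with `x = y = r0` (`r0 ∈ S.R`: `cfg_root`, `CSys.mem`), `H = ⊥`: `κ r0 * hol l c * (κ r0)⁻¹ ≠ 1`.
* `stage2`: `z := κ b * (κ b')⁻¹`, `H := zpowers z`.  `Sta .. H ds ((b, b') :: ps) ws S xs κ`: `vir`, `con` are `hV`, `hc`; `clo`: the old pairs are in `⊥ ≤ H`, the new one is `z`.  `Bd.cls` (`b, b' ∈ S.B`: second and third component of `hV`; `Reg.B`).
  `no_pivot` for `A d0`, `A' d0`: `(κ r0 * hol l (A d0)) * hol l (d0 :: W) * (..)⁻¹ ∉ H`; `exists_pair` with `a d := κ r0 * hol l (A d)`: `d, e` with `κ r0 * (hol l (A d) * l d * (hol l (A e))⁻¹) * (κ r0)⁻¹ ∉ H`.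
  `add_path` for `d` and `e` (`k ≤ 4`, `c = 1`, length `≤ 1 + 4 Λ`, `κ' r0 = κ r0` because `r0 ∈ S.R`, `S ⊆ S'`), `Part.closing` for the loop with `H`: `b2, b2'`; `Bd.cls`.  `VConn` or `Two`: `vconn_two` (`nuL_off (vir_B ..)`).
  `card`: before the first closing `1` (`one_card`), after it `2` (`card_same`: `One` says that `b`, `b'` are in one cycle), `add_path` does not change it, after the second closing `3` (`card_same`) or `1` (`card_diff`).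
-/

namespace SYS.LO

open Classical SST SYS.Part

variable {n : ℕ} {T : Tri (Fin (6 * n))} {G : Type} [Group G] {l : Fin (6 * n) → G} {r Λ : ℕ}
  {cell : Fin (6 * n) → Part (Fin (6 * n))} {bl : Fin (6 * n) → Bool} {r0 : Fin (6 * n)} {lev : Fin (6 * n) → ℕ}
  {P E : Fin (6 * n) → Fin (6 * n)} {d0 : Fin (6 * n)} {W : List (Fin (6 * n))}

theorem anc_in (h : Dat T l r Λ cell bl r0 lev P E d0 W) {ds : List (Fin (6 * n))} {ps : List (Fin (6 * n) × Fin (6 * n))}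
    {ws : List (List Stp)} {S : Part (Fin (6 * n))} {xs : List (Fin (6 * n))} {k c : ℕ} (hB : Bd T cell r0 lev P E ds ps k c)
    (hr : Reg T r cell bl ds ws S xs) :
    (∀ e ∈ S.R, ∀ f ∈ (cell e).R, f ∈ S.R) ∧ (∀ e ∈ S.R, lev e ≠ 0 → P e ∈ S.R) ∧ r0 ∈ S.R := by
  refine ⟨fun e he f hf => ?_, fun e he h0 => ?_, ?_⟩
  · obtain ⟨d, hd, hm⟩ := (hr.R e).1 he
    rw [h.sys.eq d e hm] at hf
    exact (hr.R f).2 ⟨d, hd, hf⟩
  · exact (hr.R _).2 (cfg_par h.tree (cfg_of_bd hB) ((hr.R e).1 he) h0)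
  · exact (hr.R _).2 ⟨r0, (cfg_root (cfg_of_bd hB)).1, h.sys.mem r0⟩

/-- two more paths and the loop through the root -/
private theorem stg_step (h : Dat T l r Λ cell bl r0 lev P E d0 W) {H : Subgroup G} {ds : List (Fin (6 * n))}
    {ps : List (Fin (6 * n) × Fin (6 * n))} {ws : List (List Stp)} {S : Part (Fin (6 * n))} {xs : List (Fin (6 * n))}
    {κ : Fin (6 * n) → G} {k c : ℕ} (hB : Bd T cell r0 lev P E ds ps k c) (hS : Sta T r cell bl l H ds ps ws S xs κ)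
    {A A' : Fin (6 * n) → List (Fin (6 * n))} (hA1 : ∀ d, T.IsWalk (T.tl r0) (A d) (T.tl d))
    (hA2 : ∀ d, T.IsWalk (T.tl d) (A' d) (T.tl r0)) (hA3 : ∀ d, hol l (A' d) = (hol l (A d))⁻¹)
    (hA4 : ∀ d, ∀ Z : Set (Fin (6 * n)), (∀ e ∈ Z, ∀ f ∈ (cell e).R, f ∈ Z) → (∀ e ∈ Z, lev e ≠ 0 → P e ∈ Z) →
      d ∈ Z → (∀ e ∈ A d, e ∈ Z) ∧ ∀ e ∈ A' d, e ∈ Z) {d e : Fin (6 * n)} (hd : lev d ≤ Λ) (he : lev e ≤ Λ)
    (hde : T.hd d = T.tl e) (hn : κ r0 * (hol l (A d) * l d * (hol l (A e))⁻¹) * (κ r0)⁻¹ ∉ H) :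
    ∃ ds' ps' k' ws' S' xs' κ' b b', k' ≤ k + 2 ∧ ds'.length ≤ ds.length + 2 * Λ ∧
      Bd T cell r0 lev P E ds' ps' k' c ∧ Sta T r cell bl l H ds' ps' ws' S' xs' κ' ∧ (One S ps → One S' ps') ∧
      Multiset.card (Vm.hls (S'.nuL ps') S'.B) = Multiset.card (Vm.hls (S.nuL ps) S.B) ∧
      S'.Vir T ((b, b') :: ps') ∧ S'.NoDisc T (S'.nuL ((b, b') :: ps')) ∧ κ' b * (κ' b')⁻¹ ∉ H := by
  obtain ⟨es1, ps1, k1, ws1, S1, xs1, κ1, a1, -, a3, -, a5, a6, a7, a8, a9, a10, a11, -⟩ :=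
    add_path h.hn h.conn h.flat h.sys h.tree hB hS d
  obtain ⟨es2, ps2, k2, ws2, S2, xs2, κ2, b1, -, b3, -, b5, b6, b7, b8, b9, b10, b11, -⟩ :=
    add_path h.hn h.conn h.flat h.sys h.tree a5 a6 e
  have hd2 : d ∈ S2.R := Part.Sub.R_sub b8.sub ((a6.reg.R d).2 a7)
  have he2 : e ∈ S2.R := (b6.reg.R e).2 b7
  obtain ⟨-, -, hr0⟩ := anc_in h hB hS.reg
  have hr1 : r0 ∈ S1.R := Part.Sub.R_sub a8.sub hr0
  obtain ⟨c1, c2, c3⟩ := anc_in h b5 b6.reg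
  have hκ : κ2 r0 = κ r0 := by rw [b9 r0 hr1, a9 r0 hr0]
  have hw : T.IsWalk (T.tl r0) (A d ++ (d :: A' e)) (T.tl r0) := by
    refine Tri.walk_append T (hA1 d) ⟨rfl, ?_⟩
    rw [hde]
    exact hA2 e
  have hwR : ∀ z ∈ A d ++ (d :: A' e), z ∈ S2.R := by
    intro z hz
    rcases List.mem_append.1 hz with hz | hz
    · exact (hA4 d S2.R c1 c2 hd2).1 z hz
    · rcases List.mem_cons.1 hz with hz | hz
      · rw [hz]
        exact hd2
      · exact (hA4 e S2.R c1 c2 he2).2 z hz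
  have hhol : hol l (A d ++ (d :: A' e)) = hol l (A d) * l d * (hol l (A e))⁻¹ := by
    rw [hol_append, hol_cons, hA3 e, mul_assoc]
  obtain ⟨b, b', e1, e2, e3⟩ := Part.closing b6.reg.le h.flat b6.gau b6.vir b6.clo b6.con c3 c3 hw hwR
    (by rw [hhol, hκ]; exact hn)
  refine ⟨es2 ++ (es1 ++ ds), ps2, k2, ws2, S2, xs2, κ2, b, b', by omega, ?_, b5, b6, fun h1 => b10 (a10 h1), ?_,
    e1, e3, e2⟩
  · rw [List.length_append, List.length_append]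
    omega
  · rw [b11, a11]

theorem stage1 (h : Dat T l r Λ cell bl r0 lev P E d0 W) : ∃ ds ps k ws S xs κ b b', k ≤ 2 ∧ ds.length ≤ 1 + 2 * Λ ∧
    Bd T cell r0 lev P E ds ps k 0 ∧ Sta T r cell bl l ⊥ ds ps ws S xs κ ∧ One S ps ∧ S.Vir T ((b, b') :: ps) ∧
    S.NoDisc T (S.nuL ((b, b') :: ps)) ∧ κ b * (κ b')⁻¹ ≠ 1 := by
  choose A A' hA1 hA2 hA3 hA4 using exists_A (r0 := r0) h.conn h.flat h.sys h.tree
  obtain ⟨d, hd, e, he, hde, hn⟩ := exists_pair (T := T) (l := l) (fun d => hol l (A d)) ⊥ h.walk (by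
    intro h1
    rw [Subgroup.mem_bot] at h1
    apply h.htp
    apply (h.faith (d0 :: W) ⟨_, h.walk⟩).1
    have h2 : hol l (A d0) * hol l (d0 :: W) = hol l (A d0) := mul_inv_eq_one.1 h1
    exact mul_eq_left.1 h2)
  obtain ⟨w, x, κ, hS, h1⟩ := sta_root h.hn h.conn h.flat h.sys r0 ⊥
  obtain ⟨ds', ps', k', ws', S', xs', κ', b, b', c1, c2, c3, c4, c5, -, c7, c8, c9⟩ :=
    stg_step h Bd.root hS hA1 hA2 hA3 hA4 (h.lev_le d hd) (h.lev_le e he) hde (by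
      intro h2
      apply hn
      rw [Subgroup.mem_bot] at h2 ⊢
      have h3 := mul_inv_eq_one.1 h2
      exact mul_eq_left.1 h3)
  refine ⟨ds', ps', k', ws', S', xs', κ', b, b', by omega, ?_, c3, c4, c5 h1, c7, c8, fun h2 => ?_⟩
  · rw [List.length_singleton] at c2
    exact c2
  · apply c9
    rw [h2]
    exact Subgroup.one_mem _

theorem stage2 (h : Dat T l r Λ cell bl r0 lev P E d0 W) {ds : List (Fin (6 * n))} {ps : List (Fin (6 * n) × Fin (6 * n))}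
    {ws : List (List Stp)} {S : Part (Fin (6 * n))} {xs : List (Fin (6 * n))} {κ : Fin (6 * n) → G} {k : ℕ} {b b' : Fin (6 * n)}
    (hk : k ≤ 2) (hds : ds.length ≤ 1 + 2 * Λ) (hB : Bd T cell r0 lev P E ds ps k 0) (hS : Sta T r cell bl l ⊥ ds ps ws S xs κ)
    (h1 : One S ps) (hV : S.Vir T ((b, b') :: ps)) (hc : S.VConn T (S.nuL ((b, b') :: ps))) :
    ∃ ds' ps' k' ws' S' xs', k' ≤ 4 ∧ ds'.length ≤ 1 + 4 * Λ ∧ Bd T cell r0 lev P E ds' ps' k' 2 ∧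
      Reg T r cell bl ds' ws' S' xs' ∧ S'.Vir T ps' ∧ S'.NoDisc T (S'.nuL ps') ∧ (S'.VConn T (S'.nuL ps') ∨ Two S' T ps') ∧
      (Multiset.card (Vm.hls (S'.nuL ps') S'.B) = 1 ∨ Multiset.card (Vm.hls (S'.nuL ps') S'.B) = 3) := by
  choose A A' hA1 hA2 hA3 hA4 using exists_A (r0 := r0) h.conn h.flat h.sys h.tree
  obtain ⟨-, -, hr0⟩ := anc_in h hB hS.reg
  have hbB : b ∈ S.B := hV.2.1
  have hb'B : b' ∈ S.B := hV.2.2.1
  have hne : b ≠ b' := hV.2.2.2.1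
  have hS' : Sta T r cell bl l (Subgroup.zpowers (κ b * (κ b')⁻¹)) ds ((b, b') :: ps) ws S xs κ := by
    refine ⟨hS.reg, hV, hc, hS.gau, fun p hp => ?_⟩
    rcases List.mem_cons.1 hp with hp | hp
    · rw [hp]
      exact Subgroup.mem_zpowers _
    · have h2 := hS.clo p hp
      rw [Subgroup.mem_bot] at h2
      rw [h2]
      exact Subgroup.one_mem _
  have hB' : Bd T cell r0 lev P E ds ((b, b') :: ps) k (0 + 1) :=
    Bd.cls hB ((hS.reg.B b).1 hbB) ((hS.reg.B b').1 hb'B)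
  have hnp := no_pivot hS.reg.le h.flat h.faith hS.gau hS.clo h1.1 h1.2 hV hc hr0 (hA1 d0) (hA2 d0) (hA3 d0)
    h.walk h.hom h.htp
  obtain ⟨d, hd, e, he, hde, hn⟩ := exists_pair (T := T) (l := l) (fun d => κ r0 * hol l (A d))
    (Subgroup.zpowers (κ b * (κ b')⁻¹)) h.walk hnp
  obtain ⟨ds', ps', k', ws', S', xs', κ', b2, b2', c1, c2, c3, c4, -, c6, c7, c8, -⟩ :=
    stg_step h hB' hS' hA1 hA2 hA3 hA4 (h.lev_le d hd) (h.lev_le e he) hde (by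
      have h3 : κ r0 * (hol l (A d) * l d * (hol l (A e))⁻¹) * (κ r0)⁻¹ =
          κ r0 * hol l (A d) * l d * (κ r0 * hol l (A e))⁻¹ := by group
      rw [h3]
      exact hn)
  have hb2 : b2 ∈ S'.B := c7.2.1
  have hb2' : b2' ∈ S'.B := c7.2.2.1
  have hne2 : b2 ≠ b2' := c7.2.2.2.1
  have hcard1 := one_card h1 ⟨b, hbB⟩
  have hcard2 := card_same (vir_B hV.1) hbB hb'B hne (h1.1 b hbB b' hb'B)
  refine ⟨ds', (b2, b2') :: ps', k', ws', S', xs', by omega, by omega,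
    Bd.cls c3 ((c4.reg.B b2).1 hb2) ((c4.reg.B b2').1 hb2'), c4.reg, c7, c8, ?_, ?_⟩
  · rcases vconn_two c4.reg.le (nuL_off (vir_B c4.vir)) hb2 hb2' c4.con with h2 | ⟨Q, q1, q2, -, -⟩
    · exact Or.inl h2
    · exact Or.inr ⟨Q, q1, q2⟩
  · by_cases h2 : (S'.nuL ps').SameCycle b2 b2'
    · right
      have h3 := card_same (vir_B c4.vir) hb2 hb2' hne2 h2
      omega
    · left
      have h3 := card_diff (vir_B c4.vir) hb2 hb2' h2
      omega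

end SYS.LO
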