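import Pool.Agent.SYS.LO.IslA

/-!
# SYS-LO-Uni: a new island which is disjoint from the region

`S1` is an island explored alone (`Isl [w] S1 [x]`), disjoint from `S`; then `S` and `S1` together are explored by the same word.

PLAN.
* `exists_dj`: `a := S0.a * S1.a`, `f := S0.f * S1.f` (disjoint supports: off `S.R` both are the identity: `Part.af`; `S.R` is invariant under `S.a`, `S.f`: `mem_R_a`, `mem_R_f`).
* `dj_st`: `St S1 x s S1' z`, `Dj S0 S1 S2`, `S1'.R` disjoint from `S0.R`: there is `S2'` with `Dj S0 S1' S2'` and `St S2 x s S2' z`.  `T`: the new darts `t0, t1, t2` are in `S1'.R`, so not in `S0.R`: `dj_face` (`Lib/PtwA`).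
  `R k a` (and `L`): `Dj S0 G1 G2` for `G1 := S1.glue x y`, `G2 := S2.glue x y` (`dj_glue`), `S2.hw x = S1.hw x` (`dj_hw`).  `DiscFill`: `u = []`: done.  `u ≠ []`: `FillBy G1 S1' {d | d ∈ u} a V`; take `S2'` from `exists_dj` for `S0`, `S1'`;
  `FillBy G2 S2' {d | d ∈ u} a V`: `sub`, `B` (`G2.B = S0.B ∪ G1.B`, `u` is disjoint from `S0.B`), `R` (cardinalities of disjoint unions), `conn` (`S2'.R \ G2.R = S1'.R \ G1.R`, on this set and on `u` the maps `a`, `f`, `nx` of `S2'`,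
  `G2` are those of `S1'`, `G1`), `inn`: `inn` is additive for `Dj`: `dj_inn`: the cycles of `S2.s` which meet `S2.R` and not `S2.B` are those of `S0.s` and of `S1.s` (`dj_same`, and `S2.s = S1.s` on `S1.R`); for a short proof use
  `Part.inn_eq` (`inn + ncycOn s B = ncycOn s R`) and the additivity of `ncycOn` over the disjoint invariant sets.
* `isl_union`: `Isl [w] S1 [x]` means: `t0 t1 t2`, `Rch (lrule 3) [] (emp.newTri ..) t0 w S1 x`.  `Dj S emp S` (`dj_emp`), `dj_newTri`: `Dj S (emp.newTri ..) (S.newTri ..)`.  Induction on the word (generalize the history and the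
  region) with `dj_st` (`Rch`: the intermediate regions are `≤ S1`: `rch_sub`, so they are disjoint from `S.R`), the gates agree: `S₂.nx = S₁.nx` on `S₁.B` (`dj_hw`/`dj_nx`; private in PtwA, see `dj_hw`).  `S'.Le T` from `Dj` and both `Le`.
* `isl_one`: `Typ` of `isl_typ` for `[w]`: `HL [x]`, `per`; `Con`: one boundary component and `tc` (every revealed dart is connected to a boundary dart; all boundary darts are in one hole: `cn_of_same`), or `con_newTri`, `con_..` (`Lib`);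
  `x ∈ S.B`.
-/

namespace SYS.LO

open Classical SST

section aux

variable {D : Type} {S0 S1 S2 : Part D}

private theorem un_symm (h : Part.Dj S0 S1 S2) : Part.Dj S1 S0 S2 where
  disj := fun d hd hd' => h.disj d hd' hd
  R := by rw [h.R, Set.union_comm]
  B := by rw [h.B, Set.union_comm]
  sub0 := h.sub1
  sub1 := h.sub0

private theorem un_R (h : Part.Dj S0 S1 S2) {d : D} : d ∈ S2.R ↔ d ∈ S0.R ∨ d ∈ S1.R := by
  rw [h.R]
  rfl

private theorem un_B (h : Part.Dj S0 S1 S2) {d : D} : d ∈ S2.B ↔ d ∈ S0.B ∨ d ∈ S1.B := by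
  rw [h.B]
  rfl

private theorem un_B1 (h : Part.Dj S0 S1 S2) {d : D} (hd : d ∈ S1.R) : d ∈ S2.B ↔ d ∈ S1.B := by
  rw [un_B h]
  exact ⟨fun h' => h'.elim (fun h0 => absurd hd (h.disj d (Part.B_sub_R S0 h0))) id, Or.inr⟩

private theorem un_a1 (h : Part.Dj S0 S1 S2) {d : D} (hd : d ∈ S1.R) : S2.a d = S1.a d := by
  by_cases h1 : S1.a d = d
  · have h2 : d ∈ S2.B := (un_B h).2 (Or.inr ⟨hd, h1⟩)
    rw [h1, h2.2]
  · exact h.sub1.2 d h1

private theorem un_f1 (h : Part.Dj S0 S1 S2) {d : D} (hd : d ∈ S1.R) : S2.f d = S1.f d := h.sub1.1 d hd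

private theorem un_s1 (h : Part.Dj S0 S1 S2) {d : D} (hd : d ∈ S1.R) : S2.s d = S1.s d := by
  rw [Part.s_apply, Part.s_apply, un_a1 h hd, un_f1 h ((Part.mem_R_a S1 d).2 hd)]

private theorem un_pow1 (h : Part.Dj S0 S1 S2) {d : D} (hd : d ∈ S1.R) (n : ℕ) :
    (S2.s ^ n) d = (S1.s ^ n) d ∧ (S1.s ^ n) d ∈ S1.R := by
  induction n with
  | zero => exact ⟨rfl, hd⟩
  | succ n ih =>
    rw [pow_succ', Equiv.Perm.mul_apply, pow_succ', Equiv.Perm.mul_apply, ih.1, un_s1 h ih.2]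
    exact ⟨rfl, (Part.mem_R_s S1 _).2 ih.2⟩

private theorem un_le {T : Tri D} (h : Part.Dj S0 S1 S2) (h0 : S0.Le T) (h1 : S1.Le T) : S2.Le T := by
  refine ⟨fun d hd => ?_, fun d hd => ?_⟩
  · have hR : d ∈ S2.R := hd
    rcases (un_R h).1 hR with h2 | h2
    · rw [un_f1 (un_symm h) h2]
      exact h0.1 d h2
    · rw [un_f1 h h2]
      exact h1.1 d h2
  · have hR : d ∈ S2.R := fun h2 => hd (S2.af d h2)
    rcases (un_R h).1 hR with h2 | h2
    · rw [un_a1 (un_symm h) h2] at hd ⊢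
      exact h0.2 d hd
    · rw [un_a1 h h2] at hd ⊢
      exact h1.2 d hd

variable [Finite D]

private theorem un_sc1 (h : Part.Dj S0 S1 S2) {d : D} (hd : d ∈ S1.R) (e : D) :
    S2.s.SameCycle d e ↔ S1.s.SameCycle d e := by
  constructor
  · intro h1
    obtain ⟨n, hn⟩ := h1.exists_nat_pow_eq
    exact ⟨(n : ℤ), by rw [zpow_natCast, ← (un_pow1 h hd n).1, hn]⟩
  · intro h1
    obtain ⟨n, hn⟩ := h1.exists_nat_pow_eq
    exact ⟨(n : ℤ), by rw [zpow_natCast, (un_pow1 h hd n).1, hn]⟩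

private theorem un_nx1 (h : Part.Dj S0 S1 S2) {d : D} (hd : d ∈ S1.B) : S2.nx d = S1.nx d := by
  have hdR := Part.B_sub_R S1 hd
  obtain ⟨j, e1, e2, e3⟩ := ret_spec S1.s hd
  have e4 : S1.nx d = (S1.s ^ (j + 1)) d := e1
  have e5 := ret_eq S2.s (X := S2.B) (d := d) (j := j) ((un_B1 h hdR).2 hd)
    (by
      rw [(un_pow1 h hdR (j + 1)).1, un_B1 h (un_pow1 h hdR (j + 1)).2, ← e1]
      exact e2)
    (by
      intro i hi
      rw [(un_pow1 h hdR (i + 1)).1, un_B1 h (un_pow1 h hdR (i + 1)).2]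
      exact e3 i hi)
  rw [(un_pow1 h hdR (j + 1)).1, ← e4] at e5
  exact e5

private theorem un_npow (h : Part.Dj S0 S1 S2) {x : D} (hx : x ∈ S1.B) (i : ℕ) :
    (S2.nx ^ i) x = (S1.nx ^ i) x ∧ (S1.nx ^ i) x ∈ S1.B := by
  induction i with
  | zero => exact ⟨rfl, hx⟩
  | succ i ih =>
    rw [pow_succ', Equiv.Perm.mul_apply, pow_succ', Equiv.Perm.mul_apply, ih.1, un_nx1 h ih.2]
    exact ⟨rfl, (Part.nx_mem S1).2 ih.2⟩

omit [Finite D] in
private theorem un_ncard {A B : Type} (f : D → A) (g : D → B) (X : Set D)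
    (h : ∀ d ∈ X, ∀ e ∈ X, f d = f e ↔ g d = g e) : (f '' X).ncard = (g '' X).ncard := by
  refine Set.ncard_congr (fun a ha => g ha.choose) ?_ ?_ ?_
  · intro a ha
    exact ⟨ha.choose, ha.choose_spec.1, rfl⟩
  · intro a b ha hb hab
    have h1 := (h _ ha.choose_spec.1 _ hb.choose_spec.1).2 hab
    rw [ha.choose_spec.2, hb.choose_spec.2] at h1
    exact h1
  · rintro _ ⟨d, hd, rfl⟩
    have ha : f d ∈ f '' X := ⟨d, hd, rfl⟩
    exact ⟨f d, ha, (h _ ha.choose_spec.1 _ hd).1 ha.choose_spec.2⟩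

omit [Finite D] in
private theorem un_mk (σ : Equiv.Perm D) (d e : D) :
    (Quotient.mk (Equiv.Perm.SameCycle.setoid σ) d =
      Quotient.mk (Equiv.Perm.SameCycle.setoid σ) e) ↔ σ.SameCycle d e :=
  ⟨fun h => Quotient.exact h, fun h => Quotient.sound h⟩

private theorem un_cyc {σ τ : Equiv.Perm D} {X : Set D}
    (h : ∀ d ∈ X, ∀ e ∈ X, τ.SameCycle d e ↔ σ.SameCycle d e) : ncycOn τ X = ncycOn σ X := by
  refine un_ncard (Quotient.mk (Equiv.Perm.SameCycle.setoid τ))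
    (Quotient.mk (Equiv.Perm.SameCycle.setoid σ)) X fun d hd e he => ?_
  rw [un_mk, un_mk]
  exact h d hd e he

private theorem un_ncyc {σ : Equiv.Perm D} {X Y : Set D}
    (hXY : ∀ d ∈ X, ∀ e ∈ Y, ¬ σ.SameCycle d e) : ncycOn σ (X ∪ Y) = ncycOn σ X + ncycOn σ Y := by
  unfold ncycOn
  have h1 : {q : Quotient (Equiv.Perm.SameCycle.setoid σ) | ∃ d ∈ X ∪ Y, Quotient.mk _ d = q} =
      {q | ∃ d ∈ X, Quotient.mk _ d = q} ∪ {q | ∃ d ∈ Y, Quotient.mk _ d = q} := by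
    ext q
    constructor
    · rintro ⟨d, hd | hd, rfl⟩
      · exact Or.inl ⟨d, hd, rfl⟩
      · exact Or.inr ⟨d, hd, rfl⟩
    · rintro (⟨d, hd, rfl⟩ | ⟨d, hd, rfl⟩)
      · exact ⟨d, Or.inl hd, rfl⟩
      · exact ⟨d, Or.inr hd, rfl⟩
  rw [h1]
  refine Set.ncard_union_eq ?_ (Set.toFinite _) (Set.toFinite _)
  rw [Set.disjoint_left]
  rintro q ⟨a, ha, rfl⟩ ⟨b, hb, hab⟩
  have h2 : σ.SameCycle b a := Quotient.exact hab
  exact hXY a ha b hb h2.symm

end aux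

theorem exists_dj {D : Type} [Finite D] {S0 S1 : Part D} (h : ∀ d ∈ S0.R, d ∉ S1.R) : ∃ S2 : Part D, Part.Dj S0 S1 S2 := by
  have f0 : ∀ d, d ∉ S0.R → S0.f d = d := fun d hd => not_not.1 hd
  have a0 : ∀ d, d ∉ S0.R → S0.a d = d := fun d hd => S0.af d (f0 d hd)
  have f1 : ∀ d, d ∉ S1.R → S1.f d = d := fun d hd => not_not.1 hd
  have a1 : ∀ d, d ∉ S1.R → S1.a d = d := fun d hd => S1.af d (f1 d hd)
  have h' : ∀ d ∈ S1.R, d ∉ S0.R := fun d hd hd' => h d hd' hd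
  have A1 : ∀ d ∈ S1.R, (S0.a * S1.a) d = S1.a d := by
    intro d hd
    rw [Equiv.Perm.mul_apply]
    exact a0 _ (h' _ ((Part.mem_R_a S1 d).2 hd))
  have F1 : ∀ d ∈ S1.R, (S0.f * S1.f) d = S1.f d := by
    intro d hd
    rw [Equiv.Perm.mul_apply]
    exact f0 _ (h' _ ((Part.mem_R_f S1 d).2 hd))
  have A0 : ∀ d, d ∉ S1.R → (S0.a * S1.a) d = S0.a d := by
    intro d hd
    rw [Equiv.Perm.mul_apply, a1 d hd]
  have F0 : ∀ d, d ∉ S1.R → (S0.f * S1.f) d = S0.f d := by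
    intro d hd
    rw [Equiv.Perm.mul_apply, f1 d hd]
  have n0 : ∀ d, d ∉ S1.R → S0.a d ∉ S1.R := by
    intro d hd
    by_cases h0 : d ∈ S0.R
    · exact h _ ((Part.mem_R_a S0 d).2 h0)
    · rw [a0 d h0]
      exact hd
  have m0 : ∀ d, d ∉ S1.R → S0.f d ∉ S1.R := by
    intro d hd
    by_cases h0 : d ∈ S0.R
    · exact h _ ((Part.mem_R_f S0 d).2 h0)
    · rw [f0 d h0]
      exact hd
  let S2 : Part D :=
    { a := S0.a * S1.a
      f := S0.f * S1.f
      aa := by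
        intro d
        by_cases hd : d ∈ S1.R
        · rw [A1 d hd, A1 _ ((Part.mem_R_a S1 d).2 hd), S1.aa]
        · rw [A0 d hd, A0 _ (n0 d hd), S0.aa]
      fff := by
        intro d
        by_cases hd : d ∈ S1.R
        · have h1 := (Part.mem_R_f S1 d).2 hd
          rw [F1 d hd, F1 _ h1, F1 _ ((Part.mem_R_f S1 _).2 h1), S1.fff]
        · rw [F0 d hd, F0 _ (m0 d hd), F0 _ (m0 _ (m0 d hd)), S0.fff]
      af := by
        intro d hd
        by_cases h1 : d ∈ S1.R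
        · rw [F1 d h1] at hd
          exact absurd hd h1
        · rw [F0 d h1] at hd
          rw [A0 d h1]
          exact S0.af d hd }
  have e1 : ∀ d ∈ S1.R, S2.a d = S1.a d ∧ S2.f d = S1.f d := fun d hd => ⟨A1 d hd, F1 d hd⟩
  have e0 : ∀ d, d ∉ S1.R → S2.a d = S0.a d ∧ S2.f d = S0.f d := fun d hd => ⟨A0 d hd, F0 d hd⟩
  refine ⟨S2, h, ?_, ?_, ⟨fun d hd => ?_, fun d hd => ?_⟩, ⟨fun d hd => ?_, fun d hd => ?_⟩⟩
  · ext d
    by_cases hd : d ∈ S1.R
    · refine ⟨fun _ => Or.inr hd, fun _ => ?_⟩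
      show S2.f d ≠ d
      rw [(e1 d hd).2]
      exact hd
    · constructor
      · intro h2
        have h3 : S2.f d ≠ d := h2
        rw [(e0 d hd).2] at h3
        exact Or.inl h3
      · rintro (h2 | h2)
        · show S2.f d ≠ d
          rw [(e0 d hd).2]
          exact h2
        · exact absurd h2 hd
  · ext d
    by_cases hd : d ∈ S1.R
    · constructor
      · rintro ⟨-, h3⟩
        rw [(e1 d hd).1] at h3
        exact Or.inr ⟨hd, h3⟩
      · rintro (h2 | h2)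
        · exact absurd hd (h d h2.1)
        · refine ⟨?_, ?_⟩
          · rw [(e1 d hd).2]
            exact hd
          · rw [(e1 d hd).1]
            exact h2.2
    · constructor
      · rintro ⟨h2, h3⟩
        rw [(e0 d hd).2] at h2
        rw [(e0 d hd).1] at h3
        exact Or.inl ⟨h2, h3⟩
      · rintro (h2 | h2)
        · refine ⟨?_, ?_⟩
          · rw [(e0 d hd).2]
            exact h2.1
          · rw [(e0 d hd).1]
            exact h2.2
        · exact absurd h2.1 hd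
  · exact (e0 d (h d hd)).2
  · have hR : d ∈ S0.R := fun h2 => hd (S0.af d h2)
    exact (e0 d (h d hR)).1
  · exact (e1 d hd).2
  · have hR : d ∈ S1.R := fun h2 => hd (S1.af d h2)
    exact (e1 d hR).1

theorem dj_inn {D : Type} [Finite D] {S0 S1 S2 : Part D} (h : Part.Dj S0 S1 S2) : S2.inn = S0.inn + S1.inn := by
  have h0 := Part.inn_eq S0
  have h1 := Part.inn_eq S1
  have h2 := Part.inn_eq S2
  have hR : ncycOn S2.s S2.R = ncycOn S0.s S0.R + ncycOn S1.s S1.R := by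
    rw [h.R, un_ncyc fun d hd e he => Part.dj_same h hd he,
      un_cyc (σ := S0.s) fun d hd e _ => un_sc1 (un_symm h) hd e, un_cyc (σ := S1.s) fun d hd e _ => un_sc1 h hd e]
  have hB : ncycOn S2.s S2.B = ncycOn S0.s S0.B + ncycOn S1.s S1.B := by
    rw [h.B, un_ncyc fun d hd e he => Part.dj_same h (Part.B_sub_R S0 hd) (Part.B_sub_R S1 he),
      un_cyc (σ := S0.s) fun d hd e _ => un_sc1 (un_symm h) (Part.B_sub_R S0 hd) e,
      un_cyc (σ := S1.s) fun d hd e _ => un_sc1 h (Part.B_sub_R S1 hd) e]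
  omega

private theorem un_fill {D : Type} [Finite D] {S0 G1 G2 S1' S2' : Part D} {H : Set D} {a V : ℕ} (hG : Part.Dj S0 G1 G2)
    (hD : Part.Dj S0 S1' S2') (hH : H ⊆ G1.B) (hf : G1.FillBy S1' H a V) : G2.FillBy S2' H a V := by
  have hG' := un_symm hG
  have hD' := un_symm hD
  have hsub := hf.sub
  have hRs : ∀ d ∈ G1.R, d ∈ S1'.R := fun d hd => hsub.R_sub hd
  have hW : S2'.R \ G2.R = S1'.R \ G1.R := by
    ext d
    constructor
    · rintro ⟨h1, h2⟩
      rcases (un_R hD).1 h1 with h3 | h3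
      · exact absurd ((un_R hG).2 (Or.inl h3)) h2
      · exact ⟨h3, fun h4 => h2 ((un_R hG).2 (Or.inr h4))⟩
    · rintro ⟨h1, h2⟩
      refine ⟨(un_R hD).2 (Or.inr h1), fun h3 => ?_⟩
      rcases (un_R hG).1 h3 with h4 | h4
      · exact hD.disj d h4 h1
      · exact h2 h4
  have hcard : ∀ {A B C : Part D}, Part.Dj A B C → C.R.ncard = A.R.ncard + B.R.ncard := by
    intro A B C hABC
    rw [hABC.R, Set.ncard_union_eq _ (Set.toFinite _) (Set.toFinite _)]
    rw [Set.disjoint_left]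
    exact fun d hd hd' => hABC.disj d hd hd'
  refine ⟨⟨fun d hd => ?_, fun d hd => ?_⟩, ?_, ?_, ?_, ?_⟩
  · rcases (un_R hG).1 hd with h1 | h1
    · rw [un_f1 hG' h1, un_f1 hD' h1]
    · rw [un_f1 hG h1, un_f1 hD (hRs d h1)]
      exact hsub.1 d h1
  · have hR : d ∈ G2.R := fun h2 => hd (G2.af d h2)
    rcases (un_R hG).1 hR with h1 | h1
    · rw [un_a1 hG' h1, un_a1 hD' h1]
    · rw [un_a1 hG h1] at hd ⊢
      rw [un_a1 hD (hRs d h1)]
      exact hsub.2 d hd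
  · rw [hD.B, hf.B, hG.B]
    ext d
    constructor
    · rintro (h1 | h1)
      · exact ⟨Or.inl h1, fun h2 => hG.disj d (Part.B_sub_R S0 h1) (Part.B_sub_R G1 (hH h2))⟩
      · exact ⟨Or.inr h1.1, h1.2⟩
    · rintro ⟨h1 | h1, h2⟩
      · exact Or.inl h1
      · exact Or.inr ⟨h1, h2⟩
  · have h1 := hf.R
    have h2 := hcard hD
    have h3 := hcard hG
    omega
  · rw [dj_inn hD, dj_inn hG, hf.inn]
    ring
  · rw [hW]
    intro Z hZ hne hcl
    refine hf.conn Z hZ hne fun d hd => ?_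
    have hdR : d ∈ S1'.R := by
      rcases hZ hd with h1 | h1
      · exact h1.1
      · exact hRs d (Part.B_sub_R G1 (hH h1))
    obtain ⟨h1, h2, h3⟩ := hcl d hd
    rw [un_a1 hD hdR] at h1
    rw [un_f1 hD hdR] at h2
    refine ⟨h1, fun h4 => h2 fun h5 => ?_, fun h4 => ?_⟩
    · rcases (un_R hG).1 h5 with h6 | h6
      · exact hD.disj d h6 hdR
      · exact h4 h6
    · have h5 := h3 ((un_B hG).2 (Or.inr h4))
      rwa [un_nx1 hG h4] at h5

theorem dj_st {D : Type} [Finite D] {S0 S1 S2 S1' : Part D} (h : Part.Dj S0 S1 S2) {x z : D} {s : Stp} (hs : S1.St x s S1' z)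
    (hd : ∀ d ∈ S0.R, d ∉ S1'.R) : ∃ S2' : Part D, Part.Dj S0 S1' S2' ∧ S2.St x s S2' z := by
  cases s with
  | T =>
    obtain ⟨t0, t1, t2, hx, h0, h1, h2, h01, h12, h20, hS', hz⟩ := hs
    have hR : S1'.R = S1.R ∪ {t0, t1, t2} := by rw [hS', Part.face_R]
    have hn : ∀ t, t = t0 ∨ t = t1 ∨ t = t2 → t ∉ S1.R → t ∉ S2.R := by
      intro t ht ht1 ht2
      rcases (un_R h).1 ht2 with h3 | h3
      · refine hd t h3 ?_
        rw [hR]
        exact Or.inr ht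
      · exact ht1 h3
    have hx' : x ∈ S2.B := (un_B h).2 (Or.inr hx)
    have h0' := hn t0 (Or.inl rfl) h0
    have h1' := hn t1 (Or.inr (Or.inl rfl)) h1
    have h2' := hn t2 (Or.inr (Or.inr rfl)) h2
    refine ⟨S2.face x t0 t1 t2 hx' h0' h1' h2' h01 h12 h20, ?_, t0, t1, t2, hx', h0', h1', h2', h01, h12, h20, rfl, hz⟩
    rw [hS']
    exact Part.dj_face h hx hx' h0 h1 h2 h0' h1' h2' h01 h12 h20
  | L k a =>
    obtain ⟨y, u, v, w, hx, hy, hw, hk, hu, hdf⟩ := hs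
    have hx' : x ∈ S2.B := (un_B h).2 (Or.inr hx)
    have hy' : y ∈ S2.B := (un_B h).2 (Or.inr hy)
    have hxy : x ≠ y := ne_of_word hx hw
    have hG := Part.dj_glue h hx hx' hy hy' hxy
    have hw' : S2.hw x = x :: (u ++ y :: v) := by rw [Part.dj_hw h hx, hw]
    rcases hdf with ⟨h1, h2, h3⟩ | ⟨h1, V, hV, hf⟩
    · refine ⟨S2.glue x y hx' hy', ?_, y, u, v, w, hx', hy', hw', hk, hu, Or.inl ⟨h1, h2, rfl⟩⟩
      rw [h3]
      exact hG
    · obtain ⟨S2', hD⟩ := exists_dj hd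
      refine ⟨S2', hD, y, u, v, w, hx', hy', hw', hk, hu, Or.inr ⟨h1, V, hV, ?_⟩⟩
      exact un_fill hG hD (fun d hd' => mem_glue_B hx hy hw (Or.inr hd')) hf
  | R k a =>
    obtain ⟨y, u, v, w, hx, hy, hw, hk, hv, hdf⟩ := hs
    have hx' : x ∈ S2.B := (un_B h).2 (Or.inr hx)
    have hy' : y ∈ S2.B := (un_B h).2 (Or.inr hy)
    have hxy : x ≠ y := ne_of_word hx hw
    have hG := Part.dj_glue h hx hx' hy hy' hxy
    have hw' : S2.hw x = x :: (u ++ y :: v) := by rw [Part.dj_hw h hx, hw]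
    rcases hdf with ⟨h1, h2, h3⟩ | ⟨h1, V, hV, hf⟩
    · refine ⟨S2.glue x y hx' hy', ?_, y, u, v, w, hx', hy', hw', hk, hv, Or.inl ⟨h1, h2, rfl⟩⟩
      rw [h3]
      exact hG
    · obtain ⟨S2', hD⟩ := exists_dj hd
      refine ⟨S2', hD, y, u, v, w, hx', hy', hw', hk, hv, Or.inr ⟨h1, V, hV, ?_⟩⟩
      exact un_fill hG hD (fun d hd' => mem_glue_B hx hy hw (Or.inl hd')) hf

private theorem dj_rch {D : Type} [Finite D] {ρ : List Stp → ℕ} {S0 : Part D} (w : List Stp) :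
    ∀ {S1 S2 S1' : Part D} {hh : List Stp} {x x' : D}, Part.Dj S0 S1 S2 → Part.Rch ρ hh S1 x w S1' x' →
    (∀ d ∈ S0.R, d ∉ S1'.R) → ∃ S2' : Part D, Part.Dj S0 S1' S2' ∧ Part.Rch ρ hh S2 x w S2' x' := by
  induction w with
  | nil =>
    rintro S1 S2 S1' hh x x' h ⟨rfl, rfl⟩ hd
    exact ⟨S2, h, rfl, rfl⟩
  | cons s w ih =>
    rintro S1 S2 S1' hh x x' h ⟨S₁, z, hs, hr⟩ hd
    have hsub := Part.rch_sub hr
    obtain ⟨S₂, hD, hs2⟩ := dj_st h hs fun d hd' hd1 => hd d hd' (hsub.R_sub hd1)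
    obtain ⟨S2', hD', hr'⟩ := ih hD hr hd
    refine ⟨S2', hD', S₂, z, hs2, ?_⟩
    have hz : z ∈ S₁.B := (Part.st_sub hs).2.2
    rw [(un_npow hD hz _).1]
    exact hr'

variable {n : ℕ}

theorem isl_union (hn : 1 ≤ n) {T : Tri (Fin (6 * n))} {ws : List (List Stp)} {S S1 : Part (Fin (6 * n))} {xs : List (Fin (6 * n))}
    {w : List Stp} {x : Fin (6 * n)} (h : Isl ws S xs) (h1 : Isl [w] S1 [x]) (hL : S.Le T) (hL1 : S1.Le T)
    (hd : ∀ d ∈ S.R, d ∉ S1.R) : ∃ S' : Part (Fin (6 * n)), Part.Dj S S1 S' ∧ Isl (w :: ws) S' (x :: xs) ∧ S'.Le T := by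
  cases h1 with
  | @cons _ Se _ _ t0 t1 t2 _ _ he h0 h1 h2 h01 h12 h20 hr =>
    cases he
    have hsub := Part.rch_sub hr
    have hn' : ∀ t, t = t0 ∨ t = t1 ∨ t = t2 → t ∉ S.R := by
      intro t ht ht1
      refine hd t ht1 (hsub.R_sub ?_)
      rw [Part.newTri_R]
      exact Or.inr ht
    have h0' := hn' t0 (Or.inl rfl)
    have h1' := hn' t1 (Or.inr (Or.inl rfl))
    have h2' := hn' t2 (Or.inr (Or.inr rfl))
    have hD := Part.dj_newTri (Part.dj_emp S) h0 h1 h2 h0' h1' h2' h01 h12 h20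
    obtain ⟨S', hD', hr'⟩ := dj_rch w hD hr hd
    exact ⟨S', hD', Isl.cons h h0' h1' h2' h01 h12 h20 hr', un_le hD' hL hL1⟩

theorem isl_one (hn : 1 ≤ n) {S : Part (Fin (6 * n))} {w : List Stp} {x : Fin (6 * n)} (h : Isl [w] S [x]) :
    x ∈ S.B ∧ (∀ b ∈ S.B, S.s.SameCycle x b) ∧ S.per x = wend 3 w ∧ S.Con ∧ S.R.ncard = 3 * (1 + wvol w) := by
  obtain ⟨hv, hS, -⟩ := isl_typ hn h
  have hvT : vT [w] = 1 + wvol w := by
    unfold vT
    simp
  have hx : x ∈ S.B := hS.hl.1 x List.mem_cons_self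
  have hone : ∀ b ∈ S.B, S.s.SameCycle x b := by
    intro b hb
    obtain ⟨e, he, heb⟩ := hS.hl.2.2 b hb
    rw [List.mem_singleton.1 he] at heb
    exact heb
  refine ⟨hx, hone, ?_, ?_, ?_⟩
  · have h1 := hS.per
    exact (List.cons.inj h1).1
  · intro d hd e he
    obtain ⟨b, hb, hdb⟩ := hS.tc d hd
    obtain ⟨b', hb', heb⟩ := hS.tc e he
    have h1 : S.Cn b b' := Part.cn_of_same ((hone b hb).symm.trans (hone b' hb'))
    exact Part.cn_trans hdb (Part.cn_trans h1 (Part.cn_symm heb))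
  · have h1 := hS.vol
    rw [Nat.card_fin] at h1
    omega

end SYS.LO
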