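import Pool.Agent.SYS.LO.Kept

/-!
# SYS-LO-Wlk: walks inside a cell and along the parents
-/

namespace SYS.LO

open Classical SST

variable {D : Type} [Finite D] {T : Tri D} {r : ℕ} {cell : D → Part D} {bl : D → Bool} {r0 : D} {lev : D → ℕ} {P E : D → D}

private theorem wlk_cn {G : Type} [Group G] {l : D → G} (hl : Flat T l) {S : Part D} (hS : S.Le T) {x y : D} (h : S.Cn x y) :
    (x ∈ S.R ↔ y ∈ S.R) ∧ (x ∈ S.R → ∃ c c' : List D, T.IsWalk (T.tl x) c (T.tl y) ∧ T.IsWalk (T.tl y) c' (T.tl x) ∧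
      hol l c' = (hol l c)⁻¹ ∧ (∀ z ∈ c, z ∈ S.R) ∧ ∀ z ∈ c', z ∈ S.R) := by
  unfold Part.Cn at h
  induction h with
  | rel x y hxy =>
    rcases hxy with hxy | hxy
    · have h1 : x ∈ S.R ↔ y ∈ S.R := by rw [hxy, Part.mem_R_a]
      refine ⟨h1, fun hx => ?_⟩
      by_cases ha : S.a x = x
      · rw [ha] at hxy
        subst hxy
        refine ⟨[], [], rfl, rfl, ?_, ?_, ?_⟩
        · rw [hol_nil, inv_one]
        · intro z hz
          exact absurd hz List.not_mem_nil
        · intro z hz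
          exact absurd hz List.not_mem_nil
      · have h2 : T.a x = S.a x := hS.2 x ha
        rw [← h2] at hxy
        subst hxy
        refine ⟨[x], [T.a x], Tri.walk_single T x, ?_, ?_, ?_, ?_⟩
        · have h3 := Tri.walk_single T (T.a x)
          rwa [Tri.hd_a] at h3
        · rw [hol_cons, hol_cons, hol_nil, mul_one, mul_one, hl.inv]
        · intro z hz
          rw [List.mem_singleton] at hz
          rw [hz]
          exact hx
        · intro z hz
          rw [List.mem_singleton] at hz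
          rw [hz]
          exact h1.1 hx
    · have h1 : x ∈ S.R ↔ y ∈ S.R := by rw [hxy, Part.mem_R_f]
      refine ⟨h1, fun hx => ?_⟩
      have h2 : T.f x = S.f x := hS.1 x hx
      rw [← h2] at hxy
      subst hxy
      refine ⟨[x], [T.f x, T.f (T.f x)], ?_, ?_, ?_, ?_, ?_⟩
      · have h3 := Tri.walk_single T x
        rwa [← Tri.tl_f] at h3
      · refine ⟨rfl, ?_, ?_⟩
        · rw [Tri.tl_f]
        · show T.hd (T.f (T.f x)) = T.tl x
          rw [Tri.hd_ff]
      · rw [hol_cons, hol_cons, hol_cons, hol_nil, mul_one, mul_one]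
        have h3 := hl.face x
        rw [mul_assoc] at h3
        exact eq_inv_of_mul_eq_one_right h3
      · intro z hz
        rw [List.mem_singleton] at hz
        rw [hz]
        exact hx
      · intro z hz
        rw [List.mem_cons, List.mem_singleton] at hz
        rcases hz with hz | hz
        · rw [hz]
          exact h1.1 hx
        · rw [hz, Part.le_f_mem hS]
          exact h1.1 hx
  | refl x =>
    refine ⟨Iff.rfl, fun _ => ⟨[], [], rfl, rfl, ?_, ?_, ?_⟩⟩
    · rw [hol_nil, inv_one]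
    · intro z hz
      exact absurd hz List.not_mem_nil
    · intro z hz
      exact absurd hz List.not_mem_nil
  | symm x y _ ih =>
    refine ⟨ih.1.symm, fun hy => ?_⟩
    obtain ⟨c, c', h1, h2, h3, h4, h5⟩ := ih.2 (ih.1.2 hy)
    exact ⟨c', c, h2, h1, by rw [h3, inv_inv], h5, h4⟩
  | trans x y z _ _ ih1 ih2 =>
    refine ⟨ih1.1.trans ih2.1, fun hx => ?_⟩
    obtain ⟨c, c', h1, h2, h3, h4, h5⟩ := ih1.2 hx
    obtain ⟨d, d', k1, k2, k3, k4, k5⟩ := ih2.2 (ih1.1.1 hx)
    refine ⟨c ++ d, d' ++ c', Tri.walk_append T h1 k1, Tri.walk_append T k2 h2, ?_, ?_, ?_⟩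
    · rw [hol_append, hol_append, h3, k3, mul_inv_rev]
    · intro w hw
      rcases List.mem_append.1 hw with hw | hw
      · exact h4 w hw
      · exact k4 w hw
    · intro w hw
      rcases List.mem_append.1 hw with hw | hw
      · exact k5 w hw
      · exact h5 w hw

theorem cell_walk {G : Type} [Group G] {l : D → G} (hT : T.Conn) (hl : Flat T l) (hs : CSys T r cell bl) {d e : D} (he : e ∈ (cell d).R) :
    ∃ c c' : List D, T.IsWalk (T.tl e) c (T.tl d) ∧ T.IsWalk (T.tl d) c' (T.tl e) ∧ hol l c' = (hol l c)⁻¹ ∧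
      (∀ z ∈ c, z ∈ (cell d).R) ∧ ∀ z ∈ c', z ∈ (cell d).R := by
  obtain ⟨hle, hcon, _⟩ := cell_info hT (hs.ok d)
  exact (wlk_cn hl hle (hcon e he d (hs.mem d))).2 he

theorem exists_A {G : Type} [Group G] {l : D → G} (hT : T.Conn) (hl : Flat T l) (hs : CSys T r cell bl)
    (ht : Tree T cell r0 lev P E) (d : D) : ∃ A A' : List D, T.IsWalk (T.tl r0) A (T.tl d) ∧ T.IsWalk (T.tl d) A' (T.tl r0) ∧
      hol l A' = (hol l A)⁻¹ ∧ ∀ Z : Set D, (∀ e ∈ Z, ∀ f ∈ (cell e).R, f ∈ Z) → (∀ e ∈ Z, lev e ≠ 0 → P e ∈ Z) → d ∈ Z →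
        (∀ e ∈ A, e ∈ Z) ∧ ∀ e ∈ A', e ∈ Z := by
  obtain ⟨n, hn⟩ : ∃ n, lev d = n := ⟨_, rfl⟩
  induction n using Nat.strong_induction_on generalizing d with
  | _ n ih =>
    by_cases h0 : lev d = 0
    · have h1 := (ht.zero d).1 h0
      have h2 : cell d = cell r0 := hs.eq r0 d h1
      have h3 : r0 ∈ (cell d).R := by
        rw [h2]
        exact hs.mem r0
      obtain ⟨c, c', k1, k2, k3, k4, k5⟩ := cell_walk hT hl hs h3
      refine ⟨c, c', k1, k2, k3, fun Z hZ _ hd => ⟨fun e he => ?_, fun e he => ?_⟩⟩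
      · exact hZ d hd e (k4 e he)
      · exact hZ d hd e (k5 e he)
    · obtain ⟨p1, p2, p3⟩ := ht.par d h0
      obtain ⟨A, A', a1, a2, a3, a4⟩ := ih (lev (P d)) (by omega) (P d) rfl
      obtain ⟨c, c', k1, k2, k3, k4, k5⟩ := cell_walk hT hl hs p2
      rw [← p3] at k1 k2
      refine ⟨A ++ c, c' ++ A', Tri.walk_append T a1 k1, Tri.walk_append T k2 a2, ?_, fun Z hZ hP hd => ?_⟩
      · rw [hol_append, hol_append, a3, k3, mul_inv_rev]
      · obtain ⟨b1, b2⟩ := a4 Z hZ hP (hP d hd h0)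
        refine ⟨fun e he => ?_, fun e he => ?_⟩
        · rcases List.mem_append.1 he with he | he
          · exact b1 e he
          · exact hZ d hd e (k4 e he)
        · rcases List.mem_append.1 he with he | he
          · exact hZ d hd e (k5 e he)
          · exact b2 e he

end SYS.LO
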